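import Pool.Agent.MP_c7a479_co.Defs

section

/-! Definitions for the exponent `1 / 11`: designs in covering form and the sieve quantities. -/

namespace Pool.Agent.MP_c7a479_co.Ex

open Finset
open scoped Classical

noncomputable section

/-- Transversal design in covering form: rows `ι`, symbols `α`, at most `|α| ^ 2` blocks. -/
def Td (ι α : Type) [Fintype α] : Prop :=
  ∃ (X : Type) (_ : Fintype X) (b : X → ι → α), Fintype.card X ≤ Fintype.card α ^ 2 ∧
    ∀ i j, i ≠ j → ∀ x y, ∃ c, b c i = x ∧ b c j = y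

/-- Incomplete transversal design in covering form: old symbols `M`, hole `H`. -/
def Itd (ι M H : Type) [Fintype M] [Fintype H] : Prop :=
  ∃ (X : Type) (_ : Fintype X) (b : X → ι → M ⊕ H),
    Fintype.card X ≤ Fintype.card M ^ 2 + 2 * Fintype.card M * Fintype.card H ∧
    ∀ i j, i ≠ j → ∀ (x : M) (y : M ⊕ H), ∃ c, b c i = .inl x ∧ b c j = y

/-- Quasi-difference matrix in covering form. -/
def Qdm (ι G H : Type) [AddCommGroup G] [Fintype G] [Fintype H] : Prop :=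
  ∃ (Y : Type) (_ : Fintype Y) (x : Y → ι → G ⊕ H),
    Fintype.card Y ≤ Fintype.card G + 2 * Fintype.card H ∧
    (∀ i j, i ≠ j → ∀ g, ∃ c a b, x c i = .inl a ∧ x c j = .inl b ∧ a - b = g) ∧
    ∀ i j, i ≠ j → ∀ h, ∃ c a, x c i = .inl a ∧ x c j = .inr h

/-- The line through `f` with direction `u`. -/
def Ln (K : Type) {V : Type} [Field K] [AddCommGroup V] [Module K V] (f u : V) : Set V :=
  {s | ∃ t : K, s = f + t • u}

/-- The support of a switching gadget: three lines. -/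
def Gd (K : Type) {V : Type} [Field K] [AddCommGroup V] [Module K V] (o δ w w' : V) : Set V :=
  Ln K o δ ∪ Ln K o w ∪ Ln K (o + δ) w'

/-- Three independent vectors. -/
def Ind3 (K : Type) {V : Type} [Field K] [AddCommGroup V] [Module K V] (x y z : V) : Prop :=
  ∀ a b c : K, a • x + b • y + c • z = 0 → a = 0 ∧ b = 0 ∧ c = 0

/-- The primes `p` with `log p ≤ y`. -/
def PP (y : ℝ) : Finset ℕ := (range (⌊Real.exp y⌋₊ + 1)).filter Nat.Prime

/-- The number of removed residue classes. -/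
def om (p : ℕ) : ℝ := if p = 2 then 1 else 2

/-- The density of the removed classes. -/
def gg (p : ℕ) : ℝ := om p / p

/-- The Selberg weight `g / (1 - g)`. -/
def hh (p : ℕ) : ℝ := om p / (p - om p)

/-- The logarithm of the product of a set of primes. -/
def LL (R : Finset ℕ) : ℝ := ∑ p ∈ R, Real.log p

/-- The multiplicative extension of `hh`. -/
def hR (R : Finset ℕ) : ℝ := ∏ p ∈ R, hh p

/-- The diagonal variables. -/
def yy (L : ℝ) (R : Finset ℕ) : ℝ := max (L - LL R) 0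

/-- Moments of the Selberg measure. -/
def MM (L : ℝ) (j : ℕ) : ℝ := ∑ R ∈ (PP L).powerset with LL R ≤ L, hR R * (L - LL R) ^ j

/-- Weighted prime sums. -/
def AA (j : ℕ) (y : ℝ) : ℝ := ∑ p ∈ PP y, hh p * Real.log p * (y - Real.log p) ^ j

/-- The penalty function. -/
def Phi (l y : ℝ) : ℝ := ∑ p ∈ PP l, hh p * min y (Real.log p) ^ 2

/-- The main term of the lower bound sieve. -/
def TT (l L : ℝ) : ℝ :=
  ∑ R ∈ (PP L).powerset, hR R * yy L R ^ 2 -
    ∑ p ∈ PP l, gg p * ∑ R ∈ ((PP L).erase p).powerset, hR R * (yy L R - yy L (insert p R)) ^ 2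

/-- The polynomial majorant. -/
def RR (s : ℝ) : ℝ := 1 / 100 + 12 / 25 * s + 287 / 100 * s ^ 2 - 83 / 25 * s ^ 3 + 993 / 1000 * s ^ 4

/-- `t` lies in one of the two removed classes modulo `p`. -/
def Bad (r r' : ℕ → ℕ) (p t : ℕ) : Prop := t ≡ r p [MOD p] ∨ t ≡ r' p [MOD p]

/-- Exactly `om p` classes are removed. -/
def Exact (r r' : ℕ → ℕ) : Prop :=
  r 2 ≡ r' 2 [MOD 2] ∧ ∀ p : ℕ, p.Prime → p ≠ 2 → ¬ r p ≡ r' p [MOD p]

/-- The centred local factors. -/
def psi (r r' : ℕ → ℕ) (p t : ℕ) : ℝ := if Bad r r' p t then -1 else hh p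

theorem mem_PP {y : ℝ} {p : ℕ} : p ∈ PP y ↔ p.Prime ∧ Real.log p ≤ y := by
  rw [PP, mem_filter, mem_range, Nat.lt_succ_iff, Nat.le_floor_iff (Real.exp_pos y).le, and_comm]
  refine and_congr_right fun hp => ?_
  rw [Real.log_le_iff_le_exp (by exact_mod_cast hp.pos)]

theorem om_lt {p : ℕ} (hp : p.Prime) : 1 ≤ om p ∧ om p ≤ 2 ∧ om p + 1 ≤ p := by
  unfold om
  split_ifs with h
  · subst h; norm_num
  · have : 3 ≤ p := by have := hp.two_le; omega
    have : (3 : ℝ) ≤ p := by exact_mod_cast this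
    refine ⟨by norm_num, le_rfl, by linarith⟩

theorem hh_pos {p : ℕ} (hp : p.Prime) : 0 < hh p := by
  obtain ⟨h1, -, h3⟩ := om_lt hp
  exact div_pos (by linarith) (by linarith)

theorem hh_le_two {p : ℕ} (hp : p.Prime) : hh p ≤ 2 := by
  obtain ⟨h1, h2, h3⟩ := om_lt hp
  rw [hh, div_le_iff₀ (by linarith)]
  linarith

theorem gg_nonneg (p : ℕ) : 0 ≤ gg p := by
  unfold gg om
  split_ifs <;> positivity

theorem gg_le_hh {p : ℕ} (hp : p.Prime) : gg p ≤ hh p := by
  obtain ⟨h1, -, h3⟩ := om_lt hp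
  exact div_le_div_of_nonneg_left (by linarith) (by linarith) (by linarith)

theorem hh_mul {p : ℕ} (hp : p.Prime) : (1 - gg p) * hh p = gg p := by
  obtain ⟨h1, -, h3⟩ := om_lt hp
  have h4 : (p : ℝ) ≠ 0 := by linarith
  have h5 : (p : ℝ) - om p ≠ 0 := by linarith
  rw [gg, hh]
  field_simp

theorem hR_nonneg {R : Finset ℕ} (h : ∀ p ∈ R, p.Prime) : 0 ≤ hR R :=
  prod_nonneg fun p hp => (hh_pos (h p hp)).le

end

end Pool.Agent.MP_c7a479_co.Ex

end

section

namespace Pool.Agent.MP_c7a479_co.Ex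

open Finset
open scoped Classical

variable {ι ι' α β M H M' H' : Type}

theorem Td.of_card [Fintype α] [Fintype β] (h : Td ι α) (e : Fintype.card α = Fintype.card β) :
    Td ι β := by
  obtain ⟨X, _, b, h1, h2⟩ := h
  have g := Fintype.equivOfCardEq e
  refine ⟨X, inferInstance, fun c i => g (b c i), e ▸ h1, fun i j hij x y => ?_⟩
  obtain ⟨c, k1, k2⟩ := h2 i j hij (g.symm x) (g.symm y)
  exact ⟨c, by simp only [k1, Equiv.apply_symm_apply], by simp only [k2, Equiv.apply_symm_apply]⟩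

theorem Td.of_inj [Fintype α] (h : Td ι α) (f : ι' → ι) (hf : Function.Injective f) :
    Td ι' α := by
  obtain ⟨X, _, b, h1, h2⟩ := h
  exact ⟨X, inferInstance, fun c i => b c (f i), h1, fun i j hij => h2 _ _ (hf.ne hij)⟩

theorem Td.prod [Fintype α] [Fintype β] (h : Td ι α) (h' : Td ι β) : Td ι (α × β) := by
  obtain ⟨X, _, b, h1, h2⟩ := h
  obtain ⟨X', _, b', k1, k2⟩ := h'
  refine ⟨X × X', inferInstance, fun c i => (b c.1 i, b' c.2 i), ?_, fun i j hij x y => ?_⟩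
  · rw [Fintype.card_prod, Fintype.card_prod, mul_pow]
    exact Nat.mul_le_mul h1 k1
  · obtain ⟨c, h3, h4⟩ := h2 i j hij x.1 y.1
    obtain ⟨c', k3, k4⟩ := k2 i j hij x.2 y.2
    exact ⟨(c, c'), Prod.ext h3 k3, Prod.ext h4 k4⟩

/-- Blocks `(x, v)` with entries `x + a i * v`. -/
theorem td_field (K : Type) [Field K] [Fintype K] (a : ι → K) (ha : Function.Injective a) :
    Td ι K := by
  refine ⟨K × K, inferInstance, fun c i => c.1 + a i * c.2, ?_, fun i j hij x y => ?_⟩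
  · rw [Fintype.card_prod, sq]
  · have h : a i - a j ≠ 0 := sub_ne_zero.2 (ha.ne hij)
    refine ⟨(x - a i * ((x - y) / (a i - a j)), (x - y) / (a i - a j)), by simp, ?_⟩
    field_simp
    ring

/-- MacNeish: induction on the prime factorisation with `ZMod p`. -/
theorem td_rough {k n : ℕ} (hn : n ≠ 0) (h : ∀ p : ℕ, p.Prime → p ∣ n → k ≤ p) :
    Td (Fin k) (Fin n) := by
  induction n using induction_on_primes with
  | zero => exact absurd rfl hn
  | one =>
    exact ⟨Unit, inferInstance, fun _ _ => 0, by simp, fun i j _ x y =>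
      ⟨(), Subsingleton.elim _ _, Subsingleton.elim _ _⟩⟩
  | prime_mul p m hp ih =>
    have := Fact.mk hp
    have hk := h p hp (dvd_mul_right _ _)
    have h1 : Td (Fin k) (ZMod p) := td_field (ZMod p) (fun i => ((i : ℕ) : ZMod p)) fun i j e => by
      have := congrArg ZMod.val e
      simp only [ZMod.val_natCast_of_lt (lt_of_lt_of_le i.2 hk),
        ZMod.val_natCast_of_lt (lt_of_lt_of_le j.2 hk)] at this
      exact Fin.ext this
    refine (h1.prod (ih (right_ne_zero_of_mul hn) fun q hq hd => h q hq (hd.mul_left _))).of_card ?_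
    simp only [Fintype.card_prod, ZMod.card, Fintype.card_fin]

theorem Itd.of_card [Fintype M] [Fintype H] [Fintype M'] [Fintype H'] (h : Itd ι M H)
    (e : Fintype.card M = Fintype.card M') (e' : Fintype.card H = Fintype.card H') :
    Itd ι M' H' := by
  obtain ⟨X, _, b, h1, h2⟩ := h
  have g := Fintype.equivOfCardEq e
  have g' := Fintype.equivOfCardEq e'
  refine ⟨X, inferInstance, fun c i => g.sumCongr g' (b c i), e ▸ e' ▸ h1, fun i j hij x y => ?_⟩
  obtain ⟨c, k1, k2⟩ := h2 i j hij (g.symm x) ((g.sumCongr g').symm y)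
  exact ⟨c, by simp [k1], by simp only [k2, Equiv.apply_symm_apply]⟩

theorem Td.itd [Fintype M] (h : Td ι M) : Itd ι M (Fin 0) := by
  obtain ⟨X, _, b, h1, h2⟩ := h
  refine ⟨X, inferInstance, fun c i => .inl (b c i), h1.trans (Nat.le_add_right _ _),
    fun i j hij x y => ?_⟩
  rcases y with y | y
  · obtain ⟨c, k1, k2⟩ := h2 i j hij x y
    exact ⟨c, congrArg _ k1, congrArg _ k2⟩
  · exact y.elim0

/-- Inflate every symbol by `α`. -/
theorem Itd.prod [Fintype M] [Fintype H] [Fintype α] (h : Itd ι M H) (h' : Td ι α) :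
    Itd ι (M × α) (H × α) := by
  obtain ⟨X, _, b, h1, h2⟩ := h
  obtain ⟨X', _, b', k1, k2⟩ := h'
  refine ⟨X × X', inferInstance,
    fun c i => (b c.1 i).map (fun m => (m, b' c.2 i)) fun m => (m, b' c.2 i), ?_,
    fun i j hij x y => ?_⟩
  · simp only [Fintype.card_prod]
    exact (Nat.mul_le_mul h1 k1).trans (le_of_eq (by ring))
  · rcases y with y | y
    · obtain ⟨c, h3, h4⟩ := h2 i j hij x.1 (.inl y.1)
      obtain ⟨c', k3, k4⟩ := k2 i j hij x.2 y.2
      exact ⟨(c, c'), by simp [h3, k3], by simp [h4, k4]⟩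
    · obtain ⟨c, h3, h4⟩ := h2 i j hij x.1 (.inr y.1)
      obtain ⟨c', k3, k4⟩ := k2 i j hij x.2 y.2
      exact ⟨(c, c'), by simp [h3, k3], by simp [h4, k4]⟩

/-- Develop the columns: blocks `(c, g)`, old entries are translated by `g`. -/
theorem Qdm.itd {G : Type} [AddCommGroup G] [Fintype G] [Fintype H] (h : Qdm ι G H) :
    Itd ι G H := by
  obtain ⟨Y, _, x, h1, h2, h3⟩ := h
  refine ⟨Y × G, inferInstance, fun c i => (x c.1 i).map (fun a => a + c.2) id, ?_,
    fun i j hij u y => ?_⟩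
  · rw [Fintype.card_prod]
    exact (Nat.mul_le_mul_right _ h1).trans (le_of_eq (by ring))
  · rcases y with y | y
    · obtain ⟨c, a, b, k1, k2, k3⟩ := h2 i j hij (u - y)
      refine ⟨(c, u - a), by simp [k1], ?_⟩
      have : b + (u - a) = y := by rw [← sub_sub_cancel u y, ← k3]; abel
      simp [k2, this]
    · obtain ⟨c, a, k1, k2⟩ := h3 i j hij y
      exact ⟨(c, u - a), by simp [k1], by simp [k2]⟩

/-- In a design in covering form two rows determine the block. -/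
theorem td_bij [Fintype α] {X : Type} [Fintype X] {b : X → ι → α}
    (hc : Fintype.card X ≤ Fintype.card α ^ 2)
    (h : ∀ i j, i ≠ j → ∀ x y, ∃ c, b c i = x ∧ b c j = y) {i j : ι} (hij : i ≠ j) :
    Function.Bijective fun c => (b c i, b c j) := by
  have hs : Function.Surjective fun c => (b c i, b c j) := fun p => by
    obtain ⟨c, k1, k2⟩ := h i j hij p.1 p.2
    exact ⟨c, Prod.ext k1 k2⟩
  refine (Fintype.bijective_iff_surjective_and_card _).2 ⟨hs, le_antisymm ?_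
    (Fintype.card_le_of_surjective _ hs)⟩
  rwa [Fintype.card_prod, ← sq]

/-- Rows `0, 1` index the cells, the other rows are the squares. -/
theorem Td.hasVarSet {k n : ℕ} (h : Td (Fin (k + 2)) (Fin n)) : HasVarSet 2 n k := by
  obtain ⟨X, _, b, h1, h2⟩ := h
  have h01 : (0 : Fin (k + 2)) ≠ 1 := Fin.zero_ne_one
  obtain ⟨g, hg⟩ : ∃ g : (Fin 2 → Fin n) → X, ∀ x, b (g x) 0 = x 0 ∧ b (g x) 1 = x 1 :=
    ⟨fun x => (h2 0 1 h01 (x 0) (x 1)).choose, fun x => (h2 0 1 h01 (x 0) (x 1)).choose_spec⟩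
  have key : ∀ i j, i ≠ j → ∀ x y, b (g x) i = b (g y) i → b (g x) j = b (g y) j → x = y :=
    fun i j hij x y k1 k2 => by
      have e : g x = g y := (td_bij h1 h2 hij).1 (Prod.ext k1 k2)
      funext r
      fin_cases r
      · exact (hg x).1.symm.trans (e ▸ (hg y).1)
      · exact (hg x).2.symm.trans (e ▸ (hg y).2)
  refine ⟨fun r x => b (g x) r.succ.succ, fun r x j => ?_, fun s hs => ?_⟩
  · refine Function.Injective.bijective_of_finite fun t t' e => ?_
    have : Function.update x j t = Function.update x j t' := by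
      fin_cases j
      · refine key 1 r.succ.succ (Fin.succ_succ_ne_one r).symm _ _ ?_ e
        rw [(hg _).2, (hg _).2]
        simp
      · refine key 0 r.succ.succ (Fin.succ_ne_zero _).symm _ _ ?_ e
        rw [(hg _).1, (hg _).1]
        simp
    simpa using congrFun this j
  · refine Function.Injective.bijective_of_finite fun x y e => ?_
    refine key (s 0).succ.succ (s 1).succ.succ (fun k => ?_) x y (congrFun e 0) (congrFun e 1)
    exact Fin.zero_ne_one (hs (Fin.succ_injective _ (Fin.succ_injective _ k)))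

end Pool.Agent.MP_c7a479_co.Ex

end

section

/-! Layered quasi-difference matrices over `V × R`. -/

namespace Pool.Agent.MP_c7a479_co.Ex

open Finset
open scoped Classical

/-- At most `N` columns with `u` new symbols that cover the differences in `S`. -/
def Cov (k : ℕ) (V : Type) [AddCommGroup V] (u N : ℕ) (S : Fin k → Fin k → V → Prop) : Prop :=
  ∃ (Y : Type) (_ : Fintype Y) (x : Y → Fin k → V ⊕ Fin u), Fintype.card Y ≤ N ∧
    (∀ i j, i < j → ∀ g, S i j g → ∃ c a b, x c i = .inl a ∧ x c j = .inl b ∧ a - b = g) ∧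
    ∀ i j, i ≠ j → ∀ h, ∃ c a, x c i = .inl a ∧ x c j = .inr h

theorem Cov.mono {k : ℕ} {V : Type} [AddCommGroup V] {u N : ℕ} {S S' : Fin k → Fin k → V → Prop}
    (h : Cov k V u N S) (hS : ∀ i j, i < j → ∀ g, S' i j g → S i j g) : Cov k V u N S' := by
  obtain ⟨Y, _, x, h1, h2, h3⟩ := h
  exact ⟨Y, inferInstance, x, h1, fun i j hij g hg => h2 i j hij g (hS i j hij g hg), h3⟩

/-- Plain columns have second coordinate `r i * ρ`, shifted ones `r i * ρ + w i`. -/
theorem asm {k : ℕ} {V R : Type} [AddCommGroup V] [Fintype V] [CommRing R] [Fintype R]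
    (r w : Fin k → R) (β : Fin k → Fin k → R) (hr : ∀ i j, i ≠ j → IsUnit (r i - r j))
    (hβ : ∀ i j, w i - w j = (r i - r j) * β i j) (u u' N N' : R → ℕ)
    (S S' : R → Fin k → Fin k → V → Prop)
    (hA : ∀ ρ, Cov k V (u ρ) (N ρ) (S ρ)) (hB : ∀ ρ, Cov k V (u' ρ) (N' ρ) (S' ρ))
    (hN : ∀ ρ, N ρ + N' ρ ≤ Fintype.card V + 2 * (u ρ + u' ρ))
    (hS : ∀ i j, i < j → ∀ ρ g, S (ρ + β i j) i j g ∨ S' ρ i j g) :
    Qdm (Fin k) (V × R) ((Σ ρ, Fin (u ρ)) ⊕ (Σ ρ, Fin (u' ρ))) := by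
  choose A iA xa a1 a2 a3 using hA
  choose B iB xb b1 b2 b3 using hB
  let x : (Σ ρ, A ρ) ⊕ (Σ ρ, B ρ) → Fin k → (V × R) ⊕ ((Σ ρ, Fin (u ρ)) ⊕ (Σ ρ, Fin (u' ρ))) :=
    Sum.elim (fun c i => (xa c.1 c.2 i).map (fun v => (v, r i * c.1)) fun h => .inl ⟨c.1, h⟩)
      fun c i => (xb c.1 c.2 i).map (fun v => (v, r i * c.1 + w i)) fun h => .inr ⟨c.1, h⟩
  have key : ∀ i j, i < j → ∀ g, ∃ c a b, x c i = .inl a ∧ x c j = .inl b ∧ a - b = g := by
    rintro i j hij ⟨g, τ⟩
    obtain ⟨v, hv⟩ := (hr i j hij.ne).exists_right_inv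
    rcases hS i j hij (v * τ - β i j) g with h | h
    · obtain ⟨c, a, b, h1, h2, h3⟩ := a2 _ i j hij g h
      refine ⟨.inl ⟨_, c⟩, (a, r i * (v * τ - β i j + β i j)), (b, r j * (v * τ - β i j + β i j)),
        by simp [x, h1], by simp [x, h2], Prod.ext h3 ?_⟩
      simp only [Prod.snd_sub]
      linear_combination τ * hv
    · obtain ⟨c, a, b, h1, h2, h3⟩ := b2 _ i j hij g h
      refine ⟨.inr ⟨_, c⟩, (a, r i * (v * τ - β i j) + w i), (b, r j * (v * τ - β i j) + w j),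
        by simp [x, h1], by simp [x, h2], Prod.ext h3 ?_⟩
      simp only [Prod.snd_sub]
      linear_combination τ * hv + hβ i j
  refine ⟨_, inferInstance, x, ?_, fun i j hij g => ?_, fun i j hij h => ?_⟩
  · simp only [Fintype.card_sum, Fintype.card_sigma, Fintype.card_fin, Fintype.card_prod]
    rw [← sum_add_distrib, ← sum_add_distrib, mul_sum, mul_comm (Fintype.card V),
      ← smul_eq_mul, ← card_univ, ← sum_const, ← sum_add_distrib]
    exact sum_le_sum fun ρ _ => (add_le_add (a1 ρ) (b1 ρ)).trans (hN ρ)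
  · rcases lt_or_gt_of_ne hij with h | h
    · exact key i j h g
    · obtain ⟨y, a, b, h1, h2, h3⟩ := key j i h (-g)
      exact ⟨y, b, a, h2, h1, by rw [← neg_sub, h3, neg_neg]⟩
  · rcases h with ⟨ρ, h⟩ | ⟨ρ, h⟩
    · obtain ⟨c, a, h1, h2⟩ := a3 ρ i j hij h
      exact ⟨.inl ⟨ρ, c⟩, (a, r i * ρ), by simp [x, h1], by simp [x, h2]⟩
    · obtain ⟨c, a, h1, h2⟩ := b3 ρ i j hij h
      exact ⟨.inr ⟨ρ, c⟩, (a, r i * ρ + w i), by simp [x, h1], by simp [x, h2]⟩

/-- Filling the hole. -/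
theorem Itd.fill {ι M H : Type} [Fintype M] [Fintype H] (h : Itd ι M H) (h' : Td ι H) :
    Td ι (M ⊕ H) := by
  obtain ⟨X, _, b, h1, h2⟩ := h
  obtain ⟨X', _, b', k1, k2⟩ := h'
  refine ⟨X ⊕ X', inferInstance, Sum.elim b fun c i => .inr (b' c i), ?_, fun i j hij x y => ?_⟩
  · simp only [Fintype.card_sum]
    nlinarith
  · rcases x with x | x
    · obtain ⟨c, e1, e2⟩ := h2 i j hij x y
      exact ⟨.inl c, e1, e2⟩
    · rcases y with y | y
      · obtain ⟨c, e1, e2⟩ := h2 j i hij.symm y (.inr x)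
        exact ⟨.inl c, e2, e1⟩
      · obtain ⟨c, e1, e2⟩ := k2 i j hij x y
        exact ⟨.inr c, congrArg _ e1, congrArg _ e2⟩

variable {K : Type} [Field K] {k : ℕ}

/-- The hub slopes. -/
def hub (a : Fin k → K) (l : Fin k) : K × K × K := (0, a l, 0)

/-- `g` is not a hub difference. -/
def Free (a : Fin k → K) (i j : Fin k) (g : K × K × K) : Prop := ∀ l, g ≠ (a i - a j) • hub a l

/-- What the shifted columns of a base layer cover. -/
def Base (a : Fin k → K) (i j : Fin k) (g : K × K × K) : Prop :=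
  (∃ l, l ≠ i ∧ l ≠ j ∧ g = (a i - a j) • hub a l) ∨ g = (a i - a j) • ((1, 0, 0) : K × K × K) ∨
    g = (a i - a j) • ((-1, a i + a j, 0) : K × K × K)

/-- What the private layer of the pair `i, j` covers in this pair. -/
def Spec (a : Fin k → K) (i j : Fin k) (g : K × K × K) : Prop :=
  (Free a i j g ∧ g ≠ (a i - a j) • ((1, 0, 0) : K × K × K) ∧
    g ≠ (a i - a j) • ((-1, a i + a j, 0) : K × K × K)) ∨
    g = (a i - a j) • hub a i ∨ g = (a i - a j) • hub a j

theorem spec_or_base (a : Fin k → K) (i j : Fin k) (g : K × K × K) :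
    Spec a i j g ∨ Base a i j g := by
  by_cases h : Free a i j g
  · by_cases h1 : g = (a i - a j) • ((1, 0, 0) : K × K × K)
    · exact Or.inr (Or.inr (Or.inl h1))
    by_cases h2 : g = (a i - a j) • ((-1, a i + a j, 0) : K × K × K)
    · exact Or.inr (Or.inr (Or.inr h2))
    exact Or.inl (Or.inl ⟨h, h1, h2⟩)
  · obtain ⟨l, hl⟩ := not_forall.1 h
    have hl := not_not.1 hl
    by_cases h1 : l = i
    · exact Or.inl (Or.inr (Or.inl (h1 ▸ hl)))
    by_cases h2 : l = j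
    · exact Or.inl (Or.inr (Or.inr (h2 ▸ hl)))
    exact Or.inr (Or.inl ⟨l, h1, h2, hl⟩)

theorem card_off {X : Type} [Fintype X] {f : Fin k → X} (hf : Function.Injective f)
    [Fintype {x // ∀ l, x ≠ f l}] : Fintype.card {x // ∀ l, x ≠ f l} = Fintype.card X - k := by
  have e : Fintype.card {x // ¬ x ∈ Set.range f} = Fintype.card X - k := by
    rw [Fintype.card_subtype_compl, Fintype.card_congr (Equiv.ofInjective f hf).symm,
      Fintype.card_fin]
  rw [← e]
  exact Fintype.card_congr (Equiv.subtypeEquivRight fun x => by simp [eq_comm])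

theorem hub_inj {a : Fin k → K} (ha : Function.Injective a) : Function.Injective (hub a) :=
  fun _ _ h => ha (congrArg (fun v => v.2.1) h)

theorem cov_hub {a : Fin k → K} : Cov k (K × K × K) 0 k fun i j g => ¬ Free a i j g := by
  refine ⟨Fin k, inferInstance, fun l i => .inl (a i • hub a l), by simp, fun i j _ g hg => ?_,
    fun _ _ _ h => h.elim0⟩
  obtain ⟨l, hl⟩ := not_forall.1 hg
  exact ⟨l, _, _, rfl, rfl, by rw [not_not.1 hl, sub_smul]⟩

theorem cov_base {a : Fin k → K} : Cov k (K × K × K) 1 (k + 2) (Base a) := by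
  refine ⟨Fin k ⊕ Bool, inferInstance, Sum.elim
    (fun l i => if i = l then .inr 0 else .inl (a i • hub a l))
    fun b i => .inl (if b then (a i, 0, 0) else (-a i, a i ^ 2, 0)), by simp, ?_, ?_⟩
  · rintro i j - g (⟨l, h1, h2, rfl⟩ | rfl | rfl)
    · exact ⟨.inl l, _, _, if_neg h1.symm, if_neg h2.symm, (sub_smul _ _ _).symm⟩
    · exact ⟨.inr true, _, _, rfl, rfl, by simp [Prod.ext_iff]⟩
    · refine ⟨.inr false, _, _, rfl, rfl, ?_⟩
      simp only [Bool.false_eq_true, if_false, Prod.mk_sub_mk, Prod.smul_mk, smul_eq_mul]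
      refine Prod.ext ?_ (Prod.ext ?_ ?_) <;> simp only <;> ring
  · intro i j hij h
    exact ⟨.inl j, _, if_neg hij, by rw [Subsingleton.elim h 0]; exact if_pos rfl⟩

theorem cov_free [Fintype K] {a : Fin k → K} (ha : Function.Injective a) :
    Cov k (K × K × K) 0 (Fintype.card (K × K × K) - k) (Free a) := by
  refine ⟨{s // ∀ l, s ≠ hub a l}, inferInstance, fun s i => .inl (a i • s.1),
    (card_off (hub_inj ha)).le, fun i j hij g hg => ?_, fun _ _ _ h => h.elim0⟩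
  have hA : a i - a j ≠ 0 := sub_ne_zero.2 (ha.ne hij.ne)
  refine ⟨⟨(a i - a j)⁻¹ • g, fun l e => hg l ?_⟩, _, _, rfl, rfl, ?_⟩
  · rw [← e, smul_inv_smul₀ hA]
  · rw [← sub_smul, smul_inv_smul₀ hA]

end Pool.Agent.MP_c7a479_co.Ex

end

section

namespace Pool.Agent.MP_c7a479_co.Ex

open Finset
open scoped Classical

variable {K V : Type} [Field K] [AddCommGroup V] [Module K V]

/-- The switching gadget.  Take `Y s = A • (o + (o + δ) - 2 • s)` on the first line and `0`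
elsewhere; `Z s = -A • w` on the second line, `-A • w'` on the third line and `0` elsewhere. -/
theorem gadget {o δ w w' : V} (h : Ind3 K δ w w') {A : K} (hA : A ≠ 0) :
    ∃ Y Z : V → V,
      (∀ τ : K, 1 - 2 * τ * A ≠ 0 → ∀ v ∈ Gd K o δ w w', ∃ s ∈ Gd K o δ w w', s + τ • Y s = v) ∧
      (∀ τ : K, ∀ v ∈ Gd K o δ w w', ∃ s ∈ Gd K o δ w w', s + τ • Z s = v) ∧
      ∀ v, (v ∈ Gd K o δ w w' ∧ v ≠ o + w ∧ v ≠ o + δ + w') ∨ v = o + δ + w ∨ v = o + w' →
        ∃ s ∈ Gd K o δ w w', s + A⁻¹ • (Y s - Z s) = v := by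
  obtain ⟨Y, hY⟩ : ∃ Y : V → V, ∀ s, Y s =
    if s ∈ Ln K o δ then A • (o + (o + δ) - (2 : K) • s) else 0 := ⟨_, fun _ => rfl⟩
  obtain ⟨Z, hZ⟩ : ∃ Z : V → V, ∀ s, Z s = if s ∈ Ln K o w then -A • w else
    if s ∈ Ln K (o + δ) w' then -A • w' else 0 := ⟨_, fun _ => rfl⟩
  have m1 : ∀ t : K, o + t • δ ∈ Gd K o δ w w' := fun t => Or.inl (Or.inl ⟨t, rfl⟩)
  have m2 : ∀ t : K, o + t • w ∈ Gd K o δ w w' := fun t => Or.inl (Or.inr ⟨t, rfl⟩)
  have m3 : ∀ t : K, o + δ + t • w' ∈ Gd K o δ w w' := fun t => Or.inr ⟨t, rfl⟩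
  have d12 : ∀ t u : K, o + t • δ = o + u • w → t = 0 ∧ u = 0 := fun t u e => by
    have := h t (-u) 0 (by linear_combination (norm := module) e)
    exact ⟨this.1, neg_eq_zero.1 this.2.1⟩
  have d13 : ∀ t u : K, o + t • δ = o + δ + u • w' → t = 1 ∧ u = 0 := fun t u e => by
    have := h (t - 1) 0 (-u) (by linear_combination (norm := module) e)
    exact ⟨sub_eq_zero.1 this.1, neg_eq_zero.1 this.2.2⟩
  have Y1 : ∀ t : K, Y (o + t • δ) = (A * (1 - 2 * t)) • δ := fun t => by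
    rw [hY, if_pos ⟨t, rfl⟩]
    module
  have Y2 : ∀ t : K, t ≠ 0 → Y (o + t • w) = 0 := fun t ht => by
    rw [hY, if_neg fun ⟨u, e⟩ => ht (d12 u t e.symm).2]
  have Y3 : ∀ t : K, t ≠ 0 → Y (o + δ + t • w') = 0 := fun t ht => by
    rw [hY, if_neg fun ⟨u, e⟩ => ht (d13 u t e.symm).2]
  have Z1 : ∀ t : K, t ≠ 0 → t ≠ 1 → Z (o + t • δ) = 0 := fun t h0 h1 => by
    rw [hZ, if_neg fun ⟨u, e⟩ => h0 (d12 t u e).1, if_neg fun ⟨u, e⟩ => h1 (d13 t u e).1]
  have Z2 : ∀ t : K, Z (o + t • w) = -A • w := fun t => by rw [hZ, if_pos ⟨t, rfl⟩]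
  have Z3 : ∀ t : K, Z (o + δ + t • w') = -A • w' := fun t => by
    rw [hZ, if_neg fun ⟨u, e⟩ => one_ne_zero (h 1 (-u) t (by linear_combination (norm := module) e)).1,
      if_pos ⟨t, rfl⟩]
  have iA : A⁻¹ * A = 1 := inv_mul_cancel₀ hA
  have p2 : ∀ u : K, u ≠ 1 → ∃ s ∈ Gd K o δ w w', s + A⁻¹ • (Y s - Z s) = o + u • w :=
    fun u hu => ⟨_, m2 (u - 1), by
      rw [Y2 _ (sub_ne_zero.2 hu), Z2]
      linear_combination (norm := module) iA • w⟩
  have p3 : ∀ u : K, u ≠ 1 → ∃ s ∈ Gd K o δ w w', s + A⁻¹ • (Y s - Z s) = o + δ + u • w' :=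
    fun u hu => ⟨_, m3 (u - 1), by
      rw [Y3 _ (sub_ne_zero.2 hu), Z3]
      linear_combination (norm := module) iA • w'⟩
  refine ⟨Y, Z, fun τ hτ v hv => ?_, fun τ v hv => ?_, ?_⟩
  · by_cases h1 : v ∈ Ln K o δ
    · obtain ⟨u, rfl⟩ := h1
      refine ⟨_, m1 ((u - τ * A) / (1 - 2 * τ * A)), ?_⟩
      rw [Y1]
      linear_combination (norm := module) div_mul_cancel₀ (u - τ * A) hτ • δ
    · exact ⟨v, hv, by rw [hY, if_neg h1, smul_zero, add_zero]⟩
  · by_cases h2 : v ∈ Ln K o w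
    · obtain ⟨u, rfl⟩ := h2
      refine ⟨_, m2 (u + τ * A), ?_⟩
      rw [Z2]
      module
    by_cases h3 : v ∈ Ln K (o + δ) w'
    · obtain ⟨u, rfl⟩ := h3
      refine ⟨_, m3 (u + τ * A), ?_⟩
      rw [Z3]
      module
    · exact ⟨v, hv, by rw [hZ, if_neg h2, if_neg h3, smul_zero, add_zero]⟩
  · rintro v (⟨(⟨u, rfl⟩ | ⟨u, rfl⟩) | ⟨u, rfl⟩, a, b⟩ | rfl | rfl)
    · by_cases h0 : u = 0
      · simpa only [h0, zero_smul] using p2 0 zero_ne_one
      by_cases h1 : u = 1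
      · simpa only [h1, zero_smul, one_smul, add_zero] using p3 0 zero_ne_one
      refine ⟨_, m1 (1 - u), ?_⟩
      rw [Y1, Z1 _ (sub_ne_zero.2 (Ne.symm h1)) fun e => h0 (sub_eq_self.1 e)]
      linear_combination (norm := module) (1 - 2 * (1 - u)) • iA • δ
    · exact p2 u fun e => a (by rw [e, one_smul])
    · exact p3 u fun e => b (by rw [e, one_smul])
    · have y := Y1 0
      have z := Z2 0
      rw [zero_smul, add_zero] at y z
      refine ⟨o, by simpa using m1 0, ?_⟩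
      rw [y, z]
      linear_combination (norm := module) iA • δ + iA • w
    · have y := Y1 1
      have z := Z3 0
      rw [one_smul] at y
      rw [zero_smul, add_zero] at z
      refine ⟨o + δ, by simpa using m1 1, ?_⟩
      rw [y, z]
      linear_combination (norm := module) iA • w' - iA • δ

end Pool.Agent.MP_c7a479_co.Ex

end

section

namespace Pool.Agent.MP_c7a479_co.Ex

open Finset
open scoped Classical

variable {K : Type} [Field K] {k : ℕ}

/-- The private layer of the pair `p < q`: one switching gadget. -/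
theorem cov_priv [Fintype K] {a : Fin k → K} (ha : Function.Injective a)
    (hap : ∀ i j l, a i + a j = 2 * a l → i = j) {p q : Fin k} (hpq : p < q) :
    Cov k (K × K × K) 0 (Fintype.card (K × K × K) - k)
      fun i j g => if i = p ∧ j = q then Spec a i j g else Free a i j g := by
  have hA : a p - a q ≠ 0 := sub_ne_zero.2 (ha.ne hpq.ne)
  have hI : Ind3 K ((-1, a p, 0) : K × K × K) (0, 0, 1) (-1, a q, 1) := by
    intro x y z h
    simp only [Prod.smul_mk, smul_eq_mul, Prod.mk_add_mk, Prod.mk_eq_zero] at h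
    obtain ⟨h1, h2, h3⟩ := h
    have hx : x = 0 := by
      apply (mul_eq_zero.1 (?_ : x * (a p - a q) = 0)).resolve_right hA
      linear_combination h2 + a q * h1
    have hz : z = 0 := by linear_combination -h1 - hx
    exact ⟨hx, by linear_combination h3 - hz, hz⟩
  obtain ⟨Y, Z, hY, hZ, hS⟩ := gadget (o := ((1, 0, -1) : K × K × K)) hI hA
  set G := Gd K ((1, 0, -1) : K × K × K) (-1, a p, 0) (0, 0, 1) (-1, a q, 1) with hG
  have hc : ∀ s ∈ G, ∀ l, s ≠ hub a l := by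
    rintro s ((⟨t, rfl⟩ | ⟨t, rfl⟩) | ⟨t, rfl⟩) l e
    · simpa [hub] using congrArg (fun v => v.2.2) e
    · simpa [hub] using congrArg Prod.fst e
    · have e1 := congrArg Prod.fst e
      have e2 := congrArg (fun v => v.2.2) e
      simp only [hub, Prod.smul_mk, smul_eq_mul, Prod.mk_add_mk] at e1 e2
      exact one_ne_zero (α := K) (by linear_combination -e1 - e2)
  let pe : K × K × K → Fin k → K × K × K := fun s i =>
    if s ∈ G then (if i = p then Y s else if i = q then Z s else 0) else 0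
  refine ⟨{s // ∀ l, s ≠ hub a l}, inferInstance, fun s i => .inl (a i • s.1 + pe s.1 i),
    (card_off (hub_inj ha)).le, fun i j hij g hg => ?_, fun _ _ _ h => h.elim0⟩
  have hB : a i - a j ≠ 0 := sub_ne_zero.2 (ha.ne hij.ne)
  obtain ⟨v, rfl⟩ : ∃ v, g = (a i - a j) • v := ⟨(a i - a j)⁻¹ • g, (smul_inv_smul₀ hB g).symm⟩
  have inj : ∀ x y : K × K × K, (a i - a j) • x = (a i - a j) • y ↔ x = y := fun x y =>
    (smul_right_injective _ hB).eq_iff
  suffices h : ∃ s, (∀ l, s ≠ hub a l) ∧ s + (a i - a j)⁻¹ • (pe s i - pe s j) = v by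
    obtain ⟨s, h1, h2⟩ := h
    refine ⟨⟨s, h1⟩, _, _, rfl, rfl, ?_⟩
    rw [← h2, smul_add, smul_inv_smul₀ hB, sub_smul]
    abel
  by_cases hv : v ∈ G ∨ (i = p ∧ j = q ∧ (v = hub a i ∨ v = hub a j))
  swap
  · push Not at hv
    refine ⟨v, fun l e => ?_, by simp [pe, hv.1]⟩
    split_ifs at hg with h
    · rcases hg with hg | hg | hg
      · exact hg.1 l (by rw [e])
      · exact (hv.2 h.1 h.2).1 ((inj _ _).1 hg)
      · exact (hv.2 h.1 h.2).2 ((inj _ _).1 hg)
    · exact hg l (by rw [e])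
  by_cases h : i = p ∧ j = q
  · obtain ⟨rfl, rfl⟩ := h
    rw [if_pos ⟨rfl, rfl⟩] at hg
    obtain ⟨s, hs, hs'⟩ := hS v (by
      have e1 : hub a i = (1, 0, -1) + (-1, a i, 0) + (0, 0, 1) := by simp [hub]
      have e2 : hub a j = (1, 0, -1) + (-1, a j, 1) := by simp [hub]
      rcases hg with ⟨h1, h2, h3⟩ | hg | hg
      · rcases hv with hv | ⟨-, -, hv | hv⟩
        · refine Or.inl ⟨hv, fun e => h2 ?_, fun e => h3 ?_⟩
          · rw [e]; simp
          · rw [e]; simp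
        · exact absurd (by rw [hv]) (h1 i)
        · exact absurd (by rw [hv]) (h1 j)
      · exact Or.inr (Or.inl (((inj _ _).1 hg).trans e1))
      · exact Or.inr (Or.inr (((inj _ _).1 hg).trans e2)))
    exact ⟨s, hc s hs, by simpa [pe, hs, hij.ne'] using hs'⟩
  have hv : v ∈ G := hv.resolve_right fun e => h ⟨e.1, e.2.1⟩
  by_cases hip : i = p
  · subst hip
    have hjq : j ≠ q := fun e => h ⟨rfl, e⟩
    obtain ⟨s, hs, hs'⟩ := hY (a i - a j)⁻¹ (by
      intro e
      apply hij.ne (hap i j q ?_)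
      field_simp at e
      linear_combination -e) v hv
    exact ⟨s, hc s hs, by simpa [pe, hs, hij.ne', hjq] using hs'⟩
  by_cases hjp : j = p
  · subst hjp
    have hiq : i ≠ q := (hij.trans hpq).ne
    obtain ⟨s, hs, hs'⟩ := hY (-(a i - a j)⁻¹) (by
      intro e
      apply hij.ne (hap i j q ?_)
      field_simp at e
      linear_combination e) v hv
    exact ⟨s, hc s hs, by simpa [pe, hs, hip, hiq] using hs'⟩
  obtain ⟨s, hs, hs'⟩ := hZ ((a i - a j)⁻¹ *
    ((if i = q then 1 else 0) - if j = q then 1 else 0)) v hv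
  refine ⟨s, hc s hs, ?_⟩
  rw [← hs', mul_smul, sub_smul]
  simp only [pe, if_pos hs, if_neg hip, if_neg hjp, ite_smul, one_smul, zero_smul]

end Pool.Agent.MP_c7a479_co.Ex

end

section

namespace Pool.Agent.MP_c7a479_co.Ex

open Finset
open scoped Classical

/-- Assembly of the matrix from projective representatives. -/
theorem EHeavy_asm {K : Type} [Field K] [Fintype K] {k : ℕ} (h : Fin k → K)
    (hh : Function.Injective h) (rep : (K × K) ⊕ Bool → Fin k → Option (K × K × K))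
    (ha : ∀ i j, i ≠ j → ∀ v : K × K, ∃ r a b, ∃ s : K, s ≠ 0 ∧ rep r i = some a ∧
      rep r j = some b ∧ a - b = s • ((1 : K), v))
    (hb : ∀ i j, i ≠ j → ∃ r a, rep r i = some a ∧ rep r j = none) :
    Qdm (Fin k) (K × K × K) Kˣ := by
  refine ⟨(((K × K) ⊕ Bool) × Kˣ) ⊕ (K × K), inferInstance,
    Sum.elim (fun c i => (rep c.1 i).elim (.inr c.2) fun a => .inl ((c.2 : K) • a))
      (fun c i => .inl (h i • ((0 : K), c))), ?_, ?_, ?_⟩
  · have h1 : 1 ≤ Fintype.card K := Fintype.card_pos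
    simp only [Fintype.card_sum, Fintype.card_prod, Fintype.card_bool, Fintype.card_units]
    obtain ⟨m, hm⟩ := Nat.exists_eq_add_of_le h1
    rw [hm, Nat.add_sub_cancel_left]
    nlinarith
  · rintro i j hij ⟨g0, g1, g2⟩
    have hd : h i - h j ≠ 0 := sub_ne_zero.2 (hh.ne hij)
    by_cases hg : g0 = 0
    · refine ⟨.inr (g1 / (h i - h j), g2 / (h i - h j)), _, _, rfl, rfl, ?_⟩
      subst hg
      rw [← sub_smul]
      refine Prod.ext (by simp) (Prod.ext ?_ ?_)
      · simp only [Prod.smul_mk, smul_eq_mul]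
        field_simp
      · simp only [Prod.smul_mk, smul_eq_mul]
        field_simp
    · obtain ⟨r, a, b, s, hs, h1, h2, h3⟩ := ha i j hij (g1 / g0, g2 / g0)
      refine ⟨.inl (r, Units.mk0 (g0 / s) (div_ne_zero hg hs)), (g0 / s) • a, (g0 / s) • b,
        by simp [h1], by simp [h2], ?_⟩
      rw [← smul_sub, h3, smul_smul, div_mul_cancel₀ _ hs]
      refine Prod.ext (by simp) (Prod.ext ?_ ?_)
      · simp only [Prod.smul_mk, smul_eq_mul]
        field_simp
      · simp only [Prod.smul_mk, smul_eq_mul]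
        field_simp
  · intro i j hij t
    obtain ⟨r, a, h1, h2⟩ := hb i j hij
    exact ⟨.inl (r, t), (t : K) • a, by simp [h1], by simp [h2]⟩

/-- The function `xi` of the blueprint. -/
theorem EHeavy_xi {K : Type} [Field K] {k : ℕ} (h φ : Fin k → K) (σ σ' : K)
    (hh : Function.Injective h) (hφ : Function.Injective φ) (h0 : ∀ i, h i ≠ 0)
    (hσ : σ ≠ 0) (hσ' : σ' ≠ 0)
    (h1 : ∀ i j, h i ≠ φ j) (h2 : ∀ i j l, h i * (h j * h l) ≠ σ)
    (h2' : ∀ i j l, h i * (h j * h l) ≠ σ') (h3 : ∀ i j l, φ i * (h j * h l) ≠ σ)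
    (h3' : ∀ i j l, φ i * (h j * h l) ≠ σ')
    (h4 : ∀ i j l r, σ * (h i * h j) ≠ σ' * (h l * h r)) :
    ∃ xi : Fin k → K → K,
      (∀ j l, l ≠ j → xi j (h j + h l) * (h j * h l) = if j < l then σ else σ') ∧
      (∀ j j' y, xi j y = xi j' y → j = j') ∧ ∀ j j' y, h j ≠ xi j' y := by
  have hex : ∀ j y, ∃ x : K, ((∀ l, l ≠ j → y ≠ h j + h l) ∧ x = φ j) ∨
      ∃ l, l ≠ j ∧ y = h j + h l ∧ x * (h j * h l) = if j < l then σ else σ' := by
    intro j y
    by_cases hy : ∃ l, l ≠ j ∧ y = h j + h l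
    · obtain ⟨l, hl, hy⟩ := hy
      exact ⟨(if j < l then σ else σ') / (h j * h l), Or.inr ⟨l, hl, hy,
        div_mul_cancel₀ _ (mul_ne_zero (h0 j) (h0 l))⟩⟩
    · exact ⟨φ j, Or.inl ⟨fun l hl e => hy ⟨l, hl, e⟩, rfl⟩⟩
  choose xi hxi using hex
  refine ⟨xi, fun j l hl => ?_, fun j j' y e => ?_, fun j j' y e => ?_⟩
  · rcases hxi j (h j + h l) with ⟨a, -⟩ | ⟨l', -, a, b⟩
    · exact absurd rfl (a l hl)
    · obtain rfl : l = l' := hh (add_left_cancel a)
      exact b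
  · rcases hxi j y with ⟨-, a⟩ | ⟨l, hl, a, b⟩ <;>
      rcases hxi j' y with ⟨-, a'⟩ | ⟨l', hl', a', b'⟩
    · exact hφ (by rw [← a, ← a', e])
    · rw [← e, a] at b'
      split_ifs at b'
      · exact absurd b' (h3 _ _ _)
      · exact absurd b' (h3' _ _ _)
    · rw [e, a'] at b
      split_ifs at b
      · exact absurd b (h3 _ _ _)
      · exact absurd b (h3' _ _ _)
    · rw [← e] at b'
      have key : ∀ τ : K, τ ≠ 0 → xi j y * (h j * h l) = τ → xi j y * (h j' * h l') = τ →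
          j = j' ∨ (j = l' ∧ l = j') := by
        intro τ hτ c c'
        have hx : xi j y ≠ 0 := by
          rintro hx
          rw [hx, zero_mul] at c
          exact hτ c.symm
        have hp : h j * h l = h j' * h l' := mul_left_cancel₀ hx (c.trans c'.symm)
        have hs : h j + h l = h j' + h l' := a.symm.trans a'
        have : (h j - h j') * (h j - h l') = 0 := by
          linear_combination (h j) * hs - hp
        rcases mul_eq_zero.1 this with d | d
        · exact Or.inl (hh (sub_eq_zero.1 d))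
        · have d' := sub_eq_zero.1 d
          refine Or.inr ⟨hh d', hh ?_⟩
          linear_combination hs - d'
      split_ifs at b b' with c c' c'
      · rcases key σ hσ b b' with d | ⟨d, d'⟩
        · exact d
        · subst d d'
          exact absurd c' (not_lt.2 c.le)
      · exact absurd (by linear_combination (h j * h l) * b' - (h j' * h l') * b :
          σ * (h j' * h l') = σ' * (h j * h l)) (h4 _ _ _ _)
      · exact absurd (by linear_combination (h j' * h l') * b - (h j * h l) * b' :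
          σ * (h j * h l) = σ' * (h j' * h l')) (h4 _ _ _ _)
      · rcases key σ' hσ' b b' with d | ⟨d, d'⟩
        · exact d
        · subst d d'
          exact le_antisymm (not_lt.1 c') (not_lt.1 c)
  · rcases hxi j' y with ⟨-, a⟩ | ⟨l, -, -, b⟩
    · exact h1 _ _ (e.trans a)
    · rw [← e] at b
      split_ifs at b
      · exact h2 _ _ _ b
      · exact h2' _ _ _ b

section

variable {K : Type} [Field K] {k : ℕ} (h : Fin k → K) (xi : Fin k → K → K)

/-- The special points. -/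
def EHeavy_pt (c : Fin k × Bool × K) : K × K :=
  (if c.2.1 then h c.1 else xi c.1 c.2.2, c.2.2)

/-- The label of the special point of row `j` on the line `lam` of the star `l`. -/
noncomputable def EHeavy_m (l j : Fin k) (lam : Bool × K) : Bool × K :=
  if lam.1 then (true, h j + lam.2) else (decide (lam.2 = h j + h l), lam.2)

/-- The special point of row `j` on the line `lam` of the star `l`. -/
noncomputable def EHeavy_mu (l j : Fin k) (lam : Bool × K) : K × K :=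
  EHeavy_pt h xi (j, EHeavy_m h l j lam)

/-- The direction of a line. -/
def EHeavy_e (lam : Bool × K) : K × K := (1, if lam.1 then 1 else 0)

/-- The position of the special point on the line. -/
noncomputable def EHeavy_s (l j : Fin k) (lam : Bool × K) : K :=
  (EHeavy_mu h xi l j lam).1 - (EHeavy_mu h xi l l lam).1

/-- The modified columns. -/
noncomputable def EHeavy_col (c : Fin k × Bool × K) (i : Fin k) : Option (K × K × K) :=
  if c.2 = (true, h c.1) then
    (if i = c.1 then none else some (h i • ((1 : K), EHeavy_pt h xi (c.1, false, h c.1 + h c.1))))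
  else if i = c.1 then some ((0 : K), EHeavy_e c.2)
  else some (-(EHeavy_s h xi c.1 i c.2)⁻¹ • ((1 : K), EHeavy_mu h xi c.1 c.1 c.2))

theorem EHeavy_key (l j : Fin k) (c : Bool × K) (hc : c ≠ (false, h j + h l)) :
    ∃ lam, lam ≠ (true, h l) ∧ EHeavy_m h l j lam = c := by
  obtain ⟨b, y⟩ := c
  by_cases hy : y = h j + h l
  · have hb : b = true := by
      cases b
      · exact absurd (by rw [hy]) hc
      · rfl
    exact ⟨(false, y), by simp, by simp [EHeavy_m, hy, hb]⟩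
  · cases b
    · exact ⟨(false, y), by simp, by simp [EHeavy_m, hy]⟩
    · refine ⟨(true, y - h j), fun e => hy ?_, by simp [EHeavy_m]⟩
      have := congrArg Prod.snd e
      simp only at this
      linear_combination this

theorem EHeavy_line (l j : Fin k) (lam : Bool × K) :
    EHeavy_mu h xi l j lam =
      EHeavy_mu h xi l l lam + EHeavy_s h xi l j lam • EHeavy_e lam := by
  obtain ⟨b, y⟩ := lam
  refine Prod.ext (by simp [EHeavy_s, EHeavy_e]) ?_
  cases b
  · simp [EHeavy_mu, EHeavy_m, EHeavy_pt, EHeavy_e]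
  · simp [EHeavy_mu, EHeavy_m, EHeavy_pt, EHeavy_e, EHeavy_s]
    ring

variable {h xi}

theorem EHeavy_inj (hh : Function.Injective h) (x2 : ∀ j j' y, xi j y = xi j' y → j = j')
    (x3 : ∀ j j' y, h j ≠ xi j' y) : Function.Injective (EHeavy_pt h xi) := by
  rintro ⟨j, b, y⟩ ⟨j', b', y'⟩ e
  obtain ⟨e1, e2⟩ := Prod.ext_iff.1 e
  simp only [EHeavy_pt] at e1 e2
  subst e2
  cases b <;> cases b'
  · obtain rfl : j = j' := x2 j j' y (by simpa using e1)
    rfl
  · exact absurd (by simpa using e1.symm) (x3 j' j y)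
  · exact absurd (by simpa using e1) (x3 j j' y)
  · obtain rfl : j = j' := hh (by simpa using e1)
    rfl

theorem EHeavy_s_ne (hi : Function.Injective (EHeavy_pt h xi)) (l : Fin k) {i j : Fin k}
    (hij : i ≠ j) (lam : Bool × K) : EHeavy_s h xi l i lam ≠ EHeavy_s h xi l j lam := by
  intro e
  have : EHeavy_mu h xi l i lam = EHeavy_mu h xi l j lam := by
    rw [EHeavy_line h xi l i, EHeavy_line h xi l j, e]
  exact hij (congrArg Prod.fst (hi this))

theorem EHeavy_s_ne_zero (hi : Function.Injective (EHeavy_pt h xi)) {l i : Fin k}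
    (hil : i ≠ l) (lam : Bool × K) : EHeavy_s h xi l i lam ≠ 0 := by
  have := EHeavy_s_ne hi l hil lam
  rwa [show EHeavy_s h xi l l lam = 0 from sub_self _] at this

end

/-- `|K| - 1` new symbols on `K ^ 3`, from parameters in general position. -/
theorem qdm_heavy_of {K : Type} [Field K] [Fintype K] {k : ℕ} (h φ : Fin k → K) (σ σ' : K)
    (hh : Function.Injective h) (hφ : Function.Injective φ) (h0 : ∀ i, h i ≠ 0)
    (hσ : σ ≠ 0) (hσ' : σ' ≠ 0)
    (h1 : ∀ i j, h i ≠ φ j) (h2 : ∀ i j l, h i * (h j * h l) ≠ σ)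
    (h2' : ∀ i j l, h i * (h j * h l) ≠ σ') (h3 : ∀ i j l, φ i * (h j * h l) ≠ σ)
    (h3' : ∀ i j l, φ i * (h j * h l) ≠ σ')
    (h4 : ∀ i j l r, σ * (h i * h j) ≠ σ' * (h l * h r)) : Qdm (Fin k) (K × K × K) Kˣ := by
  obtain ⟨xi, x1, x2, x3⟩ := EHeavy_xi h φ σ σ' hh hφ h0 hσ hσ' h1 h2 h2' h3 h3' h4
  have hi := EHeavy_inj hh x2 x3
  let rep : (K × K) ⊕ Bool → Fin k → Option (K × K × K) :=
    Sum.elim (Function.extend (EHeavy_pt h xi) (EHeavy_col h xi)
      fun v i => some (h i • ((1 : K), v)))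
      fun b i => some (h i, -(if b then σ else σ') / h i, h i ^ 2)
  have hrep : ∀ c, rep (.inl (EHeavy_pt h xi c)) = EHeavy_col h xi c := fun c =>
    hi.extend_apply (EHeavy_col h xi) (fun v i => some (h i • ((1 : K), v))) c
  have hone : ∀ i j, i ≠ j → ∀ c : Bool × K, ∃ r a b, ∃ s : K, s ≠ 0 ∧ rep r i = some a ∧
      rep r j = some b ∧ a - b = s • ((1 : K), EHeavy_pt h xi (i, c)) := by
    intro i j hij c
    have hd : h i - h j ≠ 0 := sub_ne_zero.2 (hh.ne hij)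
    by_cases hc : c = (false, h i + h j)
    · refine ⟨.inr (decide (i < j)), _, _, h i - h j, hd, rfl, rfl, ?_⟩
      have e := x1 i j hij.symm
      have hi0 := h0 i
      have hj0 := h0 j
      subst hc
      refine Prod.ext (by simp) (Prod.ext ?_ ?_)
      · simp only [EHeavy_pt, decide_eq_true_eq, Prod.mk_sub_mk, Prod.smul_mk, smul_eq_mul,
          Bool.false_eq_true, if_false]
        rw [← e]
        field_simp
        ring
      · simp only [EHeavy_pt, Prod.mk_sub_mk, Prod.smul_mk, smul_eq_mul]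
        ring
    · obtain ⟨lam, hl, hm⟩ := EHeavy_key h j i c hc
      have hs := EHeavy_s_ne_zero hi hij lam
      refine ⟨.inl (EHeavy_pt h xi (j, lam)),
        -(EHeavy_s h xi j i lam)⁻¹ • ((1 : K), EHeavy_mu h xi j j lam), ((0 : K), EHeavy_e lam),
        -(EHeavy_s h xi j i lam)⁻¹, neg_ne_zero.2 (inv_ne_zero hs), ?_, ?_, ?_⟩
      · rw [hrep]
        simp [EHeavy_col, hl, hij]
      · rw [hrep]
        simp [EHeavy_col, hl]
      · have e : EHeavy_pt h xi (i, c) = EHeavy_mu h xi j i lam := by rw [EHeavy_mu, hm]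
        rw [e, EHeavy_line h xi j i]
        refine Prod.ext (by simp) ?_
        simp only [Prod.smul_mk, Prod.mk_sub_mk, smul_add, smul_smul, neg_mul,
          inv_mul_cancel₀ hs, neg_smul, one_smul, Prod.neg_mk]
        abel
  refine EHeavy_asm h hh rep (fun i j hij v => ?_) fun i j hij => ?_
  · have hd : h i - h j ≠ 0 := sub_ne_zero.2 (hh.ne hij)
    by_cases hv : ∃ c, EHeavy_pt h xi c = v
    · obtain ⟨⟨r, c⟩, rfl⟩ := hv
      by_cases hri : r = i
      · subst hri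
        exact hone r j hij c
      by_cases hrj : r = j
      · subst hrj
        obtain ⟨t, a, b, s, hs, e1, e2, e3⟩ := hone r i hij.symm c
        exact ⟨t, b, a, -s, neg_ne_zero.2 hs, e2, e1, by rw [neg_smul, ← e3, neg_sub]⟩
      have hir : i ≠ r := fun e => hri e.symm
      have hjr : j ≠ r := fun e => hrj e.symm
      by_cases hc : c = (false, h r + h r)
      · subst hc
        refine ⟨.inl (EHeavy_pt h xi (r, true, h r)), h i • _, h j • _, h i - h j, hd, ?_, ?_,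
          (sub_smul _ _ _).symm⟩
        · rw [hrep]
          simp only [EHeavy_col, if_true, if_neg hir]
        · rw [hrep]
          simp only [EHeavy_col, if_true, if_neg hjr]
      · obtain ⟨lam, hl, hm⟩ := EHeavy_key h r r c hc
        have e : EHeavy_pt h xi (r, c) = EHeavy_mu h xi r r lam := by rw [EHeavy_mu, hm]
        refine ⟨.inl (EHeavy_pt h xi (r, lam)), -(EHeavy_s h xi r i lam)⁻¹ • _,
          -(EHeavy_s h xi r j lam)⁻¹ • _, -(EHeavy_s h xi r i lam)⁻¹ - -(EHeavy_s h xi r j lam)⁻¹,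
          ?_, ?_, ?_, (sub_smul _ _ _).symm⟩
        · exact sub_ne_zero.2 fun a => EHeavy_s_ne hi r hij lam (inv_injective (neg_injective a))
        · rw [hrep, e]
          simp only [EHeavy_col, if_neg hl, if_neg hir]
        · rw [hrep, e]
          simp only [EHeavy_col, if_neg hl, if_neg hjr]
    · have e : rep (.inl v) = fun i => some (h i • ((1 : K), v)) :=
        Function.extend_apply' (EHeavy_col h xi) (fun v i => some (h i • ((1 : K), v))) v hv
      exact ⟨.inl v, h i • _, h j • _, h i - h j, hd, by rw [e], by rw [e], (sub_smul _ _ _).symm⟩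
  · refine ⟨.inl (EHeavy_pt h xi (j, true, h j)),
      h i • ((1 : K), EHeavy_pt h xi (j, false, h j + h j)), ?_, ?_⟩
    · rw [hrep]
      simp only [EHeavy_col, if_true, if_neg hij]
    · rw [hrep]
      simp only [EHeavy_col, if_true]

/-- Take `h j = γ ^ j`, `φ j = γ ^ (k + j)`, `σ = γ ^ (4 * k)`, `σ' = γ ^ (6 * k)` for a
generator `γ` of `Kˣ`. -/
theorem qdm_heavy {K : Type} [Field K] [Fintype K] {k : ℕ} (hq : 8 * k + 1 < Fintype.card K) :
    Qdm (Fin k) (K × K × K) Kˣ := by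
  obtain ⟨γ, hγ⟩ := IsCyclic.exists_generator (α := Kˣ)
  have ho : orderOf γ = Fintype.card K - 1 := by
    rw [orderOf_eq_card_of_forall_mem_zpowers hγ, Nat.card_eq_fintype_card, Fintype.card_units]
  have hinj : ∀ a b : ℕ, a ≤ 8 * k → b ≤ 8 * k → (γ : K) ^ a = (γ : K) ^ b → a = b := by
    intro a b ha hb e
    refine pow_injOn_Iio_orderOf (x := γ) (by simp only [Set.mem_Iio]; omega)
      (by simp only [Set.mem_Iio]; omega) (Units.ext ?_)
    simpa using e
  have hne : ∀ a : ℕ, (γ : K) ^ a ≠ 0 := fun a => pow_ne_zero _ γ.ne_zero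
  refine qdm_heavy_of (fun j => (γ : K) ^ (j : ℕ)) (fun j => (γ : K) ^ (k + j)) (γ ^ (4 * k))
    (γ ^ (6 * k)) (fun i j e => ?_) (fun i j e => ?_) (fun i => hne _) (hne _) (hne _)
    (fun i j e => ?_) (fun i j l e => ?_) (fun i j l e => ?_) (fun i j l e => ?_)
    (fun i j l e => ?_) (fun i j l r e => ?_)
  · have := hinj _ _ (by omega) (by omega) e
    exact Fin.ext this
  · have := hinj _ _ (by omega) (by omega) e
    exact Fin.ext (by omega)
  · have := hinj _ _ (by omega) (by omega) e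
    omega
  · simp only [← pow_add] at e
    have := hinj _ _ (by omega) (by omega) e
    omega
  · simp only [← pow_add] at e
    have := hinj _ _ (by omega) (by omega) e
    omega
  · simp only [← pow_add] at e
    have := hinj _ _ (by omega) (by omega) e
    omega
  · simp only [← pow_add] at e
    have := hinj _ _ (by omega) (by omega) e
    omega
  · simp only [← pow_add] at e
    have := hinj _ _ (by omega) (by omega) e
    omega

end Pool.Agent.MP_c7a479_co.Ex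

end

section

namespace Pool.Agent.MP_c7a479_co.Ex

open Finset
open scoped Classical

/-- Projective representatives, from parameters in general position. -/
theorem rep_heavy_of {K : Type} [Field K] [Fintype K] {k : ℕ} (h φ : Fin k → K) (σ σ' : K)
    (hh : Function.Injective h) (hφ : Function.Injective φ) (h0 : ∀ i, h i ≠ 0)
    (hσ : σ ≠ 0) (hσ' : σ' ≠ 0)
    (h1 : ∀ i j, h i ≠ φ j) (h2 : ∀ i j l, h i * (h j * h l) ≠ σ)
    (h2' : ∀ i j l, h i * (h j * h l) ≠ σ') (h3 : ∀ i j l, φ i * (h j * h l) ≠ σ)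
    (h3' : ∀ i j l, φ i * (h j * h l) ≠ σ')
    (h4 : ∀ i j l r, σ * (h i * h j) ≠ σ' * (h l * h r)) :
    ∃ rep : (K × K) ⊕ Bool → Fin k → Option (K × K × K),
      (∀ i j, i ≠ j → ∀ v : K × K, ∃ r a b, ∃ s : K, s ≠ 0 ∧ rep r i = some a ∧
        rep r j = some b ∧ a - b = s • ((1 : K), v)) ∧
      ∀ i j, i ≠ j → ∃ r a, rep r i = some a ∧ rep r j = none := by
  obtain ⟨xi, x1, x2, x3⟩ := EHeavy_xi h φ σ σ' hh hφ h0 hσ hσ' h1 h2 h2' h3 h3' h4
  have hi := EHeavy_inj hh x2 x3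
  let rep : (K × K) ⊕ Bool → Fin k → Option (K × K × K) :=
    Sum.elim (Function.extend (EHeavy_pt h xi) (EHeavy_col h xi)
      fun v i => some (h i • ((1 : K), v)))
      fun b i => some (h i, -(if b then σ else σ') / h i, h i ^ 2)
  have hrep : ∀ c, rep (.inl (EHeavy_pt h xi c)) = EHeavy_col h xi c := fun c =>
    hi.extend_apply (EHeavy_col h xi) (fun v i => some (h i • ((1 : K), v))) c
  have hone : ∀ i j, i ≠ j → ∀ c : Bool × K, ∃ r a b, ∃ s : K, s ≠ 0 ∧ rep r i = some a ∧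
      rep r j = some b ∧ a - b = s • ((1 : K), EHeavy_pt h xi (i, c)) := by
    intro i j hij c
    have hd : h i - h j ≠ 0 := sub_ne_zero.2 (hh.ne hij)
    by_cases hc : c = (false, h i + h j)
    · refine ⟨.inr (decide (i < j)), _, _, h i - h j, hd, rfl, rfl, ?_⟩
      have e := x1 i j hij.symm
      have hi0 := h0 i
      have hj0 := h0 j
      subst hc
      refine Prod.ext (by simp) (Prod.ext ?_ ?_)
      · simp only [EHeavy_pt, decide_eq_true_eq, Prod.mk_sub_mk, Prod.smul_mk, smul_eq_mul,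
          Bool.false_eq_true, if_false]
        rw [← e]
        field_simp
        ring
      · simp only [EHeavy_pt, Prod.mk_sub_mk, Prod.smul_mk, smul_eq_mul]
        ring
    · obtain ⟨lam, hl, hm⟩ := EHeavy_key h j i c hc
      have hs := EHeavy_s_ne_zero hi hij lam
      refine ⟨.inl (EHeavy_pt h xi (j, lam)),
        -(EHeavy_s h xi j i lam)⁻¹ • ((1 : K), EHeavy_mu h xi j j lam), ((0 : K), EHeavy_e lam),
        -(EHeavy_s h xi j i lam)⁻¹, neg_ne_zero.2 (inv_ne_zero hs), ?_, ?_, ?_⟩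
      · rw [hrep]
        simp [EHeavy_col, hl, hij]
      · rw [hrep]
        simp [EHeavy_col, hl]
      · have e : EHeavy_pt h xi (i, c) = EHeavy_mu h xi j i lam := by rw [EHeavy_mu, hm]
        rw [e, EHeavy_line h xi j i]
        refine Prod.ext (by simp) ?_
        simp only [Prod.smul_mk, Prod.mk_sub_mk, smul_add, smul_smul,
          inv_mul_cancel₀ hs, neg_smul, one_smul, Prod.neg_mk]
        abel
  refine ⟨rep, fun i j hij v => ?_, fun i j hij => ?_⟩
  · have hd : h i - h j ≠ 0 := sub_ne_zero.2 (hh.ne hij)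
    by_cases hv : ∃ c, EHeavy_pt h xi c = v
    · obtain ⟨⟨r, c⟩, rfl⟩ := hv
      by_cases hri : r = i
      · subst hri
        exact hone r j hij c
      by_cases hrj : r = j
      · subst hrj
        obtain ⟨t, a, b, s, hs, e1, e2, e3⟩ := hone r i hij.symm c
        exact ⟨t, b, a, -s, neg_ne_zero.2 hs, e2, e1, by rw [neg_smul, ← e3, neg_sub]⟩
      have hir : i ≠ r := fun e => hri e.symm
      have hjr : j ≠ r := fun e => hrj e.symm
      by_cases hc : c = (false, h r + h r)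
      · subst hc
        refine ⟨.inl (EHeavy_pt h xi (r, true, h r)), h i • _, h j • _, h i - h j, hd, ?_, ?_,
          (sub_smul _ _ _).symm⟩
        · rw [hrep]
          simp only [EHeavy_col, if_true, if_neg hir]
        · rw [hrep]
          simp only [EHeavy_col, if_true, if_neg hjr]
      · obtain ⟨lam, hl, hm⟩ := EHeavy_key h r r c hc
        have e : EHeavy_pt h xi (r, c) = EHeavy_mu h xi r r lam := by rw [EHeavy_mu, hm]
        refine ⟨.inl (EHeavy_pt h xi (r, lam)), -(EHeavy_s h xi r i lam)⁻¹ • _,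
          -(EHeavy_s h xi r j lam)⁻¹ • _, -(EHeavy_s h xi r i lam)⁻¹ - -(EHeavy_s h xi r j lam)⁻¹,
          ?_, ?_, ?_, (sub_smul _ _ _).symm⟩
        · exact sub_ne_zero.2 fun a => EHeavy_s_ne hi r hij lam (inv_injective (neg_injective a))
        · rw [hrep, e]
          simp only [EHeavy_col, if_neg hl, if_neg hir]
        · rw [hrep, e]
          simp only [EHeavy_col, if_neg hl, if_neg hjr]
    · have e : rep (.inl v) = fun i => some (h i • ((1 : K), v)) :=
        Function.extend_apply' (EHeavy_col h xi) (fun v i => some (h i • ((1 : K), v))) v hv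
      exact ⟨.inl v, h i • _, h j • _, h i - h j, hd, by rw [e], by rw [e], (sub_smul _ _ _).symm⟩
  · refine ⟨.inl (EHeavy_pt h xi (j, true, h j)),
      h i • ((1 : K), EHeavy_pt h xi (j, false, h j + h j)), ?_, ?_⟩
    · rw [hrep]
      simp only [EHeavy_col, if_true, if_neg hij]
    · rw [hrep]
      simp only [EHeavy_col, if_true]

/-- Take `h j = γ ^ j`, `φ j = γ ^ (k + j)`, `σ = γ ^ (4 * k)`, `σ' = γ ^ (6 * k)` for a
generator `γ` of `Kˣ`. -/
theorem rep_heavy {K : Type} [Field K] [Fintype K] {k : ℕ} (hq : 8 * k + 1 < Fintype.card K) :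
    ∃ rep : (K × K) ⊕ Bool → Fin k → Option (K × K × K),
      (∀ i j, i ≠ j → ∀ v : K × K, ∃ r a b, ∃ s : K, s ≠ 0 ∧ rep r i = some a ∧
        rep r j = some b ∧ a - b = s • ((1 : K), v)) ∧
      ∀ i j, i ≠ j → ∃ r a, rep r i = some a ∧ rep r j = none := by
  obtain ⟨γ, hγ⟩ := IsCyclic.exists_generator (α := Kˣ)
  have ho : orderOf γ = Fintype.card K - 1 := by
    rw [orderOf_eq_card_of_forall_mem_zpowers hγ, Nat.card_eq_fintype_card, Fintype.card_units]
  have hinj : ∀ a b : ℕ, a ≤ 8 * k → b ≤ 8 * k → (γ : K) ^ a = (γ : K) ^ b → a = b := by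
    intro a b ha hb e
    refine pow_injOn_Iio_orderOf (x := γ) (by simp only [Set.mem_Iio]; omega)
      (by simp only [Set.mem_Iio]; omega) (Units.ext ?_)
    simpa using e
  have hne : ∀ a : ℕ, (γ : K) ^ a ≠ 0 := fun a => pow_ne_zero _ γ.ne_zero
  refine rep_heavy_of (fun j => (γ : K) ^ (j : ℕ)) (fun j => (γ : K) ^ (k + j)) (γ ^ (4 * k))
    (γ ^ (6 * k)) (fun i j e => ?_) (fun i j e => ?_) (fun i => hne _) (hne _) (hne _)
    (fun i j e => ?_) (fun i j l e => ?_) (fun i j l e => ?_) (fun i j l e => ?_)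
    (fun i j l e => ?_) (fun i j l r e => ?_)
  · have := hinj _ _ (by omega) (by omega) e
    exact Fin.ext this
  · have := hinj _ _ (by omega) (by omega) e
    exact Fin.ext (by omega)
  · have := hinj _ _ (by omega) (by omega) e
    omega
  · simp only [← pow_add] at e
    have := hinj _ _ (by omega) (by omega) e
    omega
  · simp only [← pow_add] at e
    have := hinj _ _ (by omega) (by omega) e
    omega
  · simp only [← pow_add] at e
    have := hinj _ _ (by omega) (by omega) e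
    omega
  · simp only [← pow_add] at e
    have := hinj _ _ (by omega) (by omega) e
    omega
  · simp only [← pow_add] at e
    have := hinj _ _ (by omega) (by omega) e
    omega

/-- A heavy layer: `|K| - 1` new symbols, hub columns left out. -/
theorem cov_heavy {K : Type} [Field K] [Fintype K] {k : ℕ} (hq : 8 * k + 1 < Fintype.card K)
    {h : Fin k → K} (hh : Function.Injective h) :
    Cov k (K × K × K) (Fintype.card K - 1)
      (Fintype.card (K × K × K) - k + 2 * (Fintype.card K - 1)) (Free h) := by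
  obtain ⟨rep, ha, hb⟩ := rep_heavy hq
  have f : Kˣ ≃ Fin (Fintype.card K - 1) := Fintype.equivFinOfCardEq (Fintype.card_units K)
  have hi : Function.Injective fun l => ((h l, 0) : K × K) := fun _ _ e => hh (congrArg Prod.fst e)
  refine ⟨(((K × K) ⊕ Bool) × Kˣ) ⊕ {c : K × K // ∀ l, c ≠ (h l, 0)}, inferInstance,
    Sum.elim (fun c i => (rep c.1 i).elim (.inr (f c.2)) fun a => .inl ((c.2 : K) • a))
      (fun c i => .inl (h i • ((0 : K), c.1))), ?_, ?_, ?_⟩
  · rw [Fintype.card_sum, card_off hi]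
    simp only [Fintype.card_sum, Fintype.card_prod, Fintype.card_bool, Fintype.card_units]
    obtain ⟨m, hm⟩ : ∃ m, Fintype.card K = m + 1 := ⟨Fintype.card K - 1, by omega⟩
    rw [hm, Nat.add_sub_cancel]
    have h1 : k ≤ (m + 1) * (m + 1) := by nlinarith
    have h2 : (m + 1) * ((m + 1) * (m + 1)) = (m + 1) * (m + 1) * m + (m + 1) * (m + 1) := by ring
    rw [add_mul]
    omega
  · rintro i j hij ⟨g0, g1, g2⟩ hg
    have hd : h i - h j ≠ 0 := sub_ne_zero.2 (hh.ne hij.ne)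
    by_cases hg0 : g0 = 0
    · subst hg0
      have key : (h i - h j) • ((0 : K), (g1 / (h i - h j), g2 / (h i - h j))) = (0, g1, g2) := by
        refine Prod.ext (by simp) (Prod.ext ?_ ?_)
        · simp only [Prod.smul_mk, smul_eq_mul]
          field_simp
        · simp only [Prod.smul_mk, smul_eq_mul]
          field_simp
      exact ⟨.inr ⟨(g1 / (h i - h j), g2 / (h i - h j)), fun l e => hg l (by rw [← key, e]; rfl)⟩,
        _, _, rfl, rfl, by rw [← sub_smul, key]⟩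
    · obtain ⟨r, a, b, s, hs, h1, h2, h3⟩ := ha i j hij.ne (g1 / g0, g2 / g0)
      refine ⟨.inl (r, Units.mk0 (g0 / s) (div_ne_zero hg0 hs)), (g0 / s) • a, (g0 / s) • b,
        by simp [h1], by simp [h2], ?_⟩
      rw [← smul_sub, h3, smul_smul, div_mul_cancel₀ _ hs]
      refine Prod.ext (by simp) (Prod.ext ?_ ?_)
      · simp only [Prod.smul_mk, smul_eq_mul]
        field_simp
      · simp only [Prod.smul_mk, smul_eq_mul]
        field_simp
  · intro i j hij t
    obtain ⟨r, a, h1, h2⟩ := hb i j hij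
    exact ⟨.inl (r, f.symm t), (f.symm t : K) • a, by simp [h1], by simp [h2]⟩

end Pool.Agent.MP_c7a479_co.Ex

end

section

namespace Pool.Agent.MP_c7a479_co.Ex

open Finset
open scoped Classical

/-- The shift of the pair `i, j`. -/
def bet {k : ℕ} (i j : Fin k) : ℕ := 2 * k * (i ^ 2 + i * j + j ^ 2) + (i + j)

theorem bet_lt {k : ℕ} (i j : Fin k) : bet i j < 6 * k ^ 3 := by
  obtain ⟨i, hi⟩ := i
  obtain ⟨j, hj⟩ := j
  obtain ⟨m, rfl⟩ : ∃ m, k = m + 1 := ⟨k - 1, by omega⟩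
  have h1 : i ≤ m := by omega
  have h2 : j ≤ m := by omega
  have h3 : i ^ 2 + i * j + j ^ 2 ≤ m ^ 2 + m * m + m ^ 2 := by gcongr
  have h4 := Nat.mul_le_mul_left (2 * (m + 1)) h3
  simp only [bet]
  nlinarith [Nat.zero_le (m ^ 2), Nat.zero_le m]

theorem bet_inj {k : ℕ} {i j p q : Fin k} (hij : i < j) (hpq : p < q) (h : bet i j = bet p q) :
    i = p ∧ j = q := by
  have h1 : (i : ℕ) + j = p + q := by
    have := congrArg (· % (2 * k)) h
    simp only [bet, Nat.mul_add_mod] at this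
    rwa [Nat.mod_eq_of_lt (by omega), Nat.mod_eq_of_lt (by omega)] at this
  have h2 : (i : ℕ) ^ 2 + i * j + j ^ 2 = p ^ 2 + p * q + q ^ 2 := by
    rw [bet, bet, h1] at h
    exact Nat.eq_of_mul_eq_mul_left (by omega) (Nat.add_right_cancel h)
  have h3 : ((i : ℕ) : ℤ) + (j : ℕ) = (p : ℕ) + (q : ℕ) := by exact_mod_cast h1
  have h4 : ((i : ℕ) : ℤ) ^ 2 + (i : ℕ) * (j : ℕ) + (j : ℕ) ^ 2 =
      (p : ℕ) ^ 2 + (p : ℕ) * (q : ℕ) + (q : ℕ) ^ 2 := by exact_mod_cast h2
  have h5 : (((i : ℕ) : ℤ) - (p : ℕ)) * ((i : ℕ) - (q : ℕ)) = 0 := by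
    linear_combination h4 - ((j : ℕ) + (p : ℕ) + (q : ℕ) : ℤ) * h3
  have h6 : (i : ℕ) < j := hij
  have h7 : (p : ℕ) < q := hpq
  rcases mul_eq_zero.1 h5 with e | e
  · exact ⟨Fin.ext (by omega), Fin.ext (by omega)⟩
  · omega

theorem sum_val {t : ℕ} [NeZero t] (f : ℕ → ℕ) : ∑ ρ : ZMod t, f ρ.val = ∑ v ∈ range t, f v := by
  obtain ⟨s, rfl⟩ := Nat.exists_eq_succ_of_ne_zero (NeZero.ne t)
  exact Fin.sum_univ_eq_sum_range f (s + 1)

theorem unit_sub {k t : ℕ} (hp : ∀ p : ℕ, p.Prime → p ∣ t → k ≤ p) {i j : Fin k} (h : j < i) :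
    IsUnit (((i : ℕ) : ZMod t) - (j : ℕ)) := by
  have h1 : (j : ℕ) < i := h
  rw [← Nat.cast_sub h1.le, ZMod.isUnit_iff_coprime]
  refine Nat.coprime_of_dvd fun p hp' h2 h3 => ?_
  have := Nat.le_of_dvd (by omega) h2
  have := hp p hp' h3
  omega

/-- `a` heavy layers and `b` single new symbols. -/
theorem itd_layers {K : Type} [Field K] [Fintype K] {k t a b : ℕ} {h : Fin k → K}
    (hh : Function.Injective h) (hap : ∀ i j l, h i + h j = 2 * h l → i = j) (hk : 1 ≤ k)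
    (hq : 8 * k + 1 < Fintype.card K) (ht : t ≠ 0) (hp : ∀ p : ℕ, p.Prime → p ∣ t → k ≤ p)
    (hab : b * (6 * k ^ 3) + a ≤ t) :
    Itd (Fin k) (Fin (Fintype.card K ^ 3 * t)) (Fin ((Fintype.card K - 1) * a + b)) := by
  have : NeZero t := ⟨ht⟩
  set S := 6 * k ^ 3 with hS
  have hS0 : 0 < S := by positivity
  have hV : k ≤ Fintype.card (K × K × K) := by
    simp only [Fintype.card_prod]
    exact le_trans (by omega) (Nat.le_mul_of_pos_right _ (by positivity))
  let u : ℕ → ℕ := fun v => if b * S ≤ v ∧ v < b * S + a then Fintype.card K - 1 else 0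
  let u' : ℕ → ℕ := fun v => if S ∣ v ∧ v < b * S then 1 else 0
  have main := asm (V := K × K × K) (R := ZMod t) (fun i : Fin k => ((i : ℕ) : ZMod t))
    (fun i => 2 * k * ((i : ℕ) : ZMod t) ^ 3 + ((i : ℕ) : ZMod t) ^ 2) (fun i j => (bet i j : ℕ))
    (fun i j hij => by
      rcases lt_or_gt_of_ne hij with e | e
      · exact neg_sub ((j : ℕ) : ZMod t) _ ▸ (unit_sub hp e).neg
      · exact unit_sub hp e)
    (fun i j => by simp only [bet]; push_cast; ring)
    (fun ρ => u ρ.val) (fun ρ => u' ρ.val)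
    (fun ρ => Fintype.card (K × K × K) - k + 2 * u ρ.val) (fun ρ => k + 2 * u' ρ.val)
    (fun ρ i j g => if ρ.val < b * S ∧ ρ.val % S = bet i j then Spec h i j g else Free h i j g)
    (fun ρ i j g => if S ∣ ρ.val ∧ ρ.val < b * S then Base h i j g else ¬ Free h i j g)
    (fun ρ => by
      by_cases h1 : ρ.val < b * S
      · have e : u ρ.val = 0 := if_neg (by omega)
        rw [e]
        by_cases h2 : ∃ p q : Fin k, p < q ∧ ρ.val % S = bet p q
        · obtain ⟨p, q, hpq, h2⟩ := h2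
          refine (cov_priv hh hap hpq).mono fun i j hij g hg => ?_
          by_cases h3 : i = p ∧ j = q
          · rw [if_pos h3]
            rwa [if_pos ⟨h1, by rw [h2, h3.1, h3.2]⟩] at hg
          · rw [if_neg h3]
            rwa [if_neg fun e => h3 (bet_inj hij hpq (e.2.symm.trans h2))] at hg
        · refine (cov_free hh).mono fun i j hij g hg => ?_
          rwa [if_neg fun e => h2 ⟨i, j, hij, e.2⟩] at hg
      · by_cases h2 : ρ.val < b * S + a
        · have e : u ρ.val = Fintype.card K - 1 := if_pos ⟨by omega, h2⟩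
          rw [e]
          exact (cov_heavy hq hh).mono fun i j _ g hg => by rwa [if_neg fun e => h1 e.1] at hg
        · have e : u ρ.val = 0 := if_neg fun e => h2 e.2
          rw [e]
          exact (cov_free hh).mono fun i j _ g hg => by rwa [if_neg fun e => h1 e.1] at hg)
    (fun ρ => by
      by_cases h1 : S ∣ ρ.val ∧ ρ.val < b * S
      · have e : u' ρ.val = 1 := if_pos h1
        rw [e]
        exact cov_base.mono fun i j _ g hg => by rwa [if_pos h1] at hg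
      · have e : u' ρ.val = 0 := if_neg h1
        rw [e]
        exact cov_hub.mono fun i j _ g hg => by rwa [if_neg h1] at hg)
    (fun ρ => by omega)
    (fun i j _ ρ g => by
      have hb : bet i j < S := bet_lt i j
      by_cases h1 : S ∣ ρ.val ∧ ρ.val < b * S
      · obtain ⟨⟨c, hc⟩, h2⟩ := id h1
        have h3 : c + 1 ≤ b := by
          rw [hc, mul_comm] at h2
          exact Nat.lt_of_mul_lt_mul_right h2
        have h4 : S * c + S ≤ b * S := by nlinarith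
        have h5 : (ρ + (bet i j : ℕ)).val = S * c + bet i j := by
          rw [← ZMod.natCast_zmod_val ρ, ← Nat.cast_add, ZMod.val_natCast_of_lt (by omega), hc]
        rw [if_pos h1, if_pos ⟨by omega, by rw [h5, Nat.mul_add_mod, Nat.mod_eq_of_lt hb]⟩]
        exact spec_or_base h i j g
      · rw [if_neg h1, if_neg]
        · exact em _
        rintro ⟨h2, h3⟩
        have h4 := Nat.div_add_mod (ρ + (bet i j : ℕ)).val S
        set c := (ρ + (bet i j : ℕ)).val / S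
        have h5 : ρ = ((S * c : ℕ) : ZMod t) := by
          have := ZMod.natCast_zmod_val (ρ + ((bet i j : ℕ) : ZMod t))
          rw [← h4, h3, Nat.cast_add] at this
          exact (add_right_cancel this).symm
        have h6 : ρ.val = S * c := by rw [h5, ZMod.val_natCast_of_lt (by omega)]
        exact h1 ⟨⟨c, h6⟩, by omega⟩)
  refine main.itd.of_card (by simp only [Fintype.card_prod, ZMod.card, Fintype.card_fin]; ring) ?_
  simp only [Fintype.card_sum, Fintype.card_sigma, Fintype.card_fin]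
  rw [sum_val u, sum_val u']
  congr 1
  · rw [← sum_filter, sum_const, smul_eq_mul, mul_comm]
    congr 1
    rw [show filter (fun v => b * S ≤ v ∧ v < b * S + a) (range t) = Ico (b * S) (b * S + a) by
      ext v
      simp only [mem_filter, mem_range, mem_Ico]
      omega]
    simp
  · rw [← sum_filter, sum_const, smul_eq_mul, mul_one,
      show filter (fun v => S ∣ v ∧ v < b * S) (range t) = (range b).image (· * S) by
        ext v
        simp only [mem_filter, mem_range, mem_image]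
        constructor
        · rintro ⟨-, ⟨c, rfl⟩, h2⟩
          rw [mul_comm] at h2
          exact ⟨c, Nat.lt_of_mul_lt_mul_right h2, mul_comm _ _⟩
        · rintro ⟨c, h1, rfl⟩
          have := Nat.mul_lt_mul_of_pos_right h1 hS0
          exact ⟨by omega, dvd_mul_left _ _, this⟩,
      card_image_of_injective _ (mul_left_injective₀ hS0.ne'), card_range]

end Pool.Agent.MP_c7a479_co.Ex

end

section

namespace Pool.Agent.MP_c7a479_co.Ex

open Finset
open scoped Classical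

theorem EField_num {δ : ℝ} (hδ : 0 < δ) {k : ℕ} (hk : 0 < k) (h1 : 1 ≤ Real.log k)
    (h2 : 16 * (2 + δ) / δ ^ 2 ≤ Real.log k) (h3 : 27 / δ ≤ Real.log k) :
    ∃ N : ℕ, k ≤ rothNumberNat N ∧ ((2 * (2 * N + 10 * k) : ℕ) : ℝ) ≤ (k : ℝ) ^ (1 + 2 * δ) := by
  have k0 : (0 : ℝ) < k := by exact_mod_cast hk
  set x := Real.log k with hx
  have ek : (k : ℝ) = Real.exp x := (Real.exp_log k0).symm
  set y := Real.exp (x * (1 + δ)) with hy
  have y1 : (k : ℝ) ≤ y := by
    rw [ek, hy, Real.exp_le_exp]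
    nlinarith
  have k1 : (1 : ℝ) ≤ k := by exact_mod_cast hk
  have n1 : y ≤ (⌈y⌉₊ : ℝ) := Nat.le_ceil y
  have n2 : (⌈y⌉₊ : ℝ) ≤ 2 * y := by
    have := Nat.ceil_lt_add_one (show 0 ≤ y by positivity)
    linarith
  refine ⟨⌈y⌉₊, ?_, ?_⟩
  · have l1 : Real.log (⌈y⌉₊ : ℝ) ≤ (2 + δ) * x := by
      have := Real.log_le_log (by linarith) n2
      rw [Real.log_mul two_ne_zero (by linarith), hy, Real.log_exp] at this
      have := Real.log_le_sub_one_of_pos (show (0 : ℝ) < 2 by norm_num)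
      linarith
    have l2 : √(Real.log (⌈y⌉₊ : ℝ)) ≤ δ * x / 4 := by
      rw [div_le_iff₀ (by positivity)] at h2
      refine Real.sqrt_le_iff.2 ⟨by positivity, l1.trans ?_⟩
      nlinarith
    have l3 : (k : ℝ) ≤ (⌈y⌉₊ : ℝ) * Real.exp (-4 * √(Real.log (⌈y⌉₊ : ℝ))) := by
      calc (k : ℝ) = y * Real.exp (-(δ * x)) := by
            rw [hy, ← Real.exp_add, ek]
            congr 1
            ring
        _ ≤ _ := mul_le_mul n1 (Real.exp_le_exp.2 (by linarith)) (by positivity) (by positivity)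
    exact_mod_cast l3.trans Behrend.roth_lower_bound
  · have e : (k : ℝ) ^ (1 + 2 * δ) = y * Real.exp (δ * x) := by
      rw [Real.rpow_def_of_pos k0, hy, ← Real.exp_add]
      congr 1
      ring
    have l4 : 28 ≤ Real.exp (δ * x) := by
      rw [div_le_iff₀ hδ] at h3
      linarith [Real.add_one_le_exp (δ * x)]
    rw [e]
    push_cast
    nlinarith

/-- Fields of characteristic two. -/
theorem field_even {k : ℕ} (hk : 1 ≤ k) : ∃ (K : Type) (_ : Field K) (_ : Fintype K) (a : Fin k → K),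
    Function.Injective a ∧ (∀ i j l, a i + a j = 2 * a l → i = j) ∧ 10 * k ≤ Fintype.card K ∧
      Fintype.card K ≤ 20 * k ∧ ∃ e, 1 ≤ e ∧ Fintype.card K = 2 ^ e := by
  obtain ⟨n, h1, h2⟩ : ∃ n, 2 ^ n ≤ 10 * k ∧ 10 * k < 2 ^ (n + 1) :=
    ⟨_, Nat.pow_log_le_self 2 (by omega), Nat.lt_pow_succ_log_self one_lt_two _⟩
  let _ : Fintype (GaloisField 2 (n + 1)) := Fintype.ofFinite _
  have hc : Fintype.card (GaloisField 2 (n + 1)) = 2 ^ (n + 1) := by
    rw [← Nat.card_eq_fintype_card, GaloisField.card 2 (n + 1) (by omega)]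
  obtain ⟨a⟩ : Nonempty (Fin k ↪ GaloisField 2 (n + 1)) :=
    Function.Embedding.nonempty_of_card_le (by rw [hc, Fintype.card_fin]; omega)
  refine ⟨GaloisField 2 (n + 1), inferInstance, inferInstance, a, a.injective, fun i j l h => ?_,
    by omega, by rw [hc, pow_succ]; omega, n + 1, by omega, hc⟩
  rw [two_mul, CharTwo.add_self_eq_zero, CharTwo.add_eq_zero] at h
  exact a.injective h

/-- Prime fields, with a Behrend set (`Behrend.roth_lower_bound`, `rothNumberNat_spec`) and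
Bertrand's postulate. -/
theorem field_odd {ε : ℝ} (hε : 0 < ε) : ∃ k₀ : ℕ, ∀ k : ℕ, k₀ ≤ k →
    ∃ (K : Type) (_ : Field K) (_ : Fintype K) (a : Fin k → K),
      Function.Injective a ∧ (∀ i j l, a i + a j = 2 * a l → i = j) ∧ 10 * k ≤ Fintype.card K ∧
        (Fintype.card K : ℝ) ≤ (k : ℝ) ^ (1 + ε) ∧ (Fintype.card K).Prime := by
  have ht : Filter.Tendsto (fun k : ℕ => Real.log k) Filter.atTop Filter.atTop :=
    Real.tendsto_log_atTop.comp tendsto_natCast_atTop_atTop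
  obtain ⟨k₀, hk₀⟩ := Filter.eventually_atTop.1 (((Filter.eventually_gt_atTop 0).and
    (ht.eventually_ge_atTop 1)).and ((ht.eventually_ge_atTop (16 * (2 + ε / 2) / (ε / 2) ^ 2)).and
      (ht.eventually_ge_atTop (27 / (ε / 2)))))
  refine ⟨k₀, fun k hk => ?_⟩
  obtain ⟨⟨h0, h1⟩, h2, h3⟩ := hk₀ k hk
  obtain ⟨N, hN, hb⟩ := EField_num (half_pos hε) h0 h1 h2 h3
  rw [mul_div_cancel₀ ε two_ne_zero] at hb
  obtain ⟨t, ht1, ht2, ht3⟩ := rothNumberNat_spec N
  obtain ⟨q, hq, q1, q2⟩ := Nat.exists_prime_lt_and_le_two_mul (2 * N + 10 * k) (by omega)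
  have : Fact q.Prime := ⟨hq⟩
  let f := t.orderEmbOfCardLe (ht2 ▸ hN : k ≤ #t)
  have fm : ∀ i, f i ∈ t := t.orderEmbOfCardLe_mem _
  have fl : ∀ i, f i < N := fun i => mem_range.1 (ht1 (fm i))
  have cast : ∀ a b : ℕ, a < q → b < q → (a : ZMod q) = b → a = b := fun a b ha hb e => by
    rwa [ZMod.natCast_eq_natCast_iff', Nat.mod_eq_of_lt ha, Nat.mod_eq_of_lt hb] at e
  refine ⟨ZMod q, inferInstance, inferInstance, fun i => (f i : ℕ), fun i j e => ?_,
    fun i j l e => ?_, by rw [ZMod.card]; omega, ?_, by rwa [ZMod.card]⟩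
  · exact f.injective (cast _ _ (by have := fl i; omega) (by have := fl j; omega) e)
  · have e' : f i + f j = f l + f l :=
      cast _ _ (by have := fl i; have := fl j; omega) (by have := fl l; omega)
        (by push_cast; rw [e, two_mul])
    exact f.injective ((ht3 (fm i) (fm l) (fm j) e').trans
      (ht3 (fm j) (fm l) (fm i) ((add_comm _ _).trans e')).symm)
  · rw [ZMod.card]
    exact le_trans (by exact_mod_cast q2) hb

end Pool.Agent.MP_c7a479_co.Ex

end

section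

namespace Pool.Agent.MP_c7a479_co.Ex

open Finset
open scoped Classical

variable {r r' : ℕ → ℕ}

theorem ECrt_base (q a x Z : ℕ) (hq : 0 < q) :
    |(#{t ∈ Ico x (x + Z) | t ≡ a [MOD q]} : ℝ) - Z / q| ≤ 1 := by
  have h := Nat.Ico_filter_modEq_card x (x + Z) hq a
  have hq' : (0 : ℚ) < q := by exact_mod_cast hq
  set u : ℚ := ((x : ℚ) - a) / q with hu
  have e : (((x + Z : ℕ) : ℚ) - a) / q = u + Z / q := by rw [hu]; push_cast; ring
  rw [e] at h
  have hz : (0 : ℚ) ≤ Z / q := by positivity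
  have h0 : ⌈u⌉ ≤ ⌈u + Z / q⌉ := Int.ceil_mono (by linarith)
  rw [max_eq_left (by omega)] at h
  have h1 : ((#{t ∈ Ico x (x + Z) | t ≡ a [MOD q]} : ℕ) : ℚ) = ⌈u + Z / q⌉ - ⌈u⌉ := by
    exact_mod_cast h
  have h2 : |((#{t ∈ Ico x (x + Z) | t ≡ a [MOD q]} : ℕ) : ℚ) - Z / q| ≤ 1 := by
    rw [h1, abs_le]
    have a1 := Int.le_ceil u
    have a2 := Int.ceil_lt_add_one u
    have a3 := Int.le_ceil (u + Z / q)
    have a4 := Int.ceil_lt_add_one (u + Z / q)
    constructor <;> linarith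
  have h3 := (Rat.cast_le (K := ℝ)).2 h2
  push_cast at h3
  exact h3

theorem ECrt_gen (h : Exact r r') (x Z : ℕ) (D : Finset ℕ) : (∀ p ∈ D, p.Prime) →
    ∀ q a : ℕ, 0 < q → (∀ p ∈ D, q.Coprime p) →
    |(#{t ∈ Ico x (x + Z) | t ≡ a [MOD q] ∧ ∀ p ∈ D, Bad r r' p t} : ℝ) -
      Z / q * ∏ p ∈ D, gg p| ≤ 2 ^ #D := by
  induction D using Finset.induction_on with
  | empty =>
    intro _ q a hq _
    simpa using ECrt_base q a x Z hq
  | insert p D hp ih =>
    intro hD q a hq hc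
    have hpp : p.Prime := hD p (mem_insert_self _ _)
    have hD' : ∀ s ∈ D, s.Prime := fun s hs => hD s (mem_insert_of_mem hs)
    have hqp : q.Coprime p := hc p (mem_insert_self _ _)
    have hc' : ∀ s ∈ D, (q * p).Coprime s := fun s hs =>
      Nat.Coprime.mul_left (hc s (mem_insert_of_mem hs))
        ((Nat.coprime_primes hpp (hD' s hs)).2 fun e => hp (e ▸ hs))
    have key : ∀ b : ℕ, ∃ c : ℕ, ∀ t, t ≡ c [MOD q * p] ↔ t ≡ a [MOD q] ∧ t ≡ b [MOD p] := by
      intro b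
      obtain ⟨c, h1, h2⟩ := Nat.chineseRemainder hqp a b
      refine ⟨c, fun t => ?_⟩
      rw [← Nat.modEq_and_modEq_iff_modEq_mul hqp]
      exact ⟨fun H => ⟨H.1.trans h1, H.2.trans h2⟩,
        fun H => ⟨H.1.trans h1.symm, H.2.trans h2.symm⟩⟩
    obtain ⟨c1, hc1⟩ := key (r p)
    obtain ⟨c2, hc2⟩ := key (r' p)
    have i1 := ih hD' (q * p) c1 (Nat.mul_pos hq hpp.pos) hc'
    have i2 := ih hD' (q * p) c2 (Nat.mul_pos hq hpp.pos) hc'
    have hq0 : (q : ℝ) ≠ 0 := by exact_mod_cast hq.ne'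
    have hp0 : (p : ℝ) ≠ 0 := by exact_mod_cast hpp.pos.ne'
    rw [prod_insert hp, card_insert_of_notMem hp, pow_succ]
    have h2 : (0 : ℝ) < 2 ^ #D := by positivity
    by_cases h2p : p = 2
    · have e : {t ∈ Ico x (x + Z) | t ≡ a [MOD q] ∧ ∀ s ∈ insert p D, Bad r r' s t} =
          {t ∈ Ico x (x + Z) | t ≡ c1 [MOD q * p] ∧ ∀ s ∈ D, Bad r r' s t} := by
        refine filter_congr fun t _ => ?_
        rw [forall_mem_insert, hc1, Bad, ← and_assoc]
        refine and_congr_left fun _ => and_congr_right fun _ => ⟨fun H => ?_, Or.inl⟩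
        subst h2p
        exact H.elim id fun H => H.trans h.1.symm
      have e2 : (Z : ℝ) / q * (gg p * ∏ s ∈ D, gg s) = Z / ((q * p : ℕ) : ℝ) * ∏ s ∈ D, gg s := by
        rw [gg, om, if_pos h2p]; push_cast; field_simp
      rw [e, e2]
      linarith
    · have e : {t ∈ Ico x (x + Z) | t ≡ a [MOD q] ∧ ∀ s ∈ insert p D, Bad r r' s t} =
          {t ∈ Ico x (x + Z) | t ≡ c1 [MOD q * p] ∧ ∀ s ∈ D, Bad r r' s t} ∪
          {t ∈ Ico x (x + Z) | t ≡ c2 [MOD q * p] ∧ ∀ s ∈ D, Bad r r' s t} := by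
        rw [← filter_or]
        refine filter_congr fun t _ => ?_
        rw [forall_mem_insert, hc1, hc2, Bad]
        tauto
      have hd : Disjoint {t ∈ Ico x (x + Z) | t ≡ c1 [MOD q * p] ∧ ∀ s ∈ D, Bad r r' s t}
          {t ∈ Ico x (x + Z) | t ≡ c2 [MOD q * p] ∧ ∀ s ∈ D, Bad r r' s t} := by
        rw [disjoint_filter]
        intro t _ H1 H2
        exact h.2 p hpp h2p (((hc1 t).1 H1.1).2.symm.trans ((hc2 t).1 H2.1).2)
      have e2 : (Z : ℝ) / q * (gg p * ∏ s ∈ D, gg s) =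
          2 * (Z / ((q * p : ℕ) : ℝ) * ∏ s ∈ D, gg s) := by
        rw [gg, om, if_neg h2p]; push_cast; field_simp
      rw [e, e2, card_union_of_disjoint hd]
      push_cast at i1 i2 ⊢
      rw [abs_le] at i1 i2 ⊢
      constructor <;> linarith [i1.1, i1.2, i2.1, i2.2]

/-- Chinese remainder theorem: `∏ om p` classes modulo `∏ p`. -/
theorem count_bad (h : Exact r r') (D : Finset ℕ) (hD : ∀ p ∈ D, p.Prime) (x Z : ℕ) :
    |(#{t ∈ Ico x (x + Z) | ∀ p ∈ D, Bad r r' p t} : ℝ) - Z * ∏ p ∈ D, gg p| ≤ 2 ^ #D := by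
  simpa [Nat.modEq_one] using ECrt_gen h x Z D hD 1 0 one_pos fun p _ => Nat.coprime_one_left p

end Pool.Agent.MP_c7a479_co.Ex

end

section

namespace Pool.Agent.MP_c7a479_co.Ex

open Finset
open scoped Classical

variable {r r' : ℕ → ℕ}

theorem ECount_sum (T : Finset ℕ) (b : ℕ → ℝ) (x Z : ℕ) :
    ∑ t ∈ Ico x (x + Z), ∏ p ∈ T, (b p * if Bad r r' p t then (1 : ℝ) else 0) =
      (∏ p ∈ T, b p) * (#{t ∈ Ico x (x + Z) | ∀ p ∈ T, Bad r r' p t} : ℝ) := by
  rw [card_filter, Nat.cast_sum, mul_sum]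
  refine sum_congr rfl fun t _ => ?_
  rw [prod_mul_distrib, prod_boole]
  split_ifs <;> simp

/-- Expand the product with `Finset.prod_add`. -/
theorem prod_est (h : Exact r r') (S : Finset ℕ) (hS : ∀ p ∈ S, p.Prime) (a b : ℕ → ℝ) (x Z : ℕ) :
    |∑ t ∈ Ico x (x + Z), ∏ p ∈ S, (a p + b p * if Bad r r' p t then 1 else 0) -
      Z * ∏ p ∈ S, (a p + b p * gg p)| ≤ ∏ p ∈ S, (|a p| + 2 * |b p|) := by
  have e1 : ∑ t ∈ Ico x (x + Z), ∏ p ∈ S, (a p + b p * if Bad r r' p t then (1 : ℝ) else 0) =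
      ∑ T ∈ S.powerset, (∏ p ∈ T, b p) * (∏ p ∈ S \ T, a p) *
        (#{t ∈ Ico x (x + Z) | ∀ p ∈ T, Bad r r' p t} : ℝ) := by
    have : ∀ t, ∏ p ∈ S, (a p + b p * if Bad r r' p t then (1 : ℝ) else 0) =
        ∑ T ∈ S.powerset, (∏ p ∈ T, (b p * if Bad r r' p t then (1 : ℝ) else 0)) *
          ∏ p ∈ S \ T, a p := fun t => by
      rw [← prod_add]
      exact prod_congr rfl fun p _ => add_comm _ _
    rw [sum_congr rfl fun t _ => this t, sum_comm]
    refine sum_congr rfl fun T _ => ?_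
    rw [← sum_mul, ECount_sum]
    ring
  have e2 : (Z : ℝ) * ∏ p ∈ S, (a p + b p * gg p) =
      ∑ T ∈ S.powerset, (∏ p ∈ T, b p) * (∏ p ∈ S \ T, a p) * (Z * ∏ p ∈ T, gg p) := by
    have : ∏ p ∈ S, (a p + b p * gg p) =
        ∑ T ∈ S.powerset, (∏ p ∈ T, (b p * gg p)) * ∏ p ∈ S \ T, a p := by
      rw [← prod_add]
      exact prod_congr rfl fun p _ => add_comm _ _
    rw [this, mul_sum]
    refine sum_congr rfl fun T _ => ?_
    rw [prod_mul_distrib]
    ring
  have e3 : ∏ p ∈ S, (|a p| + 2 * |b p|) =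
      ∑ T ∈ S.powerset, (∏ p ∈ T, (2 * |b p|)) * ∏ p ∈ S \ T, |a p| := by
    rw [← prod_add]
    exact prod_congr rfl fun p _ => add_comm _ _
  rw [e1, e2, e3, ← sum_sub_distrib]
  refine (abs_sum_le_sum_abs _ _).trans (sum_le_sum fun T hT => ?_)
  rw [← mul_sub, abs_mul, abs_mul, abs_prod, abs_prod, prod_mul_distrib, prod_const]
  have h1 := count_bad h T (fun p hp => hS p (mem_powerset.1 hT hp)) x Z
  have h2 : 0 ≤ (∏ p ∈ T, |b p|) * ∏ p ∈ S \ T, |a p| :=
    mul_nonneg (prod_nonneg fun _ _ => abs_nonneg _) (prod_nonneg fun _ _ => abs_nonneg _)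
  calc _ ≤ (∏ p ∈ T, |b p|) * (∏ p ∈ S \ T, |a p|) * 2 ^ #T := mul_le_mul_of_nonneg_left h1 h2
    _ = _ := by ring

/-- The constant term of the local factor of a pair. -/
noncomputable def ECount_a (R R' : Finset ℕ) (p : ℕ) : ℝ :=
  if p ∈ R then (if p ∈ R' then hh p ^ 2 else hh p) else (if p ∈ R' then hh p else 1)

/-- The indicator coefficient of the local factor of a pair. -/
noncomputable def ECount_b (R R' : Finset ℕ) (p : ℕ) : ℝ :=
  if p ∈ R then (if p ∈ R' then 1 - hh p ^ 2 else -(1 + hh p))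
  else (if p ∈ R' then -(1 + hh p) else 0)

theorem ECount_ite (Q R : Finset ℕ) (hR : R ⊆ Q) (f : ℕ → ℝ) :
    ∏ p ∈ Q, (if p ∈ R then f p else 1) = ∏ p ∈ R, f p := by
  rw [prod_ite_mem, inter_eq_right.2 hR]

theorem ECount_point (Q R R' : Finset ℕ) (hR : R ⊆ Q) (hR' : R' ⊆ Q) (t : ℕ) :
    ∏ p ∈ Q, (ECount_a R R' p + ECount_b R R' p * if Bad r r' p t then (1 : ℝ) else 0) =
      (∏ p ∈ R, psi r r' p t) * ∏ p ∈ R', psi r r' p t := by
  rw [← ECount_ite Q R hR, ← ECount_ite Q R' hR', ← prod_mul_distrib]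
  refine prod_congr rfl fun p _ => ?_
  unfold ECount_a ECount_b psi
  split_ifs <;> ring

theorem ECount_mean (Q R R' : Finset ℕ) (hQ : ∀ p ∈ Q, p.Prime) (hR : R ⊆ Q) (hR' : R' ⊆ Q) :
    ∏ p ∈ Q, (ECount_a R R' p + ECount_b R R' p * gg p) = if R = R' then Ex.hR R else 0 := by
  split_ifs with e
  · subst e
    rw [Ex.hR, ← ECount_ite Q R hR]
    refine prod_congr rfl fun p hp => ?_
    have := hh_mul (hQ p hp)
    unfold ECount_a ECount_b
    split_ifs
    · linear_combination (hh p - 1) * this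
    · ring
  · have : ∃ p, (p ∈ R ∧ p ∉ R') ∨ (p ∉ R ∧ p ∈ R') := by
      by_contra hc
      push Not at hc
      exact e (Finset.ext fun p => ⟨fun hp => (hc p).1 hp, fun hp => by
        by_contra hn
        exact (hc p).2 hn hp⟩)
    obtain ⟨p, ⟨h1, h2⟩ | ⟨h1, h2⟩⟩ := this
    · refine prod_eq_zero (hR h1) ?_
      have := hh_mul (hQ p (hR h1))
      rw [ECount_a, ECount_b, if_pos h1, if_pos h1, if_neg h2, if_neg h2]
      linear_combination this
    · refine prod_eq_zero (hR' h2) ?_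
      have := hh_mul (hQ p (hR' h2))
      rw [ECount_a, ECount_b, if_neg h1, if_neg h1, if_pos h2, if_pos h2]
      linear_combination this

theorem ECount_weight (Q R R' : Finset ℕ) (hQ : ∀ p ∈ Q, p.Prime) (hR : R ⊆ Q) (hR' : R' ⊆ Q) :
    ∏ p ∈ Q, (|ECount_a R R' p| + 2 * |ECount_b R R' p|) ≤ 8 ^ #R * 8 ^ #R' := by
  rw [← prod_const, ← prod_const, ← ECount_ite Q R hR, ← ECount_ite Q R' hR', ← prod_mul_distrib]
  refine prod_le_prod (fun p _ => by positivity) fun p hp => ?_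
  have h1 := hh_pos (hQ p hp)
  have h2 := hh_le_two (hQ p hp)
  have h3 : |-(1 + hh p)| = 1 + hh p := by rw [abs_neg, abs_of_pos (by linarith)]
  have h4 : |hh p| = hh p := abs_of_pos h1
  have h5 : |hh p ^ 2| ≤ 4 := by rw [abs_of_nonneg (by positivity)]; nlinarith
  have h6 : |1 - hh p ^ 2| ≤ 3 := by rw [abs_le]; constructor <;> nlinarith
  unfold ECount_a ECount_b
  split_ifs
  · linarith
  · rw [h3, h4]; linarith
  · rw [h3, h4]; linarith
  · simp

theorem ECount_pair (h : Exact r r') (D Q : Finset ℕ) (hD : ∀ p ∈ D, p.Prime)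
    (hQ : ∀ p ∈ Q, p.Prime) (hDQ : Disjoint D Q) (R R' : Finset ℕ) (hR : R ⊆ Q) (hR' : R' ⊆ Q)
    (x Z : ℕ) :
    |∑ t ∈ Ico x (x + Z), (if ∀ p ∈ D, Bad r r' p t then (1 : ℝ) else 0) *
        ((∏ p ∈ R, psi r r' p t) * ∏ p ∈ R', psi r r' p t) -
      Z * ((∏ p ∈ D, gg p) * if R = R' then Ex.hR R else 0)| ≤ 2 ^ #D * (8 ^ #R * 8 ^ #R') := by
  let a : ℕ → ℝ := fun p => if p ∈ D then 0 else ECount_a R R' p
  let b : ℕ → ℝ := fun p => if p ∈ D then 1 else ECount_b R R' p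
  have haD : ∀ p ∈ D, a p = 0 := fun p hp => if_pos hp
  have hbD : ∀ p ∈ D, b p = 1 := fun p hp => if_pos hp
  have haQ : ∀ p ∈ Q, a p = ECount_a R R' p := fun p hp =>
    if_neg (Finset.disjoint_right.1 hDQ hp)
  have hbQ : ∀ p ∈ Q, b p = ECount_b R R' p := fun p hp =>
    if_neg (Finset.disjoint_right.1 hDQ hp)
  have key := prod_est h (D ∪ Q) (fun p hp => (mem_union.1 hp).elim (hD p) (hQ p)) a b x Z
  have e1 : ∀ t, ∏ p ∈ D ∪ Q, (a p + b p * if Bad r r' p t then (1 : ℝ) else 0) =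
      (if ∀ p ∈ D, Bad r r' p t then (1 : ℝ) else 0) *
        ((∏ p ∈ R, psi r r' p t) * ∏ p ∈ R', psi r r' p t) := by
    intro t
    rw [prod_union hDQ, ← ECount_point Q R R' hR hR' t, ← prod_boole]
    congr 1
    · exact prod_congr rfl fun p hp => by rw [haD p hp, hbD p hp, zero_add, one_mul]
    · exact prod_congr rfl fun p hp => by rw [haQ p hp, hbQ p hp]
  have e2 : ∏ p ∈ D ∪ Q, (a p + b p * gg p) =
      (∏ p ∈ D, gg p) * if R = R' then Ex.hR R else 0 := by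
    rw [prod_union hDQ, ← ECount_mean Q R R' hQ hR hR']
    congr 1
    · exact prod_congr rfl fun p hp => by rw [haD p hp, hbD p hp, zero_add, one_mul]
    · exact prod_congr rfl fun p hp => by rw [haQ p hp, hbQ p hp]
  have e3 : ∏ p ∈ D ∪ Q, (|a p| + 2 * |b p|) ≤ 2 ^ #D * (8 ^ #R * 8 ^ #R') := by
    rw [prod_union hDQ]
    have e4 : ∏ p ∈ D, (|a p| + 2 * |b p|) = 2 ^ #D := by
      rw [← prod_const]
      exact prod_congr rfl fun p hp => by rw [haD p hp, hbD p hp]; simp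
    have e5 : ∏ p ∈ Q, (|a p| + 2 * |b p|) =
        ∏ p ∈ Q, (|ECount_a R R' p| + 2 * |ECount_b R R' p|) :=
      prod_congr rfl fun p hp => by rw [haQ p hp, hbQ p hp]
    rw [e4, e5]
    exact mul_le_mul_of_nonneg_left (ECount_weight Q R R' hQ hR hR') (by positivity)
  rw [sum_congr rfl fun t _ => e1 t, e2] at key
  exact key.trans e3

/-- Orthogonality of the products of the centred factors. -/
theorem sq_est (h : Exact r r') (D Q : Finset ℕ) (hD : ∀ p ∈ D, p.Prime) (hQ : ∀ p ∈ Q, p.Prime)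
    (hDQ : Disjoint D Q) (c : Finset ℕ → ℝ) (x Z : ℕ) :
    |∑ t ∈ Ico x (x + Z), (if ∀ p ∈ D, Bad r r' p t then 1 else 0) *
        (∑ R ∈ Q.powerset, c R * ∏ p ∈ R, psi r r' p t) ^ 2 -
      Z * ((∏ p ∈ D, gg p) * ∑ R ∈ Q.powerset, hR R * c R ^ 2)| ≤
      2 ^ #D * (∑ R ∈ Q.powerset, |c R| * 8 ^ #R) ^ 2 := by
  have e1 : ∑ t ∈ Ico x (x + Z), (if ∀ p ∈ D, Bad r r' p t then (1 : ℝ) else 0) *
        (∑ R ∈ Q.powerset, c R * ∏ p ∈ R, psi r r' p t) ^ 2 =
      ∑ R ∈ Q.powerset, ∑ R' ∈ Q.powerset, c R * c R' *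
        ∑ t ∈ Ico x (x + Z), (if ∀ p ∈ D, Bad r r' p t then (1 : ℝ) else 0) *
          ((∏ p ∈ R, psi r r' p t) * ∏ p ∈ R', psi r r' p t) := by
    have e0 : ∀ t, (if ∀ p ∈ D, Bad r r' p t then (1 : ℝ) else 0) *
        (∑ R ∈ Q.powerset, c R * ∏ p ∈ R, psi r r' p t) ^ 2 =
        ∑ R ∈ Q.powerset, ∑ R' ∈ Q.powerset, c R * c R' *
          ((if ∀ p ∈ D, Bad r r' p t then (1 : ℝ) else 0) *
            ((∏ p ∈ R, psi r r' p t) * ∏ p ∈ R', psi r r' p t)) := by
      intro t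
      rw [sq, sum_mul_sum, mul_sum]
      refine sum_congr rfl fun R _ => ?_
      rw [mul_sum]
      refine sum_congr rfl fun R' _ => ?_
      ring
    rw [sum_congr rfl fun t _ => e0 t, sum_comm]
    refine sum_congr rfl fun R _ => ?_
    rw [sum_comm]
    refine sum_congr rfl fun R' _ => ?_
    rw [mul_sum]
  have e2 : (Z : ℝ) * ((∏ p ∈ D, gg p) * ∑ R ∈ Q.powerset, hR R * c R ^ 2) =
      ∑ R ∈ Q.powerset, ∑ R' ∈ Q.powerset, c R * c R' *
        (Z * ((∏ p ∈ D, gg p) * if R = R' then hR R else 0)) := by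
    rw [mul_sum, mul_sum]
    refine sum_congr rfl fun R hR0 => ?_
    rw [sum_eq_single R]
    · rw [if_pos rfl]; ring
    · intro R' _ hne
      rw [if_neg (Ne.symm hne)]; ring
    · exact fun hn => absurd hR0 hn
  have e3 : (2 : ℝ) ^ #D * (∑ R ∈ Q.powerset, |c R| * 8 ^ #R) ^ 2 =
      ∑ R ∈ Q.powerset, ∑ R' ∈ Q.powerset, |c R| * |c R'| * (2 ^ #D * (8 ^ #R * 8 ^ #R')) := by
    rw [sq, sum_mul_sum, mul_sum]
    refine sum_congr rfl fun R _ => ?_
    rw [mul_sum]
    refine sum_congr rfl fun R' _ => ?_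
    ring
  rw [e1, e2, e3, ← sum_sub_distrib]
  refine (abs_sum_le_sum_abs _ _).trans (sum_le_sum fun R hR0 => ?_)
  rw [← sum_sub_distrib]
  refine (abs_sum_le_sum_abs _ _).trans (sum_le_sum fun R' hR1 => ?_)
  rw [← mul_sub, abs_mul, abs_mul]
  exact mul_le_mul_of_nonneg_left
    (ECount_pair h D Q hD hQ hDQ R R' (mem_powerset.1 hR0) (mem_powerset.1 hR1) x Z)
    (by positivity)

end Pool.Agent.MP_c7a479_co.Ex

end

section

namespace Pool.Agent.MP_c7a479_co.Ex

open Finset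
open scoped Classical

section Aux

open ArithmeticFunction

theorem EMert_log_eq (N : ℕ) : ∑ n ∈ Icc 1 N, Real.log n =
    ∑ d ∈ Icc 1 N, vonMangoldt d * ((N / d : ℕ) : ℝ) := by
  induction N with
  | zero => simp
  | succ N ih =>
    rw [sum_Icc_succ_top (by omega), ih]
    have h1 : ∑ d ∈ Icc 1 (N + 1), vonMangoldt d * (((N + 1) / d : ℕ) : ℝ) =
        ∑ d ∈ Icc 1 (N + 1), vonMangoldt d * ((N / d : ℕ) : ℝ) +
          ∑ d ∈ Icc 1 (N + 1), if d ∣ N + 1 then vonMangoldt d else 0 := by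
      rw [← sum_add_distrib]
      refine sum_congr rfl fun d _ => ?_
      rw [Nat.succ_div]
      split_ifs <;> push_cast <;> ring
    rw [h1, sum_Icc_succ_top (by omega) (fun d => vonMangoldt d * ((N / d : ℕ) : ℝ)),
      Nat.div_eq_of_lt (Nat.lt_succ_self N), ← sum_filter, ← vonMangoldt_sum]
    simp only [Nat.cast_zero, mul_zero, add_zero]
    congr 1

theorem EMert_log_bounds (N : ℕ) : N * Real.log N - N ≤ ∑ n ∈ Icc 1 N, Real.log n ∧
    ∑ n ∈ Icc 1 N, Real.log n ≤ N * Real.log N := by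
  constructor
  · induction N with
    | zero => simp
    | succ N ih =>
      rw [sum_Icc_succ_top (by omega)]
      rcases Nat.eq_zero_or_pos N with rfl | hN
      · simp
      have hN' : (0 : ℝ) < N := by exact_mod_cast hN
      have h1 : Real.log ((N + 1) / N) ≤ (N + 1) / N - 1 :=
        Real.log_le_sub_one_of_pos (by positivity)
      rw [Real.log_div (by positivity) hN'.ne'] at h1
      have h2 : (N : ℝ) * (Real.log (N + 1) - Real.log N) ≤ 1 := by
        calc (N : ℝ) * (Real.log (N + 1) - Real.log N) ≤ N * ((N + 1) / N - 1) := by gcongr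
          _ = 1 := by field_simp; ring
      push_cast
      nlinarith
  · calc ∑ n ∈ Icc 1 N, Real.log n ≤ ∑ n ∈ Icc 1 N, Real.log N := by
          refine sum_le_sum fun n hn => ?_
          rw [mem_Icc] at hn
          exact Real.log_le_log (by exact_mod_cast hn.1) (by exact_mod_cast hn.2)
      _ = N * Real.log N := by simp

theorem EMert_vm {N : ℕ} (hN : 1 ≤ N) :
    Real.log N - 1 ≤ ∑ n ∈ Icc 1 N, vonMangoldt n / n ∧
      ∑ n ∈ Icc 1 N, vonMangoldt n / n ≤ Real.log N + (Real.log 4 + 4) := by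
  have hN' : (0 : ℝ) < N := by exact_mod_cast hN
  obtain ⟨h1, h2⟩ := EMert_log_bounds N
  rw [EMert_log_eq] at h1 h2
  have h3 : ∑ d ∈ Icc 1 N, vonMangoldt d * ((N / d : ℕ) : ℝ) ≤
      N * ∑ n ∈ Icc 1 N, vonMangoldt n / n := by
    rw [mul_sum]
    refine sum_le_sum fun d _ => ?_
    have := (Nat.cast_div_le (α := ℝ) (m := N) (n := d))
    calc vonMangoldt d * ((N / d : ℕ) : ℝ) ≤ vonMangoldt d * (N / d) := by
          gcongr
      _ = _ := by ring
  have h4 : N * ∑ n ∈ Icc 1 N, vonMangoldt n / n ≤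
      ∑ d ∈ Icc 1 N, vonMangoldt d * ((N / d : ℕ) : ℝ) + ∑ d ∈ Icc 1 N, vonMangoldt d := by
    rw [mul_sum, ← sum_add_distrib]
    refine sum_le_sum fun d hd => ?_
    have h5 : (N : ℝ) / d ≤ ((N / d : ℕ) : ℝ) + 1 := by
      rw [← Nat.floor_div_eq_div (K := ℝ)]
      exact (Nat.lt_floor_add_one _).le
    calc (N : ℝ) * (vonMangoldt d / d) = vonMangoldt d * (N / d) := by ring
      _ ≤ vonMangoldt d * (((N / d : ℕ) : ℝ) + 1) := by gcongr
      _ = _ := by ring
  have h6 : ∑ d ∈ Icc 1 N, vonMangoldt d ≤ (Real.log 4 + 4) * N := by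
    have := Chebyshev.psi_le_const_mul_self hN'.le
    rw [Chebyshev.psi_eq_sum_Icc, Nat.floor_natCast] at this
    refine le_trans (sum_le_sum_of_subset_of_nonneg ?_ fun _ _ _ => vonMangoldt_nonneg) this
    exact Icc_subset_Icc (by omega) le_rfl
  constructor
  · exact le_of_mul_le_mul_left (by nlinarith) hN'
  · exact le_of_mul_le_mul_left (by nlinarith) hN'

theorem EMert_nonprime : Summable fun n : ℕ => (if n.Prime then 0 else vonMangoldt n) / (n : ℝ) := by
  refine (vonMangoldt.summable_residueClass_non_primes_div (0 : ZMod 1)).congr fun n => ?_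
  rw [vonMangoldt.residueClass, Set.indicator_of_mem]
  exact Subsingleton.elim (α := ZMod 1) _ _

theorem EMert_prime : ∃ C : ℝ, 0 < C ∧ ∀ y : ℝ, 0 ≤ y →
    |∑ p ∈ PP y, Real.log p / p - y| ≤ C := by
  have hn : ∀ n : ℕ, 0 ≤ (if n.Prime then 0 else vonMangoldt n) / (n : ℝ) := fun n => by
    refine div_nonneg ?_ n.cast_nonneg
    split_ifs
    · exact le_rfl
    · exact vonMangoldt_nonneg
  have hB : 0 ≤ ∑' n : ℕ, (if n.Prime then 0 else vonMangoldt n) / (n : ℝ) := tsum_nonneg hn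
  refine ⟨∑' n : ℕ, (if n.Prime then 0 else vonMangoldt n) / (n : ℝ) + 10, by linarith,
    fun y hy => ?_⟩
  have h1 : 1 ≤ ⌊Real.exp y⌋₊ := Nat.le_floor (by exact_mod_cast Real.one_le_exp hy)
  have h1' : (1 : ℝ) ≤ ⌊Real.exp y⌋₊ := by exact_mod_cast h1
  obtain ⟨h2, h3⟩ := EMert_vm h1
  have h4 : Real.log ⌊Real.exp y⌋₊ ≤ y :=
    (Real.log_le_iff_le_exp (by linarith)).2 (Nat.floor_le (Real.exp_pos y).le)
  have h5 : y ≤ Real.log 2 + Real.log ⌊Real.exp y⌋₊ := by
    rw [← Real.log_mul (by norm_num) (by linarith), Real.le_log_iff_exp_le (by linarith)]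
    linarith [Nat.lt_floor_add_one (Real.exp y)]
  have h6 : Real.log 2 ≤ 1 := by
    linarith [Real.log_le_sub_one_of_pos (show (0 : ℝ) < 2 by norm_num)]
  have h7 : Real.log 4 ≤ 3 := by
    linarith [Real.log_le_sub_one_of_pos (show (0 : ℝ) < 4 by norm_num)]
  have e : ∑ n ∈ Icc 1 ⌊Real.exp y⌋₊, vonMangoldt n / n = ∑ p ∈ PP y, Real.log p / p +
      ∑ n ∈ Icc 1 ⌊Real.exp y⌋₊, (if n.Prime then 0 else vonMangoldt n) / (n : ℝ) := by
    have e1 : PP y = (Icc 1 ⌊Real.exp y⌋₊).filter Nat.Prime := by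
      ext p
      rw [PP, mem_filter, mem_filter, mem_range, mem_Icc]
      exact and_congr_left fun hp => ⟨fun h => ⟨hp.pos, by omega⟩, fun h => by omega⟩
    rw [e1, sum_filter, ← sum_add_distrib]
    refine sum_congr rfl fun n _ => ?_
    split_ifs with h
    · rw [vonMangoldt_apply_prime h, zero_div, add_zero]
    · rw [zero_add]
  have h8 := EMert_nonprime.sum_le_tsum (Icc 1 ⌊Real.exp y⌋₊) fun n _ => hn n
  have h9 := sum_nonneg (s := Icc 1 ⌊Real.exp y⌋₊) fun n _ => hn n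
  rw [abs_le]
  constructor <;> linarith

end Aux

theorem EMert_sq : ∃ C : ℝ, 0 < C ∧ ∀ s : Finset ℕ, ∑ n ∈ s, Real.log n / (n : ℝ) ^ 2 ≤ C := by
  have hn : ∀ n : ℕ, 0 ≤ Real.log n / (n : ℝ) ^ 2 := fun n =>
    div_nonneg (Real.log_natCast_nonneg n) (sq_nonneg _)
  have hs : Summable fun n : ℕ => Real.log n / (n : ℝ) ^ 2 := by
    refine Summable.of_nonneg_of_le hn (fun n => ?_)
      ((Real.summable_one_div_nat_rpow.2 (show (1 : ℝ) < 3 / 2 by norm_num)).mul_left 2)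
    rcases Nat.eq_zero_or_pos n with rfl | h
    · simp
    have h0 : (0 : ℝ) < n := by exact_mod_cast h
    have h1 := Real.log_le_rpow_div h0.le (show (0 : ℝ) < 1 / 2 by norm_num)
    have h2 : (n : ℝ) ^ 2 = (n : ℝ) ^ (1 / 2 : ℝ) * (n : ℝ) ^ (3 / 2 : ℝ) := by
      rw [← Real.rpow_add h0, ← Real.rpow_natCast]
      norm_num
    have h3 := Real.rpow_pos_of_pos h0 (1 / 2)
    have h4 := Real.rpow_pos_of_pos h0 (3 / 2)
    rw [h2, mul_one_div, div_le_div_iff₀ (mul_pos h3 h4) h4, ← mul_assoc]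
    exact mul_le_mul_of_nonneg_right (by linarith) h4.le
  have hB : 0 ≤ ∑' n : ℕ, Real.log n / (n : ℝ) ^ 2 := tsum_nonneg hn
  exact ⟨∑' n : ℕ, Real.log n / (n : ℝ) ^ 2 + 1, by linarith,
    fun s => (hs.sum_le_tsum s fun n _ => hn n).trans (by linarith)⟩

theorem EMert_hh {p : ℕ} (hp : p.Prime) :
    2 / (p : ℝ) ≤ hh p ∧ hh p ≤ 2 / (p : ℝ) + 12 / (p : ℝ) ^ 2 ∧ hh p ≤ 6 / (p : ℝ) := by
  unfold hh om
  split_ifs with h
  · subst h; norm_num
  · have h1 : 3 ≤ p := by have := hp.two_le; omega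
    have h2 : (3 : ℝ) ≤ p := by exact_mod_cast h1
    refine ⟨div_le_div_of_nonneg_left (by norm_num) (by linarith) (by linarith), ?_, ?_⟩
    · rw [div_add_div _ _ (by positivity) (by positivity),
        div_le_div_iff₀ (by linarith) (by positivity)]
      nlinarith [mul_nonneg (mul_nonneg (sub_nonneg.2 h2) (sub_nonneg.2 h2)) (sub_nonneg.2 h2),
        mul_nonneg (sub_nonneg.2 h2) (sub_nonneg.2 h2)]
    · rw [div_le_div_iff₀ (by linarith) (by linarith)]
      linarith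

/-- Mertens' first theorem for the weights `hh p = 2 / p + O(1 / p ^ 2)`. -/
theorem mert1 : ∃ C : ℝ, 0 < C ∧ ∀ y : ℝ, 0 ≤ y → |AA 0 y - 2 * y| ≤ C := by
  obtain ⟨C, hC, h⟩ := EMert_prime
  obtain ⟨D, hD, h'⟩ := EMert_sq
  refine ⟨2 * C + 12 * D, by positivity, fun y hy => ?_⟩
  have h1 := abs_le.1 (h y hy)
  have h2 := h' (PP y)
  have h3 : 2 * ∑ p ∈ PP y, Real.log p / p ≤ AA 0 y := by
    rw [AA, mul_sum]
    refine sum_le_sum fun p hp => ?_
    calc 2 * (Real.log p / p) = 2 / p * Real.log p := by ring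
      _ ≤ hh p * Real.log p := mul_le_mul_of_nonneg_right (EMert_hh (mem_PP.1 hp).1).1
          (Real.log_natCast_nonneg p)
      _ = _ := by rw [pow_zero, mul_one]
  have h4 : AA 0 y ≤ 2 * ∑ p ∈ PP y, Real.log p / p +
      12 * ∑ p ∈ PP y, Real.log p / (p : ℝ) ^ 2 := by
    rw [AA, mul_sum, mul_sum, ← sum_add_distrib]
    refine sum_le_sum fun p hp => ?_
    rw [pow_zero, mul_one]
    calc hh p * Real.log p ≤ (2 / p + 12 / (p : ℝ) ^ 2) * Real.log p :=
          mul_le_mul_of_nonneg_right (EMert_hh (mem_PP.1 hp).1).2.1 (Real.log_natCast_nonneg p)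
      _ = _ := by ring
  rw [abs_le]
  constructor <;> linarith [h1.1, h1.2]

theorem sq_sum : ∃ C : ℝ, 0 < C ∧ ∀ y : ℝ, ∑ p ∈ PP y, hh p ^ 2 * Real.log p ≤ C := by
  obtain ⟨D, hD, h'⟩ := EMert_sq
  refine ⟨36 * D, by positivity, fun y => le_trans ?_ (mul_le_mul_of_nonneg_left (h' (PP y))
    (by norm_num))⟩
  rw [mul_sum]
  refine sum_le_sum fun p hp => ?_
  have hp' := (mem_PP.1 hp).1
  calc hh p ^ 2 * Real.log p ≤ (6 / p) ^ 2 * Real.log p := mul_le_mul_of_nonneg_right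
        (pow_le_pow_left₀ (hh_pos hp').le (EMert_hh hp').2.2 2) (Real.log_natCast_nonneg p)
    _ = _ := by ring

theorem prod_le {ε : ℝ} (hε : 0 < ε) :
    ∃ L₀ : ℝ, ∀ L : ℝ, L₀ ≤ L → ∏ p ∈ PP L, (1 + 8 / (p : ℝ)) ≤ Real.exp (ε * L) := by
  obtain ⟨C, hC, h⟩ := EMert_prime
  obtain ⟨K, hK⟩ : ∃ K : ℝ, K = ∑ p ∈ PP (16 / ε), 8 / (p : ℝ) := ⟨_, rfl⟩
  have hK0 : 0 ≤ K := hK ▸ sum_nonneg fun p _ => by positivity
  refine ⟨2 * K / ε + C, fun L hL => ?_⟩
  have h0 : 0 ≤ 2 * K / ε := by positivity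
  have h1 := (abs_le.1 (h L (by linarith))).2
  have h2 : ∑ p ∈ PP L, 8 / (p : ℝ) ≤ K + ε / 2 * ∑ p ∈ PP L, Real.log p / p := by
    calc ∑ p ∈ PP L, 8 / (p : ℝ) ≤ ∑ p ∈ PP L, ((if p ∈ PP (16 / ε) then 8 / (p : ℝ) else 0) +
          ε / 2 * (Real.log p / p)) := sum_le_sum fun p hp => by
          have hp' := (mem_PP.1 hp).1
          have h3 : (0 : ℝ) < p := by exact_mod_cast hp'.pos
          have h4 := Real.log_natCast_nonneg p
          split_ifs with h5
          · exact le_add_of_nonneg_right (by positivity)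
          · have h6 : 16 / ε < Real.log p := not_le.1 fun h => h5 (mem_PP.2 ⟨hp', h⟩)
            rw [div_lt_iff₀ hε] at h6
            rw [zero_add, ← mul_div_assoc]
            exact div_le_div_of_nonneg_right (by linarith) h3.le
      _ ≤ _ := by
          rw [sum_add_distrib, ← mul_sum, sum_ite_mem, hK]
          exact add_le_add_left (sum_le_sum_of_subset_of_nonneg inter_subset_right
            fun p _ _ => by positivity) _
  have h3 : 2 * K ≤ (L - C) * ε := (div_le_iff₀ hε).1 (by linarith)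
  calc ∏ p ∈ PP L, (1 + 8 / (p : ℝ)) ≤ ∏ p ∈ PP L, Real.exp (8 / (p : ℝ)) :=
        prod_le_prod (fun p _ => by positivity) fun p _ => by
          linarith [Real.add_one_le_exp (8 / (p : ℝ))]
    _ = Real.exp (∑ p ∈ PP L, 8 / (p : ℝ)) := (Real.exp_sum _ _).symm
    _ ≤ _ := Real.exp_le_exp.2 (by nlinarith)

end Pool.Agent.MP_c7a479_co.Ex

end

section

namespace Pool.Agent.MP_c7a479_co.Ex

open Finset
open scoped Classical

theorem EAbel_one {u v a : ℝ} {g : ℝ → ℝ} (hg : ContinuousOn g (Set.Icc u v)) (h1 : u < a)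
    (h2 : a ≤ v) :
    IntervalIntegrable (fun s => (if a ≤ s then (1 : ℝ) else 0) * g s) MeasureTheory.volume u v ∧
      ∫ s in u..v, (if a ≤ s then (1 : ℝ) else 0) * g s = ∫ s in a..v, g s := by
  have huv : u ≤ v := h1.le.trans h2
  have he : (fun s => (if a ≤ s then (1 : ℝ) else 0) * g s) = (Set.Ici a).indicator g := by
    funext s
    by_cases h : a ≤ s <;> simp [Set.indicator, h]
  have hi : IntervalIntegrable g MeasureTheory.volume u v :=
    (hg.mono (by rw [Set.uIcc_of_le huv])).intervalIntegrable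
  rw [he]
  constructor
  · rw [intervalIntegrable_iff] at hi ⊢
    exact hi.indicator measurableSet_Ici
  · rw [intervalIntegral.integral_of_le huv, intervalIntegral.integral_of_le h2,
      MeasureTheory.setIntegral_indicator measurableSet_Ici,
      ← MeasureTheory.integral_Icc_eq_integral_Ioc]
    congr 2
    ext s
    simp only [Set.mem_inter_iff, Set.mem_Ioc, Set.mem_Ici, Set.mem_Icc]
    constructor
    · rintro ⟨⟨-, h3⟩, h4⟩
      exact ⟨h4, h3⟩
    · rintro ⟨h3, h4⟩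
      exact ⟨⟨h1.trans_le h3, h4⟩, h3⟩

theorem EAbel_sum (S : Finset ℕ) (w a : ℕ → ℝ) {u v : ℝ} {g : ℝ → ℝ}
    (hg : ContinuousOn g (Set.Icc u v)) (ha : ∀ p ∈ S, u < a p ∧ a p ≤ v) :
    IntervalIntegrable (fun s => (∑ p ∈ S with a p ≤ s, w p) * g s) MeasureTheory.volume u v ∧
      ∑ p ∈ S, w p * ∫ s in a p..v, g s = ∫ s in u..v, (∑ p ∈ S with a p ≤ s, w p) * g s := by
  have he : (fun s => (∑ p ∈ S with a p ≤ s, w p) * g s) =
      fun s => ∑ p ∈ S, w p * ((if a p ≤ s then (1 : ℝ) else 0) * g s) := by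
    funext s
    rw [sum_filter, sum_mul]
    refine sum_congr rfl fun p _ => ?_
    split_ifs <;> simp
  have hi : ∀ p ∈ S, IntervalIntegrable
      (fun s => w p * ((if a p ≤ s then (1 : ℝ) else 0) * g s)) MeasureTheory.volume u v :=
    fun p hp => (EAbel_one hg (ha p hp).1 (ha p hp).2).1.const_mul _
  rw [he]
  constructor
  · have := IntervalIntegrable.sum S hi
    rwa [show (∑ i ∈ S, fun s => w i * ((if a i ≤ s then (1 : ℝ) else 0) * g s)) =
      fun s => ∑ i ∈ S, w i * ((if a i ≤ s then (1 : ℝ) else 0) * g s) from by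
        funext s
        simp only [Finset.sum_apply]] at this
  · rw [intervalIntegral.integral_finsetSum hi]
    refine sum_congr rfl fun p hp => ?_
    rw [intervalIntegral.integral_const_mul, (EAbel_one hg (ha p hp).1 (ha p hp).2).2]

theorem EAbel_log_pos {p : ℕ} (hp : p.Prime) : 0 < Real.log p :=
  Real.log_pos (by exact_mod_cast hp.one_lt)

theorem EAbel_filter {s y : ℝ} (h : s ≤ y) :
    (PP y).filter (fun p : ℕ => Real.log p ≤ s) = PP s := by
  ext p
  simp only [mem_filter, mem_PP]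
  exact ⟨fun h1 => ⟨h1.1.1, h1.2⟩, fun h1 => ⟨⟨h1.1, h1.2.trans h⟩, h1.2⟩⟩

theorem EAbel_AA0 (y : ℝ) : AA 0 y = ∑ p ∈ PP y, hh p * Real.log p := by
  simp [AA]

theorem EAbel_pow (a y : ℝ) (j : ℕ) :
    ∫ s in a..y, ((j : ℝ) + 1) * (y - s) ^ j = (y - a) ^ (j + 1) := by
  have h : ∀ s ∈ Set.uIcc a y,
      HasDerivAt (fun s : ℝ => -(y - s) ^ (j + 1)) (((j : ℝ) + 1) * (y - s) ^ j) s := by
    intro s _
    have := (((hasDerivAt_id s).const_sub y).fun_pow (j + 1)).fun_neg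
    refine this.congr_deriv ?_
    simp
  rw [intervalIntegral.integral_eq_sub_of_hasDerivAt h
    (Continuous.intervalIntegrable (by fun_prop) _ _)]
  simp

theorem EAbel_pow2 (y : ℝ) (j : ℕ) :
    ∫ s in (0 : ℝ)..y, 2 * s * (((j : ℝ) + 1) * (y - s) ^ j) =
      2 * y ^ (j + 2) / (j + 2) := by
  have hj : (j : ℝ) + 2 ≠ 0 := by positivity
  have h : ∀ s ∈ Set.uIcc 0 y,
      HasDerivAt (fun s : ℝ => -(2 * s * (y - s) ^ (j + 1)) - 2 * (y - s) ^ (j + 2) / (j + 2))
        (2 * s * (((j : ℝ) + 1) * (y - s) ^ j)) s := by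
    intro s _
    have h1 := ((hasDerivAt_id s).const_sub y).fun_pow (j + 1)
    have h2 := ((hasDerivAt_id s).const_sub y).fun_pow (j + 2)
    have h3 := (((hasDerivAt_id s).const_mul 2).fun_mul h1).fun_neg.fun_sub
      ((h2.const_mul 2).div_const ((j : ℝ) + 2))
    refine h3.congr_deriv ?_
    simp only [id, Nat.add_sub_cancel, show j + 2 - 1 = j + 1 from rfl]
    push_cast
    field_simp
    ring
  rw [intervalIntegral.integral_eq_sub_of_hasDerivAt h
    (Continuous.intervalIntegrable (by fun_prop) _ _)]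
  simp

theorem EAbel_AA {C : ℝ} (hC : ∀ y : ℝ, 0 ≤ y → |AA 0 y - 2 * y| ≤ C) (j : ℕ) (y : ℝ)
    (hy : 0 ≤ y) : |AA j y - 2 * y ^ (j + 1) / (j + 1)| ≤ C * y ^ j := by
  cases j with
  | zero => simpa using hC y hy
  | succ j =>
    have hg : ContinuousOn (fun s : ℝ => ((j : ℝ) + 1) * (y - s) ^ j) (Set.Icc 0 y) := by
      fun_prop
    obtain ⟨hi, he⟩ := EAbel_sum (PP y) (fun p => hh p * Real.log p) (fun p => Real.log p) hg
      (fun p hp => ⟨EAbel_log_pos (mem_PP.1 hp).1, (mem_PP.1 hp).2⟩)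
    simp only [EAbel_pow] at he
    have hA : AA (j + 1) y = ∫ s in (0 : ℝ)..y,
        (∑ p ∈ (PP y).filter (fun p : ℕ => Real.log p ≤ s), hh p * Real.log p) * (((j : ℝ) + 1) * (y - s) ^ j) := he
    have h2 : IntervalIntegrable (fun s : ℝ => 2 * s * (((j : ℝ) + 1) * (y - s) ^ j))
        MeasureTheory.volume 0 y := Continuous.intervalIntegrable (by fun_prop) _ _
    have h3 : IntervalIntegrable (fun s : ℝ => C * (((j : ℝ) + 1) * (y - s) ^ j))
        MeasureTheory.volume 0 y := Continuous.intervalIntegrable (by fun_prop) _ _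
    have h4 : ∫ s in (0 : ℝ)..y, C * (((j : ℝ) + 1) * (y - s) ^ j) = C * y ^ (j + 1) := by
      rw [intervalIntegral.integral_const_mul, EAbel_pow, sub_zero]
    have h5 : 2 * y ^ (j + 1 + 1) / ((j + 1 : ℕ) + 1) =
        ∫ s in (0 : ℝ)..y, 2 * s * (((j : ℝ) + 1) * (y - s) ^ j) := by
      rw [EAbel_pow2]
      push_cast
      ring
    have key : ∀ s ∈ Set.Icc 0 y,
        |(∑ p ∈ (PP y).filter (fun p : ℕ => Real.log p ≤ s), hh p * Real.log p) - 2 * s| ≤ C := by
      intro s hs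
      rw [EAbel_filter hs.2, ← EAbel_AA0]
      exact hC s hs.1
    have hpos : ∀ s ∈ Set.Icc 0 y, 0 ≤ ((j : ℝ) + 1) * (y - s) ^ j := fun s hs =>
      mul_nonneg (by positivity) (pow_nonneg (sub_nonneg.2 hs.2) _)
    rw [hA, h5, ← h4, abs_le]
    constructor
    · have := intervalIntegral.integral_mono_on hy (h2.sub h3) hi (fun s hs => by
        have h6 := (abs_le.1 (key s hs)).1
        have h7 := hpos s hs
        nlinarith)
      rw [intervalIntegral.integral_sub h2 h3] at this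
      linarith
    · have := intervalIntegral.integral_mono_on hy hi (h2.add h3) (fun s hs => by
        have h6 := (abs_le.1 (key s hs)).2
        have h7 := hpos s hs
        nlinarith)
      rw [intervalIntegral.integral_add h2 h3] at this
      linarith

theorem EAbel_sq {C : ℝ} (hC : ∀ y : ℝ, 0 ≤ y → |AA 0 y - 2 * y| ≤ C) (y : ℝ) (hy : 0 ≤ y) :
    ∑ p ∈ PP y, hh p * Real.log p ^ 2 ≤ y ^ 2 + 2 * C * y := by
  have h1 : ∑ p ∈ PP y, hh p * Real.log p ^ 2 = y * AA 0 y - AA 1 y := by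
    simp only [AA, mul_sum, ← sum_sub_distrib]
    refine sum_congr rfl fun p _ => ?_
    ring
  have h2 := (abs_le.1 (hC y hy)).2
  have h3 := (abs_le.1 (EAbel_AA hC 1 y hy)).1
  have h4 : 2 * y ^ (1 + 1) / (((1 : ℕ) : ℝ) + 1) = y ^ 2 := by
    push_cast
    ring
  rw [h4, pow_one] at h3
  rw [h1]
  nlinarith [mul_le_mul_of_nonneg_left h2 hy]

theorem EAbel_inv {a l : ℝ} (ha : 0 < a) (hl : a ≤ l) :
    ∫ s in a..l, 1 / s ^ 2 = 1 / a - 1 / l := by
  have hc : ContinuousOn (fun s : ℝ => 1 / s ^ 2) (Set.uIcc a l) := by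
    rw [Set.uIcc_of_le hl]
    exact continuousOn_const.div (by fun_prop) fun s hs => (pow_pos (ha.trans_le hs.1) 2).ne'
  have h : ∀ s ∈ Set.uIcc a l, HasDerivAt (fun s : ℝ => -s⁻¹) (1 / s ^ 2) s := by
    intro s hs
    rw [Set.uIcc_of_le hl] at hs
    have := (hasDerivAt_inv (ha.trans_le hs.1).ne').fun_neg
    refine this.congr_deriv ?_
    simp
  rw [intervalIntegral.integral_eq_sub_of_hasDerivAt h hc.intervalIntegrable]
  simp only [one_div]
  ring

theorem EAbel_log {y l : ℝ} (c : ℝ) (hy : 0 < y) (hl : y ≤ l) :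
    ∫ s in y..l, (2 * s + c) * (1 / s ^ 2) = 2 * Real.log (l / y) + c * (1 / y - 1 / l) := by
  have hc : ContinuousOn (fun s : ℝ => (2 * s + c) * (1 / s ^ 2)) (Set.uIcc y l) := by
    rw [Set.uIcc_of_le hl]
    exact ContinuousOn.mul (by fun_prop)
      (continuousOn_const.div (by fun_prop) fun s hs => (pow_pos (hy.trans_le hs.1) 2).ne')
  have h : ∀ s ∈ Set.uIcc y l,
      HasDerivAt (fun s : ℝ => 2 * Real.log s - c * s⁻¹) ((2 * s + c) * (1 / s ^ 2)) s := by
    intro s hs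
    rw [Set.uIcc_of_le hl] at hs
    have h0 := (hy.trans_le hs.1).ne'
    have := ((Real.hasDerivAt_log h0).const_mul 2).fun_sub ((hasDerivAt_inv h0).const_mul c)
    refine this.congr_deriv ?_
    field_simp
    ring
  rw [intervalIntegral.integral_eq_sub_of_hasDerivAt h hc.intervalIntegrable,
    Real.log_div (hy.trans_le hl).ne' hy.ne']
  simp only [one_div]
  ring

theorem EAbel_mid {C : ℝ} (hC : ∀ y : ℝ, 0 ≤ y → |AA 0 y - 2 * y| ≤ C) {y s : ℝ} (hy : 0 ≤ y)
    (hs : y ≤ s) :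
    ∑ p ∈ (PP s).filter (fun p : ℕ => ¬ Real.log p ≤ y), hh p * Real.log p ≤ 2 * s + (2 * C - 2 * y) := by
  have h1 := sum_filter_add_sum_filter_not (PP s) (fun p : ℕ => Real.log p ≤ y)
    (fun p => hh p * Real.log p)
  rw [EAbel_filter hs, ← EAbel_AA0, ← EAbel_AA0] at h1
  have h2 := (abs_le.1 (hC y hy)).1
  have h3 := (abs_le.1 (hC s (hy.trans hs))).2
  linarith

theorem EAbel_big {C : ℝ} (hC : ∀ y : ℝ, 0 ≤ y → |AA 0 y - 2 * y| ≤ C) {y l : ℝ} (hy : 0 < y)
    (hl : y ≤ l) :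
    ∑ p ∈ (PP l).filter (fun p : ℕ => ¬ Real.log p ≤ y), hh p ≤ 2 * Real.log (l / y) + 2 * C / y := by
  have hl0 : 0 < l := hy.trans_le hl
  have hg : ContinuousOn (fun s : ℝ => 1 / s ^ 2) (Set.Icc y l) :=
    continuousOn_const.div (by fun_prop) fun s hs => (pow_pos (hy.trans_le hs.1) 2).ne'
  have hS : ∀ p ∈ (PP l).filter (fun p : ℕ => ¬ Real.log p ≤ y),
      y < Real.log p ∧ Real.log p ≤ l := fun p hp =>
    ⟨not_le.1 (mem_filter.1 hp).2, (mem_PP.1 (mem_filter.1 hp).1).2⟩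
  obtain ⟨hi, he⟩ := EAbel_sum _ (fun p => hh p * Real.log p) (fun p => Real.log p) hg hS
  have h1 : ∑ p ∈ (PP l).filter (fun p : ℕ => ¬ Real.log p ≤ y), hh p =
      (∑ p ∈ (PP l).filter (fun p : ℕ => ¬ Real.log p ≤ y), hh p * Real.log p) * (1 / l) +
        ∑ p ∈ (PP l).filter (fun p : ℕ => ¬ Real.log p ≤ y), hh p * Real.log p * ∫ s in Real.log p..l, 1 / s ^ 2 := by
    rw [sum_mul, ← sum_add_distrib]
    refine sum_congr rfl fun p hp => ?_
    have h0 : 0 < Real.log p := hy.trans (hS p hp).1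
    rw [EAbel_inv h0 (hS p hp).2]
    field_simp
    ring
  have h2 : IntervalIntegrable (fun s : ℝ => (2 * s + (2 * C - 2 * y)) * (1 / s ^ 2))
      MeasureTheory.volume y l := by
    refine ContinuousOn.intervalIntegrable ?_
    rw [Set.uIcc_of_le hl]
    exact ContinuousOn.mul (by fun_prop) hg
  have h3 := intervalIntegral.integral_mono_on hl hi h2 (fun s hs => by
    refine mul_le_mul_of_nonneg_right ?_ (by positivity)
    have h4 : ((PP l).filter (fun p : ℕ => ¬ Real.log p ≤ y)).filter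
        (fun p : ℕ => Real.log p ≤ s) = (PP s).filter (fun p : ℕ => ¬ Real.log p ≤ y) := by
      rw [filter_comm, EAbel_filter hs.2]
    rw [h4]
    exact EAbel_mid hC hy.le hs.1)
  rw [EAbel_log _ hy hl, ← he] at h3
  have h5 := mul_le_mul_of_nonneg_right (EAbel_mid hC hy.le hl) (one_div_pos.2 hl0).le
  have h6 : (2 * l + (2 * C - 2 * y)) * (1 / l) + (2 * C - 2 * y) * (1 / y - 1 / l) =
      2 * C / y := by
    field_simp
    ring
  rw [h1]
  linarith

/-- `AA (j + 1) y = ∫ s in 0..y, (j + 1) * AA j s`, then induction. -/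
theorem AA_est : ∃ C : ℝ, 0 < C ∧ ∀ (j : ℕ) (y : ℝ), 0 ≤ y →
    |AA j y - 2 * y ^ (j + 1) / (j + 1)| ≤ C * y ^ j := by
  obtain ⟨C, h0, hC⟩ := mert1
  exact ⟨C, h0, EAbel_AA hC⟩

/-- Split at `log p ≤ y`.  The small primes give `y * AA 0 y - AA 1 y`; for the others use
`1 / s = 1 / l + ∫ σ in s..l, 1 / σ ^ 2`. -/
theorem Phi_le : ∃ C : ℝ, 0 < C ∧ ∀ l y : ℝ, 0 < y → y ≤ l →
    Phi l y ≤ y ^ 2 * (1 + 2 * Real.log (l / y)) + C * l := by
  obtain ⟨C, h0, hC⟩ := mert1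
  refine ⟨4 * C, by positivity, fun l y hy hl => ?_⟩
  have h1 := sum_filter_add_sum_filter_not (PP l) (fun p : ℕ => Real.log p ≤ y)
    (fun p => hh p * min y (Real.log p) ^ 2)
  have h2 : ∑ p ∈ (PP l).filter (fun p : ℕ => Real.log p ≤ y), hh p * min y (Real.log p) ^ 2 =
      ∑ p ∈ PP y, hh p * Real.log p ^ 2 := by
    rw [EAbel_filter hl]
    exact sum_congr rfl fun p hp => by rw [min_eq_right (mem_PP.1 hp).2]
  have h3 : ∑ p ∈ (PP l).filter (fun p : ℕ => ¬ Real.log p ≤ y), hh p * min y (Real.log p) ^ 2 =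
      y ^ 2 * ∑ p ∈ (PP l).filter (fun p : ℕ => ¬ Real.log p ≤ y), hh p := by
    rw [mul_sum]
    exact sum_congr rfl fun p hp => by
      rw [min_eq_left (not_le.1 (mem_filter.1 hp).2).le, mul_comm]
  have h4 := EAbel_sq hC y hy.le
  have h5 := mul_le_mul_of_nonneg_left (EAbel_big hC hy hl) (sq_nonneg y)
  have h6 : y ^ 2 * (2 * Real.log (l / y) + 2 * C / y) =
      y ^ 2 * (2 * Real.log (l / y)) + 2 * C * y := by
    field_simp
  have h7 := mul_le_mul_of_nonneg_left hl h0.le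
  rw [Phi, ← h1, h2, h3]
  linarith

theorem Phi_le' : ∃ C : ℝ, 0 < C ∧ ∀ l y : ℝ, 0 ≤ l → 0 ≤ y → Phi l y ≤ l ^ 2 + C * l := by
  obtain ⟨C, h0, hC⟩ := mert1
  refine ⟨2 * C, by positivity, fun l y hl hy => le_trans ?_ (EAbel_sq hC l hl)⟩
  refine sum_le_sum fun p hp => ?_
  have hp' := (mem_PP.1 hp).1
  exact mul_le_mul_of_nonneg_left
    (pow_le_pow_left₀ (le_min hy (EAbel_log_pos hp').le) (min_le_right _ _) 2) (hh_pos hp').le

end Pool.Agent.MP_c7a479_co.Ex

end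

section

namespace Pool.Agent.MP_c7a479_co.Ex

open Finset
open scoped Classical

/-- The index set of the moments. -/
noncomputable def EMom_S (L : ℝ) : Finset (Finset ℕ) := (PP L).powerset.filter fun R => LL R ≤ L

theorem EMom_MM (L : ℝ) (j : ℕ) : MM L j = ∑ R ∈ EMom_S L, hR R * (L - LL R) ^ j := rfl

theorem EMom_log (p : ℕ) : 0 ≤ Real.log p := Real.log_natCast_nonneg p

theorem EMom_LL (R : Finset ℕ) : 0 ≤ LL R := sum_nonneg fun p _ => EMom_log p

theorem EMom_mem {L : ℝ} {R : Finset ℕ} : R ∈ EMom_S L ↔ (∀ p ∈ R, p.Prime) ∧ LL R ≤ L := by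
  rw [EMom_S, mem_filter, mem_powerset]
  refine and_congr_left fun h => ⟨fun h1 p hp => (mem_PP.1 (h1 hp)).1, fun h1 p hp => ?_⟩
  exact mem_PP.2 ⟨h1 p hp, (single_le_sum (fun q _ => EMom_log q) hp).trans h⟩

theorem EMom_LL_insert {R : Finset ℕ} {p : ℕ} (h : p ∉ R) :
    LL (insert p R) = Real.log p + LL R := sum_insert h

theorem EMom_hR_insert {R : Finset ℕ} {p : ℕ} (h : p ∉ R) :
    hR (insert p R) = hh p * hR R := prod_insert h

theorem EMom_bij (L : ℝ) (F : Finset ℕ → ℕ → ℝ) :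
    ∑ R ∈ EMom_S L, ∑ p ∈ R, F R p =
      ∑ R ∈ EMom_S L, ∑ p ∈ PP (L - LL R) \ R, F (insert p R) p := by
  rw [sum_sigma', sum_sigma']
  refine sum_nbij' (fun x => ⟨x.1.erase x.2, x.2⟩) (fun x => ⟨insert x.2 x.1, x.2⟩) ?_ ?_ ?_ ?_ ?_
  · rintro ⟨R, p⟩ hx
    simp only [mem_sigma, EMom_mem, mem_sdiff, mem_PP] at hx ⊢
    obtain ⟨⟨h1, h2⟩, h3⟩ := hx
    have h4 := EMom_LL_insert (notMem_erase p R)
    rw [insert_erase h3] at h4
    have := EMom_log p
    exact ⟨⟨fun q hq => h1 q (mem_of_mem_erase hq), by linarith⟩, ⟨h1 p h3, by linarith⟩,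
      notMem_erase p R⟩
  · rintro ⟨R, p⟩ hx
    simp only [mem_sigma, EMom_mem, mem_sdiff, mem_PP] at hx ⊢
    obtain ⟨⟨h1, h2⟩, ⟨h3, h4⟩, h5⟩ := hx
    refine ⟨⟨fun q hq => ?_, by rw [EMom_LL_insert h5]; linarith⟩, mem_insert_self _ _⟩
    rcases mem_insert.1 hq with rfl | hq
    · exact h3
    · exact h1 q hq
  · rintro ⟨R, p⟩ hx
    simp only [mem_sigma] at hx
    simp only [insert_erase hx.2]
  · rintro ⟨R, p⟩ hx
    simp only [mem_sigma, mem_sdiff] at hx
    simp only [erase_insert hx.2.2]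
  · rintro ⟨R, p⟩ hx
    simp only [mem_sigma] at hx
    simp only [insert_erase hx.2]

theorem EMom_le {L : ℝ} (j : ℕ) : MM L j ≤ L ^ j * MM L 0 := by
  rw [EMom_MM, EMom_MM, mul_sum]
  refine sum_le_sum fun R hR' => ?_
  obtain ⟨h1, h2⟩ := EMom_mem.1 hR'
  rw [pow_zero, mul_one, mul_comm]
  have := EMom_LL R
  exact mul_le_mul_of_nonneg_right (pow_le_pow_left₀ (by linarith) (by linarith) j) (hR_nonneg h1)

/-- The omitted terms. -/
noncomputable def EMom_E (L : ℝ) (j : ℕ) : ℝ := ∑ R ∈ EMom_S L, hR R *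
  ∑ p ∈ PP (L - LL R) ∩ R, hh p * Real.log p * (L - LL R - Real.log p) ^ j

theorem EMom_id (L : ℝ) (j : ℕ) :
    L * MM L j - MM L (j + 1) = ∑ R ∈ EMom_S L, hR R * AA j (L - LL R) - EMom_E L j := by
  have h1 : L * MM L j - MM L (j + 1) =
      ∑ R ∈ EMom_S L, ∑ p ∈ R, hR R * Real.log p * (L - LL R) ^ j := by
    rw [EMom_MM, EMom_MM, mul_sum, ← sum_sub_distrib]
    refine sum_congr rfl fun R _ => ?_
    rw [← sum_mul, ← mul_sum]
    change _ = hR R * LL R * _
    ring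
  rw [h1, EMom_bij, EMom_E, ← sum_sub_distrib]
  refine sum_congr rfl fun R _ => ?_
  rw [AA, ← sum_inter_add_sum_sdiff (PP (L - LL R)) R, mul_add, add_sub_cancel_left, mul_sum]
  refine sum_congr rfl fun p hp => ?_
  have h2 := (mem_sdiff.1 hp).2
  rw [EMom_hR_insert h2, EMom_LL_insert h2, sub_sub, add_comm (LL R)]
  ring

theorem EMom_E_nonneg (L : ℝ) (j : ℕ) : 0 ≤ EMom_E L j := by
  refine sum_nonneg fun R hR' => mul_nonneg (hR_nonneg (EMom_mem.1 hR').1) ?_
  refine sum_nonneg fun p hp => ?_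
  obtain ⟨h1, h2⟩ := mem_PP.1 (mem_inter.1 hp).1
  exact mul_nonneg (mul_nonneg (hh_pos h1).le (EMom_log p)) (pow_nonneg (by linarith) j)

theorem EMom_E_le {C : ℝ} (hC : ∀ y : ℝ, ∑ p ∈ PP y, hh p ^ 2 * Real.log p ≤ C) {L : ℝ}
    (hL : 0 ≤ L) (j : ℕ) : EMom_E L j ≤ C * L ^ j * MM L 0 := by
  have hp : 0 ≤ L ^ j := pow_nonneg hL j
  calc EMom_E L j ≤ ∑ R ∈ EMom_S L, ∑ p ∈ R, hR R * (hh p * Real.log p * L ^ j) := by
        refine sum_le_sum fun R hR' => ?_
        obtain ⟨h1, h2⟩ := EMom_mem.1 hR'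
        rw [← mul_sum]
        refine mul_le_mul_of_nonneg_left ?_ (hR_nonneg h1)
        refine le_trans (sum_le_sum fun p hp => ?_)
          (sum_le_sum_of_subset_of_nonneg inter_subset_right fun p hp' _ =>
            mul_nonneg (mul_nonneg (hh_pos (h1 p hp')).le (EMom_log p)) hp)
        obtain ⟨h3, h4⟩ := mem_PP.1 (mem_inter.1 hp).1
        have := EMom_LL R
        have := EMom_log p
        exact mul_le_mul_of_nonneg_left (pow_le_pow_left₀ (by linarith) (by linarith) j)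
          (mul_nonneg (hh_pos h3).le this)
    _ = ∑ R ∈ EMom_S L, hR R * L ^ j * ∑ p ∈ PP (L - LL R) \ R, hh p ^ 2 * Real.log p := by
        rw [EMom_bij]
        refine sum_congr rfl fun R _ => ?_
        rw [mul_sum]
        refine sum_congr rfl fun p hp => ?_
        rw [EMom_hR_insert (mem_sdiff.1 hp).2]
        ring
    _ ≤ ∑ R ∈ EMom_S L, hR R * L ^ j * C := by
        refine sum_le_sum fun R hR' => ?_
        refine mul_le_mul_of_nonneg_left ?_ (mul_nonneg (hR_nonneg (EMom_mem.1 hR').1) hp)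
        exact (sum_le_sum_of_subset_of_nonneg sdiff_subset fun p _ _ =>
          mul_nonneg (sq_nonneg _) (EMom_log p)).trans (hC _)
    _ = C * L ^ j * MM L 0 := by
        rw [EMom_MM, mul_sum]
        exact sum_congr rfl fun R _ => by ring

/-- `L * MM L j - MM L (j + 1) = ∑ R, hR R * LL R * (L - LL R) ^ j`; write `LL R = ∑ p ∈ R, log p`
and `R = insert p R'`: this is `∑ R', hR R' * AA j (L - LL R')` up to the terms `p ∈ R'`. -/
theorem mom_step : ∃ C : ℝ, 0 < C ∧ ∀ (j : ℕ) (L : ℝ), 0 ≤ L →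
    |L * MM L j - (j + 3) / (j + 1) * MM L (j + 1)| ≤ C * L ^ j * MM L 0 := by
  obtain ⟨C1, hC1, h1⟩ := AA_est
  obtain ⟨C2, hC2, h2⟩ := sq_sum
  refine ⟨C1 + C2, by linarith, fun j L hL => ?_⟩
  have hj : (j : ℝ) + 1 ≠ 0 := by positivity
  have h3 : L * MM L j - (j + 3) / (j + 1) * MM L (j + 1) =
      ∑ R ∈ EMom_S L, hR R * (AA j (L - LL R) - 2 * (L - LL R) ^ (j + 1) / (j + 1)) -
        EMom_E L j := by
    have h4 : ∑ R ∈ EMom_S L, hR R * (AA j (L - LL R) - 2 * (L - LL R) ^ (j + 1) / (j + 1)) =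
        ∑ R ∈ EMom_S L, hR R * AA j (L - LL R) - 2 / (j + 1) * MM L (j + 1) := by
      rw [EMom_MM, mul_sum, ← sum_sub_distrib]
      exact sum_congr rfl fun R _ => by ring
    have h5 : ((j : ℝ) + 3) / (j + 1) = 1 + 2 / (j + 1) := by
      field_simp
      ring
    rw [h4, h5]
    linarith [EMom_id L j]
  have h6 : |∑ R ∈ EMom_S L, hR R * (AA j (L - LL R) - 2 * (L - LL R) ^ (j + 1) / (j + 1))| ≤
      C1 * MM L j := by
    rw [EMom_MM, mul_sum]
    refine (abs_sum_le_sum_abs _ _).trans (sum_le_sum fun R hR' => ?_)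
    obtain ⟨h7, h8⟩ := EMom_mem.1 hR'
    rw [abs_mul, abs_of_nonneg (hR_nonneg h7), mul_left_comm]
    exact mul_le_mul_of_nonneg_left (h1 j _ (by linarith)) (hR_nonneg h7)
  have h7 := mul_le_mul_of_nonneg_left (EMom_le (L := L) j) hC1.le
  have h8 := EMom_E_le h2 hL j
  have h9 := EMom_E_nonneg L j
  rw [h3]
  refine (abs_sub _ _).trans ?_
  rw [abs_of_nonneg h9]
  linarith

theorem one_le_MM {L : ℝ} (hL : 0 ≤ L) : 1 ≤ MM L 0 := by
  have h0 : (∅ : Finset ℕ) ∈ EMom_S L := EMom_mem.2 ⟨by simp, by simpa [LL] using hL⟩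
  have h := single_le_sum (f := fun R => hR R * (L - LL R) ^ 0)
    (fun R h => mul_nonneg (hR_nonneg (EMom_mem.1 h).1) (by simp)) h0
  rw [EMom_MM]
  simpa [hR] using h

theorem mom : ∃ C : ℝ, 0 < C ∧ ∀ j : ℕ, j ≤ 4 → ∀ L : ℝ, 0 ≤ L →
    |MM L j - 2 / ((j + 1) * (j + 2)) * L ^ j * MM L 0| * L ≤ C * L ^ j * MM L 0 := by
  obtain ⟨C, hC, h⟩ := mom_step
  have key : ∀ L : ℝ, 0 ≤ L → ∀ j : ℕ,
      |MM L j - 2 / ((j + 1) * (j + 2)) * L ^ j * MM L 0| * L ≤ j * C * L ^ j * MM L 0 := by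
    intro L hL j
    induction j with
    | zero => norm_num
    | succ j ih =>
      have h1 := h j L hL
      have hj1 : (j : ℝ) + 1 ≠ 0 := by positivity
      have hj2 : (j : ℝ) + 2 ≠ 0 := by positivity
      have hj3 : (j : ℝ) + 3 ≠ 0 := by positivity
      have h2 : MM L (j + 1) - 2 / ((((j + 1 : ℕ) : ℝ) + 1) * (((j + 1 : ℕ) : ℝ) + 2)) *
          L ^ (j + 1) * MM L 0 = (j + 1) / (j + 3) *
            ((MM L j - 2 / ((j + 1) * (j + 2)) * L ^ j * MM L 0) * L -
              (L * MM L j - (j + 3) / (j + 1) * MM L (j + 1))) := by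
        have e1 : ((j + 1 : ℕ) : ℝ) + 1 = j + 2 := by push_cast; ring
        have e2 : ((j + 1 : ℕ) : ℝ) + 2 = j + 3 := by push_cast; ring
        rw [e1, e2]
        field_simp
        ring
      have h3 : |((j : ℝ) + 1) / (j + 3)| ≤ 1 := by
        rw [abs_of_nonneg (by positivity), div_le_one (by positivity)]
        linarith
      have h4 : |(MM L j - 2 / ((j + 1) * (j + 2)) * L ^ j * MM L 0) * L -
          (L * MM L j - (j + 3) / (j + 1) * MM L (j + 1))| ≤ (j + 1) * C * L ^ j * MM L 0 := by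
        refine (abs_sub _ _).trans ?_
        rw [abs_mul, abs_of_nonneg hL]
        linarith
      rw [h2, abs_mul]
      have h5 := mul_le_mul h3 h4 (abs_nonneg _) zero_le_one
      refine (mul_le_mul_of_nonneg_right h5 hL).trans (le_of_eq ?_)
      push_cast
      ring
  refine ⟨4 * C, by linarith, fun j hj L hL => (key L hL j).trans ?_⟩
  have h1 : (j : ℝ) ≤ 4 := by exact_mod_cast hj
  have h2 := one_le_MM hL
  gcongr

end Pool.Agent.MP_c7a479_co.Ex

end

section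

namespace Pool.Agent.MP_c7a479_co.Ex

open Finset
open scoped Classical

theorem EPoly_a {w : ℝ} (h0 : 0 ≤ w) (h1 : w ≤ 1 / 2) :
    0 ≤ RR (w ^ 2) - (w ^ 4 + 2 * w ^ 3 - 2 * w ^ 5) := by
  have ha : 0 ≤ w - 0 := sub_nonneg.2 h0
  have hb : 0 ≤ 1 / 2 - w := sub_nonneg.2 h1
  have e : RR (w ^ 2) - (w ^ 4 + 2 * w ^ 3 - 2 * w ^ 5) =
      64 / 25 * (w - 0) ^ 0 * (1 / 2 - w) ^ 8 +
      512 / 25 * (w - 0) ^ 1 * (1 / 2 - w) ^ 7 +
      512 / 5 * (w - 0) ^ 2 * (1 / 2 - w) ^ 6 +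
      6592 / 25 * (w - 0) ^ 3 * (1 / 2 - w) ^ 5 +
      8748 / 25 * (w - 0) ^ 4 * (1 / 2 - w) ^ 4 +
      6336 / 25 * (w - 0) ^ 5 * (1 / 2 - w) ^ 3 +
      2668 / 25 * (w - 0) ^ 6 * (1 / 2 - w) ^ 2 +
      648 / 25 * (w - 0) ^ 7 * (1 / 2 - w) ^ 1 +
      2913 / 1000 * (w - 0) ^ 8 * (1 / 2 - w) ^ 0 := by
    unfold RR
    ring
  rw [e]
  positivity

theorem EPoly_b {w : ℝ} (h0 : 1 / 2 ≤ w) (h1 : w ≤ 1) :
    0 ≤ RR (w ^ 2) - (w ^ 4 + 2 * w ^ 3 - 2 * w ^ 5) := by
  have ha : 0 ≤ w - 1 / 2 := sub_nonneg.2 h0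
  have hb : 0 ≤ 1 - w := sub_nonneg.2 h1
  have e : RR (w ^ 2) - (w ^ 4 + 2 * w ^ 3 - 2 * w ^ 5) =
      2913 / 1000 * (w - 1 / 2) ^ 0 * (1 - w) ^ 8 +
      2586 / 125 * (w - 1 / 2) ^ 1 * (1 - w) ^ 7 +
      8762 / 125 * (w - 1 / 2) ^ 2 * (1 - w) ^ 6 +
      19368 / 125 * (w - 1 / 2) ^ 3 * (1 - w) ^ 5 +
      5592 / 25 * (w - 1 / 2) ^ 4 * (1 - w) ^ 4 +
      22272 / 125 * (w - 1 / 2) ^ 5 * (1 - w) ^ 3 +
      7232 / 125 * (w - 1 / 2) ^ 6 * (1 - w) ^ 2 +
      1024 / 125 * (w - 1 / 2) ^ 7 * (1 - w) ^ 1 +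
      1056 / 125 * (w - 1 / 2) ^ 8 * (1 - w) ^ 0 := by
    unfold RR
    ring
  rw [e]
  positivity

theorem EPoly_c {s : ℝ} (h0 : 1 ≤ s) (h1 : s ≤ 5 / 4) :
    0 ≤ RR s - 1 := by
  have ha : 0 ≤ s - 1 := sub_nonneg.2 h0
  have hb : 0 ≤ 5 / 4 - s := sub_nonneg.2 h1
  have e : RR s - 1 =
      1056 / 125 * (s - 1) ^ 0 * (5 / 4 - s) ^ 4 +
      1216 / 25 * (s - 1) ^ 1 * (5 / 4 - s) ^ 3 +
      1928 / 25 * (s - 1) ^ 2 * (5 / 4 - s) ^ 2 +
      1118 / 25 * (s - 1) ^ 3 * (5 / 4 - s) ^ 1 +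
      1757 / 200 * (s - 1) ^ 4 * (5 / 4 - s) ^ 0 := by
    unfold RR
    ring
  rw [e]
  positivity

theorem EPoly_d {s : ℝ} (h0 : 5 / 4 ≤ s) (h1 : s ≤ 3 / 2) :
    0 ≤ RR s - 1 := by
  have ha : 0 ≤ s - 5 / 4 := sub_nonneg.2 h0
  have hb : 0 ≤ 3 / 2 - s := sub_nonneg.2 h1
  have e : RR s - 1 =
      1757 / 200 * (s - 5 / 4) ^ 0 * (3 / 2 - s) ^ 4 +
      639 / 25 * (s - 5 / 4) ^ 1 * (3 / 2 - s) ^ 3 +
      491 / 25 * (s - 5 / 4) ^ 2 * (3 / 2 - s) ^ 2 +
      108 / 25 * (s - 5 / 4) ^ 3 * (3 / 2 - s) ^ 1 +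
      306 / 125 * (s - 5 / 4) ^ 4 * (3 / 2 - s) ^ 0 := by
    unfold RR
    ring
  rw [e]
  positivity

theorem EPoly_e {s : ℝ} (h0 : 3 / 2 ≤ s) (h1 : s ≤ 2) :
    0 ≤ RR s - 1 := by
  have ha : 0 ≤ s - 3 / 2 := sub_nonneg.2 h0
  have hb : 0 ≤ 2 - s := sub_nonneg.2 h1
  have e : RR s - 1 =
      153 / 1000 * (s - 3 / 2) ^ 0 * (2 - s) ^ 4 +
      162 / 125 * (s - 3 / 2) ^ 1 * (2 - s) ^ 3 +
      1039 / 125 * (s - 3 / 2) ^ 2 * (2 - s) ^ 2 +
      2328 / 125 * (s - 3 / 2) ^ 3 * (2 - s) ^ 1 +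
      1556 / 125 * (s - 3 / 2) ^ 4 * (2 - s) ^ 0 := by
    unfold RR
    ring
  rw [e]
  positivity

theorem EPoly_log {w : ℝ} (h0 : 0 < w) (h1 : w ≤ 1) : Real.log (1 / w ^ 2) ≤ 1 / w - w := by
  have h2 : 0 ≤ Real.log w⁻¹ := Real.log_nonneg ((one_le_inv₀ h0).2 h1)
  have h3 := Real.self_le_sinh_iff.2 h2
  rw [Real.sinh_log (inv_pos.2 h0), inv_inv] at h3
  rw [one_div, one_div, ← inv_pow, Real.log_pow]
  push_cast
  linarith

/-- With `s = w ^ 2` use `log (1 / s) ≤ 1 / w - w`; then a polynomial inequality in `w`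
(margin `1 / 100`). -/
theorem RR_ge {s : ℝ} (h0 : 0 < s) (h1 : s ≤ 1) : s ^ 2 * (1 + 2 * Real.log (1 / s)) ≤ RR s := by
  obtain ⟨w, hw, rfl⟩ : ∃ w : ℝ, 0 < w ∧ s = w ^ 2 :=
    ⟨Real.sqrt s, Real.sqrt_pos.2 h0, (Real.sq_sqrt h0.le).symm⟩
  have hw1 : w ≤ 1 := by nlinarith
  have h2 := EPoly_log hw hw1
  have h3 : (w ^ 2) ^ 2 * (1 + 2 * (1 / w - w)) = w ^ 4 + 2 * w ^ 3 - 2 * w ^ 5 := by
    field_simp
    ring
  have h4 : (w ^ 2) ^ 2 * (1 + 2 * Real.log (1 / w ^ 2)) ≤ (w ^ 2) ^ 2 * (1 + 2 * (1 / w - w)) :=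
    mul_le_mul_of_nonneg_left (by linarith) (by positivity)
  rcases le_total w (1 / 2) with h | h
  · linarith [EPoly_a hw.le h]
  · linarith [EPoly_b h hw1]

theorem RR_ge' {s : ℝ} (h0 : 1 ≤ s) (h1 : s ≤ 197 / 100) : 1 ≤ RR s := by
  rcases le_total s (5 / 4) with h | h
  · linarith [EPoly_c h0 h]
  rcases le_total s (3 / 2) with h' | h'
  · linarith [EPoly_d h h']
  · linarith [EPoly_e h' (by linarith)]

end Pool.Agent.MP_c7a479_co.Ex

end

section

namespace Pool.Agent.MP_c7a479_co.Ex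

open Finset
open scoped Classical

theorem EPos_diff {L : ℝ} {p : ℕ} {R : Finset ℕ} (h : p ∉ R) :
    yy L R - yy L (insert p R) = min (yy L R) (Real.log p) := by
  have h0 : 0 ≤ Real.log p := Real.log_natCast_nonneg p
  have h1 : LL (insert p R) = Real.log p + LL R := by rw [LL, sum_insert h, LL]
  rw [yy, yy, h1]
  simp only [max_def, min_def]
  split_ifs <;> linarith

theorem EPos_zero (l : ℝ) : Phi l 0 = 0 :=
  sum_eq_zero fun p _ => by rw [min_eq_left (Real.log_natCast_nonneg p)]; ring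

theorem EPos_hR {L : ℝ} {R : Finset ℕ} (h : R ∈ (PP L).powerset) : 0 ≤ hR R :=
  hR_nonneg fun _ hp => (mem_PP.1 (mem_powerset.1 h hp)).1

theorem EPos_Phi : ∃ C : ℝ, 0 < C ∧ ∀ l y : ℝ, 0 < l → 0 ≤ y → y ≤ 197 / 100 * l →
    Phi l y ≤ l ^ 2 * RR (y / l) + C * l := by
  obtain ⟨C, hC, h⟩ := Phi_le
  obtain ⟨C', hC', h'⟩ := Phi_le'
  refine ⟨C + C', add_pos hC hC', fun l y hl h0 h1 => ?_⟩
  have e1 : 0 < C * l := mul_pos hC hl
  have e2 : 0 < C' * l := mul_pos hC' hl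
  rcases h0.eq_or_lt with rfl | h2
  · rw [EPos_zero, zero_div, RR]
    nlinarith [sq_nonneg l]
  · rcases le_total y l with h3 | h3
    · have e3 := mul_le_mul_of_nonneg_left
        (RR_ge (div_pos h2 hl) ((div_le_one hl).2 h3)) (sq_nonneg l)
      have e4 : l ^ 2 * ((y / l) ^ 2 * (1 + 2 * Real.log (1 / (y / l)))) =
          y ^ 2 * (1 + 2 * Real.log (l / y)) := by
        rw [one_div_div]
        field_simp
      have := h l y h2 h3
      linarith
    · have e3 := mul_le_mul_of_nonneg_left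
        (RR_ge' ((one_le_div hl).2 h3) ((div_le_iff₀ hl).2 h1)) (sq_nonneg l)
      have := h' l y hl.le h0
      linarith

theorem TT_ge {l L : ℝ} (hl : l ≤ L) :
    ∑ R ∈ (PP L).powerset with LL R ≤ L, hR R * ((L - LL R) ^ 2 - Phi l (L - LL R)) ≤ TT l L := by
  have _ := hl
  have h1 : ∑ R ∈ (PP L).powerset with LL R ≤ L, hR R * ((L - LL R) ^ 2 - Phi l (L - LL R)) =
      ∑ R ∈ (PP L).powerset, hR R * (yy L R ^ 2 - Phi l (yy L R)) := by
    rw [sum_filter]
    refine sum_congr rfl fun R _ => ?_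
    split_ifs with h
    · rw [yy, max_eq_left (by linarith)]
    · rw [yy, max_eq_right (by linarith), EPos_zero]
      ring
  have h2 : ∑ R ∈ (PP L).powerset, hR R * Phi l (yy L R) =
      ∑ p ∈ PP l, hh p * ∑ R ∈ (PP L).powerset, hR R * min (yy L R) (Real.log p) ^ 2 := by
    simp only [Phi, mul_sum]
    rw [sum_comm]
    exact sum_congr rfl fun p _ => sum_congr rfl fun R _ => by ring
  rw [h1, TT]
  simp only [mul_sub]
  rw [sum_sub_distrib, h2]
  refine sub_le_sub_left (sum_le_sum fun p hp => ?_) _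
  have hp' := (mem_PP.1 hp).1
  have h3 : ∑ R ∈ ((PP L).erase p).powerset, hR R * (yy L R - yy L (insert p R)) ^ 2 =
      ∑ R ∈ ((PP L).erase p).powerset, hR R * min (yy L R) (Real.log p) ^ 2 :=
    sum_congr rfl fun R hR' => by
      rw [EPos_diff fun h => notMem_erase p (PP L) (mem_powerset.1 hR' h)]
  rw [h3]
  refine mul_le_mul (gg_le_hh hp') (sum_le_sum_of_subset_of_nonneg
    (powerset_mono.2 (erase_subset _ _)) fun R h _ => mul_nonneg (EPos_hR h) (sq_nonneg _))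
    (sum_nonneg fun R h => mul_nonneg
      (EPos_hR (powerset_mono.2 (erase_subset _ _) h)) (sq_nonneg _)) (hh_pos hp').le

/-- `Phi l y ≤ l ^ 2 * RR (y / l) + C * l` on `[0, 197 / 100 * l]`, then the moments: the main
constant is `u ^ 2 / 6 - ∑ j, r j * u ^ j * 2 / ((j + 1) * (j + 2)) > 6 / 1000`, `u = 197 / 100`. -/
theorem TT_pos : ∃ l₀ : ℝ, ∀ l : ℝ, l₀ ≤ l → 1 ≤ TT l (197 / 100 * l) := by
  obtain ⟨C, hC, h⟩ := EPos_Phi
  obtain ⟨D, hD, hm⟩ := mom
  refine ⟨max 20 (1000 * (C + 112 * D)), fun l hl => ?_⟩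
  have l1 : 20 ≤ l := (le_max_left _ _).trans hl
  have l2 : 1000 * (C + 112 * D) ≤ l := (le_max_right _ _).trans hl
  have l0 : 0 < l := by linarith
  set L := 197 / 100 * l with hL
  have L0 : 0 ≤ L := by rw [hL]; positivity
  have L1 : l ≤ L := by rw [hL]; linarith
  have m1 := one_le_MM L0
  have m0 : 0 < MM L 0 := by linarith
  have key : ∀ j : ℕ, j ≤ 4 → |MM L j / (l ^ j * MM L 0) -
      2 / ((j + 1) * (j + 2)) * (197 / 100) ^ j| ≤ 16 * (D / l) := by
    intro j hj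
    have e0 : 0 < l ^ j * MM L 0 := by positivity
    have e1 : MM L j / (l ^ j * MM L 0) - 2 / ((j + 1) * (j + 2)) * (197 / 100) ^ j =
        (MM L j - 2 / ((j + 1) * (j + 2)) * L ^ j * MM L 0) / (l ^ j * MM L 0) := by
      rw [sub_div, show L ^ j = (197 / 100) ^ j * l ^ j by rw [hL, mul_pow]]
      congr 1
      field_simp
    have e2 : (197 / 100 : ℝ) ^ j ≤ 16 :=
      (pow_le_pow_right₀ (by norm_num) hj).trans (by norm_num)
    rw [e1, abs_div, abs_of_pos e0, ← mul_div_assoc, div_le_div_iff₀ e0 l0]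
    refine (mul_le_mul_of_nonneg_left L1 (abs_nonneg _)).trans ((hm j hj L L0).trans ?_)
    rw [show L ^ j = (197 / 100) ^ j * l ^ j by rw [hL, mul_pow]]
    have := mul_le_mul_of_nonneg_right e2 (mul_pos hD e0).le
    linarith
  have k1 := abs_le.1 (key 1 (by norm_num))
  have k2 := abs_le.1 (key 2 (by norm_num))
  have k3 := abs_le.1 (key 3 (by norm_num))
  have k4 := abs_le.1 (key 4 (by norm_num))
  norm_num at k1 k2 k3 k4
  have e1 : ∑ R ∈ (PP L).powerset with LL R ≤ L,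
      hR R * ((L - LL R) ^ 2 - (l ^ 2 * RR ((L - LL R) / l) + C * l)) =
      MM L 2 - (l ^ 2 / 100 * MM L 0 + 12 / 25 * l * MM L 1 + 287 / 100 * MM L 2 -
        83 / 25 / l * MM L 3 + 993 / 1000 / l ^ 2 * MM L 4) - C * l * MM L 0 := by
    simp only [MM, mul_sum, ← sum_add_distrib, ← sum_sub_distrib]
    refine sum_congr rfl fun R _ => ?_
    rw [RR]
    field_simp
    ring
  have e2 : MM L 2 - (l ^ 2 / 100 * MM L 0 + 12 / 25 * l * MM L 1 + 287 / 100 * MM L 2 -
        83 / 25 / l * MM L 3 + 993 / 1000 / l ^ 2 * MM L 4) - C * l * MM L 0 =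
      l ^ 2 * MM L 0 * (-(1 / 100) - 12 / 25 * (MM L 1 / (l * MM L 0)) -
        187 / 100 * (MM L 2 / (l ^ 2 * MM L 0)) + 83 / 25 * (MM L 3 / (l ^ 3 * MM L 0)) -
        993 / 1000 * (MM L 4 / (l ^ 4 * MM L 0)) - C / l) := by
    field_simp
    ring
  have e3 : C / l + 112 * (D / l) ≤ 1 / 1000 := by
    rw [← mul_div_assoc, ← add_div, div_le_iff₀ l0]
    linarith
  have e4 : 0 < D / l := div_pos hD l0
  have e5 : 1 / 200 ≤ -(1 / 100) - 12 / 25 * (MM L 1 / (l * MM L 0)) -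
        187 / 100 * (MM L 2 / (l ^ 2 * MM L 0)) + 83 / 25 * (MM L 3 / (l ^ 3 * MM L 0)) -
        993 / 1000 * (MM L 4 / (l ^ 4 * MM L 0)) - C / l := by
    linarith [k1.1, k1.2, k2.1, k2.2, k3.1, k3.2, k4.1, k4.2]
  refine le_trans ?_ (TT_ge L1)
  refine le_trans ?_ (sum_le_sum (g := fun R => hR R * ((L - LL R) ^ 2 - Phi l (L - LL R)))
    (f := fun R => hR R * ((L - LL R) ^ 2 - (l ^ 2 * RR ((L - LL R) / l) + C * l)))
    fun R hR' => ?_)
  · rw [e1, e2]
    have e6 : 400 ≤ l ^ 2 * MM L 0 := by nlinarith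
    nlinarith
  · obtain ⟨r1, r2⟩ := mem_filter.1 hR'
    have r3 : 0 ≤ LL R := sum_nonneg fun p _ => Real.log_natCast_nonneg p
    exact mul_le_mul_of_nonneg_left
      (sub_le_sub_left (h l _ l0 (by linarith) (by linarith)) _) (EPos_hR r1)

end Pool.Agent.MP_c7a479_co.Ex

end

section

namespace Pool.Agent.MP_c7a479_co.Ex

open Finset
open scoped Classical

variable {r r' : ℕ → ℕ}

theorem ESieve_yy_nonneg (L : ℝ) (R : Finset ℕ) : 0 ≤ yy L R := le_max_right _ _

theorem ESieve_yy_insert (L : ℝ) {p : ℕ} {R : Finset ℕ} (hp : p ∉ R) :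
    yy L (insert p R) ≤ yy L R := by
  unfold yy LL
  rw [sum_insert hp]
  have := Real.log_natCast_nonneg p
  exact max_le_max (by linarith) le_rfl

theorem ESieve_split {L : ℝ} {p t : ℕ} (hp : p ∈ PP L) (hb : Bad r r' p t) :
    ∑ R ∈ (PP L).powerset, yy L R * ∏ q ∈ R, psi r r' q t =
      ∑ R ∈ ((PP L).erase p).powerset,
        (yy L R - yy L (insert p R)) * ∏ q ∈ R, psi r r' q t := by
  conv_lhs => rw [← insert_erase hp]
  rw [sum_powerset_insert (notMem_erase p _), ← sum_add_distrib]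
  refine sum_congr rfl fun R hR => ?_
  have hpR : p ∉ R := fun h => notMem_erase p _ (mem_powerset.1 hR h)
  have h1 : psi r r' p t = -1 := by rw [psi, if_pos hb]
  rw [prod_insert hpR, h1]
  ring

/-- If every `t` of the interval is removed then `∑ t, φ t ^ 2 * (1 - ∑ p, 1 (Bad p t)) ≤ 0`. -/
theorem sieve_ineq (h : Exact r r') {l L : ℝ} (hl : l ≤ L) {x Z : ℕ}
    (hall : ∀ t ∈ Ico x (x + Z), ∃ p ∈ PP l, Bad r r' p t) :
    Z * TT l L ≤ (1 + 2 * #(PP l)) * (∑ R ∈ (PP L).powerset, yy L R * 8 ^ #R) ^ 2 := by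
  set W := ∑ R ∈ (PP L).powerset, yy L R * 8 ^ #R with hW
  have hprime : ∀ p ∈ PP L, p.Prime := fun p hp => (mem_PP.1 hp).1
  have hsub : ∀ p ∈ PP l, p ∈ PP L := fun p hp =>
    mem_PP.2 ⟨(mem_PP.1 hp).1, (mem_PP.1 hp).2.trans hl⟩
  set φ : ℕ → ℝ := fun t => ∑ R ∈ (PP L).powerset, yy L R * ∏ q ∈ R, psi r r' q t with hφ
  have h0 := sq_est h ∅ (PP L) (by simp) hprime (disjoint_empty_left _) (yy L) x Z
  have hWe : ∑ R ∈ (PP L).powerset, |yy L R| * 8 ^ #R = W :=
    sum_congr rfl fun R _ => by rw [abs_of_nonneg (ESieve_yy_nonneg L R)]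
  rw [hWe] at h0
  simp only [notMem_empty, IsEmpty.forall_iff, implies_true, if_true, one_mul, prod_empty,
    card_empty, pow_zero] at h0
  have h1 : ∀ p ∈ PP l, ∑ t ∈ Ico x (x + Z), (if Bad r r' p t then (1 : ℝ) else 0) * φ t ^ 2 ≤
      Z * (gg p * ∑ R ∈ ((PP L).erase p).powerset, hR R * (yy L R - yy L (insert p R)) ^ 2) +
        2 * W ^ 2 := by
    intro p hp
    have h2 := sq_est h {p} ((PP L).erase p) (by simpa using (mem_PP.1 hp).1)
      (fun q hq => hprime q (mem_of_mem_erase hq)) (by simp)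
      (fun R => yy L R - yy L (insert p R)) x Z
    simp only [mem_singleton, forall_eq, prod_singleton, card_singleton, pow_one] at h2
    have h3 : ∑ R ∈ ((PP L).erase p).powerset, |yy L R - yy L (insert p R)| * 8 ^ #R ≤ W := by
      refine le_trans (sum_le_sum fun R hR => ?_)
        (sum_le_sum_of_subset_of_nonneg (powerset_mono.2 (erase_subset p _)) fun R _ _ =>
          mul_nonneg (ESieve_yy_nonneg L R) (by positivity))
      have hpR : p ∉ R := fun h => notMem_erase p _ (mem_powerset.1 hR h)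
      have h4 := ESieve_yy_insert L hpR
      have h5 := ESieve_yy_nonneg L (insert p R)
      rw [abs_of_nonneg (by linarith)]
      exact mul_le_mul_of_nonneg_right (by linarith) (by positivity)
    have h6 : (∑ R ∈ ((PP L).erase p).powerset, |yy L R - yy L (insert p R)| * 8 ^ #R) ^ 2 ≤
        W ^ 2 :=
      pow_le_pow_left₀ (sum_nonneg fun R _ => by positivity) h3 2
    have h7 : ∑ t ∈ Ico x (x + Z), (if Bad r r' p t then (1 : ℝ) else 0) * φ t ^ 2 =
        ∑ t ∈ Ico x (x + Z), (if Bad r r' p t then (1 : ℝ) else 0) *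
          (∑ R ∈ ((PP L).erase p).powerset,
            (yy L R - yy L (insert p R)) * ∏ q ∈ R, psi r r' q t) ^ 2 := by
      refine sum_congr rfl fun t _ => ?_
      split_ifs with hb
      · rw [hφ]
        simp only
        rw [ESieve_split (hsub p hp) hb]
      · simp
    rw [h7]
    have := (abs_le.1 h2).2
    linarith
  have h8 : ∑ t ∈ Ico x (x + Z), φ t ^ 2 ≤
      ∑ p ∈ PP l, ∑ t ∈ Ico x (x + Z), (if Bad r r' p t then (1 : ℝ) else 0) * φ t ^ 2 := by
    rw [sum_comm]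
    refine sum_le_sum fun t ht => ?_
    obtain ⟨p, hp, hb⟩ := hall t ht
    have := single_le_sum (f := fun p => (if Bad r r' p t then (1 : ℝ) else 0) * φ t ^ 2)
      (fun q _ => by split_ifs <;> positivity) hp
    simpa [hb] using this
  have h9 := h8.trans (sum_le_sum h1)
  rw [sum_add_distrib, ← mul_sum, sum_const, nsmul_eq_mul] at h9
  have h10 := (abs_le.1 h0).1
  unfold TT
  simp only [hφ] at h9
  nlinarith [h9, h10]

/-- Rankin's trick. -/
theorem wt_le {L : ℝ} (hL : 0 ≤ L) : ∑ R ∈ (PP L).powerset, yy L R * 8 ^ #R ≤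
    L * Real.exp L * ∏ p ∈ PP L, (1 + 8 / (p : ℝ)) := by
  rw [prod_one_add, mul_sum]
  refine sum_le_sum fun R hR => ?_
  have hpos : ∀ p ∈ R, (0 : ℝ) < p := fun p hp => by
    exact_mod_cast (mem_PP.1 (mem_powerset.1 hR hp)).1.pos
  have h1 : ∏ p ∈ R, (8 / (p : ℝ)) = Real.exp (-LL R) * 8 ^ #R := by
    rw [prod_div_distrib, prod_const, LL, Real.exp_neg, Real.exp_sum, div_eq_inv_mul]
    congr 2
    exact prod_congr rfl fun p hp => (Real.exp_log (hpos p hp)).symm
  rw [h1, ← mul_assoc, mul_assoc L, ← Real.exp_add]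
  refine mul_le_mul_of_nonneg_right ?_ (by positivity)
  have h2 : 0 ≤ LL R := sum_nonneg fun p _ => Real.log_natCast_nonneg p
  unfold yy
  refine max_le ?_ (by positivity)
  by_cases h3 : LL R ≤ L
  · have : 1 ≤ Real.exp (L + -LL R) := Real.one_le_exp (by linarith)
    nlinarith
  · have : 0 ≤ L * Real.exp (L + -LL R) := by positivity
    linarith

theorem ESieve_num {l : ℝ} (hl : 10 ^ 9 ≤ l) :
    5 * Real.exp l * (197 / 100 * l * Real.exp (197 / 100 * l) *
      Real.exp (1 / 1000 * (197 / 100 * l))) ^ 2 < Real.exp (l * (99 / 20)) := by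
  have h0 : 0 < l := by linarith
  have h1 := Real.pow_div_factorial_le_exp (6 / 1000 * l) (by positivity) 3
  have h2 : 20 * l ^ 2 < Real.exp (6 / 1000 * l) := by
    refine lt_of_lt_of_le ?_ h1
    have h3 : ((3 : ℕ).factorial : ℝ) = 6 := by norm_num [Nat.factorial]
    rw [h3]
    have h4 : 0 < l ^ 2 := by positivity
    nlinarith
  have h5 : 5 * Real.exp l * (197 / 100 * l * Real.exp (197 / 100 * l) *
      Real.exp (1 / 1000 * (197 / 100 * l))) ^ 2 =
      5 * (197 / 100) ^ 2 * l ^ 2 * Real.exp (494394 / 100000 * l) := by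
    have : Real.exp (494394 / 100000 * l) = Real.exp l * (Real.exp (197 / 100 * l) *
        Real.exp (1 / 1000 * (197 / 100 * l))) ^ 2 := by
      rw [← Real.exp_add, ← Real.exp_nat_mul, ← Real.exp_add]
      congr 1
      push_cast
      ring
    rw [this]
    ring
  have h6 : Real.exp (6 / 1000 * l) * Real.exp (494394 / 100000 * l) ≤
      Real.exp (l * (99 / 20)) := by
    rw [← Real.exp_add]
    exact Real.exp_le_exp.2 (by linarith)
  rw [h5]
  refine lt_of_lt_of_le ?_ h6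
  refine mul_lt_mul_of_pos_right ?_ (Real.exp_pos _)
  have h4 : 0 < l ^ 2 := by positivity
  nlinarith

/-- The two dimensional sieve with sieving limit `4.95`. -/
theorem sieve2 : ∃ z₀ : ℕ, ∀ z : ℕ, z₀ ≤ z → ∀ r r' : ℕ → ℕ, r 2 ≡ r' 2 [MOD 2] → ∀ x Z : ℕ,
    (z : ℝ) ^ (99 / 20 : ℝ) ≤ Z → ∃ t, x ≤ t ∧ t < x + Z ∧
      ∀ p : ℕ, p.Prime → p ≤ z → ¬ Bad r r' p t := by
  obtain ⟨l₀, hl₀⟩ := TT_pos
  obtain ⟨L₀, hL₀⟩ := prod_le (ε := 1 / 1000) (by norm_num)
  refine ⟨⌈Real.exp (max (max l₀ L₀) (10 ^ 9))⌉₊, fun z hz r r' h2 x Z hZ => ?_⟩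
  have hz1 : Real.exp (max (max l₀ L₀) (10 ^ 9)) ≤ z := (Nat.le_ceil _).trans (by exact_mod_cast hz)
  have hzpos : (0 : ℝ) < z := (Real.exp_pos _).trans_le hz1
  set l := Real.log z with hl
  have hm : max (max l₀ L₀) (10 ^ 9) ≤ l := (Real.le_log_iff_exp_le hzpos).2 hz1
  have hm1 : l₀ ≤ l := (le_max_left _ _).trans ((le_max_left _ _).trans hm)
  have hm2 : L₀ ≤ l := (le_max_right _ _).trans ((le_max_left _ _).trans hm)
  have hm3 : (10 : ℝ) ^ 9 ≤ l := (le_max_right _ _).trans hm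
  have hl0 : 0 < l := by linarith
  have hez : Real.exp l = z := Real.exp_log hzpos
  by_contra hcon
  push Not at hcon
  let s : ℕ → ℕ := fun p => if p ≠ 2 ∧ r p ≡ r' p [MOD p] then r p + 1 else r' p
  have hex : Exact r s := by
    refine ⟨by simpa [s] using h2, fun p hp hp2 => ?_⟩
    by_cases hc : r p ≡ r' p [MOD p]
    · have : s p = r p + 1 := if_pos ⟨hp2, hc⟩
      rw [this]
      intro h
      have h3 := (Nat.modEq_iff_dvd' (Nat.le_succ _)).1 h
      rw [Nat.succ_sub (le_refl _), Nat.sub_self] at h3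
      exact hp.one_lt.ne' (Nat.dvd_one.1 h3)
    · have : s p = r' p := if_neg fun h => hc h.2
      rwa [this]
  have hall : ∀ t ∈ Ico x (x + Z), ∃ p ∈ PP l, Bad r s p t := by
    intro t ht
    obtain ⟨p, hp, hpz, hb⟩ := hcon t (mem_Ico.1 ht).1 (mem_Ico.1 ht).2
    refine ⟨p, mem_PP.2 ⟨hp, Real.log_le_log (by exact_mod_cast hp.pos) (by exact_mod_cast hpz)⟩,
      ?_⟩
    rcases hb with hb | hb
    · exact Or.inl hb
    · by_cases hc : p ≠ 2 ∧ r p ≡ r' p [MOD p]
      · exact Or.inl (hb.trans hc.2.symm)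
      · have : s p = r' p := if_neg hc
        exact Or.inr (by rwa [this])
  have h1 := sieve_ineq hex (L := 197 / 100 * l) (by linarith) hall
  have h3 := hl₀ l hm1
  have h4 := wt_le (L := 197 / 100 * l) (by linarith)
  have h5 := hL₀ (197 / 100 * l) (by linarith)
  have h6 : ∑ R ∈ (PP (197 / 100 * l)).powerset, yy (197 / 100 * l) R * 8 ^ #R ≤
      197 / 100 * l * Real.exp (197 / 100 * l) * Real.exp (1 / 1000 * (197 / 100 * l)) :=
    h4.trans (mul_le_mul_of_nonneg_left h5 (by positivity))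
  have h7 := pow_le_pow_left₀
    (sum_nonneg fun R _ => mul_nonneg (ESieve_yy_nonneg _ R) (by positivity)) h6 2
  have h8 : (#(PP l) : ℝ) ≤ Real.exp l + 1 := by
    have h9 : #(PP l) ≤ ⌊Real.exp l⌋₊ + 1 := by
      unfold PP
      exact (card_filter_le _ _).trans (card_range _).le
    have h10 : (⌊Real.exp l⌋₊ : ℝ) ≤ Real.exp l := Nat.floor_le (Real.exp_pos l).le
    have h11 : (#(PP l) : ℝ) ≤ (⌊Real.exp l⌋₊ : ℝ) + 1 := by exact_mod_cast h9
    linarith
  have h12 : 1 ≤ Real.exp l := Real.one_le_exp hl0.le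
  have h13 : (1 + 2 * (#(PP l) : ℝ)) ≤ 5 * Real.exp l := by linarith
  have h14 := mul_le_mul h13 h7 (sq_nonneg _) (by positivity)
  have h15 := ESieve_num hm3
  rw [Real.rpow_def_of_pos hzpos, ← hl] at hZ
  have h16 : (Z : ℝ) ≤ Z * TT l (197 / 100 * l) :=
    le_mul_of_one_le_right (Nat.cast_nonneg Z) h3
  linarith

end Pool.Agent.MP_c7a479_co.Ex

end

section

namespace Pool.Agent.MP_c7a479_co.Ex

open Finset
open scoped Classical

/-- The decomposition `n = q ^ 3 * t + U`. -/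
theorem decomp3 {n q z Z : ℕ} (hq : 2 ≤ q) (hZ : 1 ≤ Z) (hn : 6 * q ^ 5 * Z ≤ n)
    (hzZ : 6 * z ^ 3 ≤ Z)
    (hp : ∀ p : ℕ, p.Prime → p ≤ z → p ∣ q → ¬ p ∣ n) (h2 : 2 ∣ q ∨ 2 ∣ n)
    (hs : ∀ r r' : ℕ → ℕ, r 2 ≡ r' 2 [MOD 2] → ∀ x : ℕ, ∃ t, x ≤ t ∧ t < x + Z ∧
      ∀ p : ℕ, p.Prime → p ≤ z → ¬ Bad r r' p t) :
    ∃ t U : ℕ, n = q ^ 3 * t + U ∧ t ≠ 0 ∧ U ≠ 0 ∧ U % (q - 1) * (6 * z ^ 3) + U / (q - 1) ≤ t ∧
      (∀ p : ℕ, p.Prime → p ∣ t → z < p) ∧ ∀ p : ℕ, p.Prime → p ∣ U → z < p := by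
  have hr : ∀ p : ℕ, ∃ r : ℕ, (p = 2 → r ≡ 0 [MOD 2]) ∧
      (p.Prime → ¬ p ∣ q → ∀ t, q ^ 3 * t ≡ n [MOD p] → t ≡ r [MOD p]) := by
    intro p
    by_cases h : p.Prime ∧ ¬ p ∣ q ∧ ∃ t, q ^ 3 * t ≡ n [MOD p]
    · obtain ⟨h1, h3, t₀, h4⟩ := h
      have hc : Nat.Coprime p (q ^ 3) := ((Nat.Prime.coprime_iff_not_dvd h1).2 h3).pow_right 3
      refine ⟨t₀, ?_, fun _ _ t ht => Nat.ModEq.cancel_left_of_coprime hc (ht.trans h4.symm)⟩
      rintro rfl
      refine Nat.ModEq.cancel_left_of_coprime hc (h4.trans ?_)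
      exact (Nat.modEq_zero_iff_dvd.2 (h2.resolve_left h3))
    · exact ⟨0, fun _ => rfl, fun h1 h3 t ht => absurd ⟨h1, h3, t, ht⟩ h⟩
  choose r hr2 hr using hr
  have hq4 : 0 < q ^ 3 := by positivity
  have hN : 6 * q ^ 2 * Z ≤ n / q ^ 3 := by
    rw [Nat.le_div_iff_mul_le hq4]
    calc 6 * q ^ 2 * Z * q ^ 3 = 6 * q ^ 5 * Z := by ring
      _ ≤ n := hn
  have hq2 : 4 ≤ q ^ 2 := by nlinarith
  have hZN : 24 * Z ≤ 6 * q ^ 2 * Z := by nlinarith
  obtain ⟨t, h3, h4, h5⟩ := hs (fun _ => 0) r (hr2 2 rfl).symm (n / q ^ 3 - Z)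
  have h6 : t + 1 ≤ n / q ^ 3 := by omega
  have h7 : q ^ 3 * (t + 1) ≤ n := by
    rw [mul_comm]
    exact (Nat.le_div_iff_mul_le hq4).1 h6
  have h8 : n < q ^ 3 * (t + Z + 1) := by
    rw [mul_comm]
    exact (Nat.div_lt_iff_lt_mul hq4).1 (by omega)
  obtain ⟨U, rfl⟩ : ∃ U, n = q ^ 3 * t + U := Nat.exists_eq_add_of_le (by nlinarith)
  refine ⟨t, U, rfl, by omega, by nlinarith, ?_, fun p hp' h => ?_, fun p hp' h => ?_⟩
  · obtain ⟨s, rfl⟩ : ∃ s, q = s + 1 := ⟨q - 1, by omega⟩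
    have hs1 : 1 ≤ s := by omega
    rw [Nat.add_sub_cancel]
    have e1 : U % s < s := Nat.mod_lt _ hs1
    have e2 : U / s ≤ 4 * (s + 1) ^ 2 * Z := by
      apply Nat.div_le_of_le_mul
      have e3 : U ≤ (s + 1) ^ 3 * (2 * Z) := by nlinarith
      calc U ≤ (s + 1) * ((s + 1) ^ 2 * (2 * Z)) := by rw [← mul_assoc, ← pow_succ']; exact e3
        _ ≤ (2 * s) * ((s + 1) ^ 2 * (2 * Z)) := Nat.mul_le_mul_right _ (by omega)
        _ = _ := by ring
    have e4 : U % s * (6 * z ^ 3) ≤ (s + 1) ^ 2 * Z := Nat.mul_le_mul (by nlinarith) hzZ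
    have e5 : 6 * (s + 1) ^ 2 * Z = 4 * (s + 1) ^ 2 * Z + 2 * ((s + 1) ^ 2 * Z) := by ring
    have e6 : 1 * Z ≤ (s + 1) ^ 2 * Z := Nat.mul_le_mul_right _ (by nlinarith)
    omega
  · by_contra hc
    exact h5 p hp' (by omega) (Or.inl (Nat.modEq_zero_iff_dvd.2 h))
  · by_contra hc
    have hU : q ^ 3 * t ≡ q ^ 3 * t + U [MOD p] := by
      simpa using (Nat.ModEq.refl (q ^ 3 * t)).add (Nat.modEq_zero_iff_dvd.2 h).symm
    by_cases hpq : p ∣ q
    · exact hp p hp' (by omega) hpq (dvd_add ((hpq.pow (by norm_num)).mul_right t) h)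
    · exact h5 p hp' (by omega) (Or.inr (hr p hp' hpq t hU))

theorem FFinal_num : ∃ x₀ : ℝ, 3 ≤ x₀ ∧ ∀ x z : ℝ, x₀ ≤ x → x ≤ z → z ≤ x + 3 →
    20 * z ≤ z ^ (1 + 1 / 200 : ℝ) ∧ 6 * z ^ 3 ≤ z ^ (99 / 20 : ℝ) ∧
      6 * (z ^ (1 + 1 / 200 : ℝ)) ^ 5 * (z ^ (99 / 20 : ℝ) + 1) ≤ x ^ 10 := by
  obtain ⟨x₀, h⟩ := Filter.eventually_atTop.1
    ((tendsto_rpow_atTop (show (0 : ℝ) < 1 / 200 by norm_num)).eventually_ge_atTop 20)
  refine ⟨max x₀ 6, le_trans (by norm_num) (le_max_right _ _), fun x z hx h1 h2 => ?_⟩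
  have h3 : 6 ≤ x := (le_max_right _ _).trans hx
  have h4 := h z (((le_max_left _ _).trans hx).trans h1)
  have hz : 0 < z := by linarith
  set w := z ^ (1 / 200 : ℝ) with hw
  have e1 : z ^ (1 + 1 / 200 : ℝ) = z * w := by rw [Real.rpow_add hz, Real.rpow_one]
  have e2 : z ^ (99 / 20 : ℝ) * w ^ 10 = z ^ 5 := by
    rw [hw, ← Real.rpow_natCast, ← Real.rpow_mul hz.le, ← Real.rpow_add hz, ← Real.rpow_natCast]
    norm_num
  have e3 : 1 ≤ z ^ (99 / 20 : ℝ) := Real.one_le_rpow (by linarith) (by norm_num)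
  have e0 : z ^ 4 ≤ z ^ (99 / 20 : ℝ) := by
    rw [← Real.rpow_natCast]
    exact Real.rpow_le_rpow_of_exponent_le (by linarith) (by norm_num)
  set y := z ^ (99 / 20 : ℝ)
  rw [e1]
  refine ⟨by nlinarith, by nlinarith [pow_pos hz 3], ?_⟩
  have e4 : (20 : ℝ) ^ 5 ≤ w ^ 5 := pow_le_pow_left₀ (by norm_num) h4 5
  have e5 : z ^ 10 ≤ (2 * x) ^ 10 := pow_le_pow_left₀ hz.le (by linarith) 10
  have e6 : 0 ≤ z ^ 5 * w ^ 5 * y := by positivity
  have e7 : z ^ 10 = z ^ 5 * w ^ 5 * y * w ^ 5 := by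
    rw [show z ^ 10 = z ^ 5 * z ^ 5 by ring]
    nth_rewrite 2 [← e2]
    ring
  have e8 : z ^ 5 * w ^ 5 * 1 ≤ z ^ 5 * w ^ 5 * y := mul_le_mul_of_nonneg_left e3 (by positivity)
  have e9 := mul_le_mul_of_nonneg_left e4 e6
  calc 6 * (z * w) ^ 5 * (y + 1) = 6 * (z ^ 5 * w ^ 5 * y) + 6 * (z ^ 5 * w ^ 5 * 1) := by ring
    _ ≤ x ^ 10 := by nlinarith

theorem final10 : ∃ n₀ : ℕ, ∀ n : ℕ, n₀ ≤ n →
    ∃ k : ℕ, (n : ℝ) ^ (1 / 10 : ℝ) ≤ k ∧ HasVarSet 2 n k := by
  obtain ⟨x₀, hx₀, hnum⟩ := FFinal_num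
  obtain ⟨k₀, hodd⟩ := field_odd (ε := 1 / 200) (by norm_num)
  obtain ⟨z₀, hsv⟩ := sieve2
  obtain ⟨n₀, hn₀⟩ := Filter.eventually_atTop.1
    (((tendsto_rpow_atTop (show (0 : ℝ) < 1 / 10 by norm_num)).comp
      tendsto_natCast_atTop_atTop).eventually_ge_atTop (x₀ + k₀ + z₀))
  refine ⟨n₀, fun n hn => ⟨⌈(n : ℝ) ^ (1 / 10 : ℝ)⌉₊, Nat.le_ceil _, ?_⟩⟩
  have h1 : x₀ + k₀ + z₀ ≤ (n : ℝ) ^ (1 / 10 : ℝ) := hn₀ n hn
  have h11 : ((n : ℝ) ^ (1 / 10 : ℝ)) ^ 10 = n := by
    rw [← Real.rpow_natCast, ← Real.rpow_mul n.cast_nonneg]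
    norm_num
  set x := (n : ℝ) ^ (1 / 10 : ℝ)
  have hk0 : (0 : ℝ) ≤ k₀ := k₀.cast_nonneg
  have hz0 : (0 : ℝ) ≤ z₀ := z₀.cast_nonneg
  have h2 := Nat.le_ceil x
  have h3 := Nat.ceil_lt_add_one (show 0 ≤ x by linarith)
  set k := ⌈x⌉₊
  obtain ⟨h4, h8, h5⟩ := hnum x ((k + 2 : ℕ) : ℝ) (by linarith) (by push_cast; linarith)
    (by push_cast; linarith)
  have h6 : k₀ ≤ k + 2 := by
    have : (k₀ : ℝ) ≤ ((k + 2 : ℕ) : ℝ) := by push_cast; linarith
    exact_mod_cast this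
  have h7 : z₀ ≤ k + 2 := by
    have : (z₀ : ℝ) ≤ ((k + 2 : ℕ) : ℝ) := by push_cast; linarith
    exact_mod_cast this
  obtain ⟨K, _, _, a, ha, hap, hq, hq', hp, hpar⟩ : ∃ (K : Type) (_ : Field K) (_ : Fintype K)
      (a : Fin (k + 2) → K), Function.Injective a ∧ (∀ i j l, a i + a j = 2 * a l → i = j) ∧
      10 * (k + 2) ≤ Fintype.card K ∧
      (Fintype.card K : ℝ) ≤ ((k + 2 : ℕ) : ℝ) ^ (1 + 1 / 200 : ℝ) ∧
      (∀ p : ℕ, p.Prime → p ≤ k + 2 → p ∣ Fintype.card K → ¬ p ∣ n) ∧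
      (2 ∣ Fintype.card K ∨ 2 ∣ n) := by
    by_cases hn2 : 2 ∣ n
    · obtain ⟨K, _, _, a, ha, hap, hq, hq', hpr⟩ := hodd (k + 2) h6
      refine ⟨K, _, _, a, ha, hap, hq, hq', fun p hp hp' h => ?_, Or.inr hn2⟩
      have := (Nat.prime_dvd_prime_iff_eq hp hpr).1 h
      omega
    · obtain ⟨K, _, _, a, ha, hap, hq, hq', e, he, hc⟩ := field_even (k := k + 2) (by omega)
      refine ⟨K, _, _, a, ha, hap, hq, le_trans ?_ h4, fun p hp _ h => ?_, Or.inl ?_⟩
      · exact_mod_cast hq'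
      · rw [hc] at h
        rwa [(Nat.prime_dvd_prime_iff_eq hp Nat.prime_two).1 (hp.dvd_of_dvd_pow h)]
      · rw [hc]
        exact dvd_pow_self 2 (by omega)
  have hy : (0 : ℝ) < ((k + 2 : ℕ) : ℝ) ^ (99 / 20 : ℝ) := by positivity
  obtain ⟨t, U, hn', ht, hU, hle, hrt, hrU⟩ := decomp3 (n := n) (q := Fintype.card K) (z := k + 2)
    (Z := ⌈((k + 2 : ℕ) : ℝ) ^ (99 / 20 : ℝ)⌉₊) (by omega) (Nat.ceil_pos.2 hy) (by
      have e1 := (Nat.ceil_lt_add_one hy.le).le
      have e2 := pow_le_pow_left₀ (Nat.cast_nonneg _) hq' 5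
      have : (6 : ℝ) * (Fintype.card K : ℝ) ^ 5 * (⌈((k + 2 : ℕ) : ℝ) ^ (99 / 20 : ℝ)⌉₊ : ℕ) ≤ n := by
        rw [← h11]
        refine le_trans ?_ h5
        gcongr
      exact_mod_cast this) (by exact_mod_cast h8.trans (Nat.le_ceil _)) hp hpar
    (fun r r' h x => hsv (k + 2) h7 r r' h x _ (Nat.le_ceil _))
  have hI := itd_layers ha hap (by omega) (by omega) ht (fun p hp h => (hrt p hp h).le) hle
  rw [Nat.div_add_mod] at hI
  exact ((hI.fill (td_rough hU fun p hp h => (hrU p hp h).le)).of_card (by simp [hn'])).hasVarSet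

end Pool.Agent.MP_c7a479_co.Ex

end
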