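import Pool.Agent.MP_c7a479_co.Defs

section

namespace Pool.Agent.MP_c7a479_co.Six

abbrev G : Type := ZMod 6

/-- Entry `(a, b)` of a `6 × 6` table packed in base eight. -/
def tb (N : ℕ) (a b : G) : G := ((N / 8 ^ (6 * a.val + b.val) % 8 : ℕ) : G)

def g1 (a b : G) : G := tb 6622112600043280258611307790475 a b
def g2 (a b : G) : G := tb 218365838641466236358083267057872 a b
def g3 (a b : G) : G := tb 130271165087957515793440482535755 a b

def par (a : G) : Bool := a.val % 2 == 1

def P (p c : G) : G := tb 99829192281990218748400600764954 c p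

def Q (p c : G) (b : Bool) : G :=
  if b then tb 135089771664660639808101315261093 c p else tb 135089771664660639821089296364386 c p

def sg (a : G) : G := if a = 2 then 3 else if a = 3 then 2 else a

def R (u v : G × Bool) : Prop := u.1 ≠ v.1 ∧ ∀ p, Q p u.1 u.2 ≠ Q p v.1 v.2

instance (u v : G × Bool) : Decidable (R u v) := by unfold R; infer_instance

theorem g1_l : ∀ a a' b, a ≠ a' → g1 a b ≠ g1 a' b := by decide +kernel
theorem g1_r : ∀ a b b', b ≠ b' → g1 a b ≠ g1 a b' := by decide +kernel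
theorem g2_l : ∀ a a' b, a ≠ a' → g2 a b ≠ g2 a' b := by decide +kernel
theorem g2_r : ∀ a b b', b ≠ b' → g2 a b ≠ g2 a b' := by decide +kernel
theorem g3_l : ∀ a a' b, a ≠ a' → g3 a b ≠ g3 a' b := by decide +kernel
theorem g3_r : ∀ a b b', b ≠ b' → g3 a b ≠ g3 a b' := by decide +kernel

theorem g_diff : ∀ a b a' b', g1 a b - g3 a b = g1 a' b' - g3 a' b' →
    g2 a b - g3 a b = g2 a' b' - g3 a' b' → a = a' ∧ b = b' := by decide +kernel

theorem sg_inj : ∀ a a', sg a = sg a' → a = a' := by decide +kernel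

theorem par_cancel : ∀ a b a' b' : G, a + b = a' + b' → par a = par a' → par b = par b' := by
  decide +kernel

theorem P_l : ∀ p p' c, p ≠ p' → P p c ≠ P p' c := by decide +kernel
theorem P_r : ∀ p c c', c ≠ c' → P p c ≠ P p c' := by decide +kernel
theorem Q_l : ∀ p p' c b, p ≠ p' → Q p c b ≠ Q p' c b := by decide +kernel

theorem PQ_par : ∀ p c p' c', P p c = P p' c' → ∀ b b', Q p c b = Q p' c' b' →
    par c = par c' ∧ par p = par p' := by decide +kernel

theorem PQ_eq : ∀ p c p' c', P p c = P p' c' → ∀ b, Q p c b = Q p' c' b →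
    p = p' ∧ c = c' := by decide +kernel

theorem R_x : ∀ c b c' b', R (c, b) (c', b') → ∀ y,
    R (P y c, par (Q y c b)) (P y c', par (Q y c' b')) := by decide +kernel

theorem R_y : ∀ c b y y', y ≠ y' →
    R (P y c, par (Q y c b)) (P y' c, par (Q y' c b)) := by decide +kernel

theorem seed_0 : ∀ a a' b z, a ≠ a' →
    R (sg (g1 a b + z), par (g3 a b + z)) (sg (g1 a' b + z), par (g3 a' b + z)) := by
  decide +kernel

theorem seed_1 : ∀ a b b' z, b ≠ b' →
    R (sg (g1 a b + z), par (g3 a b + z)) (sg (g1 a b' + z), par (g3 a b' + z)) := by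
  decide +kernel

theorem seed_2 : ∀ a b z z', z ≠ z' →
    R (sg (g1 a b + z), par (g3 a b + z)) (sg (g1 a b + z'), par (g3 a b + z')) := by
  decide +kernel

end Pool.Agent.MP_c7a479_co.Six

end

section

namespace Pool.Agent.MP_c7a479_co.Six

open Function Finset

/-- Two different cells on a common axis-parallel line have `ρ`-related values. -/
def Line {ι β : Type} [DecidableEq ι] (f : (ι → G) → β) (ρ : β → β → Prop) : Prop :=
  ∀ x j t t', t ≠ t' → ρ (f (update x j t)) (f (update x j t'))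

section basic

variable {ι ι' β β' γ : Type} [DecidableEq ι] [DecidableEq ι']

theorem Line.perm {f : (ι → G) → G} (h : Line f (· ≠ ·)) : IsPermCube f := by
  intro x j
  apply Injective.bijective_of_finite
  intro t t' htt
  by_contra hne
  exact h x j t t' hne htt

theorem Line.map {f : (ι → G) → β} {ρ : β → β → Prop} (h : Line f ρ) (g : β → γ)
    {σ : γ → γ → Prop} (hg : ∀ b b', ρ b b' → σ (g b) (g b')) : Line (fun x => g (f x)) σ :=
  fun x j t t' ht => hg _ _ (h x j t t' ht)

theorem Line.transfer {f : (ι → G) → β} {ρ : β → β → Prop} (h : Line f ρ) (e : ι ≃ ι') :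
    Line (fun x : ι' → G => f (x ∘ e)) ρ := by
  intro x j t t' ht
  simp only [update_comp_equiv]
  exact h _ _ _ _ ht

theorem Line.sum {f : (ι → G) → β} {ρ : β → β → Prop} {f' : (ι' → G) → β'}
    {ρ' : β' → β' → Prop} (h : Line f ρ) (h' : Line f' ρ') (g : β → β' → γ) {σ : γ → γ → Prop}
    (h1 : ∀ b b' c, ρ b b' → σ (g b c) (g b' c)) (h2 : ∀ b c c', ρ' c c' → σ (g b c) (g b c')) :
    Line (fun x : ι ⊕ ι' → G => g (f (x ∘ Sum.inl)) (f' (x ∘ Sum.inr))) σ := by
  rintro x (j | j) t t' ht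
  · simp only [Sum.update_inl_comp_inl, Sum.update_inl_comp_inr]
    exact h1 _ _ _ (h _ _ _ _ ht)
  · simp only [Sum.update_inr_comp_inl, Sum.update_inr_comp_inr]
    exact h2 _ _ _ (h' _ _ _ _ ht)

theorem Line.add {f : (ι → G) → G} {f' : (ι' → G) → G} (h : Line f (· ≠ ·))
    (h' : Line f' (· ≠ ·)) :
    Line (fun x : ι ⊕ ι' → G => f (x ∘ Sum.inl) + f' (x ∘ Sum.inr)) (· ≠ ·) :=
  h.sum h' (fun a b => a + b) (fun _ _ _ hb hc => hb (add_right_cancel hc))
    (fun _ _ _ hb hc => hb (add_left_cancel hc))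

theorem line_one : Line (fun x : Unit → G => x ()) (· ≠ ·) := by
  intro x j t t' ht
  simpa using ht

theorem line_two (g : G → G → β) {ρ : β → β → Prop} (h0 : ∀ a a' b, a ≠ a' → ρ (g a b) (g a' b))
    (h1 : ∀ a b b', b ≠ b' → ρ (g a b) (g a b')) :
    Line (fun x : Fin 2 → G => g (x 0) (x 1)) ρ := by
  intro x j t t' ht
  fin_cases j
  · simpa using h0 _ _ _ ht
  · simpa using h1 _ _ _ ht

theorem line_three (g : G → G → G → β) {ρ : β → β → Prop}
    (h0 : ∀ a a' b c, a ≠ a' → ρ (g a b c) (g a' b c))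
    (h1 : ∀ a b b' c, b ≠ b' → ρ (g a b c) (g a b' c))
    (h2 : ∀ a b c c', c ≠ c' → ρ (g a b c) (g a b c')) :
    Line (fun x : Fin 3 → G => g (x 0) (x 1) (x 2)) ρ := by
  intro x j t t' ht
  fin_cases j
  · simpa using h0 _ _ _ _ ht
  · simpa using h1 _ _ _ _ ht
  · simpa using h2 _ _ _ _ ht

omit [DecidableEq ι] [DecidableEq ι'] in
theorem sum_ext {x y : ι ⊕ ι' → G} (h1 : x ∘ Sum.inl = y ∘ Sum.inl)
    (h2 : x ∘ Sum.inr = y ∘ Sum.inr) : x = y := by
  funext j
  rcases j with j | j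
  · exact congrFun h1 j
  · exact congrFun h2 j

theorem two_ext {x y : Fin 2 → G} (h : x 0 = y 0 ∧ x 1 = y 1) : x = y := by
  funext j
  fin_cases j
  · exact h.1
  · exact h.2

theorem g_shift {a b z a' b' z' : G} (h1 : g1 a b + z = g1 a' b' + z')
    (h2 : g2 a b + z = g2 a' b' + z') (h3 : g3 a b + z = g3 a' b' + z') :
    a = a' ∧ b = b' ∧ z = z' := by
  obtain ⟨rfl, rfl⟩ := g_diff a b a' b' (by linear_combination h1 - h3)
    (by linear_combination h2 - h3)
  exact ⟨rfl, rfl, add_left_cancel h1⟩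

theorem line_g1 : Line (fun x : Fin 2 → G => g1 (x 0) (x 1)) (· ≠ ·) := line_two g1 g1_l g1_r
theorem line_g2 : Line (fun x : Fin 2 → G => g2 (x 0) (x 1)) (· ≠ ·) := line_two g2 g2_l g2_r
theorem line_g3 : Line (fun x : Fin 2 → G => g3 (x 0) (x 1)) (· ≠ ·) := line_two g3 g3_l g3_r

theorem line_shift {g : G → G → G} (h0 : ∀ a a' b, a ≠ a' → g a b ≠ g a' b)
    (h1 : ∀ a b b', b ≠ b' → g a b ≠ g a b') :
    Line (fun x : Fin 3 → G => g (x 0) (x 1) + x 2) (· ≠ ·) :=
  line_three (fun a b c => g a b + c) (fun _ _ _ _ h hc => h0 _ _ _ h (add_right_cancel hc))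
    (fun _ _ _ _ h hc => h1 _ _ _ h (add_right_cancel hc))
    (fun _ _ _ _ h hc => h (add_left_cancel hc))

end basic

/-! ### Free systems -/

/-- `k` jointly injective permutation cubes whose first two members fit the gadget `P, Q`. -/
def SysF (ι : Type) [DecidableEq ι] (k : ℕ) : Prop :=
  ∃ a : ℕ → (ι → G) → G, (∀ i, Line (a i) (· ≠ ·)) ∧
    Line (fun x => (a 0 x, par (a 1 x))) R ∧ ∀ x y, (∀ i, i < k → a i x = a i y) → x = y

theorem SysF.transfer {ι ι' : Type} [DecidableEq ι] [DecidableEq ι'] {k : ℕ} (h : SysF ι k)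
    (e : ι ≃ ι') : SysF ι' k := by
  obtain ⟨a, h1, h2, h3⟩ := h
  refine ⟨fun i x => a i (x ∘ e), fun i => (h1 i).transfer e, h2.transfer e, fun x y h => ?_⟩
  have := h3 _ _ h
  funext j
  simpa using congrFun this (e.symm j)

theorem sysF_three : SysF (Fin 3) 3 := by
  refine ⟨fun i x => if i = 0 then sg (g1 (x 0) (x 1) + x 2) else
    if i = 1 then g3 (x 0) (x 1) + x 2 else g2 (x 0) (x 1) + x 2, fun i => ?_, ?_, ?_⟩
  · beta_reduce
    split_ifs
    · exact (line_shift g1_l g1_r).map sg fun _ _ h hc => h (sg_inj _ _ hc)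
    · exact line_shift g3_l g3_r
    · exact line_shift g2_l g2_r
  · exact line_three (fun a b z => (sg (g1 a b + z), par (g3 a b + z))) seed_0 seed_1 seed_2
  · intro x y h
    have h0 := h 0 (by omega)
    have h1 := h 1 (by omega)
    have h2 := h 2 (by omega)
    simp only [if_true, if_false, one_ne_zero, OfNat.ofNat_ne_zero, OfNat.ofNat_ne_one]
      at h0 h1 h2
    obtain ⟨e0, e1, e2⟩ := g_shift (sg_inj _ _ h0) h2 h1
    funext j
    fin_cases j
    · exact e0
    · exact e1
    · exact e2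

theorem SysF.step {ι : Type} [DecidableEq ι] {k : ℕ} (h : SysF ι k) (hk : 2 ≤ k) :
    SysF (Unit ⊕ ι) (k + 1) := by
  obtain ⟨a, h1, h2, h3⟩ := h
  refine ⟨fun i x => if i = 0 then P (x (Sum.inl ())) (a 0 (x ∘ Sum.inr)) else
    if i = 1 then Q (x (Sum.inl ())) (a 0 (x ∘ Sum.inr)) (par (a 1 (x ∘ Sum.inr))) else
      x (Sum.inl ()) + a (i - 1) (x ∘ Sum.inr), fun i => ?_, ?_, ?_⟩
  · beta_reduce
    split_ifs
    · exact line_one.sum (h1 0) P (fun _ _ _ h => P_l _ _ _ h) (fun _ _ _ h => P_r _ _ _ h)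
    · exact line_one.sum h2 (fun y u => Q y u.1 u.2) (fun _ _ _ h => Q_l _ _ _ _ h)
        (fun _ _ _ h => h.2 _)
    · exact line_one.add (h1 _)
  · exact line_one.sum h2 (fun y u => (P y u.1, par (Q y u.1 u.2)))
      (fun _ _ _ h => R_y _ _ _ _ h) (fun _ _ _ h => R_x _ _ _ _ h _)
  · intro x y h
    have h0 := h 0 (by omega)
    have h1 := h 1 (by omega)
    have h2 := h 2 (by omega)
    simp only [if_true, if_false, one_ne_zero, OfNat.ofNat_ne_zero, OfNat.ofNat_ne_one]
      at h0 h1 h2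
    have e1 := par_cancel _ _ _ _ h2 (PQ_par _ _ _ _ h0 _ _ h1).2
    rw [e1] at h1
    obtain ⟨e2, e3⟩ := PQ_eq _ _ _ _ h0 _ h1
    refine sum_ext (funext fun _ => e2) (h3 _ _ fun i hi => ?_)
    rcases Nat.eq_zero_or_pos i with rfl | hi0
    · exact e3
    · have := h (i + 1) (by omega)
      beta_reduce at this
      rw [if_neg (by omega), if_neg (by omega), if_neg (by omega), if_neg (by omega), e2,
        Nat.add_sub_cancel] at this
      exact add_left_cancel this

theorem sysF (k : ℕ) (hk : 3 ≤ k) : SysF (Fin k) k := by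
  induction k, hk using Nat.le_induction with
  | base => exact sysF_three
  | succ k hk ih =>
    exact (ih.step (by omega)).transfer (Fintype.equivFinOfCardEq (by simp; omega))

/-! ### Even dimension: the barbell -/

theorem chain_fwd {β : Type} (φ : G → β)
    (hφ : ∀ a b a' b' : G, a + b = a' + b' → φ a = φ a' → φ b = φ b') (u w : ℕ → G) (b : ℕ)
    (h0 : φ (u 0) = φ (w 0)) (h : ∀ j, j < b → u j + u (j + 1) = w j + w (j + 1)) :
    ∀ j, j ≤ b → φ (u j) = φ (w j) := by
  intro j
  induction j with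
  | zero => exact fun _ => h0
  | succ j ih => exact fun hj => hφ _ _ _ _ (h j (by omega)) (ih (by omega))

theorem chain_bwd {β : Type} (φ : G → β)
    (hφ : ∀ a b a' b' : G, a + b = a' + b' → φ a = φ a' → φ b = φ b') (u w : ℕ → G) (a b : ℕ)
    (h0 : φ (u b) = φ (w b)) (h : ∀ j, a ≤ j → j < b → u j + u (j + 1) = w j + w (j + 1)) :
    ∀ j, a ≤ j → j ≤ b → φ (u j) = φ (w j) := by
  intro j hj hjb
  induction hjb using Nat.decreasingInduction with
  | self => exact h0
  | of_succ j hjb ih =>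
    refine hφ _ _ _ _ ?_ (ih (by omega))
    rw [add_comm, add_comm (w _)]
    exact h j hj hjb

theorem id_cancel : ∀ a b a' b' : G, a + b = a' + b' → id a = id a' → id b = id b' := by
  intro a b a' b' h h'
  simp only [id] at h' ⊢
  rw [h'] at h
  exact add_left_cancel h

/-- Outputs of the barbell with path `u 0, …, u s` and pendant values `p, q`. -/
def bar (s : ℕ) (u : ℕ → G) (p q : G) (j : ℕ) : G :=
  if j < s then u j + u (j + 1)
  else if j = s then P p (u 0) else if j = s + 1 then Q p (u 0) (par (u 2))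
  else if j = s + 2 then P q (u s) else Q q (u s) (par (u (s - 2)))

theorem bar_sep (s : ℕ) (hs : 2 ≤ s) (u w : ℕ → G) (p q p' q' : G) (j0 : ℕ)
    (h : ∀ j, j < s + 4 → j ≠ j0 → bar s u p q j = bar s w p' q' j) :
    (∀ j, j ≤ s → u j = w j) ∧ p = p' ∧ q = q' := by
  have hE : ∀ j, j < s → j ≠ j0 → u j + u (j + 1) = w j + w (j + 1) := by
    intro j h1 h2
    simpa [bar, h1] using h j (by omega) h2
  have hA : j0 ≠ s → P p (u 0) = P p' (w 0) := fun h1 => by
    simpa [bar] using h s (by omega) h1.symm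
  have hB : j0 ≠ s + 1 → Q p (u 0) (par (u 2)) = Q p' (w 0) (par (w 2)) := fun h1 => by
    simpa [bar] using h (s + 1) (by omega) h1.symm
  have hC : j0 ≠ s + 2 → P q (u s) = P q' (w s) := fun h1 => by
    simpa [bar] using h (s + 2) (by omega) h1.symm
  have hD : j0 ≠ s + 3 → Q q (u s) (par (u (s - 2))) = Q q' (w s) (par (w (s - 2))) :=
    fun h1 => by simpa [bar] using h (s + 3) (by omega) h1.symm
  have hpar : ∀ j, j ≤ s → par (u j) = par (w j) := by
    intro j hj
    by_cases c1 : s + 2 ≤ j0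
    · exact chain_fwd par par_cancel u w s
        (PQ_par _ _ _ _ (hA (by omega)) _ _ (hB (by omega))).1
        (fun i hi => hE i hi (by omega)) j hj
    by_cases c2 : s ≤ j0
    · exact chain_bwd par par_cancel u w 0 s
        (PQ_par _ _ _ _ (hC (by omega)) _ _ (hD (by omega))).1
        (fun i _ hi => hE i hi (by omega)) j (by omega) hj
    by_cases c3 : j ≤ j0
    · exact chain_fwd par par_cancel u w j0
        (PQ_par _ _ _ _ (hA (by omega)) _ _ (hB (by omega))).1
        (fun i hi => hE i (by omega) (by omega)) j c3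
    · exact chain_bwd par par_cancel u w (j0 + 1) s
        (PQ_par _ _ _ _ (hC (by omega)) _ _ (hD (by omega))).1
        (fun i _ hi => hE i hi (by omega)) j (by omega) hj
  rw [hpar 2 hs] at hB
  rw [hpar (s - 2) (by omega)] at hD
  have hu : ∀ j, j ≤ s → u j = w j := by
    intro j hj
    by_cases c1 : s + 2 ≤ j0
    · exact chain_fwd id id_cancel u w s
        (PQ_eq _ _ _ _ (hA (by omega)) _ (hB (by omega))).2
        (fun i hi => hE i hi (by omega)) j hj
    by_cases c2 : s ≤ j0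
    · exact chain_bwd id id_cancel u w 0 s
        (PQ_eq _ _ _ _ (hC (by omega)) _ (hD (by omega))).2
        (fun i _ hi => hE i hi (by omega)) j (by omega) hj
    by_cases c3 : j ≤ j0
    · exact chain_fwd id id_cancel u w j0
        (PQ_eq _ _ _ _ (hA (by omega)) _ (hB (by omega))).2
        (fun i hi => hE i (by omega) (by omega)) j c3
    · exact chain_bwd id id_cancel u w (j0 + 1) s
        (PQ_eq _ _ _ _ (hC (by omega)) _ (hD (by omega))).2
        (fun i _ hi => hE i hi (by omega)) j (by omega) hj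
  rw [hu 0 (by omega)] at hA hB
  rw [hu s le_rfl] at hC hD
  refine ⟨hu, ?_, ?_⟩
  · by_contra hne
    by_cases c : j0 = s
    · exact Q_l _ _ _ _ hne (hB (by omega))
    · exact P_l _ _ _ hne (hA c)
  · by_contra hne
    by_cases c : j0 = s + 2
    · exact Q_l _ _ _ _ hne (hD (by omega))
    · exact P_l _ _ _ hne (hC c)

theorem hasVarSet_even (k : ℕ) (hk : 3 ≤ k) : HasVarSet (2 * k) 6 (2 * k + 1) := by
  obtain ⟨a, h1, h2, h3⟩ := sysF k hk
  obtain ⟨s, hs⟩ : ∃ s, s + 3 = 2 * k := ⟨2 * k - 3, by omega⟩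
  let u : (Fin k ⊕ Fin k → G) → ℕ → G := fun x j =>
    if j % 2 = 0 then a (j / 2) (x ∘ Sum.inl) else a ((s - j) / 2) (x ∘ Sum.inr)
  let E : ℕ → (Fin k ⊕ Fin k → G) → G := fun j x =>
    bar s (u x) (a (k - 1) (x ∘ Sum.inr)) (a (k - 1) (x ∘ Sum.inl)) j
  have u0 : ∀ x, u x 0 = a 0 (x ∘ Sum.inl) := fun x => by simp [u]
  have u2 : ∀ x, u x 2 = a 1 (x ∘ Sum.inl) := fun x => by simp [u]
  have us : ∀ x, u x s = a 0 (x ∘ Sum.inr) := fun x => by
    simp [u, show ¬ s % 2 = 0 by omega]
  have us2 : ∀ x, u x (s - 2) = a 1 (x ∘ Sum.inr) := fun x => by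
    simp [u, show ¬ (s - 2) % 2 = 0 by omega, show (s - (s - 2)) / 2 = 1 by omega]
  have hE : ∀ j, Line (E j) (· ≠ ·) := by
    intro j
    simp only [E, bar, u0, u2, us, us2]
    split_ifs
    · by_cases hj : j % 2 = 0
      · have hj' : ¬ (j + 1) % 2 = 0 := by omega
        simp only [u, if_pos hj, if_neg hj']
        exact (h1 _).add (h1 _)
      · have hj' : (j + 1) % 2 = 0 := by omega
        simp only [u, if_neg hj, if_pos hj']
        exact (h1 _).sum (h1 _) (fun c p => p + c) (fun _ _ _ hb hc => hb (add_left_cancel hc))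
          (fun _ _ _ hb hc => hb (add_right_cancel hc))
    · exact (h1 0).sum (h1 (k - 1)) (fun c p => P p c) (fun _ _ _ h => P_r _ _ _ h)
        (fun _ _ _ h => P_l _ _ _ h)
    · exact h2.sum (h1 (k - 1)) (fun c p => Q p c.1 c.2) (fun _ _ _ h => h.2 _)
        (fun _ _ _ h => Q_l _ _ _ _ h)
    · exact (h1 (k - 1)).sum (h1 0) (fun p c => P p c) (fun _ _ _ h => P_l _ _ _ h)
        (fun _ _ _ h => P_r _ _ _ h)
    · exact (h1 (k - 1)).sum h2 (fun p c => Q p c.1 c.2) (fun _ _ _ h => Q_l _ _ _ _ h)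
        (fun _ _ _ h => h.2 _)
  have : IsVarSet fun j : Fin (2 * k + 1) => E j := by
    refine isVarSet_of_omit (by simp; omega) (fun i => (hE i).perm) fun x y i0 hxy => ?_
    obtain ⟨e1, e2, e3⟩ := bar_sep s (by omega) (u x) (u y) _ _ _ _ i0 fun j hj hj0 =>
      hxy ⟨j, by omega⟩ fun h => hj0 (congrArg Fin.val h)
    refine sum_ext (h3 _ _ fun i hi => ?_) (h3 _ _ fun i hi => ?_)
    · by_cases c : i = k - 1
      · rw [c]; exact e3
      · simpa [u] using e1 (2 * i) (by omega)
    · by_cases c : i = k - 1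
      · rw [c]; exact e2
      · simpa [u, show ¬ (s - 2 * i) % 2 = 0 by omega, show (s - (s - 2 * i)) / 2 = i by omega]
          using e1 (s - 2 * i) (by omega)
  exact this.hasVarSet (by simp; omega) (by simp) (by simp)

/-! ### Odd dimension: balanced systems -/

/-- `2k` jointly injective permutation cubes `v i, w i` with `∑ v i = ∑ w i`. -/
def SysO (ι : Type) [DecidableEq ι] (k : ℕ) : Prop :=
  ∃ v w : ℕ → (ι → G) → G, (∀ i, Line (v i) (· ≠ ·)) ∧ (∀ i, Line (w i) (· ≠ ·)) ∧
    (∀ x, ∑ i ∈ range k, v i x = ∑ i ∈ range k, w i x) ∧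
    ∀ x y, (∀ i, i < k → v i x = v i y) → (∀ i, i < k → w i x = w i y) → x = y

theorem SysO.transfer {ι ι' : Type} [DecidableEq ι] [DecidableEq ι'] {k : ℕ} (h : SysO ι k)
    (e : ι ≃ ι') : SysO ι' k := by
  obtain ⟨v, w, h1, h2, h3, h4⟩ := h
  refine ⟨fun i x => v i (x ∘ e), fun i x => w i (x ∘ e), fun i => (h1 i).transfer e,
    fun i => (h2 i).transfer e, fun x => h3 _, fun x y h h' => ?_⟩
  have := h4 _ _ h h'
  funext j
  simpa using congrFun this (e.symm j)

def gg (i : ℕ) (a b : G) : G := if i = 0 then g1 a b else if i = 1 then g2 a b else g3 a b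

theorem gg_l (i : ℕ) : ∀ a a' b, a ≠ a' → gg i a b ≠ gg i a' b := by
  unfold gg
  split_ifs
  exacts [g1_l, g2_l, g3_l]

theorem gg_r (i : ℕ) : ∀ a b b', b ≠ b' → gg i a b ≠ gg i a b' := by
  unfold gg
  split_ifs
  exacts [g1_r, g2_r, g3_r]

theorem line_gg (i : ℕ) : Line (fun x : Fin 2 → G => gg i (x 0) (x 1)) (· ≠ ·) :=
  line_two (gg i) (gg_l i) (gg_r i)

theorem sysO_five : SysO (Fin 2 ⊕ Fin 3) 3 := by
  refine ⟨fun i x => gg i (x (Sum.inl 0)) (x (Sum.inl 1)) +
      (gg i (x (Sum.inr 0)) (x (Sum.inr 1)) + x (Sum.inr 2)),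
    fun i x => gg ((i + 1) % 3) (x (Sum.inl 0)) (x (Sum.inl 1)) +
      (gg i (x (Sum.inr 0)) (x (Sum.inr 1)) + x (Sum.inr 2)),
    fun i => (line_gg i).add (line_shift (gg_l i) (gg_r i)),
    fun i => (line_gg _).add (line_shift (gg_l i) (gg_r i)), fun x => ?_, fun x y h h' => ?_⟩
  · simp only [sum_range_succ, sum_range_zero, gg]
    norm_num
    ring
  · have h0 := h 0 (by omega)
    have h1 := h 1 (by omega)
    have h2 := h 2 (by omega)
    have h0' := h' 0 (by omega)
    have h1' := h' 1 (by omega)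
    have h2' := h' 2 (by omega)
    simp only [gg] at h0 h1 h2 h0' h1' h2'
    norm_num at h0 h1 h2 h0' h1' h2'
    obtain ⟨e0, e1⟩ := g_diff (x (Sum.inl 0)) (x (Sum.inl 1)) (y (Sum.inl 0)) (y (Sum.inl 1))
      (by linear_combination h2' - h2) (by linear_combination h1 - h1')
    rw [e0, e1] at h0 h1 h2
    obtain ⟨e2, e3, e4⟩ := g_shift (add_left_cancel h0) (add_left_cancel h1) (add_left_cancel h2)
    refine sum_ext (two_ext ⟨e0, e1⟩) ?_
    funext j
    fin_cases j
    · exact e2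
    · exact e3
    · exact e4

theorem SysO.step {ι : Type} [DecidableEq ι] {k : ℕ} (h : SysO ι (k + 2)) :
    SysO (Fin 2 ⊕ ι) (k + 3) := by
  obtain ⟨v, w, h1, h2, h3, h4⟩ := h
  refine ⟨fun i x => gg (if i = 0 then 1 else if i = 2 then 2 else 0) (x (Sum.inl 0))
      (x (Sum.inl 1)) + v (i - 1) (x ∘ Sum.inr),
    fun i x => gg (if i = 0 then 2 else if i = 2 then 1 else 0) (x (Sum.inl 0))
      (x (Sum.inl 1)) + (if i = 0 then v 0 else w (i - 1)) (x ∘ Sum.inr),
    fun i => (line_gg _).add (h1 _), fun i => (line_gg _).add ?_, fun x => ?_, fun x y h h' => ?_⟩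
  · split_ifs
    exacts [h1 _, h2 _]
  · have := h3 (x ∘ Sum.inr)
    have e : ∀ n : ℕ, (n + 1 + 1 + 1 = 2) = False := fun n => by simp
    simp only [sum_range_succ', sum_add_distrib, gg, e] at this ⊢
    norm_num
    linear_combination this
  · have h0 := h 0 (by omega)
    have h1 := h 1 (by omega)
    have h0' := h' 0 (by omega)
    simp only [gg] at h0 h1 h0'
    norm_num at h0 h1 h0'
    obtain ⟨e0, e1⟩ := g_diff (x (Sum.inl 0)) (x (Sum.inl 1)) (y (Sum.inl 0)) (y (Sum.inl 1))
      (by linear_combination h1 - h0') (by linear_combination h0 - h0')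
    refine sum_ext (two_ext ⟨e0, e1⟩) (h4 _ _ (fun i hi => ?_) fun i hi => ?_)
    · have := h (i + 1) (by omega)
      beta_reduce at this
      rw [e0, e1, Nat.add_sub_cancel] at this
      exact add_left_cancel this
    · have := h' (i + 1) (by omega)
      beta_reduce at this
      rw [e0, e1, Nat.add_sub_cancel, if_neg (Nat.succ_ne_zero i), if_neg (Nat.succ_ne_zero i)]
        at this
      exact add_left_cancel this

theorem sysO (k : ℕ) : SysO (Fin (2 * k + 5)) (k + 3) := by
  induction k with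
  | zero => exact sysO_five.transfer (Fintype.equivFinOfCardEq (by simp))
  | succ k ih => exact ih.step.transfer (Fintype.equivFinOfCardEq (by simp; omega))

theorem sum_omit (f g : ℕ → G) (k i0 : ℕ) (hs : ∑ i ∈ range k, f i = ∑ i ∈ range k, g i)
    (h : ∀ i, i < k → i ≠ i0 → f i = g i) : ∀ i, i < k → f i = g i := by
  intro i hi
  by_cases c : i = i0
  · subst c
    rw [← add_sum_erase _ _ (mem_range.mpr hi), ← add_sum_erase _ _ (mem_range.mpr hi),
      sum_congr rfl fun j hj => h j (mem_range.mp (mem_of_mem_erase hj)) (ne_of_mem_erase hj)]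
      at hs
    exact add_right_cancel hs
  · exact h i hi c

theorem hasVarSet_odd (k : ℕ) : HasVarSet (2 * k + 5) 6 (2 * k + 6) := by
  obtain ⟨v, w, h1, h2, h3, h4⟩ := sysO k
  have : IsVarSet (Sum.elim (fun i : Fin (k + 3) => v i) (fun i : Fin (k + 3) => w i)) := by
    refine isVarSet_of_omit (by simp; omega) ?_ ?_
    · rintro (i | i)
      exacts [(h1 i).perm, (h2 i).perm]
    · rintro x y (i0 | i0) hxy
      · have hw : ∀ i, i < k + 3 → w i x = w i y := fun i hi =>
          hxy (Sum.inr ⟨i, hi⟩) Sum.inr_ne_inl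
        refine h4 x y (sum_omit _ _ _ i0 ?_ fun i hi hne => ?_) hw
        · rw [h3, h3]
          exact sum_congr rfl fun i hi => hw i (mem_range.mp hi)
        · exact hxy (Sum.inl ⟨i, hi⟩) fun h => hne (congrArg Fin.val (Sum.inl_injective h))
      · have hv : ∀ i, i < k + 3 → v i x = v i y := fun i hi =>
          hxy (Sum.inl ⟨i, hi⟩) Sum.inl_ne_inr
        refine h4 x y hv (sum_omit _ _ _ i0 ?_ fun i hi hne => ?_)
        · rw [← h3, ← h3]
          exact sum_congr rfl fun i hi => hv i (mem_range.mp hi)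
        · exact hxy (Sum.inr ⟨i, hi⟩) fun h => hne (congrArg Fin.val (Sum.inr_injective h))
  exact this.hasVarSet (by simp) (by simp) (by simp; omega)

end Pool.Agent.MP_c7a479_co.Six

namespace Pool.Agent.MP_c7a479_co

/-- There are `m + 1` variational cubes of order six in every dimension `m ≥ 5`. -/
theorem hasVarSet_six {m : ℕ} (hm : 5 ≤ m) : HasVarSet m 6 (m + 1) := by
  rcases Nat.even_or_odd' m with ⟨k, rfl | rfl⟩
  · exact Six.hasVarSet_even k (by omega)
  · obtain ⟨l, rfl⟩ : ∃ l, k = l + 2 := ⟨k - 2, by omega⟩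
    exact Six.hasVarSet_odd l

end Pool.Agent.MP_c7a479_co

end
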