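import Mathlib
import Pool.Agent.MP_fdd1d3_nt.Mertens

section

/-!
Discrepancy of combinations of indicators of residue classes.
-/

set_option autoImplicit false

open Finset

noncomputable section

namespace Pool.Agent.MP_cebb75_nt

/-- indicator of a residue class -/
def ind (d a : ℕ) : ℕ → ℝ := fun n => if n ≡ a [MOD d] then 1 else 0

/-- zero or the indicator of a residue class with modulus dividing `N` -/
def Atom (N : ℕ) (h : ℕ → ℝ) : Prop := h = 0 ∨ ∃ d a : ℕ, d ∣ N ∧ h = ind d a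

/-- mean over a period -/
def av (N : ℕ) (g : ℕ → ℝ) : ℝ := (∑ n ∈ range N, g n) / N

/-- signed discrepancy -/
def Dsc (N x : ℕ) (g : ℕ → ℝ) : ℝ := ∑ n ∈ range x, g n - x * av N g

theorem sum_ind (d a x : ℕ) (hd : 0 < d) :
    ∑ n ∈ range x, ind d a n = ((x / d : ℕ) : ℝ) + if a % d < x % d then 1 else 0 := by
  have h := Nat.count_modEq_card x hd a
  rw [Nat.count_eq_card_filter_range] at h
  have h2 : ∑ n ∈ range x, ind d a n = (((range x).filter fun n => n ≡ a [MOD d]).card : ℝ) := by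
    simp only [ind]
    rw [Finset.sum_boole]
  rw [h2, h]
  push_cast
  rfl

theorem atom_disc {N : ℕ} (hN : 0 < N) (x : ℕ) {h : ℕ → ℝ} (hh : Atom N h) :
    |Dsc N x h| ≤ 1 := by
  rcases hh with rfl | ⟨d, a, ⟨e, he⟩, rfl⟩
  · simp [Dsc, av]
  · have hd : 0 < d := Nat.pos_of_ne_zero (by rintro rfl; simp at he; omega)
    have he0 : 0 < e := Nat.pos_of_ne_zero (by rintro rfl; simp at he; omega)
    have hdR : (0 : ℝ) < d := by exact_mod_cast hd
    have heR : (0 : ℝ) < e := by exact_mod_cast he0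
    have h1 : av N (ind d a) = 1 / d := by
      rw [av, sum_ind d a N hd, he, Nat.mul_mod_right, if_neg (by omega),
        Nat.mul_div_cancel_left _ hd]
      push_cast
      field_simp
      simp
    rw [Dsc, h1, sum_ind d a x hd]
    have h2 : (x : ℝ) = d * ((x / d : ℕ) : ℝ) + ((x % d : ℕ) : ℝ) := by
      exact_mod_cast (Nat.div_add_mod x d).symm
    have h3 : ((x % d : ℕ) : ℝ) < d := by exact_mod_cast Nat.mod_lt x hd
    have h4 : (0 : ℝ) ≤ ((x % d : ℕ) : ℝ) := by positivity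
    have h5 : (x : ℝ) * (1 / d) = ((x / d : ℕ) : ℝ) + ((x % d : ℕ) : ℝ) / d := by
      conv_lhs => rw [h2]
      field_simp
    have h6 : ((x % d : ℕ) : ℝ) / d ≤ 1 := by rw [div_le_one hdR]; exact h3.le
    have h7 : 0 ≤ ((x % d : ℕ) : ℝ) / d := by positivity
    rw [h5, abs_le]
    split_ifs <;> constructor <;> linarith

theorem Atom.mul {N : ℕ} {g h : ℕ → ℝ} (hg : Atom N g) (hh : Atom N h) : Atom N (g * h) := by
  rcases hg with rfl | ⟨d, a, hd, rfl⟩
  · left; simp
  rcases hh with rfl | ⟨d', a', hd', rfl⟩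
  · left; simp
  by_cases hex : ∃ m, m ≡ a [MOD d] ∧ m ≡ a' [MOD d']
  · obtain ⟨m, h1, h2⟩ := hex
    right
    refine ⟨Nat.lcm d d', m, Nat.lcm_dvd hd hd', ?_⟩
    funext n
    have key : n ≡ m [MOD Nat.lcm d d'] ↔ n ≡ a [MOD d] ∧ n ≡ a' [MOD d'] := by
      constructor
      · intro h
        exact ⟨(h.of_dvd (Nat.dvd_lcm_left _ _)).trans h1,
          (h.of_dvd (Nat.dvd_lcm_right _ _)).trans h2⟩
      · rintro ⟨h3, h4⟩
        exact Nat.mod_lcm (h3.trans h1.symm) (h4.trans h2.symm)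
    simp only [ind, Pi.mul_apply, key]
    by_cases h3 : n ≡ a [MOD d] <;> by_cases h4 : n ≡ a' [MOD d'] <;> simp [h3, h4]
  · left
    funext n
    simp only [ind, Pi.mul_apply, Pi.zero_apply]
    by_cases h3 : n ≡ a [MOD d]
    · have h4 : ¬ n ≡ a' [MOD d'] := fun h4 => hex ⟨n, h3, h4⟩
      simp [h4]
    · simp [h3]

theorem Atom.one (N : ℕ) : Atom N 1 := by
  right
  refine ⟨1, 0, one_dvd _, ?_⟩
  funext n
  simp [ind, Nat.modEq_one]

theorem Dsc_add (N x : ℕ) (g h : ℕ → ℝ) : Dsc N x (g + h) = Dsc N x g + Dsc N x h := by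
  simp only [Dsc, av, Pi.add_apply, Finset.sum_add_distrib]
  ring

theorem Dsc_smul (N x : ℕ) (c : ℝ) (g : ℕ → ℝ) : Dsc N x (c • g) = c * Dsc N x g := by
  simp only [Dsc, av, Pi.smul_apply, smul_eq_mul, ← Finset.mul_sum]
  ring

/-- multiplication by `g` increases the discrepancy seminorm by at most the factor `M` -/
def Mult (N x : ℕ) (g : ℕ → ℝ) (M : ℝ) : Prop :=
  ∀ (u : ℕ → ℝ) (B : ℝ), (∀ h, Atom N h → |Dsc N x (u * h)| ≤ B) →
    ∀ h, Atom N h → |Dsc N x (g * u * h)| ≤ M * B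

variable {N x : ℕ}

theorem Mult.atom {g : ℕ → ℝ} (hg : Atom N g) : Mult N x g 1 := by
  intro u B hu h hh
  have := hu (g * h) (hg.mul hh)
  rw [one_mul, show g * u * h = u * (g * h) by ring]
  exact this

theorem Mult.zero : Mult N x 0 0 := by
  intro u B _ h _
  simp [Dsc, av]

theorem Mult.mono {g : ℕ → ℝ} {M M' : ℝ} (hg : Mult N x g M) (h : M ≤ M') : Mult N x g M' := by
  intro u B hu k hk
  have hB : 0 ≤ B := (abs_nonneg _).trans (hu k hk)
  exact (hg u B hu k hk).trans (mul_le_mul_of_nonneg_right h hB)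

theorem Mult.add {g g' : ℕ → ℝ} {M M' : ℝ} (hg : Mult N x g M) (hg' : Mult N x g' M') :
    Mult N x (g + g') (M + M') := by
  intro u B hu h hh
  rw [show (g + g') * u * h = g * u * h + g' * u * h by ring, Dsc_add, add_mul]
  exact (abs_add_le _ _).trans (add_le_add (hg u B hu h hh) (hg' u B hu h hh))

theorem Mult.smul {g : ℕ → ℝ} {M : ℝ} (c : ℝ) (hg : Mult N x g M) :
    Mult N x (c • g) (|c| * M) := by
  intro u B hu h hh
  rw [smul_mul_assoc, smul_mul_assoc, Dsc_smul, abs_mul, mul_assoc |c|]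
  exact mul_le_mul_of_nonneg_left (hg u B hu h hh) (abs_nonneg c)

theorem Mult.mul {g g' : ℕ → ℝ} {M M' : ℝ} (hg : Mult N x g M) (hg' : Mult N x g' M') :
    Mult N x (g * g') (M * M') := by
  intro u B hu h hh
  have := hg (g' * u) (M' * B) (hg' u B hu) h hh
  rw [mul_assoc M, mul_assoc g g' u]
  exact this

theorem Mult.sum {ι : Type*} (s : Finset ι) (g : ι → ℕ → ℝ) (M : ι → ℝ)
    (h : ∀ i ∈ s, Mult N x (g i) (M i)) : Mult N x (∑ i ∈ s, g i) (∑ i ∈ s, M i) := by
  classical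
  induction s using Finset.induction_on with
  | empty => simpa using Mult.zero
  | insert j s hj ih =>
    rw [sum_insert hj, sum_insert hj]
    exact (h j (mem_insert_self _ _)).add (ih fun i hi => h i (mem_insert_of_mem hi))

theorem Mult.prod {ι : Type*} (s : Finset ι) (g : ι → ℕ → ℝ) (M : ι → ℝ)
    (h : ∀ i ∈ s, Mult N x (g i) (M i)) : Mult N x (∏ i ∈ s, g i) (∏ i ∈ s, M i) := by
  classical
  induction s using Finset.induction_on with
  | empty => simpa using Mult.atom (Atom.one N)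
  | insert j s hj ih =>
    rw [prod_insert hj, prod_insert hj]
    exact (h j (mem_insert_self _ _)).mul (ih fun i hi => h i (mem_insert_of_mem hi))

theorem Mult.disc (hN : 0 < N) {g : ℕ → ℝ} {M : ℝ} (hg : Mult N x g M) :
    ∑ n ∈ range x, g n ≤ x * av N g + M := by
  have := hg 1 1 (fun h hh => by rw [one_mul]; exact atom_disc hN x hh) 1 (Atom.one N)
  rw [mul_one, mul_one, mul_one, Dsc] at this
  linarith [le_abs_self (∑ n ∈ range x, g n - x * av N g)]

end Pool.Agent.MP_cebb75_nt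

end
end

section

/-!
Comparison of the residue model with a product of independent models.
-/

set_option autoImplicit false

open Finset

noncomputable section

namespace Pool.Agent.MP_cebb75_nt

/-- number of primes of `P` modulo which `n` has residue `k` -/
def om (P : Finset ℕ) (k n : ℕ) : ℕ := (P.filter fun p => n % p = k).card

/-- weighted sum over subsets -/
def EE (a b : ℕ → ℝ) (P : Finset ℕ) (f : ℕ → ℝ) : ℝ :=
  ∑ S ∈ P.powerset, (∏ p ∈ S, a p) * (∏ p ∈ P \ S, b p) * f S.card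

theorem EE_insert (a b : ℕ → ℝ) {P : Finset ℕ} {p : ℕ} (hp : p ∉ P) (f : ℕ → ℝ) :
    EE a b (insert p P) f = a p * EE a b P (fun w => f (w + 1)) + b p * EE a b P f := by
  rw [EE, sum_powerset_insert hp, add_comm, EE, EE, mul_sum, mul_sum]
  congr 1
  · refine sum_congr rfl fun S hS => ?_
    have hS' : p ∉ S := fun h => hp (mem_powerset.1 hS h)
    rw [prod_insert hS', card_insert_of_notMem hS', insert_sdiff_insert, sdiff_insert_of_notMem hp]
    ring
  · refine sum_congr rfl fun S hS => ?_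
    have hS' : p ∉ S := fun h => hp (mem_powerset.1 hS h)
    rw [insert_sdiff_of_notMem _ hS', prod_insert (by simp [hp])]
    ring

theorem EE_mono {a b : ℕ → ℝ} {P : Finset ℕ} (ha : ∀ p ∈ P, 0 ≤ a p) (hb : ∀ p ∈ P, 0 ≤ b p)
    {f g : ℕ → ℝ} (h : ∀ w, f w ≤ g w) : EE a b P f ≤ EE a b P g := by
  refine sum_le_sum fun S hS => mul_le_mul_of_nonneg_left (h _) (mul_nonneg ?_ ?_)
  · exact prod_nonneg fun p hp => ha p (mem_powerset.1 hS hp)
  · exact prod_nonneg fun p hp => hb p (mem_sdiff.1 hp).1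

theorem EE_nonneg {a b : ℕ → ℝ} {P : Finset ℕ} (ha : ∀ p ∈ P, 0 ≤ a p) (hb : ∀ p ∈ P, 0 ≤ b p)
    {f : ℕ → ℝ} (h : ∀ w, 0 ≤ f w) : 0 ≤ EE a b P f := by
  have := EE_mono ha hb (f := fun _ => 0) h
  simpa [EE] using this

theorem EE_lin (a b : ℕ → ℝ) (P : Finset ℕ) (f g h : ℕ → ℝ) (c d e : ℝ) :
    EE a b P (fun w => c * f w + d * g w + e * h w) =
      c * EE a b P f + d * EE a b P g + e * EE a b P h := by
  simp only [EE, mul_sum, ← sum_add_distrib]
  exact sum_congr rfl fun S _ => by ring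

theorem EE_pow (a b : ℕ → ℝ) (P : Finset ℕ) (s : ℝ) :
    EE a b P (fun w => s ^ w) = ∏ p ∈ P, (s * a p + b p) := by
  rw [prod_add, EE]
  refine sum_congr rfl fun S _ => ?_
  rw [prod_mul_distrib, prod_const]
  ring

theorem first_order (s : Finset ℕ) (u v : ℕ → ℝ) (hu : ∀ k ∈ s, 0 ≤ u k) (hv : ∀ k ∈ s, 0 ≤ v k) :
    ∏ k ∈ s, v k + ∑ c ∈ s, u c * ∏ k ∈ s.erase c, v k ≤ ∏ k ∈ s, (u k + v k) := by
  induction s using Finset.induction_on with
  | empty => simp
  | insert j s hj ih =>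
    have ih' := ih (fun k hk => hu k (mem_insert_of_mem hk)) fun k hk => hv k (mem_insert_of_mem hk)
    have huj := hu j (mem_insert_self _ _)
    have hvj := hv j (mem_insert_self _ _)
    rw [prod_insert hj, prod_insert hj, sum_insert hj, erase_insert hj]
    have h1 : ∑ c ∈ s, u c * ∏ k ∈ (insert j s).erase c, v k =
        v j * ∑ c ∈ s, u c * ∏ k ∈ s.erase c, v k := by
      rw [mul_sum]
      refine sum_congr rfl fun c hc => ?_
      have hne : j ≠ c := fun h => hj (h ▸ hc)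
      rw [erase_insert_of_ne hne, prod_insert (by simp [hj])]
      ring
    have h2 : 0 ≤ ∑ c ∈ s, u c * ∏ k ∈ s.erase c, v k :=
      sum_nonneg fun c hc => mul_nonneg (hu c (mem_insert_of_mem hc))
        (prod_nonneg fun k hk => hv k (mem_insert_of_mem (mem_of_mem_erase hk)))
    rw [h1]
    have h3 := mul_le_mul_of_nonneg_left ih' (add_nonneg huj hvj)
    nlinarith [mul_nonneg huj h2]

/-- the weight of a prime that is chosen -/
def aa (K p : ℕ) : ℝ := 1 / p * (1 + 2 * K / p)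

/-- the weight of a prime that is not chosen -/
def bb (p : ℕ) : ℝ := 1 - 1 / p

theorem aa_nonneg (K p : ℕ) : 0 ≤ aa K p := by unfold aa; positivity

theorem bb_nonneg (p : ℕ) : 0 ≤ bb p := by
  unfold bb
  rcases Nat.eq_zero_or_pos p with rfl | hp
  · simp
  · have : (1 : ℝ) ≤ p := by exact_mod_cast hp
    rw [sub_nonneg, div_le_one (by linarith)]
    exact this

theorem bb_pow (p m : ℕ) : 1 - m / (p : ℝ) ≤ bb p ^ m := by
  have h := one_add_mul_le_pow (a := -(1 / (p : ℝ))) (by linarith [bb_nonneg p, show bb p = 1 - 1 / (p : ℝ) from rfl]) m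
  rw [bb, sub_eq_add_neg (1 : ℝ) (1 / (p : ℝ))]
  refine le_trans (le_of_eq ?_) h
  ring

theorem step_bound {K p : ℕ} (hK : 2 * K ≤ p) (hp : 0 < p) (T : Finset ℕ) (hT : T ⊆ range p)
    (hTK : T.card ≤ K) (A B : ℕ → ℝ) (hA : ∀ k ∈ T, 0 ≤ A k) (hB : ∀ k ∈ T, 0 ≤ B k) :
    (∑ c ∈ range p, ∏ k ∈ T, (if c = k then A k else B k)) / p ≤
      ∏ k ∈ T, (aa K p * A k + bb p * B k) := by
  have hpR : (0 : ℝ) < p := by exact_mod_cast hp
  have hKR : 2 * (K : ℝ) ≤ p := by exact_mod_cast hK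
  have hTR : (T.card : ℝ) ≤ K := by exact_mod_cast hTK
  rw [← sum_sdiff hT]
  have h1 : ∑ c ∈ range p \ T, ∏ k ∈ T, (if c = k then A k else B k) =
      ((p : ℝ) - T.card) * ∏ k ∈ T, B k := by
    rw [sum_congr rfl (g := fun _ => ∏ k ∈ T, B k), sum_const, card_sdiff_of_subset hT, card_range,
      nsmul_eq_mul, Nat.cast_sub (by simpa using card_le_card hT)]
    intro c hc
    refine prod_congr rfl fun k hk => if_neg ?_
    rintro rfl
    exact (mem_sdiff.1 hc).2 hk
  have h2 : ∑ c ∈ T, ∏ k ∈ T, (if c = k then A k else B k) =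
      ∑ c ∈ T, A c * ∏ k ∈ T.erase c, B k := by
    refine sum_congr rfl fun c hc => ?_
    rw [← mul_prod_erase _ _ hc, if_pos rfl]
    congr 1
    exact prod_congr rfl fun k hk => if_neg (ne_of_mem_erase hk).symm
  rw [h1, h2]
  refine le_trans ?_ (first_order T _ _ (fun k hk => mul_nonneg (aa_nonneg K p) (hA k hk))
    fun k hk => mul_nonneg (bb_nonneg p) (hB k hk))
  rw [add_div, sum_div]
  refine add_le_add ?_ (sum_le_sum fun c hc => ?_)
  · rw [prod_mul_distrib, prod_const]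
    have h3 := bb_pow p T.card
    have h4 : 0 ≤ ∏ k ∈ T, B k := prod_nonneg hB
    have h5 : ((p : ℝ) - T.card) * (∏ k ∈ T, B k) / p = (1 - T.card / (p : ℝ)) * ∏ k ∈ T, B k := by
      field_simp
    rw [h5]
    exact mul_le_mul_of_nonneg_right h3 h4
  · rw [prod_mul_distrib, prod_const]
    have h4 : 0 ≤ A c * ∏ k ∈ T.erase c, B k :=
      mul_nonneg (hA c hc) (prod_nonneg fun k hk => hB k (mem_of_mem_erase hk))
    have h3 := bb_pow p (T.erase c).card
    have h6 : ((T.erase c).card : ℝ) ≤ K := by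
      exact_mod_cast (card_erase_le (s := T) (a := c)).trans hTK
    have h7 : 1 - K / (p : ℝ) ≤ bb p ^ (T.erase c).card := by
      refine le_trans ?_ h3
      gcongr
    have h8 : 1 / (p : ℝ) ≤ aa K p * bb p ^ (T.erase c).card := by
      refine le_trans ?_ (mul_le_mul_of_nonneg_left h7 (aa_nonneg K p))
      have h9 : (K : ℝ) / p ≤ 1 / 2 := by rw [div_le_iff₀ hpR]; linarith
      have h10 : 0 ≤ (K : ℝ) / p := by positivity
      rw [aa, mul_assoc, mul_div_assoc]
      refine le_mul_of_one_le_right (by positivity) ?_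
      nlinarith
    calc (A c * ∏ k ∈ T.erase c, B k) / p = 1 / (p : ℝ) * (A c * ∏ k ∈ T.erase c, B k) := by ring
      _ ≤ aa K p * bb p ^ (T.erase c).card * (A c * ∏ k ∈ T.erase c, B k) :=
        mul_le_mul_of_nonneg_right h8 h4
      _ = _ := by ring

theorem sum_crt {p N : ℕ} (co : p.Coprime N) (hp : 0 < p) (hN : 0 < N) (F : ℕ → ℕ → ℝ) :
    ∑ n ∈ range (p * N), F (n % p) (n % N) = ∑ c ∈ range p, ∑ m ∈ range N, F c m := by
  rw [← sum_product']
  refine sum_nbij' (fun n => (n % p, n % N)) (fun q => Nat.chineseRemainder co q.1 q.2)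
    ?_ ?_ ?_ ?_ ?_
  · intro n _
    simp [Nat.mod_lt _ hp, Nat.mod_lt _ hN]
  · intro q _
    exact mem_range.2 (Nat.chineseRemainder_lt_mul co _ _ hp.ne' hN.ne')
  · intro n hn
    have h1 := Nat.chineseRemainder_modEq_unique co (a := n % p) (b := n % N) (z := n)
      (Nat.mod_modEq n p).symm (Nat.mod_modEq n N).symm
    exact (Nat.ModEq.eq_of_lt_of_lt h1 (mem_range.1 hn)
      (Nat.chineseRemainder_lt_mul co _ _ hp.ne' hN.ne')).symm
  · intro q hq
    obtain ⟨h1, h2⟩ := mem_product.1 hq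
    have h3 := (Nat.chineseRemainder co q.1 q.2).2
    ext
    · exact Eq.trans h3.1 (Nat.mod_eq_of_lt (mem_range.1 h1))
    · exact Eq.trans h3.2 (Nat.mod_eq_of_lt (mem_range.1 h2))
  · intro n _
    rfl

theorem prod_bound (K : ℕ) (T : Finset ℕ) (hTK : T.card ≤ K) (P : Finset ℕ)
    (hP : ∀ p ∈ P, p.Prime ∧ 2 * K ≤ p ∧ T ⊆ range p) (f : ℕ → ℕ → ℝ) (hf : ∀ k w, 0 ≤ f k w) :
    av (∏ p ∈ P, p) (fun n => ∏ k ∈ T, f k (om P k n)) ≤ ∏ k ∈ T, EE (aa K) bb P (f k) := by
  induction P using Finset.induction_on generalizing f with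
  | empty => simp [av, om, EE]
  | insert p P hp ih =>
    obtain ⟨hpp, hK, hT⟩ := hP p (mem_insert_self _ _)
    have hP' : ∀ q ∈ P, q.Prime ∧ 2 * K ≤ q ∧ T ⊆ range q := fun q hq => hP q (mem_insert_of_mem hq)
    set N := ∏ q ∈ P, q with hN
    have hN0 : 0 < N := prod_pos fun q hq => (hP' q hq).1.pos
    have co : p.Coprime N := Nat.Coprime.prod_right fun q hq =>
      (Nat.coprime_primes hpp (hP' q hq).1).2 fun h => hp (h ▸ hq)
    have hom : ∀ k n, om (insert p P) k n = om P k (n % N) + if n % p = k then 1 else 0 := by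
      intro k n
      have h1 : om P k (n % N) = om P k n := by
        unfold om
        congr 1
        refine filter_congr fun q hq => ?_
        rw [Nat.mod_mod_of_dvd _ (dvd_prod_of_mem _ hq)]
      rw [h1, om, filter_insert]
      split_ifs with h
      · rw [card_insert_of_notMem (by simp [hp])]
        rfl
      · rfl
    rw [prod_insert hp, av]
    simp only [hom]
    rw [sum_crt co hpp.pos hN0 fun c m => ∏ k ∈ T, f k (om P k m + if c = k then 1 else 0)]
    simp only [EE_insert _ _ hp]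
    refine le_trans ?_ (step_bound hK hpp.pos T hT hTK _ _
      (fun k _ => EE_nonneg (fun q _ => aa_nonneg K q) (fun q _ => bb_nonneg q) fun w => hf k _)
      fun k _ => EE_nonneg (fun q _ => aa_nonneg K q) (fun q _ => bb_nonneg q) fun w => hf k _)
    rw [Nat.cast_mul, mul_comm (p : ℝ), ← div_div, sum_div]
    refine div_le_div_of_nonneg_right (sum_le_sum fun c _ => ?_) (by positivity)
    refine le_trans (ih hP' (fun k w => f k (w + if c = k then 1 else 0)) fun k w => hf k _)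
      (le_of_eq (prod_congr rfl fun k _ => ?_))
    split_ifs <;> simp

end Pool.Agent.MP_cebb75_nt

end
end

section

/-!
The approximating polynomials.
-/

set_option autoImplicit false

open Finset

noncomputable section

namespace Pool.Agent.MP_cebb75_nt

/-- truncated inclusion-exclusion for the event `w = J` -/
def YY (J t w : ℕ) : ℝ :=
  ∑ j ∈ range (t + 1), (-1) ^ j * ((J + j).choose J : ℝ) * (w.choose (J + j) : ℝ)

theorem YY_lt {J w : ℕ} (t : ℕ) (h : w < J) : YY J t w = 0 := by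
  refine sum_eq_zero fun j _ => ?_
  rw [Nat.choose_eq_zero_of_lt (show w < J + j by omega)]
  simp

theorem YY_self (J t : ℕ) : YY J t J = 1 := by
  rw [YY, sum_eq_single 0]
  · simp
  · intro j _ hj
    rw [Nat.choose_eq_zero_of_lt (show J < J + j by omega)]
    simp
  · simp

theorem YY_mid {J t w : ℕ} (h1 : J < w) (h2 : w ≤ J + t) : YY J t w = 0 := by
  have h3 : YY J t w = (w.choose J : ℝ) * ∑ j ∈ range (t + 1), (-1) ^ j * ((w - J).choose j : ℝ) := by
    rw [YY, mul_sum]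
    refine sum_congr rfl fun j _ => ?_
    have := Nat.choose_mul (n := w) (k := J + j) (s := J) (by omega)
    rw [Nat.add_sub_cancel_left] at this
    have h4 : (w.choose (J + j) : ℝ) * ((J + j).choose J : ℝ) =
        (w.choose J : ℝ) * ((w - J).choose j : ℝ) := by exact_mod_cast this
    linear_combination (-1) ^ j * h4
  have h4 : ∑ j ∈ range (w - J + 1), (-1 : ℝ) ^ j * ((w - J).choose j : ℝ) = 0 := by
    exact_mod_cast Int.alternating_sum_range_choose_of_ne (n := w - J) (by omega)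
  rw [h3, ← sum_subset (s₁ := range (w - J + 1)) (by simp; omega), h4, mul_zero]
  intro j _ hj
  rw [Nat.choose_eq_zero_of_lt (by simpa using hj)]
  simp

theorem YY_abs (J t w : ℕ) : |YY J t w| ≤ 4 ^ w := by
  refine (abs_sum_le_sum_abs _ _).trans ?_
  have h1 : ∀ j ∈ range (t + 1), |(-1) ^ j * ((J + j).choose J : ℝ) * (w.choose (J + j) : ℝ)| ≤
      2 ^ w * (w.choose (J + j) : ℝ) := by
    intro j _
    rw [abs_mul, abs_mul, abs_neg_one_pow, one_mul, Nat.abs_cast, Nat.abs_cast]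
    by_cases h : J + j ≤ w
    · refine mul_le_mul_of_nonneg_right ?_ (by positivity)
      exact_mod_cast (Nat.choose_le_two_pow _ _).trans (Nat.pow_le_pow_right two_pos h)
    · rw [Nat.choose_eq_zero_of_lt (show w < J + j by omega)]
      simp
  refine (sum_le_sum h1).trans ?_
  rw [← mul_sum, show (4 : ℝ) ^ w = 2 ^ w * 2 ^ w by rw [← mul_pow]; norm_num]
  refine mul_le_mul_of_nonneg_left ?_ (by positivity)
  have h2 : ∑ j ∈ range (t + 1), w.choose (J + j) ≤ 2 ^ w := by
    rw [← Nat.sum_range_choose w,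
      ← sum_image (s := range (t + 1)) (g := fun j => J + j) (f := fun i => w.choose i)
        (fun a _ b _ h => by simpa using h),
      ← sum_filter_ne_zero]
    refine sum_le_sum_of_subset fun i hi => ?_
    have := (mem_filter.1 hi).2
    rw [mem_range]
    by_contra h
    exact this (Nat.choose_eq_zero_of_lt (by omega))
  exact_mod_cast h2

/-- truncated inclusion-exclusion over the shifts -/
def QQ (T : Finset ℕ) (r : ℕ) (Y : ℕ → ℝ) : ℝ :=
  ∑ U ∈ T.powerset.filter (fun U => U.card ≤ r), ∏ k ∈ U, (-Y k)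

theorem QQ_one (T : Finset ℕ) (r : ℕ) (Y : ℕ → ℝ) (h : ∀ k ∈ T, Y k = 0) : QQ T r Y = 1 := by
  rw [QQ, sum_eq_single ∅]
  · simp
  · intro U hU hne
    obtain ⟨k, hk⟩ := nonempty_iff_ne_empty.2 hne
    exact prod_eq_zero hk (by rw [h k (mem_powerset.1 (mem_filter.1 hU).1 hk), neg_zero])
  · simp

theorem QQ_sq (T : Finset ℕ) (r : ℕ) (Y : ℕ → ℝ) :
    QQ T r Y ^ 2 ≤ 2 * ∏ k ∈ T, (1 - Y k) ^ 2 + 2 / 9 ^ r * ∏ k ∈ T, (1 + 3 * |Y k|) ^ 2 := by
  set R := ∑ U ∈ T.powerset.filter (fun U => ¬ U.card ≤ r), ∏ k ∈ U, (-Y k) with hR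
  have h1 : QQ T r Y + R = ∏ k ∈ T, (1 - Y k) := by
    rw [QQ, hR, sum_filter_add_sum_filter_not, ← prod_one_add]
    simp only [sub_eq_add_neg]
  have h2 : |R| ≤ (∏ k ∈ T, (1 + 3 * |Y k|)) / 3 ^ r := by
    rw [prod_one_add, sum_div]
    refine (abs_sum_le_sum_abs _ _).trans (le_trans (sum_le_sum fun U hU => ?_)
      (sum_le_sum_of_subset_of_nonneg (filter_subset (fun U : Finset ℕ => ¬ U.card ≤ r) _)
        fun U _ _ => by positivity))
    have h3 : r ≤ U.card := by have := (mem_filter.1 hU).2; omega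
    rw [abs_prod, prod_mul_distrib, prod_const, le_div_iff₀ (by positivity), mul_comm]
    simp only [abs_neg]
    exact mul_le_mul_of_nonneg_right (pow_le_pow_right₀ (by norm_num) h3) (by positivity)
  have h3 : R ^ 2 ≤ (∏ k ∈ T, (1 + 3 * |Y k|) ^ 2) / 9 ^ r := by
    rw [← sq_abs, prod_pow, show (9 : ℝ) ^ r = (3 ^ r) ^ 2 by rw [← pow_mul, mul_comm, pow_mul]; norm_num,
      ← div_pow]
    exact pow_le_pow_left₀ (abs_nonneg _) h2 2
  rw [prod_pow, ← h1, div_mul_eq_mul_div, mul_div_assoc]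
  nlinarith [sq_nonneg (QQ T r Y + 2 * R)]

variable {N x : ℕ}

theorem choose_om (P : Finset ℕ) (k j : ℕ) (hP : ∀ p ∈ P, k < p) :
    (fun n => ((om P k n).choose j : ℝ)) = ∑ D ∈ powersetCard j P, ∏ p ∈ D, ind p k := by
  funext n
  rw [Finset.sum_apply, om, ← card_powersetCard]
  have h1 : powersetCard j (P.filter fun p => n % p = k) =
      (powersetCard j P).filter fun D => ∀ p ∈ D, n % p = k := by
    ext D
    simp only [mem_powersetCard, mem_filter, subset_iff]
    exact ⟨fun h => ⟨⟨fun _ hy => (h.1 hy).1, h.2⟩, fun _ hy => (h.1 hy).2⟩,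
      fun h => ⟨fun y hy => ⟨h.1.1 hy, h.2 y hy⟩, h.1.2⟩⟩
  rw [h1, card_filter]
  push_cast
  refine sum_congr rfl fun D hD => ?_
  rw [Finset.prod_apply]
  simp only [ind]
  rw [prod_boole]
  refine if_congr (forall₂_congr fun p hp => ?_) rfl rfl
  rw [Nat.ModEq, Nat.mod_eq_of_lt (hP p ((mem_powersetCard.1 hD).1 hp))]

theorem mult_choose (P : Finset ℕ) (k j : ℕ) (hP : ∀ p ∈ P, k < p ∧ p ∣ N) :
    Mult N x (fun n => ((om P k n).choose j : ℝ)) ((P.card : ℝ) ^ j) := by
  rw [choose_om P k j fun p hp => (hP p hp).1]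
  refine (Mult.sum _ _ (fun _ => 1) fun D hD => ?_).mono ?_
  · have := Mult.prod (N := N) (x := x) D (fun p => ind p k) (fun _ => 1) fun p hp =>
      Mult.atom (Or.inr ⟨p, k, (hP p ((mem_powersetCard.1 hD).1 hp)).2, rfl⟩)
    simpa using this
  · rw [sum_const, card_powersetCard, nsmul_eq_mul, mul_one]
    exact_mod_cast Nat.choose_le_pow _ _

theorem mult_YY (P : Finset ℕ) (k J t z : ℕ) (hP : ∀ p ∈ P, k < p ∧ p ∣ N) (hz : P.card ≤ z)
    (hz1 : 1 ≤ z) : Mult N x (fun n => -YY J t (om P k n)) ((4 * z : ℝ) ^ (J + t)) := by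
  have h1 : (fun n => -YY J t (om P k n)) = ∑ j ∈ range (t + 1),
      (-((-1) ^ j * ((J + j).choose J : ℝ))) • fun n => ((om P k n).choose (J + j) : ℝ) := by
    funext n
    simp only [YY, Finset.sum_apply, Pi.smul_apply, smul_eq_mul, neg_mul, sum_neg_distrib]
  rw [h1]
  refine (Mult.sum _ _ _ fun j _ => (mult_choose P k (J + j) hP).smul _).mono ?_
  have hzR : (1 : ℝ) ≤ z := by exact_mod_cast hz1
  have h2 := sum_le_card_nsmul (range (t + 1))
    (fun j => |-((-1) ^ j * ((J + j).choose J : ℝ))| * (P.card : ℝ) ^ (J + j))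
    ((2 * z : ℝ) ^ (J + t)) (fun j hj => by
      rw [abs_neg, abs_mul, abs_neg_one_pow, one_mul, Nat.abs_cast]
      have h3 : ((J + j).choose J : ℝ) ≤ 2 ^ (J + j) := by exact_mod_cast Nat.choose_le_two_pow _ _
      have h4 : (P.card : ℝ) ^ (J + j) ≤ z ^ (J + j) :=
        pow_le_pow_left₀ (by positivity) (by exact_mod_cast hz) _
      refine (mul_le_mul h3 h4 (by positivity) (by positivity)).trans ?_
      rw [← mul_pow]
      exact pow_le_pow_right₀ (by linarith) (by have := mem_range.1 hj; omega))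
  refine h2.trans ?_
  rw [card_range, nsmul_eq_mul, show (4 * z : ℝ) = 2 * (2 * z) by ring, mul_pow 2 (2 * z : ℝ)]
  refine mul_le_mul_of_nonneg_right ?_ (by positivity)
  have h3 : t + 1 ≤ 2 ^ (J + t) :=
    (Nat.lt_two_pow_self (n := t)).trans_le (Nat.pow_le_pow_right two_pos (by omega))
  exact_mod_cast h3

theorem mult_QQ (T : Finset ℕ) (r K : ℕ) (hK : 1 ≤ K) (hT : T.card ≤ K) (Y : ℕ → ℕ → ℝ) (G : ℝ)
    (hG : 1 ≤ G) (hY : ∀ k ∈ T, Mult N x (fun n => -Y k n) G) :
    Mult N x (fun n => QQ T r fun k => Y k n) (3 * (K * G) ^ r) := by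
  have hKR : (1 : ℝ) ≤ K := by exact_mod_cast hK
  have h1 : (fun n => QQ T r fun k => Y k n) =
      ∑ U ∈ T.powerset.filter (fun U => U.card ≤ r), ∏ k ∈ U, fun n => -Y k n := by
    funext n
    simp only [QQ, Finset.sum_apply, Finset.prod_apply]
  rw [h1]
  refine (Mult.sum _ _ _ fun U hU => Mult.prod U _ (fun _ => G) fun k hk =>
    hY k (mem_powerset.1 (mem_filter.1 hU).1 hk)).mono ?_
  calc ∑ U ∈ T.powerset.filter (fun U => U.card ≤ r), ∏ _k ∈ U, G
      ≤ ∑ U ∈ T.powerset.filter (fun U => U.card ≤ r), (∏ _k ∈ U, (1 / K : ℝ)) * (K * G) ^ r := by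
        refine sum_le_sum fun U hU => ?_
        rw [prod_const, prod_const]
        have h2 : (K * G : ℝ) ^ U.card ≤ (K * G) ^ r :=
          pow_le_pow_right₀ (by nlinarith) (mem_filter.1 hU).2
        refine le_trans (le_of_eq ?_) (mul_le_mul_of_nonneg_left h2 (by positivity))
        rw [← mul_pow]
        congr 1
        field_simp
    _ ≤ (∑ U ∈ T.powerset, ∏ _k ∈ U, (1 / K : ℝ)) * (K * G) ^ r := by
        rw [← sum_mul]
        exact mul_le_mul_of_nonneg_right (sum_le_sum_of_subset_of_nonneg (filter_subset _ _)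
          fun U _ _ => by positivity) (by positivity)
    _ ≤ _ := by
        refine mul_le_mul_of_nonneg_right ?_ (by positivity)
        rw [← prod_one_add, prod_const]
        calc (1 + 1 / K : ℝ) ^ T.card ≤ (1 + 1 / K : ℝ) ^ K :=
              pow_le_pow_right₀ (le_add_of_nonneg_right (by positivity)) hT
          _ ≤ Real.exp (1 / K) ^ K :=
              pow_le_pow_left₀ (by positivity) (by linarith [Real.add_one_le_exp (1 / K : ℝ)]) _
          _ = Real.exp 1 := by
              rw [← Real.exp_nat_mul]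
              congr 1
              field_simp
          _ ≤ 3 := by linarith [Real.exp_one_lt_d9]

/-- the divisor condition -/
def Adm (n : ℕ) : Prop := ∀ k : ℕ, 1 ≤ k → k < n → (Nat.divisors (n - k)).card ≤ k + 2

theorem om_lt {n k J : ℕ} (P : Finset ℕ) (hP : ∀ p ∈ P, p.Prime) (hn : Adm n) (h1 : 1 ≤ k)
    (h2 : k < n) (hJ : k + 2 < 2 ^ J) : om P k n < J := by
  have h3 := hn k h1 h2
  rw [Nat.card_divisors (by omega)] at h3
  have h4 : 2 ^ (n - k).primeFactors.card ≤ ∏ p ∈ (n - k).primeFactors, ((n - k).factorization p + 1) :=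
    pow_card_le_prod _ _ _ fun p hp => by
      have := (Nat.prime_of_mem_primeFactors hp).factorization_pos_of_dvd (n := n - k) (by omega)
        (Nat.dvd_of_mem_primeFactors hp)
      omega
  have h5 : om P k n ≤ (n - k).primeFactors.card := by
    refine card_le_card fun p hp => ?_
    obtain ⟨h6, h7⟩ := mem_filter.1 hp
    refine Nat.mem_primeFactors.2 ⟨hP p h6, ?_, by omega⟩
    rw [← h7]
    exact Nat.dvd_sub_mod n
  have h6 : 2 ^ (n - k).primeFactors.card < 2 ^ J := by omega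
  have := (Nat.pow_lt_pow_iff_right (by norm_num : 1 < 2)).1 h6
  omega

open scoped Classical in
theorem count_le (x K K' J t r z : ℕ) (hK : 1 ≤ K) (hK' : K' ≤ K) (hJ : K + 2 < 2 ^ J)
    (P : Finset ℕ) (hP : ∀ p ∈ P, p.Prime ∧ 2 * K ≤ p) (hz : P.card ≤ z) (hz1 : 1 ≤ z) :
    (((range x).filter Adm).card : ℝ) ≤ (K + 1) +
      x * (2 * EE (aa K) bb P (fun w => (1 - YY J t w) ^ 2) ^ K' +
        2 / 9 ^ r * EE (aa K) bb P (fun w => (1 + 3 * |YY J t w|) ^ 2) ^ K') +
      9 * (K * (4 * z : ℝ) ^ (J + t)) ^ (2 * r) := by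
  set N := ∏ p ∈ P, p with hN
  have hN0 : 0 < N := prod_pos fun p hp => (hP p hp).1.pos
  set T := Icc 1 K' with hT
  have hTc : T.card = K' := by simp [hT]
  have hlt : ∀ k ∈ T, ∀ p ∈ P, k < p := by
    intro k hk p hp
    have := (hP p hp).2
    have := mem_Icc.1 hk
    omega
  set Q : ℕ → ℝ := fun n => QQ T r fun k => YY J t (om P k n) with hQ
  have hzR : (1 : ℝ) ≤ z := by exact_mod_cast hz1
  have hM : Mult N x Q (3 * (K * (4 * z : ℝ) ^ (J + t)) ^ r) :=
    mult_QQ T r K hK (by omega) (fun k n => YY J t (om P k n)) _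
      (one_le_pow₀ (by linarith)) fun k hk =>
      mult_YY P k J t z (fun p hp => ⟨hlt k hk p hp, dvd_prod_of_mem _ hp⟩) hz hz1
  have h1 := (hM.mul hM).disc hN0
  have h2 : (((range x).filter Adm).card : ℝ) ≤ (K + 1) + ∑ n ∈ range x, (Q * Q) n := by
    have h3 : (range x).filter Adm ⊆ range (K + 1) ∪ (range x).filter fun n => Adm n ∧ K < n := by
      intro n hn
      rw [mem_union, mem_range, mem_filter]
      obtain ⟨h4, h5⟩ := mem_filter.1 hn
      by_cases h : K < n
      · exact Or.inr ⟨h4, h5, h⟩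
      · left; omega
    have h4 : (((range x).filter Adm).card : ℝ) ≤
        (K + 1) + (((range x).filter fun n => Adm n ∧ K < n).card : ℝ) := by
      have := (card_le_card h3).trans (card_union_le _ _)
      rw [card_range] at this
      exact_mod_cast this
    refine h4.trans (add_le_add le_rfl ?_)
    rw [card_filter]
    push_cast
    refine sum_le_sum fun n _ => ?_
    split_ifs with h
    · have : Q n = 1 := QQ_one _ _ _ fun k hk => by
        have := mem_Icc.1 hk
        exact YY_lt t (om_lt P (fun p hp => (hP p hp).1) h.1 this.1 (by omega) (by omega))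
      simp [this]
    · exact mul_self_nonneg _
  have hb : ∀ f : ℕ → ℝ, (∀ w, 0 ≤ f w) →
      av N (fun n => ∏ k ∈ T, f (om P k n)) ≤ EE (aa K) bb P f ^ K' := by
    intro f hf
    have := prod_bound K T (by omega) P
      (fun p hp => ⟨(hP p hp).1, (hP p hp).2, fun k hk => mem_range.2 (hlt k hk p hp)⟩)
      (fun _ => f) fun _ => hf
    rwa [prod_const, hTc] at this
  have h3 : av N (Q * Q) ≤ 2 * EE (aa K) bb P (fun w => (1 - YY J t w) ^ 2) ^ K' +
      2 / 9 ^ r * EE (aa K) bb P (fun w => (1 + 3 * |YY J t w|) ^ 2) ^ K' := by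
    refine le_trans ?_ (add_le_add
      (mul_le_mul_of_nonneg_left (hb _ fun w => sq_nonneg _) (by norm_num))
      (mul_le_mul_of_nonneg_left (hb _ fun w => sq_nonneg _) (by positivity)))
    simp only [av]
    rw [mul_div_assoc', mul_div_assoc', ← add_div, mul_sum, mul_sum, ← sum_add_distrib]
    refine div_le_div_of_nonneg_right (sum_le_sum fun n _ => ?_) (by positivity)
    rw [Pi.mul_apply, ← sq]
    exact QQ_sq T r _
  have h4 := mul_le_mul_of_nonneg_left h3 (Nat.cast_nonneg (α := ℝ) x)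
  have h5 : 3 * (K * (4 * z : ℝ) ^ (J + t)) ^ r * (3 * (K * (4 * z : ℝ) ^ (J + t)) ^ r) =
      9 * (K * (4 * z : ℝ) ^ (J + t)) ^ (2 * r) := by ring
  linarith

end Pool.Agent.MP_cebb75_nt

end
end

section

/-!
Estimates in the independent model.
-/

set_option autoImplicit false

open Finset

noncomputable section

namespace Pool.Agent.MP_cebb75_nt

theorem esymm_succ (P : Finset ℕ) (u : ℕ → ℝ) (j : ℕ) :
    ∑ D ∈ powersetCard j P, (∏ p ∈ D, u p) * ∑ q ∈ P \ D, u q =
      (j + 1) * ∑ D ∈ powersetCard (j + 1) P, ∏ p ∈ D, u p := by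
  have h1 : (j + 1 : ℝ) * ∑ D ∈ powersetCard (j + 1) P, ∏ p ∈ D, u p =
      ∑ D ∈ powersetCard (j + 1) P, ∑ _q ∈ D, ∏ p ∈ D, u p := by
    rw [mul_sum]
    refine sum_congr rfl fun D hD => ?_
    rw [sum_const, (mem_powersetCard.1 hD).2, nsmul_eq_mul]
    push_cast
    rfl
  rw [h1]
  simp only [mul_sum]
  rw [sum_sigma', sum_sigma']
  refine sum_nbij' (fun a => ⟨insert a.2 a.1, a.2⟩) (fun a => ⟨a.1.erase a.2, a.2⟩) ?_ ?_ ?_ ?_ ?_
  · rintro ⟨D, q⟩ h
    simp only [mem_sigma, mem_powersetCard, mem_sdiff] at h ⊢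
    exact ⟨⟨insert_subset h.2.1 h.1.1, by rw [card_insert_of_notMem h.2.2, h.1.2]⟩,
      mem_insert_self _ _⟩
  · rintro ⟨D, q⟩ h
    simp only [mem_sigma, mem_powersetCard, mem_sdiff] at h ⊢
    exact ⟨⟨(erase_subset _ _).trans h.1.1, by rw [card_erase_of_mem h.2, h.1.2]; rfl⟩,
      h.1.1 h.2, notMem_erase _ _⟩
  · rintro ⟨D, q⟩ h
    simp only [mem_sigma, mem_powersetCard, mem_sdiff] at h
    simp only [erase_insert h.2.2]
  · rintro ⟨D, q⟩ h
    simp only [mem_sigma, mem_powersetCard] at h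
    simp only [insert_erase h.2]
  · rintro ⟨D, q⟩ h
    simp only [mem_sigma, mem_powersetCard, mem_sdiff] at h
    simp only [prod_insert h.2.2]
    ring

theorem esymm_lb (P : Finset ℕ) (u : ℕ → ℝ) (ε m : ℝ) (hε : 0 ≤ ε)
    (hu : ∀ p ∈ P, 0 ≤ u p ∧ u p ≤ ε) (J : ℕ) (hm : 0 ≤ m) (h : m + J * ε ≤ ∑ p ∈ P, u p)
    (j : ℕ) (hj : j ≤ J) : m ^ j ≤ j.factorial * ∑ D ∈ powersetCard j P, ∏ p ∈ D, u p := by
  induction j with
  | zero => simp
  | succ j ih =>
    have ih' := ih (by omega)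
    have h1 : (∑ D ∈ powersetCard j P, ∏ p ∈ D, u p) * m ≤
        ∑ D ∈ powersetCard j P, (∏ p ∈ D, u p) * ∑ q ∈ P \ D, u q := by
      rw [sum_mul]
      refine sum_le_sum fun D hD => ?_
      obtain ⟨h2, h3⟩ := mem_powersetCard.1 hD
      refine mul_le_mul_of_nonneg_left ?_ (prod_nonneg fun p hp => (hu p (h2 hp)).1)
      have h4 := sum_sdiff h2 (f := u)
      have h5 := sum_le_card_nsmul D u ε fun p hp => (hu p (h2 hp)).2
      rw [h3, nsmul_eq_mul] at h5
      have h6 : (j : ℝ) * ε ≤ J * ε :=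
        mul_le_mul_of_nonneg_right (by exact_mod_cast (by omega : j ≤ J)) hε
      linarith
    rw [esymm_succ] at h1
    rw [pow_succ, Nat.factorial_succ]
    push_cast
    have h2 := mul_le_mul_of_nonneg_right ih' hm
    have h3 := mul_le_mul_of_nonneg_left h1 (Nat.cast_nonneg (α := ℝ) j.factorial)
    nlinarith

theorem fact_le (J : ℕ) (hJ : 1 ≤ J) :
    (J.factorial : ℝ) ≤ Real.exp 1 * Real.sqrt J * (J / Real.exp 1) ^ J := by
  obtain ⟨n, rfl⟩ : ∃ n, J = n + 1 := ⟨J - 1, by omega⟩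
  have h := Stirling.stirlingSeq'_antitone (Nat.zero_le n)
  simp only [Function.comp, Nat.succ_eq_add_one, zero_add, Stirling.stirlingSeq_one] at h
  rw [Stirling.stirlingSeq, div_le_iff₀ (by positivity), Real.sqrt_mul (by norm_num)] at h
  refine h.trans (le_of_eq ?_)
  field_simp

theorem exists_sub (s : Finset ℕ) (f : ℕ → ℝ) (hf : ∀ p ∈ s, f p ≤ 1) (c : ℝ)
    (hc : 0 ≤ c) (h : c ≤ ∑ p ∈ s, f p) : ∃ P ⊆ s, c ≤ ∑ p ∈ P, f p ∧ ∑ p ∈ P, f p ≤ c + 1 := by
  induction s using Finset.induction_on with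
  | empty => exact ⟨∅, Subset.refl _, h, by simp; linarith⟩
  | insert j s hj ih =>
    by_cases h1 : c ≤ ∑ p ∈ s, f p
    · obtain ⟨P, h2, h3⟩ := ih (fun p hp => hf p (mem_insert_of_mem hp)) h1
      exact ⟨P, h2.trans (subset_insert _ _), h3⟩
    · refine ⟨insert j s, Subset.refl _, h, ?_⟩
      rw [sum_insert hj]
      linarith [hf j (mem_insert_self _ _)]

theorem mertens_low (y z : ℕ) (hy : 2 ≤ y) :
    Real.log z ≤ 30 * Real.log y * Real.exp (∑ p ∈ MP_fdd1d3_nt.PP y z, 1 / (p : ℝ)) := by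
  have h1 := MP_fdd1d3_nt.mertens_c y z z hy le_rfl
  have h2 : Real.log z ≤ Real.log (z + 1) := by
    rcases Nat.eq_zero_or_pos z with rfl | hz
    · simp
    · exact Real.log_le_log (by exact_mod_cast hz) (by linarith)
  refine h2.trans (h1.trans (mul_le_mul_of_nonneg_left ?_
    (mul_nonneg (by norm_num) (Real.log_natCast_nonneg y))))
  calc _ ≤ ∑ s ∈ (MP_fdd1d3_nt.PP y z).powerset, 1 / MP_fdd1d3_nt.nn (fun p => p) s :=
        sum_le_sum_of_subset_of_nonneg (filter_subset _ _) fun s _ _ => by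
          unfold MP_fdd1d3_nt.nn; positivity
    _ = ∏ p ∈ MP_fdd1d3_nt.PP y z, (1 + 1 / (p : ℝ)) := by
        rw [prod_one_add]
        refine sum_congr rfl fun s _ => ?_
        simp [MP_fdd1d3_nt.nn]
    _ ≤ _ := by
        rw [Real.exp_sum]
        refine prod_le_prod (fun p _ => by positivity) fun p _ => ?_
        linarith [Real.add_one_le_exp (1 / (p : ℝ))]

variable {P : Finset ℕ} {K : ℕ}

theorem EE_pow_le (s : ℝ) (hs : 0 ≤ s) :
    EE (aa K) bb P (fun w => s ^ w) ≤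
      Real.exp ((s - 1) * ∑ p ∈ P, 1 / (p : ℝ) + 2 * s * K * ∑ p ∈ P, (1 / (p : ℝ)) ^ 2) := by
  rw [EE_pow, mul_sum, mul_sum, ← sum_add_distrib, Real.exp_sum]
  refine prod_le_prod (fun p _ => add_nonneg (mul_nonneg hs (aa_nonneg K p)) (bb_nonneg p))
    fun p _ => le_trans (le_of_eq ?_) (Real.add_one_le_exp _)
  unfold aa bb
  ring

/-- indicator of a point -/
def pt (J w : ℕ) : ℝ := if w = J then 1 else 0

/-- tail weight -/
def tl (J w : ℕ) : ℝ := if J < w then 16 ^ w else 0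

theorem pt_lb (J : ℕ) :
    (∑ D ∈ powersetCard J P, ∏ p ∈ D, 1 / (p : ℝ)) * ∏ p ∈ P, bb p ≤ EE (aa K) bb P (pt J) := by
  rw [EE, powersetCard_eq_filter, sum_filter, sum_mul]
  refine sum_le_sum fun S hS => ?_
  unfold pt
  split_ifs with h
  · rw [mul_one]
    refine mul_le_mul (prod_le_prod (fun p _ => by positivity) fun p _ => ?_) ?_
      (prod_nonneg fun p _ => bb_nonneg p) (prod_nonneg fun p _ => aa_nonneg K p)
    · exact le_mul_of_one_le_right (by positivity) (le_add_of_nonneg_right (by positivity))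
    · refine prod_le_prod_of_subset_of_le_one sdiff_subset (fun p _ => bb_nonneg p) fun p _ _ => ?_
      unfold bb
      have : (0 : ℝ) ≤ 1 / p := by positivity
      linarith
  · simp

theorem bb_lb (hP : ∀ p ∈ P, 2 ≤ p) :
    Real.exp (-(∑ p ∈ P, 1 / (p : ℝ) + 2 * ∑ p ∈ P, (1 / (p : ℝ)) ^ 2)) ≤ ∏ p ∈ P, bb p := by
  rw [mul_sum, ← sum_add_distrib, ← sum_neg_distrib, Real.exp_sum]
  refine prod_le_prod (fun p _ => (Real.exp_pos _).le) fun p hp => ?_
  have h1 : 1 / (p : ℝ) ≤ 1 / 2 := one_div_le_one_div_of_le two_pos (by exact_mod_cast hP p hp)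
  have h2 : (0 : ℝ) ≤ 1 / p := by positivity
  unfold bb
  generalize 1 / (p : ℝ) = u at h1 h2
  rw [Real.exp_neg, inv_eq_one_div, div_le_iff₀ (Real.exp_pos _)]
  have h3 := mul_le_mul_of_nonneg_left (Real.add_one_le_exp (u + 2 * u ^ 2))
    (show 0 ≤ 1 - u by linarith)
  nlinarith [mul_nonneg (sq_nonneg u) (show 0 ≤ 1 - 2 * u by linarith)]

theorem tl_le (J : ℕ) : EE (aa K) bb P (tl J) ≤ EE (aa K) bb P (fun w => 32 ^ w) / 2 ^ J := by
  have h := EE_lin (aa K) bb P (fun w => 32 ^ w) (fun _ => 0) (fun _ => 0) (1 / 2 ^ J) 0 0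
  simp only [zero_mul, add_zero] at h
  rw [div_eq_mul_one_div, mul_comm, ← h]
  refine EE_mono (fun p _ => aa_nonneg K p) (fun p _ => bb_nonneg p) fun w => ?_
  unfold tl
  split_ifs with h1
  · rw [show (32 : ℝ) ^ w = 2 ^ w * 16 ^ w by rw [← mul_pow]; norm_num, ← mul_assoc]
    refine le_mul_of_one_le_left (by positivity) ?_
    rw [one_div_mul_eq_div, one_le_div (by positivity)]
    exact pow_le_pow_right₀ (by norm_num) h1.le
  · positivity

theorem first_le (J t : ℕ) : EE (aa K) bb P (fun w => (1 - YY J t w) ^ 2) ≤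
    EE (aa K) bb P (fun w => 1 ^ w) - EE (aa K) bb P (pt J) + 4 * EE (aa K) bb P (tl (J + t)) := by
  have h := EE_lin (aa K) bb P (fun w => 1 ^ w) (pt J) (tl (J + t)) 1 (-1) 4
  refine le_trans ?_ (le_of_eq (h.trans (by ring)))
  refine EE_mono (fun p _ => aa_nonneg K p) (fun p _ => bb_nonneg p) fun w => ?_
  unfold pt tl
  rcases lt_trichotomy w J with h1 | rfl | h1
  · rw [YY_lt t h1, if_neg h1.ne, if_neg (by omega)]; simp
  · rw [YY_self, if_pos rfl, if_neg (by omega)]; simp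
  · by_cases h2 : w ≤ J + t
    · rw [YY_mid h1 h2, if_neg h1.ne', if_neg (by omega)]; simp
    · rw [if_neg h1.ne', if_pos (by omega)]
      have h3 := abs_le.1 (YY_abs J t w)
      have h4 : (1 : ℝ) ≤ 4 ^ w := one_le_pow₀ (by norm_num)
      rw [show (16 : ℝ) ^ w = 4 ^ w * 4 ^ w by rw [← mul_pow]; norm_num, one_pow]
      nlinarith

theorem second_le (J t : ℕ) : EE (aa K) bb P (fun w => (1 + 3 * |YY J t w|) ^ 2) ≤
    EE (aa K) bb P (fun w => 1 ^ w) + 15 * EE (aa K) bb P (pt J) +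
      16 * EE (aa K) bb P (tl (J + t)) := by
  have h := EE_lin (aa K) bb P (fun w => 1 ^ w) (pt J) (tl (J + t)) 1 15 16
  refine le_trans ?_ (le_of_eq (h.trans (by ring)))
  refine EE_mono (fun p _ => aa_nonneg K p) (fun p _ => bb_nonneg p) fun w => ?_
  unfold pt tl
  rcases lt_trichotomy w J with h1 | rfl | h1
  · rw [YY_lt t h1, if_neg h1.ne, if_neg (by omega)]; simp
  · rw [YY_self, if_pos rfl, if_neg (by omega)]; norm_num
  · by_cases h2 : w ≤ J + t
    · rw [YY_mid h1 h2, if_neg h1.ne', if_neg (by omega)]; simp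
    · rw [if_neg h1.ne', if_pos (by omega)]
      have h3 := YY_abs J t w
      have h5 := abs_nonneg (YY J t w)
      have h4 : (1 : ℝ) ≤ 4 ^ w := one_le_pow₀ (by norm_num)
      rw [show (16 : ℝ) ^ w = 4 ^ w * 4 ^ w by rw [← mul_pow]; norm_num, one_pow]
      nlinarith

end Pool.Agent.MP_cebb75_nt

end
end
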