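import Pool.Agent.MP_c7a479_co.Defs

section

namespace Pool.Agent.MP_c7a479_co

open Function Finset

/-- An index one orthogonal array of strength `m` (an MDS code): rows `X`, columns `κ`. -/
structure IsOA {X κ α : Type} (m : ℕ) (C : κ → X → α) : Prop where
  sep : ∀ (x y : X) (S : Finset κ), m ≤ S.card → (∀ i ∈ S, C i x = C i y) → x = y
  ex : ∀ (S : Finset κ), S.card ≤ m → ∀ w : κ → α, ∃ x, ∀ i ∈ S, C i x = w i

theorem IsVarSet.isOA {ι κ α : Type} [DecidableEq ι] [Fintype ι] [Fintype κ]
    {C : κ → (ι → α) → α} (h : IsVarSet C) (hk : Fintype.card ι ≤ Fintype.card κ) :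
    IsOA (Fintype.card ι) C := by
  classical
  refine ⟨fun x y S hS hxy => h.sep x y S hS hxy, fun S hS w => ?_⟩
  obtain ⟨T, hST, -, hT⟩ := exists_subsuperset_card_eq (subset_univ S) hS (by simpa using hk)
  have e : ι ≃ T := Fintype.equivOfCardEq (by simp [hT])
  obtain ⟨x, hx⟩ := (h.2 (fun j => (e j : κ)) (Subtype.val_injective.comp e.injective)).2
    (fun j => w (e j))
  refine ⟨x, fun i hi => ?_⟩
  have := congrFun hx (e.symm ⟨i, hST hi⟩)
  simpa using this

namespace IsOA

variable {X κ α : Type} {m : ℕ} {C : κ → X → α}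

/-- Bush's bound for large strength: `m + 2` columns force `m ≤ n - 1`. -/
theorem bush_large [Fintype κ] [Fintype α] (h : IsOA m C) (hn : 2 ≤ Fintype.card α)
    (hk : m + 2 ≤ Fintype.card κ) : m + 1 ≤ Fintype.card α := by
  classical
  obtain ⟨z⟩ : Nonempty α := Fintype.card_pos_iff.mp (by omega)
  obtain ⟨x0, -⟩ := h.ex ∅ (by simp) (fun _ => z)
  obtain ⟨T, -, hT⟩ := exists_subset_card_eq (s := (univ : Finset κ)) (n := m + 2)
    (by simpa using hk)
  obtain ⟨a, ha⟩ : T.Nonempty := card_pos.mp (by omega)
  obtain ⟨b, hb⟩ : (T.erase a).Nonempty := card_pos.mp (by rw [card_erase_of_mem ha]; omega)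
  set S := (T.erase a).erase b with hSdef
  have hS : S.card = m := by rw [hSdef, card_erase_of_mem hb, card_erase_of_mem ha]; omega
  have hbS : b ∉ S := notMem_erase _ _
  have haS : a ∉ S := fun h => notMem_erase a T (mem_of_mem_erase h)
  have hab : b ≠ a := (mem_erase.mp hb).1
  choose y hy using fun (i : κ) (t : α) => h.ex S hS.le (update (fun j => C j x0) i t)
  have hne : ∀ i ∈ S, ∀ t, t ≠ C i x0 → ∀ c ∉ S, C c (y i t) ≠ C c x0 := by
    intro i hi t ht c hc hcc
    have : y i t = x0 := by
      refine h.sep _ _ (insert c (S.erase i)) ?_ ?_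
      · rw [card_insert_of_notMem (fun h => hc (mem_of_mem_erase h)), card_erase_of_mem hi]
        have := card_pos.mpr ⟨i, hi⟩
        omega
      · intro j hj
        rcases mem_insert.mp hj with rfl | hj
        · exact hcc
        · rw [hy i t j (mem_of_mem_erase hj), update_of_ne (mem_erase.mp hj).1]
    have h2 := hy i t i hi
    rw [this, update_self] at h2
    exact ht h2.symm
  have key : (S.sigma fun i => (univ : Finset α).erase (C i x0)).card ≤
      (((univ : Finset α).erase (C a x0)) ×ˢ ((univ : Finset α).erase (C b x0))).card := by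
    refine card_le_card_of_injOn (fun p => (C a (y p.1 p.2), C b (y p.1 p.2))) ?_ ?_
    · rintro ⟨i, t⟩ hp
      simp only [coe_sigma, Set.mem_sigma_iff, mem_coe, mem_erase, mem_univ, and_true] at hp
      simp only [coe_product, Set.mem_prod, mem_coe, mem_erase, mem_univ, and_true]
      exact ⟨hne i hp.1 t hp.2 a haS, hne i hp.1 t hp.2 b hbS⟩
    · rintro ⟨i, t⟩ hp ⟨i', t'⟩ hp' hpp
      simp only [coe_sigma, Set.mem_sigma_iff, mem_coe, mem_erase, mem_univ, and_true] at hp hp'
      simp only [Prod.mk.injEq] at hpp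
      have hyy : y i t = y i' t' := by
        refine h.sep _ _ (insert a (insert b ((S.erase i).erase i'))) ?_ ?_
        · have h1 : a ∉ insert b ((S.erase i).erase i') := by
            intro h
            rcases mem_insert.mp h with h | h
            · exact hab h.symm
            · exact haS (mem_of_mem_erase (mem_of_mem_erase h))
          have h2 : b ∉ (S.erase i).erase i' :=
            fun h => hbS (mem_of_mem_erase (mem_of_mem_erase h))
          rw [card_insert_of_notMem h1, card_insert_of_notMem h2]
          have h3 := pred_card_le_card_erase (s := S) (a := i)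
          have h4 := pred_card_le_card_erase (s := S.erase i) (a := i')
          omega
        · intro j hj
          rcases mem_insert.mp hj with rfl | hj
          · exact hpp.1
          rcases mem_insert.mp hj with rfl | hj
          · exact hpp.2
          have h1 := mem_erase.mp hj
          have h2 := mem_erase.mp h1.2
          rw [hy i t j h2.2, hy i' t' j h2.2, update_of_ne h2.1, update_of_ne h1.1]
      have h1 := hy i t i hp.1
      rw [hyy, hy i' t' i hp.1, update_self] at h1
      have hii : i = i' := by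
        by_contra hne
        rw [update_of_ne hne] at h1
        exact hp.2 h1.symm
      subst hii
      rw [update_self] at h1
      rw [h1]
  rw [card_sigma, card_product] at key
  simp only [card_erase_of_mem (mem_univ _), card_univ, sum_const, smul_eq_mul, hS] at key
  have := Nat.le_of_mul_le_mul_right key (by omega : 0 < Fintype.card α - 1)
  omega

/-- The derived array: rows agreeing with `x0` on the columns of `S`. -/
theorem derived [DecidableEq κ] (h : IsOA m C) (S : Finset κ) (hS : S.card ≤ m) (x0 : X) :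
    IsOA (m - S.card)
      (fun (i : {i // i ∉ S}) (x : {x // ∀ j ∈ S, C j x = C j x0}) => C i.1 x.1) := by
  have hd : ∀ T : Finset {i // i ∉ S}, Disjoint S (T.map (Embedding.subtype _)) := by
    intro T
    rw [disjoint_left]
    intro a ha hb
    obtain ⟨b, -, rfl⟩ := mem_map.mp hb
    exact b.2 ha
  constructor
  · intro x y T hT hxy
    apply Subtype.ext
    refine h.sep _ _ (S ∪ T.map (Embedding.subtype _)) ?_ ?_
    · rw [card_union_of_disjoint (hd T), card_map]; omega
    · intro i hi
      rcases mem_union.mp hi with hi | hi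
      · rw [x.2 i hi, y.2 i hi]
      · obtain ⟨b, hb, rfl⟩ := mem_map.mp hi
        exact hxy b hb
  · intro T hT w
    obtain ⟨x, hx⟩ := h.ex (S ∪ T.map (Embedding.subtype _))
      (by rw [card_union_of_disjoint (hd T), card_map]; omega)
      (fun i => if hi : i ∈ S then C i x0 else w ⟨i, hi⟩)
    refine ⟨⟨x, fun j hj => ?_⟩, fun i hi => ?_⟩
    · rw [hx j (mem_union_left _ hj), dif_pos hj]
    · have := hx i.1 (mem_union_right _ (mem_map_of_mem (Embedding.subtype _) hi))
      rw [dif_neg i.2] at this
      exact this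

/-- Number of rows with prescribed values in `m - 1` columns. -/
theorem card_fiber [Fintype X] [Fintype α] [DecidableEq α] [DecidableEq κ] (h : IsOA m C)
    (S : Finset κ) (hS : S.card + 1 = m) (c : κ) (hc : c ∉ S) (w : κ → α) :
    (univ.filter fun x => ∀ i ∈ S, C i x = w i).card = Fintype.card α := by
  rw [← card_univ]
  refine card_bij (fun x _ => C c x) (fun _ _ => mem_univ _) ?_ ?_
  · intro x hx y hy hxy
    refine h.sep _ _ (insert c S) (by rw [card_insert_of_notMem hc]; omega) ?_
    intro j hj
    rcases mem_insert.mp hj with rfl | hj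
    · exact hxy
    · rw [(mem_filter.mp hx).2 j hj, (mem_filter.mp hy).2 j hj]
  · intro t _
    obtain ⟨x, hx⟩ := h.ex (insert c S) (by rw [card_insert_of_notMem hc]; omega) (update w c t)
    refine ⟨x, mem_filter.mpr ⟨mem_univ _, fun i hi => ?_⟩, ?_⟩
    · rw [hx i (mem_insert_of_mem hi), update_of_ne (fun h : i = c => hc (h ▸ hi))]
    · rw [hx c (mem_insert_self _ _), update_self]

/-- Strength two: given a row `x0`, a column `a` and a symbol `t ≠ C a x0`; at most `n + 1`
columns, and with `n + 1` columns any two rows agree somewhere. -/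
theorem two_bound [Fintype κ] [Fintype α] (h : IsOA 2 C) (hn : 2 ≤ Fintype.card α) :
    Fintype.card κ ≤ Fintype.card α + 1 ∧
      (Fintype.card κ = Fintype.card α + 1 → ∀ x y, ∃ i, C i x = C i y) := by
  classical
  -- for a row `x`, a column `a`, and `t ≠ C a x`, the rows through `(a,t)` meeting `x`
  have main : ∀ (x : X) (a : κ) (t : α), t ≠ C a x → ∀ b, b ≠ a →
      ∃ f : {i // i ≠ a} → α, Injective f ∧
        ∀ i, ∀ y, C a y = t → C b y = f i → C i.1 y = C i.1 x := by
    intro x a t ht b hb
    choose y hy using fun i : {i // i ≠ a} =>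
      h.ex {a, i.1} card_le_two (update (fun j => C j x) a t)
    have hya : ∀ i, C a (y i) = t := fun i => by rw [hy i a (by simp), update_self]
    have hyi : ∀ i, C i.1 (y i) = C i.1 x := fun i => by
      rw [hy i i.1 (by simp), update_of_ne i.2]
    have hsep : ∀ u v, C a u = C a v → C b u = C b v → u = v := by
      intro u v h1 h2
      refine h.sep _ _ {a, b} (by rw [card_pair hb.symm]) ?_
      intro j hj
      rcases mem_insert.mp hj with rfl | hj
      · exact h1
      · rw [mem_singleton.mp hj]; exact h2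
    refine ⟨fun i => C b (y i), ?_, ?_⟩
    · intro i j hij
      have hyy : y i = y j := hsep _ _ (by rw [hya, hya]) hij
      by_contra hne
      have : y i = x := by
        refine h.sep _ _ {i.1, j.1} (by rw [card_pair (fun h => hne (Subtype.ext h))]) ?_
        intro l hl
        rcases mem_insert.mp hl with rfl | hl
        · exact hyi i
        · rw [mem_singleton.mp hl, hyy]; exact hyi j
      exact ht (by rw [← hya i, this])
    · intro i u h1 h2
      rw [hsep u (y i) (by rw [h1, hya]) h2, hyi]
  obtain ⟨z⟩ : Nonempty α := Fintype.card_pos_iff.mp (by omega)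
  constructor
  · by_contra hlt
    obtain ⟨x0, -⟩ := h.ex ∅ (by simp) (fun _ => z)
    haveI : Nontrivial κ := Fintype.one_lt_card_iff_nontrivial.mp (by omega)
    haveI : Nontrivial α := Fintype.one_lt_card_iff_nontrivial.mp (by omega)
    obtain ⟨a, b, hab⟩ := exists_pair_ne κ
    obtain ⟨t, ht⟩ := exists_ne (C a x0)
    obtain ⟨f, hf, -⟩ := main x0 a t ht b hab.symm
    have := Fintype.card_le_of_injective f hf
    simp only [ne_eq, Fintype.card_subtype_compl, Fintype.card_unique] at this
    omega
  · intro hk x y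
    haveI : Nontrivial κ := Fintype.one_lt_card_iff_nontrivial.mp (by omega)
    obtain ⟨a, b, hab⟩ := exists_pair_ne κ
    by_cases ht : C a y = C a x
    · exact ⟨a, ht.symm⟩
    obtain ⟨f, hf, hf2⟩ := main x a (C a y) ht b hab.symm
    have hs : Surjective f := ((Fintype.bijective_iff_injective_and_card f).mpr ⟨hf, by
      simp only [ne_eq, Fintype.card_subtype_compl, Fintype.card_unique]; omega⟩).2
    obtain ⟨i, hi⟩ := hs (C b y)
    exact ⟨i.1, (hf2 i y rfl hi.symm).symm⟩

/-- Bush's general bound `k ≤ n + m - 1`. -/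
theorem bush [Fintype κ] [Fintype α] (h : IsOA m C) (hm : 2 ≤ m) (hn : 2 ≤ Fintype.card α) :
    Fintype.card κ + 1 ≤ Fintype.card α + m := by
  classical
  by_contra hlt
  obtain ⟨z⟩ : Nonempty α := Fintype.card_pos_iff.mp (by omega)
  obtain ⟨x0, -⟩ := h.ex ∅ (by simp) (fun _ => z)
  obtain ⟨S, -, hS⟩ := exists_subset_card_eq (s := (univ : Finset κ)) (n := m - 2)
    (by rw [card_univ]; omega)
  have hd := h.derived S (by omega) x0
  rw [show m - S.card = 2 by omega] at hd
  have := (hd.two_bound hn).1
  rw [Fintype.card_subtype_compl, Fintype.card_coe] at this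
  omega

theorem even_card_of_invol {β : Type} [Fintype β] (g : β → β) (h1 : ∀ b, g (g b) = b)
    (h2 : ∀ b, g b ≠ b) : Even (Fintype.card β) := by
  have := Finset.sum_involution (s := (univ : Finset β)) (f := fun _ => (1 : ZMod 2))
    (fun a _ => g a) (fun _ _ => by decide) (fun a _ _ => h2 a) (fun _ _ => mem_univ _)
    (fun a _ => h1 a)
  rw [sum_const, card_univ, nsmul_eq_mul, mul_one] at this
  exact (ZMod.natCast_eq_zero_iff_even).mp this

/-- Strength three with `n + 2` columns forces `n` even. -/
theorem three_even [Fintype κ] [Fintype α] (h : IsOA 3 C) (hn : 2 ≤ Fintype.card α)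
    (hk : Fintype.card κ = Fintype.card α + 2) : Even (Fintype.card α) := by
  classical
  have hA : ∀ (x y : X) (a : κ), C a y = C a x → ∃ j, j ≠ a ∧ C j y = C j x := by
    intro x y a hxy
    have hd := h.derived {a} (by simp) x
    rw [card_singleton] at hd
    obtain ⟨i, hi⟩ := (hd.two_bound hn).2 (by
      rw [Fintype.card_subtype_compl, Fintype.card_coe, card_singleton]; omega)
      ⟨y, by simpa using hxy⟩ ⟨x, by simp⟩
    exact ⟨i.1, fun h => i.2 (by simp [h]), hi⟩
  obtain ⟨z⟩ : Nonempty α := Fintype.card_pos_iff.mp (by omega)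
  obtain ⟨x0, -⟩ := h.ex ∅ (by simp) (fun _ => z)
  haveI : Nontrivial κ := Fintype.one_lt_card_iff_nontrivial.mp (by omega)
  haveI : Nontrivial α := Fintype.one_lt_card_iff_nontrivial.mp (by omega)
  obtain ⟨c, c', hcc⟩ := exists_pair_ne κ
  obtain ⟨t, ht⟩ := exists_ne (C c x0)
  obtain ⟨t', ht'⟩ := exists_ne (C c' x0)
  choose y hy using fun i : κ => h.ex {c, c', i} card_le_three
    (update (update (fun j => C j x0) c t) c' t')
  have hyc : ∀ i, C c (y i) = t := fun i => by
    rw [hy i c (by simp), update_of_ne hcc, update_self]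
  have hyc' : ∀ i, C c' (y i) = t' := fun i => by rw [hy i c' (by simp), update_self]
  have hyi : ∀ i, i ≠ c → i ≠ c' → C i (y i) = C i x0 := fun i h1 h2 => by
    rw [hy i i (by simp), update_of_ne h2, update_of_ne h1]
  have hsep : ∀ (u v : X) (a b d : κ), a ≠ b → a ≠ d → b ≠ d → C a u = C a v → C b u = C b v →
      C d u = C d v → u = v := by
    intro u v a b d h1 h2 h3 e1 e2 e3
    refine h.sep _ _ {a, b, d} (by rw [card_eq_three.mpr ⟨a, b, d, h1, h2, h3, rfl⟩]) ?_
    intro j hj
    simp only [mem_insert, mem_singleton] at hj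
    rcases hj with rfl | rfl | rfl <;> assumption
  have hex : ∀ i : {i // i ∉ ({c, c'} : Finset κ)}, ∃ j : {i // i ∉ ({c, c'} : Finset κ)},
      j ≠ i ∧ C j.1 (y i.1) = C j.1 x0 := by
    rintro ⟨i, hi⟩
    have hi' := hi
    simp only [mem_insert, mem_singleton, not_or] at hi'
    obtain ⟨j, hj, hj2⟩ := hA x0 (y i) i (hyi i hi'.1 hi'.2)
    refine ⟨⟨j, ?_⟩, fun h => hj (congrArg Subtype.val h), hj2⟩
    simp only [mem_insert, mem_singleton, not_or]
    constructor
    · rintro rfl; exact ht (by rw [← hj2, hyc])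
    · rintro rfl; exact ht' (by rw [← hj2, hyc'])
  choose g hg1 hg2 using hex
  have hmem : ∀ i : {i // i ∉ ({c, c'} : Finset κ)}, i.1 ≠ c ∧ i.1 ≠ c' := fun i => by
    have := i.2
    simpa only [mem_insert, mem_singleton, not_or] using this
  have hinv : ∀ i, g (g i) = i := by
    intro i
    have hyy : y (g i).1 = y i.1 :=
      hsep _ _ c c' (g i).1 hcc (hmem _).1.symm (hmem _).2.symm (by rw [hyc, hyc])
        (by rw [hyc', hyc']) (by rw [hyi _ (hmem _).1 (hmem _).2, hg2])
    by_contra hne
    have : y i.1 = x0 :=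
      hsep _ _ i.1 (g i).1 (g (g i)).1 (fun h => hg1 i (Subtype.ext h).symm)
        (fun h => hne (Subtype.ext h).symm) (fun h => hg1 (g i) (Subtype.ext h).symm)
        (hyi _ (hmem _).1 (hmem _).2) (hg2 i) (by rw [← hyy]; exact hg2 (g i))
    exact ht (by rw [← hyc i.1, this])
  have := even_card_of_invol g hinv hg1
  rw [Fintype.card_subtype_compl, Fintype.card_coe, card_pair hcc] at this
  rwa [show Fintype.card κ - 2 = Fintype.card α by omega] at this

/-- Bush's bound `k ≤ n + m - 2` for odd order and strength at least three. -/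
theorem bush_odd [Fintype κ] [Fintype α] (h : IsOA m C) (hm : 3 ≤ m) (hn : 2 ≤ Fintype.card α)
    (ho : Odd (Fintype.card α)) : Fintype.card κ + 2 ≤ Fintype.card α + m := by
  classical
  by_contra hlt
  have hb := h.bush (by omega) hn
  obtain ⟨z⟩ : Nonempty α := Fintype.card_pos_iff.mp (by omega)
  obtain ⟨x0, -⟩ := h.ex ∅ (by simp) (fun _ => z)
  obtain ⟨S, -, hS⟩ := exists_subset_card_eq (s := (univ : Finset κ)) (n := m - 3)
    (by rw [card_univ]; omega)
  have hd := h.derived S (by omega) x0
  rw [show m - S.card = 3 by omega] at hd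
  have := hd.three_even hn (by rw [Fintype.card_subtype_compl, Fintype.card_coe]; omega)
  exact (Nat.not_even_iff_odd.mpr ho) this

/-- Strength `n - 1` with `n + 2` columns forces `n` even. -/
theorem pred_even [Fintype κ] [Fintype α] (h : IsOA m C) (hm : 1 ≤ m)
    (hn : Fintype.card α = m + 1) (hk : m + 3 ≤ Fintype.card κ) : Even (Fintype.card α) := by
  classical
  obtain ⟨z⟩ : Nonempty α := Fintype.card_pos_iff.mp (by omega)
  obtain ⟨x0, -⟩ := h.ex ∅ (by simp) (fun _ => z)
  haveI : Nontrivial α := Fintype.one_lt_card_iff_nontrivial.mp (by omega)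
  obtain ⟨T, -, hT⟩ := exists_subset_card_eq (s := (univ : Finset κ)) (n := m + 3)
    (by simpa using hk)
  obtain ⟨a, ha⟩ : T.Nonempty := card_pos.mp (by omega)
  obtain ⟨b, hb⟩ : (T.erase a).Nonempty := card_pos.mp (by rw [card_erase_of_mem ha]; omega)
  set R := (T.erase a).erase b with hRdef
  have hR : R.card = m + 1 := by rw [hRdef, card_erase_of_mem hb, card_erase_of_mem ha]; omega
  have hbR : b ∉ R := notMem_erase _ _
  have haR : a ∉ R := fun h => notMem_erase a T (mem_of_mem_erase h)
  have hab : b ≠ a := (mem_erase.mp hb).1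
  obtain ⟨t, ht⟩ := exists_ne (C a x0)
  obtain ⟨t', ht'⟩ := exists_ne (C b x0)
  have hcard : ∀ c ∈ R, ∀ d ∈ R, d ≠ c → ((R.erase c).erase d).card + 1 = m := by
    intro c hc d hd hdc
    rw [card_erase_of_mem (mem_erase.mpr ⟨hdc, hd⟩), card_erase_of_mem hc]; omega
  -- `P c d y`: the row `y` has symbol `t` in column `a` and agrees with `x0` on `R` off `c, d`
  let P : κ → κ → X → Prop := fun c d y =>
    C a y = t ∧ ∀ i ∈ R, i ≠ c → i ≠ d → C i y = C i x0
  have hex : ∀ c ∈ R, ∀ d ∈ R, d ≠ c → ∃ y, P c d y := by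
    intro c hc d hd hdc
    have haS : a ∉ (R.erase c).erase d := fun h => haR (mem_of_mem_erase (mem_of_mem_erase h))
    obtain ⟨y, hy⟩ := h.ex (insert a ((R.erase c).erase d))
      (by rw [card_insert_of_notMem haS, hcard c hc d hd hdc]) (update (fun j => C j x0) a t)
    refine ⟨y, by rw [hy a (mem_insert_self _ _), update_self], fun i hi h1 h2 => ?_⟩
    rw [hy i (mem_insert_of_mem (mem_erase.mpr ⟨h2, mem_erase.mpr ⟨h1, hi⟩⟩)),
      update_of_ne (fun h : i = a => haR (h ▸ hi))]
  have hdiff : ∀ c ∈ R, ∀ d ∈ R, d ≠ c → ∀ y, P c d y → ∀ e, e ∉ (R.erase c).erase d →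
      C e y ≠ C e x0 := by
    intro c hc d hd hdc y hy e he hee
    have : y = x0 := by
      refine h.sep _ _ (insert e ((R.erase c).erase d))
        (by rw [card_insert_of_notMem he, hcard c hc d hd hdc]) ?_
      intro j hj
      rcases mem_insert.mp hj with rfl | hj
      · exact hee
      · have h1 := mem_erase.mp hj
        have h2 := mem_erase.mp h1.2
        exact hy.2 j h2.2 h2.1 h1.1
    exact ht (by rw [← hy.1, this])
  have huniq : ∀ c ∈ R, ∀ d ∈ R, d ≠ c → ∀ d' ∈ R, d' ≠ c → ∀ y y', P c d y → P c d' y' →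
      C b y = C b y' → d = d' := by
    intro c hc d hd hdc d' hd' hdc' y y' hy hy' hbb
    have hyy : y = y' := by
      refine h.sep _ _ (insert a (insert b (((R.erase c).erase d).erase d'))) ?_ ?_
      · have h1 : a ∉ insert b (((R.erase c).erase d).erase d') := by
          intro h
          rcases mem_insert.mp h with h | h
          · exact hab h.symm
          · exact haR (mem_of_mem_erase (mem_of_mem_erase (mem_of_mem_erase h)))
        have h2 : b ∉ ((R.erase c).erase d).erase d' :=
          fun h => hbR (mem_of_mem_erase (mem_of_mem_erase (mem_of_mem_erase h)))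
        rw [card_insert_of_notMem h1, card_insert_of_notMem h2]
        have h3 := pred_card_le_card_erase (s := (R.erase c).erase d) (a := d')
        have h4 := hcard c hc d hd hdc
        omega
      · intro j hj
        rcases mem_insert.mp hj with rfl | hj
        · rw [hy.1, hy'.1]
        rcases mem_insert.mp hj with rfl | hj
        · exact hbb
        have h0 := mem_erase.mp hj
        have h1 := mem_erase.mp h0.2
        have h2 := mem_erase.mp h1.2
        rw [hy.2 j h2.2 h2.1 h1.1, hy'.2 j h2.2 h2.1 h0.1]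
    by_contra hne
    exact hdiff c hc d hd hdc y hy d (notMem_erase _ _) (by rw [hyy]; exact hy'.2 d hd hdc hne)
  have hsurj : ∀ c : R, ∃ d : R, d ≠ c ∧ ∃ y, P c.1 d.1 y ∧ C b y = t' := by
    rintro ⟨c, hc⟩
    choose y hy using fun d : R.erase c =>
      hex c hc d.1 (mem_of_mem_erase d.2) (mem_erase.mp d.2).1
    let f : R.erase c → {s // s ≠ C b x0} := fun d => ⟨C b (y d),
      hdiff c hc d.1 (mem_of_mem_erase d.2) (mem_erase.mp d.2).1 _ (hy d) b
        (fun h => hbR (mem_of_mem_erase (mem_of_mem_erase h)))⟩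
    have hf : Injective f := fun d d' hdd => Subtype.ext
      (huniq c hc d.1 (mem_of_mem_erase d.2) (mem_erase.mp d.2).1 d'.1 (mem_of_mem_erase d'.2)
        (mem_erase.mp d'.2).1 _ _ (hy d) (hy d') (congrArg Subtype.val hdd))
    have hs : Surjective f := ((Fintype.bijective_iff_injective_and_card f).mpr ⟨hf, by
      simp only [ne_eq, Fintype.card_subtype_compl, Fintype.card_unique, Fintype.card_coe,
        card_erase_of_mem hc]; omega⟩).2
    obtain ⟨d, hd⟩ := hs ⟨t', ht'⟩
    exact ⟨⟨d.1, mem_of_mem_erase d.2⟩, fun h => (mem_erase.mp d.2).1 (congrArg Subtype.val h),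
      y d, hy d, congrArg Subtype.val hd⟩
  choose g hg1 y hy1 hy2 using hsurj
  have hinv : ∀ c, g (g c) = c := by
    intro c
    apply Subtype.ext
    refine huniq (g c).1 (g c).2 _ (g (g c)).2 (fun h => hg1 (g c) (Subtype.ext h)) c.1 c.2
      (fun h => hg1 c (Subtype.ext h).symm) (y (g c)) (y c) (hy1 (g c))
      ⟨(hy1 c).1, fun i hi h1 h2 => (hy1 c).2 i hi h2 h1⟩ (by rw [hy2, hy2])
  have := even_card_of_invol g hinv hg1
  rwa [Fintype.card_coe, hR, ← hn] at this

end IsOA

/-- Upper bounds for variational sets. -/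
theorem HasVarSet.exists_isOA {m n k : ℕ} (h : HasVarSet m n k) (hk : m ≤ k) :
    ∃ C : Fin k → (Fin m → Fin n) → Fin n, IsOA m C := by
  obtain ⟨C, hC⟩ := h
  have := hC.isOA (by simpa using hk)
  exact ⟨C, by simpa using this⟩

theorem HasVarSet.le_of_large {m n k : ℕ} (h : HasVarSet m n k) (hn : 2 ≤ n) (hm : n ≤ m) :
    k ≤ m + 1 := by
  by_contra hlt
  obtain ⟨C, hC⟩ := h.exists_isOA (by omega)
  have := hC.bush_large (by simpa using hn) (by simp; omega)
  simp at this
  omega

theorem HasVarSet.le_bush {m n k : ℕ} (h : HasVarSet m n k) (hn : 2 ≤ n) (hm : 2 ≤ m) :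
    k + 1 ≤ n + m := by
  by_contra hlt
  obtain ⟨C, hC⟩ := h.exists_isOA (by omega)
  have := hC.bush hm (by simpa using hn)
  simp at this
  omega

theorem HasVarSet.le_bush_odd {m n k : ℕ} (h : HasVarSet m n k) (hn : 2 ≤ n) (hm : 3 ≤ m)
    (ho : Odd n) : k + 2 ≤ n + m := by
  by_contra hlt
  obtain ⟨C, hC⟩ := h.exists_isOA (by omega)
  have := hC.bush_odd hm (by simpa using hn) (by simpa using ho)
  simp at this
  omega

theorem HasVarSet.le_pred_odd {m k : ℕ} (h : HasVarSet m (m + 1) k) (hm : 1 ≤ m)
    (ho : Odd (m + 1)) : k ≤ m + 2 := by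
  by_contra hlt
  obtain ⟨C, hC⟩ := h.exists_isOA (by omega)
  have := hC.pred_even hm (by simp) (by simp; omega)
  exact (Nat.not_even_iff_odd.mpr ho) (by simpa using this)

/-- For order two, at most `m - 1` cubes. -/
theorem HasVarSet.le_two {m k : ℕ} (h : HasVarSet m 2 k) (hm : 2 ≤ m) : k + 1 ≤ m := by
  by_contra hlt
  obtain ⟨C, hC⟩ := h
  let j0 : Fin m := ⟨0, by omega⟩
  let j1 : Fin m := ⟨1, by omega⟩
  have h01 : j0 ≠ j1 := by simp [j0, j1]
  let x : Fin m → Fin 2 := fun _ => 0
  let y : Fin m → Fin 2 := update (update x j0 1) j1 1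
  have hxy : x = y := by
    refine hC.sep x y univ (by simp; omega) fun i _ => ?_
    have h1 := (hC.1 i x j0).1.ne (show (0 : Fin 2) ≠ 1 by decide)
    have h2 := (hC.1 i (update x j0 1) j1).1.ne (show (0 : Fin 2) ≠ 1 by decide)
    have e1 : update x j0 0 = x := update_eq_self j0 x
    have e2 : update (update x j0 1) j1 0 = update x j0 1 := by
      have : (update x j0 1) j1 = 0 := by rw [update_of_ne h01.symm]
      rw [← this]; exact update_eq_self _ _
    simp only [e1, e2] at h1 h2
    have : ∀ a b c : Fin 2, a ≠ b → b ≠ c → a = c := by decide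
    exact this _ _ _ h1 h2
  have := congrFun hxy j1
  simp [x, y] at this

end Pool.Agent.MP_c7a479_co

end

section

namespace Pool.Agent.MP_c7a479_co

open Function

/-- A latin square, as a binary operation. -/
def IsLatin {α : Type} (P : α → α → α) : Prop :=
  (∀ a, Bijective (P a)) ∧ ∀ b, Bijective fun a => P a b

/-- A pair of orthogonal latin squares on `α`. -/
def HasOLS (α : Type) : Prop :=
  ∃ P Q : α → α → α, IsLatin P ∧ IsLatin Q ∧
    ∀ a b a' b', P a b = P a' b' → Q a b = Q a' b' → a = a' ∧ b = b'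

/-- A covering form of an orthogonal array with four columns. -/
def Cov (α : Type) [Fintype α] : Prop :=
  ∃ (X : Type) (_ : Fintype X) (C : Fin 4 → X → α), Fintype.card X ≤ Fintype.card α ^ 2 ∧
    ∀ i j, i ≠ j → ∀ a b, ∃ x, C i x = a ∧ C j x = b

theorem Cov.hasOLS {α : Type} [Fintype α] (h : Cov α) : HasOLS α := by
  classical
  obtain ⟨X, _, C, hc, h⟩ := h
  have hb : ∀ i j, i ≠ j → Bijective fun x => (C i x, C j x) := by
    intro i j hij
    have hs : Surjective fun x => (C i x, C j x) := fun p => by
      obtain ⟨x, h1, h2⟩ := h i j hij p.1 p.2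
      exact ⟨x, Prod.ext h1 h2⟩
    have := Fintype.card_le_of_surjective _ hs
    refine (Fintype.bijective_iff_surjective_and_card _).mpr ⟨hs, ?_⟩
    rw [Fintype.card_prod] at this ⊢
    rw [sq] at hc
    omega
  have hinj : ∀ i j, i ≠ j → ∀ x y, C i x = C i y → C j x = C j y → x = y :=
    fun i j hij x y h1 h2 => (hb i j hij).1 (Prod.ext h1 h2)
  choose r h0 h1 using h 0 1 (by decide)
  have hr : ∀ a b a' b', r a b = r a' b' → a = a' ∧ b = b' := fun a b a' b' h =>
    ⟨by rw [← h0 a b, h, h0], by rw [← h1 a b, h, h1]⟩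
  have hl : ∀ k : Fin 4, k ≠ 0 → k ≠ 1 → IsLatin fun a b => C k (r a b) := by
    intro k k0 k1
    refine ⟨fun a => Injective.bijective_of_finite fun b b' hbb => ?_,
      fun b => Injective.bijective_of_finite fun a a' haa => ?_⟩
    · exact (hr _ _ _ _ (hinj k 0 k0 _ _ hbb (by rw [h0, h0]))).2
    · exact (hr _ _ _ _ (hinj k 1 k1 _ _ haa (by rw [h1, h1]))).1
  exact ⟨_, _, hl 2 (by decide) (by decide), hl 3 (by decide) (by decide),
    fun a b a' b' e1 e2 => hr _ _ _ _ (hinj 2 3 (by decide) _ _ e1 e2)⟩

theorem Cov.of_equiv {α β : Type} [Fintype α] [Fintype β] (h : Cov α) (e : α ≃ β) : Cov β := by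
  obtain ⟨X, _, C, hc, h⟩ := h
  refine ⟨X, inferInstance, fun i x => e (C i x), by rwa [← Fintype.card_congr e], ?_⟩
  intro i j hij a b
  obtain ⟨x, h1, h2⟩ := h i j hij (e.symm a) (e.symm b)
  exact ⟨x, by simp [h1], by simp [h2]⟩

theorem Cov.of_card {α β : Type} [Fintype α] [Fintype β] (h : Cov α)
    (e : Fintype.card α = Fintype.card β) : Cov β := h.of_equiv (Fintype.equivOfCardEq e)

theorem Cov.prod {α β : Type} [Fintype α] [Fintype β] (h : Cov α) (h' : Cov β) :
    Cov (α × β) := by
  obtain ⟨X, _, C, hc, h⟩ := h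
  obtain ⟨Y, _, D, hd, h'⟩ := h'
  refine ⟨X × Y, inferInstance, fun i x => (C i x.1, D i x.2), ?_, ?_⟩
  · rw [Fintype.card_prod, Fintype.card_prod, mul_pow]
    exact Nat.mul_le_mul hc hd
  · intro i j hij a b
    obtain ⟨x, h1, h2⟩ := h i j hij a.1 b.1
    obtain ⟨y, h3, h4⟩ := h' i j hij a.2 b.2
    exact ⟨(x, y), Prod.ext h1 h3, Prod.ext h2 h4⟩

theorem cov_mul {a b : ℕ} (h : Cov (Fin a)) (h' : Cov (Fin b)) : Cov (Fin (a * b)) :=
  (h.prod h').of_card (by simp)

/-- Linear forms `s` and `b + c s`. -/
def lin {R : Type} [CommRing R] (i : Option (Fin 4)) (y : R × R) : R :=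
  match i with
  | none => y.1
  | some c => y.2 + (c : ℕ) * y.1

theorem lin_ex {R : Type} [CommRing R] (i j : Option (Fin 4)) (hij : i ≠ j)
    (hu : ∀ a b : Fin 4, i = some a → j = some b → IsUnit (((a : ℕ) : R) - (b : ℕ))) (p q : R) :
    ∃ y : R × R, lin i y = p ∧ lin j y = q := by
  rcases i with _ | a <;> rcases j with _ | b
  · exact absurd rfl hij
  · exact ⟨(p, q - (b : ℕ) * p), rfl, by simp [lin]⟩
  · exact ⟨(q, p - (a : ℕ) * q), by simp [lin], rfl⟩
  · obtain ⟨u, hu⟩ := (hu a b rfl rfl).exists_right_inv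
    refine ⟨(u * (p - q), p - (a : ℕ) * (u * (p - q))), by simp [lin], ?_⟩
    simp only [lin]
    linear_combination (q - p) * hu

theorem cov_odd {n : ℕ} (hn : Odd n) : Cov (Fin n) := by
  haveI : NeZero n := ⟨by rintro rfl; simp at hn⟩
  have h2 : IsUnit (2 : ZMod n) := by
    have := (ZMod.isUnit_iff_coprime 2 n).mpr ((Nat.coprime_two_left).mpr hn)
    simpa using this
  refine Cov.of_card (α := ZMod n) ⟨ZMod n × ZMod n, inferInstance,
    fun i => lin (![none, some 0, some 1, some 2] i), by simp [sq], ?_⟩ (by simp)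
  intro i j hij a b
  refine lin_ex _ _ ?_ ?_ a b
  · revert i j; decide
  · intro a b ha hb
    fin_cases i <;> fin_cases j <;> simp at ha hb hij <;> subst ha <;> subst hb <;> norm_num <;>
      first | exact h2 | exact h2.neg

def tab (N n a b : ℕ) : ℕ := N >>> (4 * (a * n + b)) % 16

def row (n NP NQ : ℕ) (r : ℕ) (i : Fin 4) : ℕ :=
  ![r / n, r % n, tab NP n (r / n) (r % n), tab NQ n (r / n) (r % n)] i

def chk (n NP NQ : ℕ) : Bool :=
  (List.finRange 4).all fun i => (List.finRange 4).all fun j => i == j ||
    (List.range n).all fun a => (List.range n).all fun b =>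
      (List.range (n * n)).any fun r => row n NP NQ r i == a && row n NP NQ r j == b

theorem cov_of_chk (n NP NQ : ℕ) (hn : 0 < n) (h : chk n NP NQ = true) : Cov (Fin n) := by
  refine ⟨Fin (n * n), inferInstance, fun i r => ⟨row n NP NQ r i % n, Nat.mod_lt _ hn⟩,
    by simp [sq], ?_⟩
  intro i j hij a b
  simp only [chk, List.all_eq_true, List.mem_finRange, forall_const, Bool.or_eq_true, beq_iff_eq,
    List.mem_range, List.any_eq_true, Bool.and_eq_true] at h
  obtain ⟨r, hr, h1, h2⟩ := ((h i j).resolve_left hij) a a.2 b b.2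
  exact ⟨⟨r, hr⟩, Fin.ext (by simp [h1, Nat.mod_eq_of_lt a.2]),
    Fin.ext (by simp [h2, Nat.mod_eq_of_lt b.2])⟩

theorem cov_4 : Cov (Fin 4) :=
  cov_of_chk 4
    81927025744491024
    2311244918467662624
    (by decide) (by decide +kernel)

theorem cov_8 : Cov (Fin 8) :=
  cov_of_chk 8
    514631494928646303341455936939146235248427799039887685160188751890747765264
    14650829345046748877112246722012837689969094235904073787632533748873585452064
    (by decide) (by decide +kernel)

theorem cov_10 : Cov (Fin 10) :=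
  cov_of_chk 10
    1367656593960172020520463790186141020486445632165915545386398693371602831849848448782565751612356230854474967138011776825
    1216268832832863134406278963491912148197995257514116265900151615012179542784309293112922782845916704411155122476137149075
    (by decide) (by decide +kernel)

theorem cov_14 : Cov (Fin 14) :=
  cov_of_chk 14
    81005800758972911291805858119311091217571294417937083276791548821319122595849569841665449002229485580477560290889428406819814689562177341931918088780143036986619303839583115250866856542127054434591292626689087240050695384786451961640349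
    75049028202726654479839444158194969774714058388524198653940362251917240152582225728895289850033294981217076071261487506244986328167172934439057238763634091445512576106591155149907227173620940349850934176854155475422379616267330521221574
    (by decide) (by decide +kernel)

end Pool.Agent.MP_c7a479_co

end
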