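import Pool.Agent.Mg.Fc7a479.G6d35dc
import Pool.Agent.MP_c7a479_co.PolySieve
import Pool.Prelude.Def_F_8adaa765

section

/-!
Periodic functions and their means.
-/

set_option autoImplicit false

open Finset

noncomputable section

namespace Pool.Agent.MP_d228e7_nt

open Pool.Agent.MP_cebb75_nt

/-- depends only on the residue -/
def Per (N : ℕ) (g : ℕ → ℝ) : Prop := ∀ m n, m ≡ n [MOD N] → g m = g n

theorem Per.of_dvd {N N' : ℕ} {g : ℕ → ℝ} (h : Per N g) (hd : N ∣ N') : Per N' g :=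
  fun m n hmn => h m n (hmn.of_dvd hd)

theorem Per.shift {N : ℕ} {g : ℕ → ℝ} (h : Per N g) (b : ℕ) : Per N fun n => g (n + b) :=
  fun _ _ hmn => h _ _ (hmn.add_right b)

theorem Per.mod {N : ℕ} {g : ℕ → ℝ} (h : Per N g) (n : ℕ) : g (n % N) = g n :=
  h _ _ (Nat.mod_modEq n N)

theorem av_shift {N : ℕ} {g : ℕ → ℝ} (h : Per N g) (b : ℕ) :
    av N (fun n => g (n + b)) = av N g := by
  unfold av
  congr 1
  induction b with
  | zero => simp
  | succ b ih =>
    rw [← ih]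
    have h1 := sum_range_succ (fun n => g (n + b)) N
    have h2 := sum_range_succ' (fun n => g (n + b)) N
    have h3 : g (N + b) = g (0 + b) := h _ _ (by simp [Nat.ModEq])
    have h4 : ∑ n ∈ range N, g (n + (b + 1)) = ∑ n ∈ range N, g (n + 1 + b) :=
      sum_congr rfl fun n _ => by rw [show n + (b + 1) = n + 1 + b by ring]
    linarith

theorem av_mul {N N' : ℕ} (co : N.Coprime N') (h0 : 0 < N) (h0' : 0 < N') {f g : ℕ → ℝ}
    (hf : Per N f) (hg : Per N' g) : av (N * N') (fun n => f n * g n) = av N f * av N' g := by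
  unfold av
  have h1 := sum_crt co h0 h0' fun c m => f c * g m
  simp only [hf.mod, hg.mod] at h1
  rw [h1, ← sum_mul_sum, Nat.cast_mul, div_mul_div_comm]

theorem av_mono {N : ℕ} {f g : ℕ → ℝ} (h : ∀ n, f n ≤ g n) : av N f ≤ av N g :=
  div_le_div_of_nonneg_right (sum_le_sum fun n _ => h n) (by positivity)

theorem av_sub (N : ℕ) (f g : ℕ → ℝ) : av N (fun n => f n - g n) = av N f - av N g := by
  simp only [av, sum_sub_distrib, sub_div]

theorem av_const_mul (N : ℕ) (c : ℝ) (f : ℕ → ℝ) : av N (fun n => c * f n) = c * av N f := by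
  simp only [av, ← mul_sum, mul_div_assoc]

theorem om_congr {P : Finset ℕ} {m n : ℕ} (h : m ≡ n [MOD ∏ p ∈ P, p]) : om P 0 m = om P 0 n := by
  unfold om
  congr 1
  refine filter_congr fun p hp => ?_
  rw [show m % p = n % p from h.of_dvd (dvd_prod_of_mem _ hp)]

theorem om_per (P : Finset ℕ) (f : ℕ → ℝ) : Per (∏ p ∈ P, p) fun n => f (om P 0 n) :=
  fun _ _ h => by simp only [om_congr h]

theorem om_union {P Q : Finset ℕ} (h : Disjoint P Q) (n : ℕ) :
    om (P ∪ Q) 0 n = om P 0 n + om Q 0 n := by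
  unfold om
  rw [filter_union, card_union_of_disjoint (disjoint_filter_filter h)]

theorem om_insert {P : Finset ℕ} {p : ℕ} (hp : p ∉ P) (n : ℕ) :
    om (insert p P) 0 n = om P 0 n + if n % p = 0 then 1 else 0 := by
  rw [om, filter_insert]
  split_ifs with h
  · rw [card_insert_of_notMem (by simp [hp])]
    rfl
  · rfl

theorem cop_prod {P Q : Finset ℕ} (hP : ∀ p ∈ P, p.Prime) (hQ : ∀ p ∈ Q, p.Prime)
    (h : Disjoint P Q) : (∏ p ∈ P, p).Coprime (∏ p ∈ Q, p) :=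
  Nat.Coprime.prod_left fun p hp => Nat.Coprime.prod_right fun q hq =>
    (Nat.coprime_primes (hP p hp) (hQ q hq)).2 fun e => disjoint_left.1 h hp (e ▸ hq)

/-- expectation in the independent model -/
def E1 (P : Finset ℕ) (f : ℕ → ℝ) : ℝ := EE (fun p => 1 / (p : ℝ)) bb P f

theorem E1_mono (P : Finset ℕ) {f g : ℕ → ℝ} (h : ∀ w, f w ≤ g w) : E1 P f ≤ E1 P g :=
  EE_mono (fun p _ => by positivity) (fun p _ => bb_nonneg p) h

theorem E1_insert {P : Finset ℕ} {p : ℕ} (hp : p ∉ P) (f : ℕ → ℝ) :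
    E1 (insert p P) f = 1 / (p : ℝ) * E1 P (fun w => f (w + 1)) + bb p * E1 P f :=
  EE_insert _ _ hp f

theorem E1_mul (P : Finset ℕ) (c : ℝ) (f : ℕ → ℝ) : E1 P (fun w => c * f w) = c * E1 P f := by
  have h := EE_lin (fun p => 1 / (p : ℝ)) bb P f f f c 0 0
  simpa [E1] using h

theorem E1_add (P : Finset ℕ) (f g : ℕ → ℝ) : E1 P (fun w => f w + g w) = E1 P f + E1 P g := by
  have h := EE_lin (fun p => 1 / (p : ℝ)) bb P f g f 1 1 0
  simpa [E1] using h

theorem E1_pow (P : Finset ℕ) (s : ℝ) :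
    E1 P (fun w => s ^ w) = ∏ p ∈ P, (1 + (s - 1) * (1 / (p : ℝ))) := by
  rw [E1, EE_pow]
  exact prod_congr rfl fun p _ => by unfold bb; ring

theorem E1_pow_le (P : Finset ℕ) (s : ℝ) (hs : 1 ≤ s) :
    E1 P (fun w => s ^ w) ≤ Real.exp ((s - 1) * ∑ p ∈ P, 1 / (p : ℝ)) := by
  rw [E1_pow, mul_sum, Real.exp_sum]
  refine prod_le_prod (fun p _ => ?_) fun p _ => by
    linarith [Real.add_one_le_exp ((s - 1) * (1 / (p : ℝ)))]
  have : 0 ≤ (s - 1) * (1 / (p : ℝ)) := mul_nonneg (by linarith) (by positivity)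
  linarith

theorem E1_pt (P : Finset ℕ) : E1 P (pt 0) = ∏ p ∈ P, bb p := by
  have h := EE_pow (fun p => 1 / (p : ℝ)) bb P 0
  simp only [zero_mul, zero_add] at h
  rw [← h, E1]
  congr 1
  funext w
  unfold pt
  rcases w with _ | w <;> simp

theorem av_om (P : Finset ℕ) (hP : ∀ p ∈ P, p.Prime) (f : ℕ → ℝ) :
    av (∏ p ∈ P, p) (fun n => f (om P 0 n)) = E1 P f := by
  induction P using Finset.induction_on generalizing f with
  | empty => simp [av, om, E1, EE]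
  | insert p P hp ih =>
    have hpp := hP p (mem_insert_self _ _)
    have hP' : ∀ q ∈ P, q.Prime := fun q hq => hP q (mem_insert_of_mem hq)
    set N := ∏ q ∈ P, q with hN
    have hN0 : 0 < N := prod_pos fun q hq => (hP' q hq).pos
    have co : p.Coprime N := Nat.Coprime.prod_right fun q hq =>
      (Nat.coprime_primes hpp (hP' q hq)).2 fun h => hp (h ▸ hq)
    have hom : ∀ n, om (insert p P) 0 n = om P 0 (n % N) + if n % p = 0 then 1 else 0 := by
      intro n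
      rw [om_insert hp, om_congr (Nat.mod_modEq n N)]
    rw [prod_insert hp, av]
    simp only [hom]
    rw [sum_crt co hpp.pos hN0 fun c m => f (om P 0 m + if c = 0 then 1 else 0), E1_insert hp,
      ← ih hP', ← ih hP']
    obtain ⟨k, rfl⟩ : ∃ k, p = k + 1 := ⟨p - 1, by have := hpp.pos; omega⟩
    rw [sum_range_succ']
    simp only [Nat.succ_ne_zero, if_false, if_true, add_zero, sum_const, card_range, nsmul_eq_mul,
      av, bb]
    have : (0 : ℝ) < N := by exact_mod_cast hN0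
    rw [Nat.cast_mul, Nat.cast_add, Nat.cast_one, ← hN]
    clear_value N
    field_simp
    ring

/-- the discrepancy bound for all shifts -/
def MS (P : Finset ℕ) (g : ℕ → ℝ) (M : ℝ) : Prop :=
  ∀ N x b : ℕ, (∀ p ∈ P, p ∣ N) → Mult N x (fun n => g (n + b)) M

theorem MS.subset {P Q : Finset ℕ} {g : ℕ → ℝ} {M : ℝ} (h : MS P g M) (hs : P ⊆ Q) : MS Q g M :=
  fun N x b hN => h N x b fun p hp => hN p (hs hp)

theorem MS.mul {P : Finset ℕ} {f g : ℕ → ℝ} {M M' : ℝ} (h : MS P f M) (h' : MS P g M') :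
    MS P (fun n => f n * g n) (M * M') :=
  fun N x b hN => (h N x b hN).mul (h' N x b hN)

theorem MS.sub {P : Finset ℕ} {f g : ℕ → ℝ} {M M' : ℝ} (h : MS P f M) (h' : MS P g M') :
    MS P (fun n => f n - g n) (M + M') := by
  intro N x b hN
  have := (h N x b hN).add ((h' N x b hN).smul (-1))
  convert this using 1
  · funext n
    simp [sub_eq_add_neg]
  · simp

theorem MS.mono {P : Finset ℕ} {g : ℕ → ℝ} {M M' : ℝ} (h : MS P g M) (hM : M ≤ M') : MS P g M' :=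
  fun N x b hN => (h N x b hN).mono hM

theorem MS.const (P : Finset ℕ) (c : ℝ) : MS P (fun _ => c) |c| := by
  intro N x b _
  have := (Mult.atom (x := x) (Atom.one N)).smul c
  convert this using 1
  · funext n
    simp
  · simp

theorem ms_choose (P : Finset ℕ) (hP : ∀ p ∈ P, 0 < p) (j : ℕ) :
    MS P (fun n => ((om P 0 n).choose j : ℝ)) ((P.card : ℝ) ^ j) := by
  intro N x b hN
  have h1 : (fun n => ((om P 0 (n + b)).choose j : ℝ)) =
      ∑ D ∈ powersetCard j P, ∏ p ∈ D, ind p ((p - 1) * b) := by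
    funext n
    have h2 := congrFun (choose_om P 0 j hP) (n + b)
    rw [h2, Finset.sum_apply, Finset.sum_apply]
    refine sum_congr rfl fun D hD => ?_
    rw [Finset.prod_apply, Finset.prod_apply]
    refine prod_congr rfl fun p hp => ?_
    obtain ⟨k, rfl⟩ : ∃ k, p = k + 1 :=
      ⟨p - 1, by have := hP p ((mem_powersetCard.1 hD).1 hp); omega⟩
    unfold ind
    refine if_congr ?_ rfl rfl
    have h3 : (k + 1 - 1) * b + b ≡ 0 [MOD k + 1] := by
      rw [Nat.add_sub_cancel, ← Nat.succ_mul]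
      exact (Nat.modEq_zero_iff_dvd).2 (dvd_mul_right _ _)
    exact ⟨fun h => Nat.ModEq.add_right_cancel' b (h.trans h3.symm),
      fun h => (h.add_right b).trans h3⟩
  rw [h1]
  refine (Mult.sum _ _ (fun _ => 1) fun D hD => ?_).mono ?_
  · have := Mult.prod (N := N) (x := x) D (fun p => ind p ((p - 1) * b)) (fun _ => 1) fun p hp =>
      Mult.atom (Or.inr ⟨p, _, hN p ((mem_powersetCard.1 hD).1 hp), rfl⟩)
    simpa using this
  · rw [sum_const, card_powersetCard, nsmul_eq_mul, mul_one]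
    exact_mod_cast Nat.choose_le_pow _ _

theorem MS.window {P : Finset ℕ} (hP : ∀ p ∈ P, 0 < p) {g : ℕ → ℝ} {M : ℝ} (h : MS P g M)
    (n t : ℕ) : |∑ b ∈ range t, g (n + b) - t * av (∏ p ∈ P, p) g| ≤ 2 * M := by
  set N := ∏ p ∈ P, p with hN
  have hN0 : 0 < N := prod_pos hP
  have h1 : ∀ x, |Dsc N x g| ≤ M := by
    intro x
    have := h N x 0 (fun p hp => dvd_prod_of_mem _ hp) 1 1
      (fun h hh => by rw [one_mul]; exact atom_disc hN0 x hh) 1 (Atom.one N)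
    simpa using this
  have h2 : ∑ b ∈ range t, g (n + b) - t * av N g = Dsc N (n + t) g - Dsc N n g := by
    simp only [Dsc, sum_range_add]
    push_cast
    ring
  rw [h2]
  linarith [abs_sub (Dsc N (n + t) g) (Dsc N n g), h1 (n + t), h1 n]

end Pool.Agent.MP_d228e7_nt

end
end

section

/-!
Upper and lower sieve weights with pointwise bounds.
-/

set_option autoImplicit false

open Finset

noncomputable section

namespace Pool.Agent.MP_d228e7_nt

open Pool.Agent.MP_cebb75_nt Pool.Agent.MP_fdd1d3_nt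

/-- truncated inclusion-exclusion -/
def BB (m w : ℕ) : ℝ := ∑ j ∈ range (2 * m + 1), (-1) ^ j * (w.choose j : ℝ)

/-- the first omitted term -/
def RR (m w : ℕ) : ℝ := w.choose (2 * m + 1)

theorem pt_nonneg (w : ℕ) : 0 ≤ pt 0 w := by
  unfold pt
  split_ifs <;> norm_num

theorem pt_le_one (w : ℕ) : pt 0 w ≤ 1 := by
  unfold pt
  split_ifs <;> norm_num

theorem pt_add (v w : ℕ) : pt 0 (v + w) = pt 0 v * pt 0 w := by
  unfold pt
  rcases v with _ | v <;> rcases w with _ | w <;> simp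

theorem pt_le_BB (m w : ℕ) : pt 0 w ≤ BB m w := (MP_c7a479_co.PolySieve.bonf w m).1

theorem BB_sub (m w : ℕ) : BB m w - RR m w ≤ pt 0 w := (MP_c7a479_co.PolySieve.bonf w m).2

theorem BB_nonneg (m w : ℕ) : 0 ≤ BB m w := (pt_nonneg w).trans (pt_le_BB m w)

theorem RR_nonneg (m w : ℕ) : 0 ≤ RR m w := Nat.cast_nonneg _

theorem choose_mul_le (w k : ℕ) {c : ℝ} (hc : 0 ≤ c) : (w.choose k : ℝ) * c ^ k ≤ (1 + c) ^ w := by
  by_cases h : k ≤ w
  · rw [add_comm, add_pow]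
    have := single_le_sum (f := fun i => c ^ i * 1 ^ (w - i) * (w.choose i : ℝ))
      (fun i _ => by positivity) (mem_range.2 (Nat.lt_succ_of_le h))
    simpa [mul_comm] using this
  · rw [Nat.choose_eq_zero_of_lt (by omega)]
    simp only [Nat.cast_zero, zero_mul]
    positivity

theorem RR_le {a : ℝ} (ha : 1 ≤ a) (m w : ℕ) : RR m w ≤ a ^ (2 * m + 1) * (1 + 1 / a) ^ w := by
  have h := choose_mul_le w (2 * m + 1) (c := 1 / a) (by positivity)
  rw [one_div_pow, mul_one_div, div_le_iff₀' (by positivity)] at h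
  exact h

theorem one_le_wt {a : ℝ} (ha : 1 ≤ a) (k w : ℕ) : 1 ≤ a ^ k * (1 + 1 / a) ^ w :=
  one_le_mul_of_one_le_of_one_le (one_le_pow₀ ha)
    (one_le_pow₀ (le_add_of_nonneg_right (by positivity)))

theorem BB_le {a : ℝ} (ha : 1 ≤ a) (m w : ℕ) :
    BB m w ≤ 2 * (a ^ (2 * m + 1) * (1 + 1 / a) ^ w) := by
  linarith [BB_sub m w, pt_le_one w, RR_le ha m w, one_le_wt ha (2 * m + 1) w]

theorem E1_one (P : Finset ℕ) : E1 P (fun _ => 1) = 1 := by
  simpa using E1_pow P 1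

theorem E1_nonneg (P : Finset ℕ) {f : ℕ → ℝ} (h : ∀ w, 0 ≤ f w) : 0 ≤ E1 P f :=
  EE_nonneg (fun p _ => by positivity) (fun p _ => bb_nonneg p) h

theorem bb_ge {P : Finset ℕ} (hP : ∀ p ∈ P, 2 ≤ p) :
    Real.exp (-(2 * ∑ p ∈ P, 1 / (p : ℝ))) ≤ ∏ p ∈ P, bb p := by
  refine le_trans (Real.exp_le_exp.2 ?_) (bb_lb hP)
  have : 2 * ∑ p ∈ P, (1 / (p : ℝ)) ^ 2 ≤ ∑ p ∈ P, 1 / (p : ℝ) := by
    rw [mul_sum]
    refine sum_le_sum fun p hp => ?_
    have h1 : 1 / (p : ℝ) ≤ 1 / 2 := one_div_le_one_div_of_le two_pos (by exact_mod_cast hP p hp)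
    have h2 : (0 : ℝ) ≤ 1 / p := by positivity
    nlinarith
  linarith

theorem E1_RR {P : Finset ℕ} (hP : ∀ p ∈ P, 2 ≤ p) {K ε : ℝ} (hK : ∑ p ∈ P, 1 / (p : ℝ) ≤ K)
    (m : ℕ) (hε : Real.exp (4 * K) ≤ ε * 2 ^ (2 * m + 1)) : E1 P (RR m) ≤ ε * E1 P (BB m) := by
  have h1 : 2 ^ (2 * m + 1) * E1 P (RR m) ≤ Real.exp (2 * K) := by
    rw [← E1_mul]
    refine (E1_mono P (g := fun w => 3 ^ w) fun w => ?_).trans
      ((E1_pow_le P 3 (by norm_num)).trans (Real.exp_le_exp.2 (by linarith)))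
    have := choose_mul_le w (2 * m + 1) (c := 2) (by norm_num)
    norm_num at this
    rw [mul_comm]
    exact this
  have h2 : Real.exp (-(2 * K)) ≤ E1 P (BB m) := by
    refine le_trans ?_ (E1_mono P (pt_le_BB m))
    rw [E1_pt]
    exact (Real.exp_le_exp.2 (by linarith)).trans (bb_ge hP)
  have h3 : Real.exp (2 * K) = Real.exp (4 * K) * Real.exp (-(2 * K)) := by
    rw [← Real.exp_add]
    congr 1
    ring
  have h4 : (0 : ℝ) < 2 ^ (2 * m + 1) := by positivity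
  have h5 := mul_le_mul hε h2 (Real.exp_pos _).le ((Real.exp_pos _).le.trans hε)
  refine le_of_mul_le_mul_left ?_ h4
  linarith

theorem MS.sum {ι : Type} {P : Finset ℕ} (s : Finset ι) (g : ι → ℕ → ℝ) (M : ι → ℝ)
    (h : ∀ i ∈ s, MS P (g i) (M i)) : MS P (fun n => ∑ i ∈ s, g i n) (∑ i ∈ s, M i) := by
  intro N x b hN
  have := Mult.sum s (fun i n => g i (n + b)) M fun i hi => h i hi N x b hN
  convert this using 1
  funext n
  rw [Finset.sum_apply]

theorem ms_RR {P : Finset ℕ} (hP : ∀ p ∈ P, 0 < p) {Y : ℝ} (hY : P.card + 1 ≤ Y) (m : ℕ) :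
    MS P (fun n => RR m (om P 0 n)) (Y ^ (2 * m + 1)) :=
  (ms_choose P hP _).mono (pow_le_pow_left₀ (by positivity) (by linarith) _)

theorem ms_BB {P : Finset ℕ} (hP : ∀ p ∈ P, 0 < p) {Y : ℝ} (hY : P.card + 1 ≤ Y) (m : ℕ) :
    MS P (fun n => BB m (om P 0 n)) (Y ^ (2 * m)) := by
  refine (MS.sum (range (2 * m + 1)) _ _ fun j _ =>
    (MS.const P ((-1) ^ j)).mul (ms_choose P hP j)).mono ?_
  refine le_trans ?_ (pow_le_pow_left₀ (by positivity) hY _)
  rw [add_pow]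
  refine sum_le_sum fun j hj => ?_
  rw [abs_neg_one_pow, one_mul, one_pow, mul_one]
  refine le_mul_of_one_le_right (by positivity) ?_
  exact_mod_cast Nat.choose_pos (Nat.lt_succ_iff.1 (mem_range.1 hj))

/-- a pair of sieve weights -/
structure SP (a : ℝ) (P : Finset ℕ) (lo up : ℕ → ℝ) (M : ℝ) (D : ℕ) (s : ℝ) : Prop where
  lo_le : ∀ n, lo n ≤ pt 0 (om P 0 n)
  le_up : ∀ n, pt 0 (om P 0 n) ≤ up n
  per_lo : Per (∏ p ∈ P, p) lo
  per_up : Per (∏ p ∈ P, p) up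
  ms_lo : MS P lo M
  ms_up : MS P up M
  abs_lo : ∀ n, |lo n| ≤ (3 * a) ^ D * (1 + 1 / a) ^ om P 0 n
  abs_up : ∀ n, |up n| ≤ (3 * a) ^ D * (1 + 1 / a) ^ om P 0 n
  mean : (1 - s) * av (∏ p ∈ P, p) up ≤ av (∏ p ∈ P, p) lo

variable {a : ℝ} {P Q : Finset ℕ} {lo up : ℕ → ℝ} {M s : ℝ} {D : ℕ}

theorem SP.av_up (h : SP a P lo up M D s) (hP : ∀ p ∈ P, p.Prime) :
    ∏ p ∈ P, bb p ≤ av (∏ p ∈ P, p) up := by
  rw [← E1_pt, ← av_om P hP]
  exact av_mono h.le_up

theorem SP.av_nonneg (h : SP a P lo up M D s) : 0 ≤ av (∏ p ∈ P, p) up :=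
  div_nonneg (sum_nonneg fun n _ => (pt_nonneg _).trans (h.le_up n)) (by positivity)

theorem SP.mono (h : SP a P lo up M D s) (ha : 1 ≤ a) {M' s' : ℝ} {D' : ℕ} (hM : M ≤ M')
    (hD : D ≤ D') (hs : s ≤ s') : SP a P lo up M' D' s' := by
  have h1 : ∀ w : ℕ, (3 * a) ^ D * (1 + 1 / a) ^ w ≤ (3 * a) ^ D' * (1 + 1 / a) ^ w := fun w =>
    mul_le_mul_of_nonneg_right (pow_le_pow_right₀ (by linarith) hD) (by positivity)
  refine ⟨h.1, h.2, h.3, h.4, h.5.mono hM, h.6.mono hM, fun n => (h.7 n).trans (h1 _),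
    fun n => (h.8 n).trans (h1 _), le_trans ?_ h.9⟩
  exact mul_le_mul_of_nonneg_right (by linarith) h.av_nonneg

theorem sp_empty (a : ℝ) : SP a ∅ (fun _ => 1) (fun _ => 1) 1 0 0 := by
  have h := MS.const ∅ 1
  rw [abs_one] at h
  refine ⟨fun n => ?_, fun n => ?_, fun _ _ _ => rfl, fun _ _ _ => rfl, h, h, fun n => ?_,
    fun n => ?_, by simp⟩ <;> simp [om, pt]

theorem MS.nonneg {g : ℕ → ℝ} (hP : ∀ p ∈ P, 0 < p) (h : MS P g M) : 0 ≤ M := by
  linarith [h.window hP 0 0, abs_nonneg (∑ b ∈ range 0, g (0 + b) - (0 : ℕ) * av (∏ p ∈ P, p) g)]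

theorem av_union (hP : ∀ p ∈ P, p.Prime) (hQ : ∀ p ∈ Q, p.Prime) (hd : Disjoint P Q)
    {g : ℕ → ℝ} (hg : Per (∏ p ∈ P, p) g) (f : ℕ → ℝ) :
    av (∏ p ∈ P ∪ Q, p) (fun n => g n * f (om Q 0 n)) = av (∏ p ∈ P, p) g * E1 Q f := by
  rw [prod_union hd, av_mul (cop_prod hP hQ hd) (prod_pos fun p hp => (hP p hp).pos)
    (prod_pos fun p hp => (hQ p hp).pos) hg (om_per Q f), av_om Q hQ]

theorem per_union (hd : Disjoint P Q) {g : ℕ → ℝ} (hg : Per (∏ p ∈ P, p) g) (f : ℕ → ℝ) :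
    Per (∏ p ∈ P ∪ Q, p) (fun n => g n * f (om Q 0 n)) := by
  intro m n h
  rw [prod_union hd] at h
  simp only [hg m n (h.of_mul_right _), om_congr (h.of_mul_left _)]

theorem SP.step (h : SP a P lo up M D s) (ha : 1 ≤ a) (hP : ∀ p ∈ P, p.Prime)
    (hQ : ∀ p ∈ Q, p.Prime) (hd : Disjoint P Q) {K ε Y : ℝ} (hK : ∑ p ∈ Q, 1 / (p : ℝ) ≤ K)
    (m : ℕ) (hε : Real.exp (4 * K) ≤ ε * 2 ^ (2 * m + 1)) (hY : Q.card + 1 ≤ Y) (hY2 : 2 ≤ Y) :
    SP a (P ∪ Q) (fun n => lo n * BB m (om Q 0 n) - up n * RR m (om Q 0 n))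
      (fun n => up n * BB m (om Q 0 n)) (M * Y ^ (2 * m + 2)) (D + (2 * m + 1)) (s + ε) := by
  have hM := h.ms_lo.nonneg fun p hp => (hP p hp).pos
  have mB := (ms_BB (fun p hp => (hQ p hp).pos) hY m).subset (subset_union_right (s₁ := P))
  have mR := (ms_RR (fun p hp => (hQ p hp).pos) hY m).subset (subset_union_right (s₁ := P))
  have mlo := h.ms_lo.subset (subset_union_left (s₂ := Q))
  have mup := h.ms_up.subset (subset_union_left (s₂ := Q))
  have hY0 : 0 ≤ M * Y ^ (2 * m) := by positivity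
  have hab : ∀ n, 3 * ((3 * a) ^ D * (1 + 1 / a) ^ om P 0 n *
      (a ^ (2 * m + 1) * (1 + 1 / a) ^ om Q 0 n)) ≤
      (3 * a) ^ (D + (2 * m + 1)) * (1 + 1 / a) ^ om (P ∪ Q) 0 n := by
    intro n
    have h3 : (3 : ℝ) ≤ 3 ^ (2 * m + 1) := le_self_pow₀ (by norm_num) (by omega)
    rw [om_union hd, pow_add (3 * a), pow_add (1 + 1 / a), mul_pow 3 a (2 * m + 1)]
    refine (mul_le_mul_of_nonneg_right h3 (by positivity)).trans (le_of_eq (by ring))
  have hb : ∀ (g : ℕ → ℝ) (n : ℕ) (y c : ℝ), |g n| ≤ (3 * a) ^ D * (1 + 1 / a) ^ om P 0 n →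
      0 ≤ y → y ≤ c * (a ^ (2 * m + 1) * (1 + 1 / a) ^ om Q 0 n) →
      |g n * y| ≤ c * ((3 * a) ^ D * (1 + 1 / a) ^ om P 0 n *
        (a ^ (2 * m + 1) * (1 + 1 / a) ^ om Q 0 n)) := by
    intro g n y c h1 h2 h3
    rw [abs_mul, abs_of_nonneg h2]
    exact (mul_le_mul h1 h3 h2 (by positivity)).trans (le_of_eq (by ring))
  refine ⟨fun n => ?_, fun n => ?_, fun x y hxy => ?_, per_union hd h.per_up _,
    ((mlo.mul mB).sub (mup.mul mR)).mono ?_, (mup.mul mB).mono ?_, fun n => ?_, fun n => ?_, ?_⟩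
  · rw [om_union hd, pt_add]
    have h1 := mul_le_mul_of_nonneg_right (h.lo_le n) (BB_nonneg m (om Q 0 n))
    have h2 := mul_le_mul_of_nonneg_right (h.le_up n) (RR_nonneg m (om Q 0 n))
    have h3 := mul_le_mul_of_nonneg_left (BB_sub m (om Q 0 n)) (pt_nonneg (om P 0 n))
    linarith
  · rw [om_union hd, pt_add]
    exact mul_le_mul (h.le_up n) (pt_le_BB m _) (pt_nonneg _) ((pt_nonneg _).trans (h.le_up n))
  · have h1 := per_union hd h.per_lo (BB m) x y hxy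
    have h2 := per_union hd h.per_up (RR m) x y hxy
    simp only at h1 h2 ⊢
    rw [h1, h2]
  · rw [pow_succ Y (2 * m + 1), pow_succ Y (2 * m), ← mul_assoc, ← mul_assoc, ← mul_assoc]
    nlinarith [mul_nonneg hY0 (show 0 ≤ Y * Y - Y - 1 by nlinarith)]
  · rw [pow_succ Y (2 * m + 1), pow_succ Y (2 * m), ← mul_assoc, ← mul_assoc]
    nlinarith [mul_nonneg hY0 (show 0 ≤ Y * Y - 1 by nlinarith)]
  · have h1 := hb lo n _ 2 (h.abs_lo n) (BB_nonneg m _) (BB_le ha m _)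
    have h2 := hb up n _ 1 (h.abs_up n) (RR_nonneg m _) (by simpa using RR_le ha m _)
    linarith [hab n, abs_sub (lo n * BB m (om Q 0 n)) (up n * RR m (om Q 0 n))]
  · have h1 := hb up n _ 2 (h.abs_up n) (BB_nonneg m _) (BB_le ha m _)
    have h2 := hab n
    have h3 : 0 ≤ (3 * a) ^ D * (1 + 1 / a) ^ om P 0 n *
        (a ^ (2 * m + 1) * (1 + 1 / a) ^ om Q 0 n) := by positivity
    linarith
  · rw [av_sub, av_union hP hQ hd h.per_lo, av_union hP hQ hd h.per_up, av_union hP hQ hd h.per_up]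
    have h1 := mul_le_mul_of_nonneg_right h.mean (E1_nonneg Q (BB_nonneg m))
    have h2 := mul_le_mul_of_nonneg_left (E1_RR (fun p hp => (hQ p hp).two_le) hK m hε)
      h.av_nonneg
    linarith

theorem PP_prime {u z p : ℕ} (h : p ∈ PP u z) : p.Prime := ((mem_PP _ _ _).1 h).2

theorem PP_disj (u v z : ℕ) : Disjoint (PP u v) (PP v z) := by
  refine disjoint_left.2 fun p h1 h2 => ?_
  have := (mem_PP _ _ _).1 h1
  have := (mem_PP _ _ _).1 h2
  omega

theorem PP_union {v z : ℕ} (h : v ≤ z) : PP 0 v ∪ PP v z = PP 0 z := by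
  ext p
  simp only [mem_union, mem_PP]
  by_cases hp : p.Prime
  · simp only [hp, and_true]
    omega
  · simp [hp]

theorem PP_card {u z : ℕ} (hu : 1 ≤ u) (hz : 1 ≤ z) : ((PP u z).card : ℝ) + 1 ≤ z := by
  have : (PP u z).card ≤ z - u := by simpa [PP] using card_filter_le (Ioc u z) Nat.Prime
  exact_mod_cast (by omega : (PP u z).card + 1 ≤ z)

theorem mu_sqrt (z : ℕ) : ∑ p ∈ PP (Nat.sqrt z) z, 1 / (p : ℝ) ≤ 4 := by
  by_cases hz : 2 ≤ z
  · simp only [one_div]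
    exact MP_c7a479_co.PolySieve.sum_inv_le z hz
  · rw [show PP (Nat.sqrt z) z = ∅ from eq_empty_of_forall_notMem fun p hp => by
      have := (mem_PP _ _ _).1 hp
      have := this.2.two_le
      omega]
    simp

theorem sqrt_lt_pow {z y r : ℕ} (h : z < y ^ 2 ^ (r + 1)) : Nat.sqrt z < y ^ 2 ^ r := by
  rw [Nat.sqrt_lt', ← pow_mul, ← pow_succ]
  exact h

theorem mu_le (u r : ℕ) : ∀ z, z < (u + 1) ^ 2 ^ r → ∑ p ∈ PP u z, 1 / (p : ℝ) ≤ 4 * r := by
  induction r with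
  | zero =>
    intro z hz
    rw [show PP u z = ∅ from eq_empty_of_forall_notMem fun p hp => by
      have := (mem_PP _ _ _).1 hp
      simp at hz
      omega]
    simp
  | succ r ih =>
    intro z hz
    have h1 := ih _ (sqrt_lt_pow hz)
    have h2 := mu_sqrt z
    have h3 : ∑ p ∈ PP u z, 1 / (p : ℝ) ≤
        ∑ p ∈ PP u (Nat.sqrt z) ∪ PP (Nat.sqrt z) z, 1 / (p : ℝ) := by
      refine sum_le_sum_of_subset_of_nonneg (fun p hp => ?_) fun p _ _ => by positivity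
      simp only [mem_union, mem_PP] at hp ⊢
      simp only [hp.2, and_true]
      omega
    rw [sum_union (PP_disj _ _ _)] at h3
    push_cast
    linarith

theorem exp_le (k : ℕ) : Real.exp (8 * k) ≤ 2 ^ (12 * k) := by
  rw [mul_comm, Real.exp_nat_mul, pow_mul]
  exact pow_le_pow_left₀ (Real.exp_pos _).le
    (MP_c7a479_co.PolySieve.exp_eight.trans (by norm_num)) _

theorem small (ha : 1 ≤ a) (h : ℕ) : ∀ u i : ℕ, 1 ≤ u → u < 2 ^ 2 ^ h → ∃ lo up,
    SP a (PP 0 u) lo up ((u : ℝ) ^ (4 * i + 8)) (h * (2 * (i + h) + 1)) (2 ^ 24 / 4 ^ i) := by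
  have h0 : ∀ h i : ℕ, ∃ lo up, SP a (PP 0 1) lo up (((1 : ℕ) : ℝ) ^ (4 * i + 8))
      (h * (2 * (i + h) + 1)) (2 ^ 24 / 4 ^ i) := fun h i => by
    rw [show PP 0 1 = ∅ by decide]
    exact ⟨_, _, (sp_empty a).mono ha (by simp) (Nat.zero_le _) (by positivity)⟩
  induction h with
  | zero =>
    intro u i h1 h2
    obtain rfl : u = 1 := by simp at h2; omega
    exact h0 0 i
  | succ h ih =>
    intro u i h1 h2
    rcases h1.eq_or_lt with rfl | h1
    · exact h0 _ i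
    have h3 : 1 ≤ Nat.sqrt u := by rw [Nat.le_sqrt]; omega
    obtain ⟨lo, up, h4⟩ := ih _ (i + 1) h3 (sqrt_lt_pow h2)
    have h5 := h4.step ha (fun p => PP_prime) (fun p => PP_prime) (PP_disj 0 _ u) (mu_sqrt u) i
      (ε := 2 ^ 23 / 4 ^ i) (Y := u) (by
        have := exp_le 2
        rw [pow_succ (2 : ℝ) (2 * i), pow_mul, show (2 : ℝ) ^ 2 = 4 by norm_num, ← mul_assoc,
          div_mul_cancel₀ _ (by positivity)]
        norm_num at this ⊢
        exact this) (PP_card h3 h1.le) (by exact_mod_cast h1)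
    rw [PP_union (Nat.sqrt_le_self u)] at h5
    refine ⟨_, _, h5.mono ha ?_ (by nlinarith) ?_⟩
    · have h6 : ((Nat.sqrt u : ℕ) : ℝ) ^ 2 ≤ u := by exact_mod_cast Nat.sqrt_le' u
      rw [show 4 * (i + 1) + 8 = 2 * (2 * i + 6) by ring, pow_mul,
        show 4 * i + 8 = 2 * i + 6 + (2 * i + 2) by ring, pow_add (u : ℝ) (2 * i + 6)]
      exact mul_le_mul_of_nonneg_right (pow_le_pow_left₀ (by positivity) h6 _) (by positivity)
    · rw [pow_succ (4 : ℝ) i, ← div_div, div_right_comm, ← add_div]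
      exact div_le_div_of_nonneg_right (by norm_num) (by positivity)

theorem one_sub_sum_le_prod' (S : Finset ℕ) (x : ℕ → ℝ) (h : ∀ p ∈ S, 0 ≤ x p ∧ x p ≤ 1) :
    1 - ∑ p ∈ S, x p ≤ ∏ p ∈ S, (1 - x p) := by
  induction S using Finset.induction_on with
  | empty => simp
  | insert p S hp ih =>
    rw [sum_insert hp, prod_insert hp]
    have h1 := ih fun q hq => h q (mem_insert_of_mem hq)
    have h2 := h p (mem_insert_self _ _)
    have h3 : 0 ≤ ∑ q ∈ S, x q := sum_nonneg fun q hq => (h q (mem_insert_of_mem hq)).1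
    nlinarith [mul_le_mul_of_nonneg_left h1 (sub_nonneg.2 h2.2), mul_nonneg h2.1 h3]

theorem V_ge (z : ℕ) (hz : 2 ≤ z) : 1 / (60 * Real.log z) ≤ ∏ p ∈ PP 0 z, bb p := by
  have h1 : ∏ p ∈ PP 0 z, (1 + 1 / (p : ℝ)) ≤ 15 * Real.log z := by
    refine le_trans (le_of_eq ?_) (mertens_b z hz)
    rw [prod_one_add]
    exact sum_congr rfl fun s _ => by simp [nn]
  have h2 : 1 - ∑ p ∈ PP 0 z, (1 / (p : ℝ)) ^ 2 ≤ ∏ p ∈ PP 0 z, (1 - (1 / (p : ℝ)) ^ 2) := by
    refine one_sub_sum_le_prod' _ _ fun p hp => ⟨by positivity, pow_le_one₀ (by positivity) ?_⟩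
    exact div_le_one_of_le₀ (by exact_mod_cast (PP_prime hp).one_le) (by positivity)
  have h3 : ∑ p ∈ PP 0 z, (1 / (p : ℝ)) ^ 2 ≤ 3 / 4 := by
    have h4 : ∑ p ∈ PP 0 z, (1 / (p : ℝ)) ^ 2 ≤ ∑ p ∈ insert 2 (Ioc 2 z), (1 / (p : ℝ)) ^ 2 := by
      refine sum_le_sum_of_subset_of_nonneg (fun p hp => ?_) fun p _ _ => by positivity
      have := (mem_PP _ _ _).1 hp
      have := this.2.two_le
      simp only [mem_insert, mem_Ioc]
      omega
    rw [sum_insert (by simp)] at h4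
    have := inv_sq_tail 2 z two_pos
    norm_num at h4 this ⊢
    linarith
  have h4 : ∏ p ∈ PP 0 z, (1 - (1 / (p : ℝ)) ^ 2) =
      (∏ p ∈ PP 0 z, bb p) * ∏ p ∈ PP 0 z, (1 + 1 / (p : ℝ)) := by
    rw [← prod_mul_distrib]
    exact prod_congr rfl fun p _ => by unfold bb; ring
  have h5 := mul_le_mul_of_nonneg_left h1 (prod_nonneg fun p (_ : p ∈ PP 0 z) => bb_nonneg p)
  have h6 : 0 < Real.log z := Real.log_pos (by exact_mod_cast hz)
  rw [div_le_iff₀ (by positivity)]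
  linarith

end Pool.Agent.MP_d228e7_nt

end
end

section

/-!
Moments of window sums, revealing one prime at a time.
-/

set_option autoImplicit false

open Finset

noncomputable section

namespace Pool.Agent.MP_d228e7_nt

open Pool.Agent.MP_cebb75_nt

theorem mix_le {u v : ℝ} (hu : 0 ≤ u) (hv : 0 ≤ v) {k q : ℕ} (h : k ≤ q) :
    u ^ k * v ^ (q - k) ≤ u ^ q + v ^ q := by
  rcases le_total u v with h1 | h1
  · calc u ^ k * v ^ (q - k) ≤ v ^ k * v ^ (q - k) := by gcongr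
      _ = v ^ q := by rw [← pow_add, Nat.add_sub_cancel' h]
      _ ≤ _ := le_add_of_nonneg_left (by positivity)
  · calc u ^ k * v ^ (q - k) ≤ u ^ k * u ^ (q - k) := by gcongr
      _ = u ^ q := by rw [← pow_add, Nat.add_sub_cancel' h]
      _ ≤ _ := le_add_of_nonneg_right (by positivity)

theorem pow_step {r : ℕ} (hq : Even (r + 2)) (X Y : ℝ) {ρ : ℝ} (h0 : 0 < ρ) (h1 : ρ ≤ 1) :
    (X + Y) ^ (r + 2) ≤ X ^ (r + 2) + (r + 2) * X ^ (r + 1) * Y +
      2 ^ (r + 2) * ρ ^ 2 * (X ^ (r + 2) + (Y / ρ) ^ (r + 2)) := by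
  have hA : 0 ≤ ρ ^ 2 * (X ^ (r + 2) + (Y / ρ) ^ (r + 2)) :=
    mul_nonneg (by positivity) (add_nonneg (hq.pow_nonneg _) (hq.pow_nonneg _))
  have h2 : ∑ i ∈ range (r + 1), Y ^ (i + 1 + 1) * X ^ (r + 2 - (i + 1 + 1)) *
      ((r + 2).choose (i + 1 + 1) : ℝ) ≤ ∑ i ∈ range (r + 1),
      ρ ^ 2 * (X ^ (r + 2) + (Y / ρ) ^ (r + 2)) * ((r + 2).choose (i + 1 + 1) : ℝ) := by
    refine sum_le_sum fun i hi => mul_le_mul_of_nonneg_right ?_ (by positivity)
    have h3 := mix_le (abs_nonneg (Y / ρ)) (abs_nonneg X)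
      (show i + 1 + 1 ≤ r + 2 by have := mem_range.1 hi; omega)
    rw [hq.pow_abs, hq.pow_abs] at h3
    have h4 : |Y| = ρ * |Y / ρ| := by
      rw [abs_div, abs_of_pos h0]
      field_simp
    have h5 : ρ ^ (i + 1 + 1) ≤ ρ ^ 2 := pow_le_pow_of_le_one h0.le h1 (by omega)
    refine (le_abs_self _).trans ?_
    rw [abs_mul, abs_pow, abs_pow, h4, mul_pow, mul_assoc, add_comm (X ^ (r + 2))]
    exact mul_le_mul h5 h3 (by positivity) (by positivity)
  have h3 : ∑ i ∈ range (r + 1), ((r + 2).choose (i + 1 + 1) : ℝ) ≤ 2 ^ (r + 2) := by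
    have h4 := Nat.sum_range_choose (r + 2)
    rw [sum_range_succ', sum_range_succ'] at h4
    exact_mod_cast (by omega : ∑ i ∈ range (r + 1), (r + 2).choose (i + 1 + 1) ≤ 2 ^ (r + 2))
  rw [← mul_sum] at h2
  have h4 := mul_le_mul_of_nonneg_left h3 hA
  rw [add_comm X Y, add_pow, sum_range_succ', sum_range_succ']
  simp only [zero_add, pow_one, pow_zero, Nat.choose_one_right, Nat.choose_zero_right,
    Nat.cast_one, one_mul, mul_one, Nat.sub_zero, show r + 2 - 1 = r + 1 from rfl]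
  push_cast at h2 ⊢
  linarith

theorem hold {ι : Type} (s : Finset ι) (w z : ι → ℝ) (hw : ∀ i ∈ s, 0 ≤ w i)
    (hz : ∀ i ∈ s, 0 ≤ z i) {B : ℝ} (hB : ∑ i ∈ s, w i ≤ B) (r : ℕ) :
    (∑ i ∈ s, w i * z i) ^ (r + 1) ≤ B ^ r * ∑ i ∈ s, w i * z i ^ (r + 1) := by
  have hW := sum_nonneg hw
  have hS : 0 ≤ ∑ i ∈ s, w i * z i ^ (r + 1) :=
    sum_nonneg fun i hi => mul_nonneg (hw i hi) (pow_nonneg (hz i hi) _)
  rcases hW.eq_or_lt with h0 | h0
  · have h1 := (sum_eq_zero_iff_of_nonneg hw).1 h0.symm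
    rw [sum_eq_zero fun i hi => by rw [h1 i hi, zero_mul], zero_pow (by omega)]
    exact mul_nonneg (pow_nonneg (hW.trans hB) _) hS
  · set W := ∑ i ∈ s, w i with hWd
    have h1 := Real.pow_arith_mean_le_arith_mean_pow s (fun i => w i / W) z
      (fun i hi => div_nonneg (hw i hi) hW) (by rw [← sum_div, div_self h0.ne']) hz (r + 1)
    simp only [div_mul_eq_mul_div, ← sum_div] at h1
    rw [div_pow, div_le_div_iff₀ (by positivity) h0, pow_succ W, ← mul_assoc] at h1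
    refine (le_of_mul_le_mul_right h1 h0).trans ?_
    rw [mul_comm]
    exact mul_le_mul_of_nonneg_right (pow_le_pow_left₀ hW hB _) hS

/-- the centred indicator of divisibility -/
def chi (p n : ℕ) : ℝ := (if n % p = 0 then 1 else 0) - 1 / p

theorem chi_per (p : ℕ) : Per p (chi p) := fun m n h => by
  simp only [chi, show m % p = n % p from h]

theorem chi_sum {p : ℕ} (hp : 0 < p) (b : ℕ) : ∑ c ∈ range p, chi p (c + b) = 0 := by
  have h := av_shift (chi_per p) b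
  have hp' : (p : ℝ) ≠ 0 := by exact_mod_cast hp.ne'
  rw [av, av, div_left_inj' hp'] at h
  rw [h]
  obtain ⟨k, rfl⟩ : ∃ k, p = k + 1 := ⟨p - 1, by omega⟩
  simp only [chi, sum_sub_distrib, sum_const, card_range, nsmul_eq_mul]
  rw [sum_range_succ', sum_eq_zero fun i hi => if_neg (by
    rw [Nat.mod_eq_of_lt (by have := mem_range.1 hi; omega)]; omega)]
  rw [mul_one_div_cancel hp']
  simp

theorem chi_abs {p t : ℕ} (hp : 0 < p) (ht : p ≤ 2 * t) (c : ℕ) :
    ∑ b ∈ range t, |chi p (c + b)| ≤ 4 * t / p := by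
  have hp' : (0 : ℝ) < p := by exact_mod_cast hp
  have h1 : ∀ b ∈ range t, |chi p (c + b)| ≤ ind p ((p - 1) * c) b + 1 / p := by
    intro b _
    refine (abs_sub _ _).trans (add_le_add ?_ (le_of_eq (abs_of_nonneg (by positivity))))
    unfold ind
    by_cases h : (c + b) % p = 0
    · obtain ⟨k, rfl⟩ : ∃ k, p = k + 1 := ⟨p - 1, by omega⟩
      have h3 : c + (k + 1 - 1) * c ≡ 0 [MOD k + 1] := by
        rw [Nat.add_sub_cancel, add_comm c, ← Nat.succ_mul]
        exact (Nat.modEq_zero_iff_dvd).2 (dvd_mul_right _ _)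
      have h4 : c + b ≡ 0 [MOD k + 1] := h
      rw [if_pos h, if_pos (Nat.ModEq.add_left_cancel' c (h4.trans h3.symm)), abs_one]
    · rw [if_neg h, abs_zero]
      split_ifs <;> norm_num
  refine (sum_le_sum h1).trans ?_
  rw [sum_add_distrib, sum_ind _ _ _ hp, sum_const, card_range, nsmul_eq_mul]
  have h2 : ((t / p : ℕ) : ℝ) ≤ t / p := Nat.cast_div_le
  have h3 : (1 : ℝ) ≤ 2 * (t / p) := by
    rw [← mul_div_assoc, one_le_div hp']
    exact_mod_cast ht
  rw [mul_one_div, mul_div_assoc]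
  split_ifs <;> linarith

theorem av_sum {ι : Type} (N : ℕ) (s : Finset ι) (f : ι → ℕ → ℝ) :
    av N (fun n => ∑ i ∈ s, f i n) = ∑ i ∈ s, av N (f i) := by
  simp only [av, ← sum_div]
  rw [sum_comm]

theorem inc_le {N p t r : ℕ} (hq : Even (r + 2)) (hp : 0 < p) (ht : p ≤ 2 * t) {D : ℕ → ℝ}
    (hD : Per N D) {Λ : ℝ} (hΛ : av N (fun n => D n ^ (r + 2)) ≤ Λ ^ (r + 2)) (c : ℕ) :
    av N (fun m => (∑ b ∈ range t, D (m + b) * chi p (c + b)) ^ (r + 2)) ≤
      (4 * t / p * Λ) ^ (r + 2) := by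
  have h1 : ∀ m, (∑ b ∈ range t, D (m + b) * chi p (c + b)) ^ (r + 2) ≤
      (4 * t / p) ^ (r + 1) * ∑ b ∈ range t, |chi p (c + b)| * D (m + b) ^ (r + 2) := by
    intro m
    have h2 := hold (range t) (fun b => |chi p (c + b)|) (fun b => |D (m + b)|)
      (fun _ _ => abs_nonneg _) (fun _ _ => abs_nonneg _) (chi_abs hp ht c) (r + 1)
    simp only [hq.pow_abs] at h2
    refine le_trans ?_ h2
    rw [← hq.pow_abs]
    refine pow_le_pow_left₀ (abs_nonneg _) ((abs_sum_le_sum_abs _ _).trans (le_of_eq ?_)) _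
    exact sum_congr rfl fun b _ => by rw [abs_mul, mul_comm]
  refine (av_mono h1).trans ?_
  rw [av_const_mul, av_sum, mul_pow, pow_succ (4 * t / p : ℝ) (r + 1), mul_assoc]
  refine mul_le_mul_of_nonneg_left ?_ (by positivity)
  have h3 : Per N fun n => D n ^ (r + 2) := fun x y h => by simp only [hD x y h]
  calc _ ≤ ∑ b ∈ range t, |chi p (c + b)| * Λ ^ (r + 2) := sum_le_sum fun b _ => by
        rw [av_const_mul, av_shift h3]
        exact mul_le_mul_of_nonneg_left hΛ (abs_nonneg _)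
    _ ≤ _ := by
        rw [← sum_mul]
        exact mul_le_mul_of_nonneg_right (chi_abs hp ht c) (hq.pow_nonneg _)

theorem mart_step {N p t r : ℕ} (hq : Even (r + 2)) (co : p.Coprime N) (hN : 0 < N) (hp : 0 < p)
    (ht : p ≤ 2 * t) {G D : ℕ → ℝ} (hG : Per N G) (hD : Per N D) {Λ ρ R : ℝ}
    (hΛ : av N (fun n => D n ^ (r + 2)) ≤ Λ ^ (r + 2)) (h0 : 0 < ρ) (h1 : ρ ≤ 1)
    (hR : 4 * t / p * Λ = ρ * R) :
    av (p * N) (fun n => (∑ b ∈ range t, (G (n + b) + D (n + b) * chi p (n + b))) ^ (r + 2)) +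
      R ^ (r + 2) ≤ (1 + 2 ^ (r + 2) * ρ ^ 2) *
        (av N (fun n => (∑ b ∈ range t, G (n + b)) ^ (r + 2)) + R ^ (r + 2)) := by
  set X : ℕ → ℝ := fun m => ∑ b ∈ range t, G (m + b) with hX
  set Y : ℕ → ℕ → ℝ := fun c m => ∑ b ∈ range t, D (m + b) * chi p (c + b) with hY
  have hp' : (0 : ℝ) < p := by exact_mod_cast hp
  have e1 : av (p * N) (fun n => (∑ b ∈ range t, (G (n + b) + D (n + b) * chi p (n + b))) ^ (r + 2))
      = (∑ c ∈ range p, av N fun m => (X m + Y c m) ^ (r + 2)) / p := by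
    simp only [av, ← sum_div]
    rw [← sum_crt co hp hN fun c m => (X m + Y c m) ^ (r + 2), div_div, Nat.cast_mul, mul_comm (p : ℝ)]
    congr 1
    refine sum_congr rfl fun n _ => ?_
    simp only [hX, hY, sum_add_distrib, (hG.shift _).mod n, (hD.shift _).mod n,
      ((chi_per p).shift _).mod n]
  have e2 : ∑ c ∈ range p, av N (fun m => (r + 2) * X m ^ (r + 1) * Y c m) = 0 := by
    rw [← av_sum]
    simp only [← mul_sum, hY]
    have : ∀ m, ∑ c ∈ range p, ∑ b ∈ range t, D (m + b) * chi p (c + b) = 0 := fun m => by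
      rw [sum_comm]
      exact sum_eq_zero fun b _ => by rw [← mul_sum, chi_sum hp, mul_zero]
    simp [this, av]
  have e3 : ∀ c, av N (fun m => (Y c m / ρ) ^ (r + 2)) ≤ R ^ (r + 2) := by
    intro c
    have h2 := inc_le hq hp ht hD hΛ c
    simp only [div_pow, div_eq_inv_mul _ (ρ ^ (r + 2))]
    rw [av_const_mul, inv_mul_le_iff₀ (by positivity), ← mul_pow, ← hR]
    exact h2
  have e4 : ∀ c ∈ range p, av N (fun m => (X m + Y c m) ^ (r + 2)) ≤
      av N (fun m => (r + 2) * X m ^ (r + 1) * Y c m) + (av N (fun m => X m ^ (r + 2)) +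
        2 ^ (r + 2) * ρ ^ 2 * (av N (fun m => X m ^ (r + 2)) + R ^ (r + 2))) := by
    intro c _
    refine (av_mono fun m => pow_step hq (X m) (Y c m) h0 h1).trans ?_
    have h2 := mul_le_mul_of_nonneg_left (e3 c) (show 0 ≤ 2 ^ (r + 2) * ρ ^ 2 by positivity)
    simp only [av, sum_add_distrib, ← mul_sum, add_div, mul_div_assoc, mul_add] at h2 ⊢
    linarith
  have e5 := sum_le_sum e4
  rw [sum_add_distrib, e2, zero_add, sum_const, card_range, nsmul_eq_mul, ← div_le_iff₀' hp'] at e5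
  rw [e1]
  linarith

theorem mart {P P' : Finset ℕ} (hP : ∀ p ∈ P, p.Prime) (hP' : ∀ p ∈ P', p.Prime)
    (hd : Disjoint P P') {t r : ℕ} (hq : Even (r + 2)) (ht : ∀ p ∈ P', p ≤ 2 * t)
    (G : Finset ℕ → ℕ → ℝ) (D : Finset ℕ → ℕ → ℕ → ℝ) {Λ R : ℝ} (ρ : ℕ → ℝ)
    (hρ : ∀ p ∈ P', 0 < ρ p ∧ ρ p ≤ 1 ∧ 4 * t / p * Λ = ρ p * R) (hG0 : ∀ n, G ∅ n = 0)
    (hG : ∀ Q ⊆ P', Per (∏ p ∈ P ∪ Q, p) (G Q))
    (hD : ∀ Q ⊆ P', ∀ p ∈ P', p ∉ Q → Per (∏ p ∈ P ∪ Q, p) (D Q p) ∧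
      av (∏ p ∈ P ∪ Q, p) (fun n => D Q p n ^ (r + 2)) ≤ Λ ^ (r + 2) ∧
      ∀ n, G (insert p Q) n = G Q n + D Q p n * chi p n) :
    ∀ Q ⊆ P', av (∏ p ∈ P ∪ Q, p) (fun n => (∑ b ∈ range t, G Q (n + b)) ^ (r + 2)) +
      R ^ (r + 2) ≤ (∏ p ∈ Q, (1 + 2 ^ (r + 2) * ρ p ^ 2)) * R ^ (r + 2) := by
  intro Q
  induction Q using Finset.induction_on with
  | empty => simp [hG0, av]
  | insert p Q hp ih =>
    intro hQ
    have hp' := hQ (mem_insert_self _ _)
    have hQ' := (subset_insert _ _).trans hQ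
    obtain ⟨h1, h2, h3⟩ := hD Q hQ' p hp' hp
    obtain ⟨h4, h5, h6⟩ := hρ p hp'
    have hS : ∀ q ∈ P ∪ Q, q.Prime := fun q hq =>
      (mem_union.1 hq).elim (hP q) fun h => hP' q (hQ' h)
    have hpS : p ∉ P ∪ Q := fun h =>
      (mem_union.1 h).elim (fun h => disjoint_left.1 hd h hp') hp
    have co : p.Coprime (∏ q ∈ P ∪ Q, q) := Nat.Coprime.prod_right fun q hq =>
      (Nat.coprime_primes (hP' p hp') (hS q hq)).2 fun h => hpS (h ▸ hq)
    rw [union_insert, prod_insert hpS, prod_insert hp, mul_assoc]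
    simp only [h3]
    exact (mart_step hq co (prod_pos fun q hq => (hS q hq).pos) (hP' p hp').pos (ht p hp')
      (hG Q hQ') h1 h2 h4 h5 h6).trans (mul_le_mul_of_nonneg_left (ih hQ') (by positivity))

end Pool.Agent.MP_d228e7_nt

end
end

section

/-!
Counting the windows with few survivors.
-/

set_option autoImplicit false

open Finset

noncomputable section

namespace Pool.Agent.MP_d228e7_nt

open Pool.Agent.MP_cebb75_nt Pool.Agent.MP_fdd1d3_nt

/-- conditional expectation when the primes in `Q` are revealed -/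
def cond (P : Finset ℕ) (f : ℕ → ℝ) (Q : Finset ℕ) (w : ℕ) : ℝ := E1 (P \ Q) fun v => f (w + v)

theorem cond_empty (P : Finset ℕ) (f : ℕ → ℝ) (n : ℕ) : cond P f ∅ (om ∅ 0 n) = E1 P f := by
  simp [cond, om]

theorem cond_self (P : Finset ℕ) (f : ℕ → ℝ) (w : ℕ) : cond P f P w = f w := by
  simp [cond, E1, EE]

theorem cond_insert {P Q : Finset ℕ} {p : ℕ} (hp : p ∈ P) (hQ : p ∉ Q) (f : ℕ → ℝ) (n : ℕ) :
    cond P f (insert p Q) (om (insert p Q) 0 n) = cond P f Q (om Q 0 n) +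
      (cond P f (insert p Q) (om Q 0 n + 1) - cond P f (insert p Q) (om Q 0 n)) * chi p n := by
  have h1 : P \ Q = insert p (P \ insert p Q) := by
    ext x
    simp only [mem_sdiff, mem_insert]
    by_cases h : x = p
    · simp [h, hp, hQ]
    · simp [h]
  have h2 : ∀ w, cond P f Q w =
      1 / (p : ℝ) * cond P f (insert p Q) (w + 1) + bb p * cond P f (insert p Q) w := fun w => by
    rw [cond, h1, E1_insert (by simp)]
    simp only [cond, add_assoc, add_comm 1]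
  rw [om_insert hQ, h2, chi, bb]
  split_ifs
  · ring
  · rw [add_zero]
    ring

theorem cond_diff {P : Finset ℕ} {f : ℕ → ℝ} {a A K : ℝ} (ha : 1 ≤ a) (hA : 0 ≤ A)
    (hf : ∀ w, 0 ≤ f w ∧ f w ≤ A * (1 + 1 / a) ^ w) (hK : ∑ p ∈ P, 1 / (p : ℝ) ≤ K)
    (Q : Finset ℕ) (w : ℕ) :
    |cond P f Q (w + 1) - cond P f Q w| ≤ A * (2 * Real.exp K * (1 + 1 / a) ^ w) := by
  have h0 : 1 / a ≤ 1 := div_le_one_of_le₀ ha (by linarith)
  have h0' : 0 ≤ 1 / a := by positivity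
  have h1 : ∀ w, 0 ≤ cond P f Q w ∧ cond P f Q w ≤ A * (1 + 1 / a) ^ w * Real.exp K := fun w => by
    refine ⟨E1_nonneg _ fun v => (hf _).1, ?_⟩
    refine (E1_mono _ (g := fun v => A * (1 + 1 / a) ^ w * (1 + 1 / a) ^ v) fun v => by
      rw [mul_assoc, ← pow_add]; exact (hf _).2).trans ?_
    rw [E1_mul]
    refine mul_le_mul_of_nonneg_left ((E1_pow_le _ _ (by linarith)).trans
      (Real.exp_le_exp.2 ?_)) (by positivity)
    have h2 : ∑ p ∈ P \ Q, 1 / (p : ℝ) ≤ ∑ p ∈ P, 1 / (p : ℝ) :=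
      sum_le_sum_of_subset_of_nonneg sdiff_subset fun _ _ _ => by positivity
    have h3 : 0 ≤ ∑ p ∈ P \ Q, 1 / (p : ℝ) := sum_nonneg fun _ _ => by positivity
    nlinarith
  obtain ⟨h2, h3⟩ := h1 (w + 1)
  obtain ⟨h4, h5⟩ := h1 w
  have h6 : 0 ≤ A * (1 + 1 / a) ^ w * Real.exp K := by positivity
  rw [pow_succ] at h3
  rw [abs_le]
  constructor <;> nlinarith

theorem one_add_pow_le (q : ℕ) : (1 + 1 / (q : ℝ)) ^ q ≤ 3 := by
  rcases Nat.eq_zero_or_pos q with rfl | hq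
  · norm_num
  calc (1 + 1 / (q : ℝ)) ^ q ≤ Real.exp (1 / q) ^ q :=
        pow_le_pow_left₀ (by positivity) (by linarith [Real.add_one_le_exp (1 / q : ℝ)]) _
    _ = Real.exp 1 := by
        rw [← Real.exp_nat_mul]
        congr 1
        field_simp
    _ ≤ 3 := by linarith [Real.exp_one_lt_d9]

theorem av_pow_le {S : Finset ℕ} (hS : ∀ p ∈ S, p.Prime) {r : ℕ} (hq : Even (r + 2)) {A μ : ℝ}
    (hA : 0 ≤ A) (hμ : ∑ p ∈ S, 1 / (p : ℝ) ≤ μ) {g : ℕ → ℝ}
    (hg : ∀ n, |g n| ≤ A * (1 + 1 / ((r + 2 : ℕ) : ℝ)) ^ om S 0 n) :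
    av (∏ p ∈ S, p) (fun n => g n ^ (r + 2)) ≤ (A * Real.exp μ) ^ (r + 2) := by
  have h1 : ∀ n, g n ^ (r + 2) ≤ A ^ (r + 2) * 3 ^ om S 0 n := fun n => by
    rw [← hq.pow_abs]
    refine (pow_le_pow_left₀ (abs_nonneg _) (hg n) _).trans ?_
    rw [mul_pow, ← pow_mul, mul_comm (om S 0 n), pow_mul]
    exact mul_le_mul_of_nonneg_left (pow_le_pow_left₀ (by positivity) (one_add_pow_le _) _)
      (by positivity)
  refine (av_mono h1).trans ?_
  rw [av_const_mul, av_om S hS fun w => 3 ^ w, mul_pow, ← Real.exp_nat_mul]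
  refine mul_le_mul_of_nonneg_left ((E1_pow_le _ _ (by norm_num)).trans (Real.exp_le_exp.2 ?_))
    (by positivity)
  have h3 : 0 ≤ ∑ p ∈ S, 1 / (p : ℝ) := sum_nonneg fun _ _ => by positivity
  push_cast
  nlinarith [mul_nonneg (Nat.cast_nonneg (α := ℝ) r) (h3.trans hμ)]

variable {P : Finset ℕ} {lo up : ℕ → ℝ} {M s : ℝ} {D : ℕ}

theorem moment {r u t w m : ℕ} (hq : Even (r + 2)) (h : SP ((r + 2 : ℕ) : ℝ) P lo up M D s)
    (hP : ∀ p ∈ P, p.Prime) (hd : Disjoint P (PP u (2 * t))) (hw : 0 < w) (hu : w ^ 2 ≤ u)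
    {K μ : ℝ} (hK : ∑ p ∈ PP u (2 * t), 1 / (p : ℝ) ≤ K)
    (hμ : ∑ p ∈ P ∪ PP u (2 * t), 1 / (p : ℝ) ≤ μ) :
    av (∏ p ∈ P ∪ PP u (2 * t), p) (fun n => (∑ b ∈ range t,
      (lo (n + b) * (BB m (om (PP u (2 * t)) 0 (n + b)) - E1 (PP u (2 * t)) (BB m)) -
        up (n + b) * (RR m (om (PP u (2 * t)) 0 (n + b)) - E1 (PP u (2 * t)) (RR m)))) ^ (r + 2))
      ≤ (2 ^ (r + 2) * (4 * t * ((3 * ((r + 2 : ℕ) : ℝ)) ^ (D + (2 * m + 1)) * (2 * Real.exp K) *
        Real.exp μ)) / w) ^ (r + 2) := by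
  set P' := PP u (2 * t) with hP'
  set a : ℝ := ((r + 2 : ℕ) : ℝ) with ha'
  have ha : 1 ≤ a := by rw [ha']; exact_mod_cast (by omega : 1 ≤ r + 2)
  set Λ := (3 * a) ^ (D + (2 * m + 1)) * (2 * Real.exp K) * Real.exp μ with hΛ
  set R := 2 ^ (r + 2) * (4 * t * Λ) / w with hR
  have hw' : (0 : ℝ) < w := by exact_mod_cast hw
  have hwu : w ≤ u := (Nat.le_self_pow two_ne_zero w).trans hu
  have key := mart hP (P' := P') (fun p => PP_prime) hd (t := t) hq
    (fun p hp => ((mem_PP _ _ _).1 hp).1.2)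
    (fun Q n => lo n * (cond P' (BB m) Q (om Q 0 n) - E1 P' (BB m)) -
      up n * (cond P' (RR m) Q (om Q 0 n) - E1 P' (RR m)))
    (fun Q p n => lo n * (cond P' (BB m) (insert p Q) (om Q 0 n + 1) -
      cond P' (BB m) (insert p Q) (om Q 0 n)) - up n *
        (cond P' (RR m) (insert p Q) (om Q 0 n + 1) - cond P' (RR m) (insert p Q) (om Q 0 n)))
    (Λ := Λ) (R := R) (fun p => w / (2 ^ (r + 2) * p)) (fun p hp => ?_)
    (fun n => by simp only [cond_empty, sub_self, mul_zero]) (fun Q hQ x y hxy => ?_)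
    (fun Q hQ p hp hpQ => ⟨fun x y hxy => ?_, ?_, fun n => ?_⟩) P' Subset.rfl
  · simp only [cond_self] at key
    have h1 : ∏ p ∈ P', (1 + 2 ^ (r + 2) * ((w : ℝ) / (2 ^ (r + 2) * p)) ^ 2) ≤ 2 := by
      refine (Real.prod_one_add_le_exp_sum _ fun p => by positivity).trans ?_
      have h2 : ∑ p ∈ P', (2 : ℝ) ^ (r + 2) * ((w : ℝ) / (2 ^ (r + 2) * (p : ℝ))) ^ 2 =
          (w : ℝ) ^ 2 / 2 ^ (r + 2) * ∑ p ∈ P', (1 / (p : ℝ)) ^ 2 := by
        rw [mul_sum]
        refine sum_congr rfl fun p hp => ?_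
        have : (0 : ℝ) < p := by exact_mod_cast (PP_prime hp).pos
        field_simp
      have hu0 : (0 : ℝ) < u := by exact_mod_cast hw.trans_le hwu
      have h3 : ∑ p ∈ P', (1 / (p : ℝ)) ^ 2 ≤ 1 / (u : ℝ) :=
        (sum_le_sum_of_subset_of_nonneg (filter_subset _ _) fun _ _ _ => by positivity).trans
          (inv_sq_tail u _ (hw.trans_le hwu))
      have h4 : (w : ℝ) ^ 2 / 2 ^ (r + 2) ≤ u / 2 :=
        div_le_div₀ hu0.le (by exact_mod_cast hu) two_pos (le_self_pow₀ one_le_two (by omega))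
      have h5 := mul_le_mul h4 h3 (sum_nonneg fun _ _ => by positivity) (by positivity)
      rw [h2, ← Real.le_log_iff_exp_le two_pos]
      refine h5.trans ?_
      rw [div_mul_div_comm, mul_one, mul_comm, ← div_div, div_self hu0.ne']
      linarith [Real.log_two_gt_d9]
    have h2 := mul_le_mul_of_nonneg_right h1 (hq.pow_nonneg R)
    linarith
  · have h1 : (0 : ℝ) < p := by exact_mod_cast (PP_prime hp).pos
    have h2 : (w : ℝ) ≤ p := by exact_mod_cast hwu.trans ((mem_PP _ _ _).1 hp).1.1.le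
    refine ⟨by positivity, div_le_one_of_le₀ (h2.trans (le_mul_of_one_le_left h1.le
      (one_le_pow₀ one_le_two))) (by positivity), ?_⟩
    rw [hR]
    field_simp
  · have h1 := per_union (hd.mono_right hQ) h.per_lo
      (fun v => cond P' (BB m) Q v - E1 P' (BB m)) x y hxy
    have h2 := per_union (hd.mono_right hQ) h.per_up
      (fun v => cond P' (RR m) Q v - E1 P' (RR m)) x y hxy
    simp only at h1 h2 ⊢
    rw [h1, h2]
  · have h1 := per_union (hd.mono_right hQ) h.per_lo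
      (fun v => cond P' (BB m) (insert p Q) (v + 1) - cond P' (BB m) (insert p Q) v) x y hxy
    have h2 := per_union (hd.mono_right hQ) h.per_up
      (fun v => cond P' (RR m) (insert p Q) (v + 1) - cond P' (RR m) (insert p Q) v) x y hxy
    simp only at h1 h2 ⊢
    rw [h1, h2]
  · refine av_pow_le (fun q hq => (mem_union.1 hq).elim (hP q) fun h => PP_prime (hQ h)) hq
      (by positivity) ((sum_le_sum_of_subset_of_nonneg (union_subset_union_right hQ)
        fun _ _ _ => by positivity).trans hμ) fun n => ?_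
    have h1 := cond_diff ha (A := 2 * a ^ (2 * m + 1)) (by positivity)
      (fun v => ⟨BB_nonneg m v, by rw [mul_assoc]; exact BB_le ha m v⟩) hK (insert p Q) (om Q 0 n)
    have h2 := cond_diff ha (by positivity)
      (fun v => ⟨RR_nonneg m v, RR_le ha m v⟩) hK (insert p Q) (om Q 0 n)
    have h3 := mul_le_mul (h.abs_lo n) h1 (abs_nonneg _) (by positivity)
    have h4 := mul_le_mul (h.abs_up n) h2 (abs_nonneg _) (by positivity)
    have h5 : (3 : ℝ) ≤ 3 ^ (2 * m + 1) := le_self_pow₀ (by norm_num) (by omega)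
    have h6 := mul_le_mul_of_nonneg_right h5 (show 0 ≤ (3 * a) ^ D * (1 + 1 / a) ^ om P 0 n *
      (a ^ (2 * m + 1) * (2 * Real.exp K * (1 + 1 / a) ^ om Q 0 n)) by positivity)
    refine (abs_sub _ _).trans ?_
    rw [abs_mul, abs_mul, om_union (hd.mono_right hQ), pow_add (3 * a), pow_add (1 + 1 / a),
      mul_pow 3 a (2 * m + 1)]
    linarith
  · simp only [cond_insert hp hpQ]
    ring

theorem MS.pow_disc {g : ℕ → ℝ} (hP : ∀ p ∈ P, 0 < p) (h : MS P g M) (hg : Per (∏ p ∈ P, p) g)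
    (t q x X : ℕ) : ∑ n ∈ range x, (∑ b ∈ range t, g (n + X + b)) ^ q ≤
      x * av (∏ p ∈ P, p) (fun n => (∑ b ∈ range t, g (n + b)) ^ q) + (t * M) ^ q := by
  have h1 := Mult.sum (range t) (fun b n => g (n + (X + b))) (fun _ => M)
    fun b _ => h (∏ p ∈ P, p) x (X + b) fun p hp => dvd_prod_of_mem _ hp
  have h2 := (Mult.prod (range q) _ _ fun _ _ => h1).disc (prod_pos hP)
  have h3 : Per (∏ p ∈ P, p) fun n => (∑ b ∈ range t, g (n + b)) ^ q := fun m n hmn => by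
    simp only [fun b => hg.shift b m n hmn]
  rw [← av_shift h3 X]
  simpa only [av, prod_const, sum_const, card_range, nsmul_eq_mul, Pi.pow_apply,
    Finset.sum_apply, add_assoc] using h2

theorem count_bad {r u t w m : ℕ} (hq : Even (r + 2))
    (h : SP ((r + 2 : ℕ) : ℝ) (PP 0 u) lo up M D (1 / 4)) (hw : 0 < w) (hu : w ^ 2 ≤ u)
    (hut : u ≤ 2 * t) (ht : 1 ≤ t) {K μ γ : ℝ} (hK : ∑ p ∈ PP u (2 * t), 1 / (p : ℝ) ≤ K)
    (hμ : ∑ p ∈ PP 0 (2 * t), 1 / (p : ℝ) ≤ μ) (hε : Real.exp (4 * K) ≤ 1 / 4 * 2 ^ (2 * m + 1))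
    (hγ : 0 < γ) (hV : 2 * γ + 4 * M ≤ t * (∏ p ∈ PP 0 (2 * t), bb p) / 2) (x X : ℕ) :
    (((range x).filter fun n =>
      ∑ b ∈ range t, pt 0 (om (PP 0 (2 * t)) 0 (n + X + b)) < γ).card : ℝ) * γ ^ (r + 2) ≤
      x * (2 ^ (r + 2) * (4 * t * ((3 * ((r + 2 : ℕ) : ℝ)) ^ (D + (2 * m + 1)) * (2 * Real.exp K) *
        Real.exp μ)) / w) ^ (r + 2) + (t * (M * (2 * t : ℕ) ^ (2 * m + 2) + 2 * M)) ^ (r + 2) := by
  have hU := PP_union hut
  have hd := PP_disj 0 u (2 * t)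
  have hmom := moment (m := m) hq h (fun p => PP_prime) hd hw hu hK (hU.symm ▸ hμ)
  have hu1 : 1 ≤ u := (Nat.pow_pos hw).trans_le hu
  have h' := h.step (by exact_mod_cast (by omega : 1 ≤ r + 2)) (fun p => PP_prime)
    (fun p => PP_prime) hd hK m hε (PP_card hu1 (by omega))
    (by exact_mod_cast (by omega : 2 ≤ 2 * t))
  set P' := PP u (2 * t) with hP'
  set EB := E1 P' (BB m) with hEB
  set ER := E1 P' (RR m) with hER
  have hM := h.ms_lo.nonneg fun p hp => (PP_prime hp).pos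
  have e1 : 0 ≤ EB := E1_nonneg _ (BB_nonneg m)
  have e2 : 0 ≤ ER := E1_nonneg _ (RR_nonneg m)
  have e3 : ER ≤ 1 / 4 * EB := E1_RR (fun p hp => (PP_prime hp).two_le) hK m hε
  have e4 : EB ≤ ER + 1 := by
    rw [← E1_one P', hER, ← E1_add]
    exact E1_mono _ fun v => by linarith [BB_sub m v, pt_le_one v]
  have mA : MS (PP 0 u) (fun n => lo n * EB - up n * ER) (2 * M) := by
    refine ((h.ms_lo.mul (MS.const _ EB)).sub (h.ms_up.mul (MS.const _ ER))).mono ?_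
    rw [abs_of_nonneg e1, abs_of_nonneg e2]
    nlinarith
  have mG := h'.ms_lo.sub (mA.subset subset_union_left)
  have hdisc := mG.pow_disc (fun p hp => (PP_prime (hU ▸ hp)).pos) (fun a b hab => by
    have h1 := h'.per_lo a b hab
    rw [prod_union hd] at hab
    simp only at h1 ⊢
    rw [h1, h.per_lo a b (hab.of_mul_right _), h.per_up a b (hab.of_mul_right _)]) t (r + 2) x X
  have e5 : (∏ p ∈ PP 0 (2 * t), bb p) / 2 ≤
      av (∏ p ∈ PP 0 u, p) (fun n => lo n * EB - up n * ER) := by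
    have h1 := h'.mean
    have h2 := h'.av_up fun p hp => PP_prime (hU ▸ hp)
    rw [av_sub, av_union (fun p => PP_prime) (fun p => PP_prime) hd h.per_lo,
      av_union (Q := P') (f := RR m) (fun p => PP_prime) (fun p => PP_prime) hd h.per_up] at h1
    rw [av_sub]
    simp only [mul_comm _ EB, mul_comm _ ER, av_const_mul]
    rw [← hU]
    linarith
  have e6 : ∀ n, lo n * BB m (om P' 0 n) - up n * RR m (om P' 0 n) - (lo n * EB - up n * ER) =
      lo n * (BB m (om P' 0 n) - EB) - up n * (RR m (om P' 0 n) - ER) := fun n => by ring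
  simp only [e6] at hdisc
  refine le_trans ?_ (hdisc.trans (add_le_add (mul_le_mul_of_nonneg_left hmom
    (Nat.cast_nonneg x)) le_rfl))
  rw [← nsmul_eq_mul, ← sum_const]
  refine le_trans (sum_le_sum fun n hn => ?_) (sum_le_sum_of_subset_of_nonneg (filter_subset _ _)
    fun n _ _ => hq.pow_nonneg _)
  have h1 := (mem_filter.1 hn).2
  have h2 := (abs_le.1 (mA.window (fun p hp => (PP_prime hp).pos) (n + X) t)).1
  have h3 := sum_le_sum fun b (_ : b ∈ range t) => h'.lo_le (n + X + b)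
  have h4 := mul_le_mul_of_nonneg_left e5 (Nat.cast_nonneg (α := ℝ) t)
  rw [hU] at h3
  rw [← hq.neg_pow, ← hq.neg_pow (∑ b ∈ range t, _), hq.neg_pow γ]
  refine pow_le_pow_left₀ hγ.le ?_ _
  simp only [← e6]
  rw [sum_sub_distrib]
  linarith

end Pool.Agent.MP_d228e7_nt

end
end

section

/-!
One dyadic scale.
-/

set_option autoImplicit false

open Finset

noncomputable section

namespace Pool.Agent.MP_d228e7_nt

open Pool.Agent.MP_cebb75_nt Pool.Agent.MP_fdd1d3_nt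

/-- number of elements of the window of length `2 ^ j` without prime factor up to `2 * 2 ^ j` -/
def NN (j n : ℕ) : ℝ := ∑ b ∈ range (2 ^ j), pt 0 (om (PP 0 (2 * 2 ^ j)) 0 (n + b))

theorem PP_one (z : ℕ) : PP 0 z = PP 1 z := by
  ext p
  simp only [mem_PP]
  exact ⟨fun h => ⟨⟨h.2.one_lt, h.1.2⟩, h.2⟩, fun h => ⟨⟨h.2.pos, h.1.2⟩, h.2⟩⟩

theorem two_le {a b : ℕ} (h : a ≤ b) : (2 : ℝ) ^ a ≤ 2 ^ b := pow_le_pow_right₀ one_le_two h

theorem scale {j g e r : ℕ} (hq : Even (r + 2)) (h1 : 512 * e ≤ j) (h2 : j < 512 * (e + 1))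
    (h3 : 1024 ≤ j) (h4 : j + 1 < 2 ^ g) (h5 : 3 * (r + 2) ≤ 2 ^ g)
    (h6 : r + 2 + g * (g * (2 * (13 + g) + 1) + (2 * 97 + 1)) + 13 * g + 60 ≤ e) (x X : ℕ) :
    (((range x).filter fun n => NN j (n + X) < 2 ^ j / (480 * j)).card : ℝ) ≤
      x / 2 ^ (e * (r + 2)) + 2 ^ (200 * j * (r + 2)) := by
  have hj : (0 : ℝ) < j := by exact_mod_cast (by omega : 0 < j)
  have hjg : (j : ℝ) ≤ 2 ^ g := by exact_mod_cast (by omega : j ≤ 2 ^ g)
  obtain ⟨lo, up, h⟩ := small (a := ((r + 2 : ℕ) : ℝ)) (by exact_mod_cast (by omega : 1 ≤ r + 2))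
    g (2 ^ (4 * e)) 13 Nat.one_le_two_pow (Nat.pow_lt_pow_right one_lt_two (by omega))
  rw [show (2 : ℝ) ^ 24 / 4 ^ 13 = 1 / 4 by norm_num,
    show ((2 ^ (4 * e) : ℕ) : ℝ) ^ (4 * 13 + 8) = 2 ^ (240 * e) by
      push_cast; rw [← pow_mul]; congr 1; ring] at h
  set γ : ℝ := 2 ^ j / (480 * j) with hγ
  have hγ0 : 0 < γ := by positivity
  have hγM : 2 * 2 ^ (240 * e) ≤ γ := by
    rw [hγ, le_div_iff₀ (by positivity)]
    calc (2 : ℝ) * 2 ^ (240 * e) * (480 * j) ≤ 2 * 2 ^ (240 * e) * (2 ^ 9 * 2 ^ g) := by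
          gcongr; norm_num
      _ = 2 ^ (240 * e + g + 10) := by ring
      _ ≤ _ := two_le (by omega)
  have hγ1 : 1 ≤ γ := by linarith [one_le_pow₀ (n := 240 * e) (one_le_two (α := ℝ))]
  have key := count_bad (m := 97) (w := 2 ^ (2 * e)) (t := 2 ^ j) (K := 4 * (8 : ℕ))
    (μ := 4 * g) hq h (by positivity) (by rw [← pow_mul]; exact Nat.pow_le_pow_right two_pos (by omega))
    (by rw [← pow_succ']; exact Nat.pow_le_pow_right two_pos (by omega)) Nat.one_le_two_pow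
    (mu_le _ 8 _ (by
      refine lt_of_lt_of_le ?_ (Nat.pow_le_pow_left (Nat.le_succ _) _)
      rw [← pow_succ', ← pow_mul]
      exact Nat.pow_lt_pow_right one_lt_two (by omega)))
    (by
      rw [PP_one]
      refine mu_le 1 g _ ?_
      rw [← pow_succ']
      exact Nat.pow_lt_pow_right one_lt_two h4)
    (by
      have := exp_le 16
      norm_num at this ⊢
      linarith) hγ0
    (by
      have e1 := V_ge (2 * 2 ^ j) (Nat.le_mul_of_pos_right _ (by positivity))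
      have e2 : Real.log ((2 * 2 ^ j : ℕ) : ℝ) ≤ j := by
        rw [← pow_succ']
        push_cast
        rw [Real.log_pow]
        push_cast
        have : (1024 : ℝ) ≤ j := by exact_mod_cast h3
        nlinarith [Real.log_two_lt_d9]
      have e3 : 0 < Real.log ((2 * 2 ^ j : ℕ) : ℝ) :=
        Real.log_pos (by exact_mod_cast (by have := Nat.one_le_two_pow (n := j); omega))
      have e4 : 1 / (60 * (j : ℝ)) ≤ ∏ p ∈ PP 0 (2 * 2 ^ j), bb p :=
        (one_div_le_one_div_of_le (by positivity) (by linarith)).trans e1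
      have e5 := mul_le_mul_of_nonneg_left e4 (show (0 : ℝ) ≤ 2 ^ j by positivity)
      have e6 : (2 : ℝ) ^ j * (1 / (60 * j)) = 8 * γ := by
        rw [hγ]
        field_simp
        norm_num
      push_cast
      linarith) x X
  set q := r + 2 with hq'
  set D := g * (2 * (13 + g) + 1) + (2 * 97 + 1) with hD
  have hΛ : (3 * (q : ℝ)) ^ D * (2 * Real.exp (4 * (8 : ℕ))) * Real.exp (4 * g) ≤
      2 ^ (g * D) * (2 * 2 ^ 48) * 2 ^ (12 * g) := by
    have e1 : (3 * (q : ℝ)) ^ D ≤ 2 ^ (g * D) := by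
      rw [pow_mul]
      exact pow_le_pow_left₀ (by positivity) (by exact_mod_cast h5) _
    have e2 : Real.exp (4 * (8 : ℕ)) ≤ 2 ^ 48 := by
      have := exp_le 4
      norm_num at this ⊢
      exact this
    have e3 : Real.exp (4 * g) ≤ 2 ^ (12 * g) :=
      (Real.exp_le_exp.2 (by linarith [Nat.cast_nonneg (α := ℝ) g])).trans (exp_le g)
    gcongr
  have hR : 2 ^ q * (4 * ((2 ^ j : ℕ) : ℝ) * ((3 * (q : ℝ)) ^ D * (2 * Real.exp (4 * (8 : ℕ))) *
      Real.exp (4 * g))) / ((2 ^ (2 * e) : ℕ) : ℝ) ≤ γ / 2 ^ e := by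
    push_cast
    rw [hγ, div_div, div_le_div_iff₀ (by positivity) (by positivity)]
    push_cast at hΛ
    calc _ ≤ (2 : ℝ) ^ q * (4 * 2 ^ j * (2 ^ (g * D) * (2 * 2 ^ 48) * 2 ^ (12 * g))) *
          (2 ^ 9 * 2 ^ g * 2 ^ e) := by gcongr; norm_num
      _ = 2 ^ j * 2 ^ (q + g * D + 13 * g + 60 + e) := by ring
      _ ≤ _ := mul_le_mul_of_nonneg_left (two_le (by omega)) (by positivity)
  have hB : ((2 ^ j : ℕ) : ℝ) * (2 ^ (240 * e) * ((2 * 2 ^ j : ℕ) : ℝ) ^ (2 * 97 + 2) +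
      2 * 2 ^ (240 * e)) ≤ 2 ^ (200 * j) := by
    rw [← pow_succ']
    push_cast
    rw [← pow_mul, ← pow_add, ← pow_succ']
    have e1 : (2 : ℝ) ^ (240 * e + 1) ≤ 2 ^ (240 * e + (j + 1) * 196) := two_le (by omega)
    calc _ ≤ (2 : ℝ) ^ j * (2 ^ (240 * e + (j + 1) * 196) + 2 ^ (240 * e + (j + 1) * 196)) := by
          gcongr
      _ = 2 ^ (j + (240 * e + (j + 1) * 196 + 1)) := by rw [pow_add 2 j, pow_succ]; ring
      _ ≤ _ := two_le (by omega)
  have hγq : 1 ≤ γ ^ q := one_le_pow₀ hγ1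
  have e1 := pow_le_pow_left₀ (by positivity) hR q
  have e2 := pow_le_pow_left₀ (by positivity) hB q
  rw [div_pow γ, ← pow_mul] at e1
  rw [← pow_mul] at e2
  have e3 := mul_le_mul_of_nonneg_left e1 (Nat.cast_nonneg (α := ℝ) x)
  have e4 := le_mul_of_one_le_right (show (0 : ℝ) ≤ 2 ^ (200 * j * q) by positivity) hγq
  refine le_of_mul_le_mul_right (key.trans ?_) (pow_pos hγ0 q)
  rw [add_mul, div_mul_eq_mul_div, mul_div_assoc (x : ℝ)]
  exact add_le_add e3 (e2.trans e4)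

end Pool.Agent.MP_d228e7_nt

end
end

section

/-!
Summation over the scales.
-/

set_option autoImplicit false

open Finset

noncomputable section

namespace Pool.Agent.MP_d228e7_nt

open Pool.Agent.MP_cebb75_nt Pool.Agent.MP_fdd1d3_nt N435e839e

theorem gp_le (n t : ℕ) : ∀ b ∈ greedyPrefix true n t, b ≤ t := by
  induction t with
  | zero => simp [greedyPrefix]
  | succ t ih =>
    intro b hb
    rw [greedyPrefix] at hb
    split_ifs at hb
    · rcases mem_insert.1 hb with rfl | h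
      · rfl
      · exact (ih b h).trans (Nat.le_succ t)
    · exact (ih b hb).trans (Nat.le_succ t)

theorem gp_mono (n : ℕ) {t t' : ℕ} (h : t ≤ t') :
    greedyPrefix true n t ⊆ greedyPrefix true n t' := by
  induction h with
  | refl => exact Subset.rfl
  | step _ ih =>
    refine ih.trans ?_
    rw [greedyPrefix]
    split_ifs
    · exact subset_insert _ _
    · exact Subset.rfl

theorem mem_sel {n a : ℕ} (h0 : 0 < a) (h1 : a < n) (h : ∀ p, p.Prime → p ≤ a → ¬ p ∣ n - a) :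
    a ∈ selected true n := by
  refine mem_filter.2 ⟨gp_mono n (show a ≤ n - 1 by omega) ?_, h0, h1⟩
  obtain ⟨t, rfl⟩ : ∃ t, a = t + 1 := ⟨a - 1, by omega⟩
  rw [greedyPrefix, if_pos (Or.inr fun b hb => ?_)]
  · exact mem_insert_self _ _
  · have h2 := gp_le n t b hb
    refine Nat.coprime_of_dvd fun p hp h3 h4 => h p hp ?_ h3
    have h5 := Nat.dvd_sub h4 h3
    exact (Nat.le_of_dvd (by omega) h5).trans (by omega)

/-- the term of the sum at `a` -/
def hh (n a : ℕ) : ℝ := if a ∈ selected true n then 1 / (a : ℝ) else 0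

theorem hh_nonneg (n a : ℕ) : 0 ≤ hh n a := by
  unfold hh
  split_ifs <;> positivity

theorem scale_sum {n j : ℕ} (h : 2 * 2 ^ j < n) :
    NN j (n - 2 * 2 ^ j) / (2 * 2 ^ j) ≤ ∑ a ∈ Ioc (2 ^ j) (2 * 2 ^ j), hh n a := by
  have h1 : ∑ a ∈ Ioc (2 ^ j) (2 * 2 ^ j), hh n a = ∑ b ∈ range (2 ^ j), hh n (2 * 2 ^ j - b) := by
    refine sum_nbij' (fun a => 2 * 2 ^ j - a) (fun a => 2 * 2 ^ j - a) ?_ ?_ ?_ ?_ ?_ <;>
      intro a ha <;> simp only [mem_Ioc, mem_range] at ha ⊢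
    iterate 4 omega
    congr 1
    omega
  rw [h1, NN, sum_div]
  refine sum_le_sum fun b hb => ?_
  have h2 := mem_range.1 hb
  unfold pt
  split_ifs with h3
  · rw [hh, if_pos (mem_sel (by omega) (by omega) fun p hp h4 h5 => ?_)]
    · refine one_div_le_one_div_of_le (by exact_mod_cast (by omega : 0 < 2 * 2 ^ j - b)) ?_
      exact_mod_cast Nat.sub_le _ _
    · rw [om, card_eq_zero, filter_eq_empty_iff] at h3
      refine h3 ((mem_PP 0 _ p).2 ⟨⟨hp.pos, by omega⟩, hp⟩) (Nat.mod_eq_zero_of_dvd ?_)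
      rwa [show n - 2 * 2 ^ j + b = n - (2 * 2 ^ j - b) by omega]
  · rw [zero_div]
    exact hh_nonneg _ _

theorem total_ge (n B : ℕ) (J : Finset ℕ) (hJ : J ⊆ range B) :
    ∑ j ∈ J, ∑ a ∈ Ioc (2 ^ j) (2 * 2 ^ j), hh n a ≤ totalSum true n := by
  have h1 : ∑ j ∈ range B, ∑ a ∈ Ioc (2 ^ j) (2 * 2 ^ j), hh n a = ∑ a ∈ Ioc 1 (2 ^ B), hh n a := by
    clear hJ
    induction B with
    | zero => simp
    | succ B ih =>
      rw [sum_range_succ, ih, sum_Ioc_consecutive _ Nat.one_le_two_pow (by omega), pow_succ']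
  refine (sum_le_sum_of_subset_of_nonneg hJ fun j _ _ =>
    sum_nonneg fun a _ => hh_nonneg n a).trans ?_
  rw [h1]
  simp only [hh, sum_ite_mem]
  exact sum_le_sum_of_subset_of_nonneg inter_subset_right fun a _ _ => by positivity

theorem harm_sum (A B : ℕ) (h : A ≤ B) :
    Real.log (B + 1) - (1 + Real.log A) ≤ ∑ j ∈ Ioc A B, 1 / (j : ℝ) := by
  have h1 := sum_Ioc_consecutive (fun j : ℕ => 1 / (j : ℝ)) (Nat.zero_le A) h
  have h2 := harm_le A
  have h3 := harm_ge B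
  rw [show ∀ m, Icc 1 m = Ioc 0 m from fun m => Icc_add_one_left_eq_Ioc 0 m] at h2 h3
  linarith

theorem one_scale {s j y : ℕ} (hs : 5000000 ≤ s) (hg : (s + 1) ^ 4 ≤ 2 ^ (s / 70))
    (hy : 2 ^ s ^ 4 ≤ y) (hj : j ∈ Ioc (s ^ 3) (s ^ 4 / 800)) (X : ℕ) :
    (((Ioc X (X + y)).filter fun n => 2 * 2 ^ j < n ∧
      NN j (n - 2 * 2 ^ j) < 2 ^ j / (480 * j)).card : ℝ) ≤ 2 * (y / 2 ^ (s ^ 4 / 819200)) := by
  obtain ⟨h1, h2⟩ := mem_Ioc.1 hj
  have h3 : 800 * j ≤ s ^ 4 := by omega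
  have hs3 : 1024 * s ≤ s ^ 3 := by nlinarith [Nat.mul_le_mul hs hs]
  have h4 : 1 ≤ s ^ 4 / (800 * j) := (Nat.le_div_iff_mul_le (by omega)).2 (by omega)
  have h5 := Nat.div_mul_le_self (s ^ 4) (800 * j)
  have h6 := Nat.lt_mul_div_succ (s ^ 4) (show 0 < 800 * j by omega)
  obtain ⟨A, hA⟩ : ∃ A, s ^ 4 / (800 * j) = A + 1 := ⟨_, (Nat.sub_add_cancel h4).symm⟩
  rw [hA] at h5 h6
  have h7 : 2 * A + 2 ≤ s := by
    by_contra h
    have : s * s ^ 3 ≤ (2 * A + 2) * j := Nat.mul_le_mul (by omega) h1.le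
    nlinarith
  have h8 : s ^ 4 + 1 < (s + 1) ^ 4 := by nlinarith [pow_pos (show 0 < s by omega) 2]
  obtain ⟨g, hgd⟩ : ∃ g, g = s / 70 := ⟨_, rfl⟩
  have h9 : 70 * g ≤ s := by omega
  have h10 : 1 ≤ g := by omega
  have h11 : (70 * g) ^ 3 ≤ s ^ 3 := Nat.pow_le_pow_left h9 3
  have h12 : g * (g * (2 * (13 + g) + 1) + (2 * 97 + 1)) + 13 * g + 60 ≤ 297 * g ^ 3 := by
    nlinarith [Nat.mul_le_mul h10 h10, Nat.mul_le_mul h10 (Nat.mul_le_mul h10 h10),
      Nat.mul_le_mul_left (g * g) h10, Nat.mul_le_mul_left g h10]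
  have hs4 : 2000 * s ≤ s ^ 3 := by nlinarith [Nat.mul_le_mul hs hs]
  have key := scale (j := j) (g := g) (e := j / 512) (r := 2 * A) ⟨A + 1, by ring⟩ (by omega)
    (by omega) (by omega) (by rw [hgd]; omega) (by rw [hgd]; nlinarith)
    (by rw [mul_pow] at h11; omega) y (X + 1 - 2 * 2 ^ j)
  have e1 : s ^ 4 / 819200 ≤ j / 512 * (2 * A + 2) := by
    refine Nat.div_le_of_le_mul ?_
    have : j ≤ 1024 * (j / 512) := by omega
    nlinarith [Nat.mul_le_mul_right (2 * A + 2) this]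
  have e2 : 200 * j * (2 * A + 2) + s ^ 4 / 819200 ≤ s ^ 4 := by
    have : 200 * j * (2 * A + 2) * 2 = (A + 1) * (800 * j) := by ring
    omega
  have e3 : (2 : ℝ) ^ (200 * j * (2 * A + 2)) ≤ y / 2 ^ (s ^ 4 / 819200) := by
    rw [le_div_iff₀ (by positivity), ← pow_add]
    exact (two_le e2).trans (by exact_mod_cast hy)
  have e4 : (y : ℝ) / 2 ^ (j / 512 * (2 * A + 2)) ≤ y / 2 ^ (s ^ 4 / 819200) :=
    div_le_div_of_nonneg_left (by positivity) (by positivity) (two_le e1)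
  refine le_trans ?_ (key.trans (by linarith))
  refine Nat.cast_le.2 (card_le_card_of_injOn (fun n => n - 2 * 2 ^ j - (X + 1 - 2 * 2 ^ j))
    (fun n hn => ?_) fun m hm n hn h => ?_)
  · simp only [coe_filter, mem_Ioc, Set.mem_ofPred_eq, mem_range] at hn ⊢
    refine ⟨by omega, ?_⟩
    rw [Nat.sub_add_cancel (by omega)]
    exact hn.2.2
  · simp only [coe_filter, mem_Ioc, Set.mem_ofPred_eq] at hm hn h
    omega

theorem all_scales {s y : ℕ} (hs : 5000000 ≤ s) (hg : (s + 1) ^ 4 ≤ 2 ^ (s / 70))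
    (hy : 2 ^ s ^ 4 ≤ y) (X : ℕ) :
    (((Ioc X (X + y)).filter fun n => totalSum true n < Real.log s / 1920).card : ℝ) ≤
      s ^ 4 * (y / 2 ^ (s ^ 4 / 819200)) := by
  set J := Ioc (s ^ 3) (s ^ 4 / 800) with hJ
  have hs0 : (0 : ℝ) < s := by exact_mod_cast (by omega : 0 < s)
  have h0 : s ^ 4 = s * s ^ 3 := by ring
  have h00 : s ≤ s ^ 3 := Nat.le_self_pow (by norm_num) s
  have h01 := Nat.mul_le_mul_right (s ^ 3) hs
  have h1 : (Ioc X (X + y)).filter (fun n => totalSum true n < Real.log s / 1920) ⊆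
      range (2 * 2 ^ (s ^ 4 / 800) + 1) ∪ J.biUnion fun j => (Ioc X (X + y)).filter fun n =>
        2 * 2 ^ j < n ∧ NN j (n - 2 * 2 ^ j) < 2 ^ j / (480 * j) := by
    intro n hn
    obtain ⟨h2, h3⟩ := mem_filter.1 hn
    by_contra hc
    simp only [mem_union, mem_range, mem_biUnion, mem_filter, not_or, not_exists, not_and,
      not_lt] at hc
    have h4 : ∀ j ∈ J, 1 / 960 * (1 / (j : ℝ)) ≤ ∑ a ∈ Ioc (2 ^ j) (2 * 2 ^ j), hh n a := by
      intro j hj
      have h5 : 2 ^ j ≤ 2 ^ (s ^ 4 / 800) := Nat.pow_le_pow_right two_pos (mem_Ioc.1 hj).2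
      have h6 : 2 * 2 ^ j < n := by omega
      refine le_trans ?_ (scale_sum h6)
      refine le_trans (le_of_eq ?_) (div_le_div_of_nonneg_right (hc.2 j hj h2 h6) (by positivity))
      field_simp
      norm_num
    have h5 := (sum_le_sum h4).trans (total_ge n (s ^ 4 / 800 + 1) J fun j hj =>
      mem_range.2 (Nat.lt_succ_of_le (mem_Ioc.1 hj).2))
    have h6 := harm_sum (s ^ 3) (s ^ 4 / 800) (by omega)
    have h7 : Real.log ((s : ℝ) ^ 4 / 800) ≤ Real.log ((s ^ 4 / 800 : ℕ) + 1) := by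
      refine Real.log_le_log (by positivity) ?_
      rw [div_le_iff₀ (by norm_num)]
      exact_mod_cast (by omega : s ^ 4 ≤ (s ^ 4 / 800 + 1) * 800)
    have h8 : Real.log ((800 * Real.exp 1) ^ 2) ≤ Real.log s := by
      refine Real.log_le_log (by positivity) (le_trans ?_ (show (5000000 : ℝ) ≤ s by exact_mod_cast hs))
      nlinarith [Real.exp_one_lt_d9, Real.exp_pos 1]
    rw [Real.log_pow, Real.log_mul (by norm_num) (by positivity), Real.log_exp] at h8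
    rw [Real.log_div (by positivity) (by norm_num), Real.log_pow] at h7
    rw [← mul_sum] at h5
    rw [Nat.cast_pow, Real.log_pow] at h6
    push_cast at h6 h7 h8
    linarith
  have h2 : (((Ioc X (X + y)).filter fun n => totalSum true n < Real.log s / 1920).card : ℝ) ≤
      ((2 * 2 ^ (s ^ 4 / 800) + 1 : ℕ) : ℝ) + ∑ j ∈ J, (((Ioc X (X + y)).filter fun n =>
        2 * 2 ^ j < n ∧ NN j (n - 2 * 2 ^ j) < 2 ^ j / (480 * j)).card : ℝ) := by
    have := (card_le_card h1).trans ((card_union_le _ _).trans (add_le_add le_rfl card_biUnion_le))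
    rw [card_range] at this
    exact_mod_cast this
  have h3 := sum_le_card_nsmul J _ _ fun j hj => one_scale hs hg hy hj X
  have h4 : ((2 * 2 ^ (s ^ 4 / 800) + 1 : ℕ) : ℝ) ≤ y / 2 ^ (s ^ 4 / 819200) := by
    rw [le_div_iff₀ (by positivity)]
    have h5 : 2 * 2 ^ (s ^ 4 / 800) + 1 ≤ 2 ^ (s ^ 4 / 800 + 2) := by
      have := Nat.one_le_two_pow (n := s ^ 4 / 800)
      rw [pow_add]
      omega
    have h6 := (Nat.mul_le_mul_right (2 ^ (s ^ 4 / 819200)) h5).trans (show _ ≤ y by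
      rw [← pow_add]
      exact (Nat.pow_le_pow_right two_pos (by omega)).trans hy)
    exact_mod_cast h6
  have h5 : 1 + (J.card : ℝ) * 2 ≤ s ^ 4 := by
    rw [hJ, Nat.card_Ioc]
    exact_mod_cast (by omega : 1 + (s ^ 4 / 800 - s ^ 3) * 2 ≤ s ^ 4)
  have h6 := mul_le_mul_of_nonneg_right h5 (show (0 : ℝ) ≤ y / 2 ^ (s ^ 4 / 819200) by positivity)
  rw [nsmul_eq_mul] at h3
  linarith

theorem exists_s : ∃ s₀ : ℕ, ∀ s, s₀ ≤ s → (s + 1) ^ 4 ≤ 2 ^ (s / 70) := by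
  obtain ⟨k, hk⟩ := Filter.eventually_atTop.1 ((tendsto_pow_const_div_const_pow_of_one_lt 4
    (one_lt_two (α := ℝ))).eventually (gt_mem_nhds (show (0 : ℝ) < 1 / 140 ^ 4 by positivity)))
  refine ⟨70 * (k + 1), fun s hs => ?_⟩
  have h1 := hk (s / 70) (by omega)
  rw [div_lt_div_iff₀ (by positivity) (by positivity), one_mul, ← mul_pow] at h1
  have h2 : (s / 70 * 140) ^ 4 < 2 ^ (s / 70) := by exact_mod_cast h1
  exact (Nat.pow_le_pow_left (by omega) 4).trans h2.le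

theorem main : ∃ y₀ : ℕ, ∀ X y : ℕ, y₀ ≤ y →
    (((Ioc X (X + y)).filter fun n =>
      totalSum true n < 1 / 9600 * Real.log (Real.log y)).card : ℝ) ≤
        (y : ℝ) ^ (1 - 1 / 26214400 : ℝ) := by
  obtain ⟨s₀, h0⟩ := exists_s
  refine ⟨2 ^ (s₀ + 5000000) ^ 4, fun X y hy => ?_⟩
  have hy0 : 0 < y := lt_of_lt_of_le (by positivity) hy
  obtain ⟨s, hs⟩ : ∃ s, s = Nat.sqrt (Nat.sqrt (Nat.log 2 y)) := ⟨_, rfl⟩
  have h1 : s ^ 4 ≤ Nat.log 2 y := by
    have := (Nat.pow_le_pow_left (Nat.sqrt_le' (Nat.sqrt (Nat.log 2 y))) 2).trans (Nat.sqrt_le' _)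
    rwa [← pow_mul, ← hs] at this
  have h2 : Nat.log 2 y < (s + 1) ^ 4 := by
    rw [show 4 = 2 * 2 from rfl, pow_mul, ← Nat.sqrt_lt', ← Nat.sqrt_lt', hs]
    exact Nat.lt_succ_self _
  have h3 : s₀ + 5000000 ≤ s :=
    Nat.lt_succ_iff.1 (lt_of_pow_lt_pow_left₀ 4 (Nat.zero_le _)
      ((Nat.le_log_of_pow_le one_lt_two hy).trans_lt h2))
  have h4 : 2 ^ s ^ 4 ≤ y := (Nat.pow_le_pow_right two_pos h1).trans (Nat.pow_log_le_self 2 hy0.ne')
  have h5 : y ≤ 2 ^ (16 * s ^ 4) := by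
    refine (Nat.lt_pow_succ_log_self one_lt_two y).le.trans (Nat.pow_le_pow_right two_pos ?_)
    have : (s + 1) ^ 4 ≤ (2 * s) ^ 4 := Nat.pow_le_pow_left (by omega) 4
    rw [mul_pow] at this
    omega
  have hg := h0 s (by omega)
  have hyR : (0 : ℝ) < y := by exact_mod_cast hy0
  have hsR : (5000000 : ℝ) ≤ s := by exact_mod_cast (by omega : 5000000 ≤ s)
  have h6 : Real.log y ≤ 16 * s ^ 4 * Real.log 2 := by
    have := Real.log_le_log hyR (show (y : ℝ) ≤ 2 ^ (16 * s ^ 4) by exact_mod_cast h5)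
    rw [Real.log_pow] at this
    exact_mod_cast this
  have h7 : Real.log (Real.log y) ≤ 5 * Real.log s := by
    have e1 : 0 < Real.log y := Real.log_pos (by
      exact_mod_cast (Nat.one_lt_two_pow (by positivity)).trans_le hy)
    have e2 : Real.log y ≤ s ^ 5 := by
      have e3 : 16 * Real.log 2 ≤ s := by linarith [Real.log_two_lt_d9]
      nlinarith [mul_le_mul_of_nonneg_left e3 (show (0 : ℝ) ≤ s ^ 4 by positivity)]
    simpa using Real.log_le_log e1 e2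
  refine le_trans (Nat.cast_le.2 (card_le_card (monotone_filter_right _ fun n _ hn => ?_)))
    ((all_scales (by omega) hg h4 X).trans ?_)
  · linarith
  rw [Real.rpow_sub hyR, Real.rpow_one, ← mul_div_assoc, div_le_div_iff₀ (by positivity)
    (by positivity), mul_right_comm, mul_comm (y : ℝ)]
  refine mul_le_mul_of_nonneg_right ?_ hyR.le
  have e1 : (s : ℝ) ^ 4 ≤ 2 ^ s := by
    exact_mod_cast (Nat.pow_le_pow_left (Nat.le_succ s) 4).trans
      (hg.trans (Nat.pow_le_pow_right two_pos (Nat.div_le_self _ _)))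
  have e2 : (y : ℝ) ^ (1 / 26214400 : ℝ) ≤ 2 ^ (s ^ 4 / 1638400 + 1) := by
    rw [← Real.rpow_natCast 2, Real.rpow_def_of_pos hyR, Real.rpow_def_of_pos two_pos]
    refine Real.exp_le_exp.2 ?_
    have e3 : (s : ℝ) ^ 4 ≤ ((s ^ 4 / 1638400 + 1 : ℕ) : ℝ) * 1638400 := by
      exact_mod_cast (by omega : s ^ 4 ≤ (s ^ 4 / 1638400 + 1) * 1638400)
    nlinarith [mul_le_mul_of_nonneg_left e3 (Real.log_pos one_lt_two).le]
  refine (mul_le_mul e1 e2 (by positivity) (by positivity)).trans ?_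
  rw [← pow_add]
  refine two_le ?_
  have e4 : 5000000 * s ≤ s ^ 4 := by
    have e5 : 5000000 ≤ s := by omega
    have := Nat.mul_le_mul_left s (e5.trans (Nat.le_self_pow (n := 3) (by norm_num) s))
    nlinarith
  omega

end Pool.Agent.MP_d228e7_nt

end
end
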