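import Mathlib

section

/-! Basic notions for the polynomial lower bound: designs as multisets of blocks, patterns of new
symbols, universal ingredients, polynomial functions of bounded degree. -/

namespace Pool.Agent.MP_c7a479_co

open Finset
open scoped Classical

noncomputable section

section Designs

variable {ι A B W : Type}

/-- The number of blocks of `μ` that agree with the word `τ` on the coordinate set `T`. -/
def cov (μ : Multiset (ι → A)) (T : Finset ι) (τ : ι → A) : ℕ :=
  μ.countP fun b => ∀ i ∈ T, b i = τ i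

@[simp] theorem cov_zero (T : Finset ι) (τ : ι → A) : cov 0 T τ = 0 := by simp [cov]

@[simp] theorem cov_add (μ ν : Multiset (ι → A)) (T : Finset ι) (τ : ι → A) :
    cov (μ + ν) T τ = cov μ T τ + cov ν T τ := Multiset.countP_add _ _ _

theorem cov_singleton (b : ι → A) (T : Finset ι) (τ : ι → A) [Decidable (∀ i ∈ T, b i = τ i)] :
    cov {b} T τ = if ∀ i ∈ T, b i = τ i then 1 else 0 := by
  rw [cov, ← Multiset.cons_zero, Multiset.countP_cons]; simp

theorem cov_replicate (n : ℕ) (b : ι → A) (T : Finset ι) (τ : ι → A)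
    [Decidable (∀ i ∈ T, b i = τ i)] :
    cov (Multiset.replicate n b) T τ = if ∀ i ∈ T, b i = τ i then n else 0 := by
  induction n with
  | zero => simp
  | succ n ih =>
    rw [Multiset.replicate_succ, ← Multiset.singleton_add, cov_add, ih, cov_singleton]
    split_ifs <;> omega

theorem cov_sum {α : Type} (s : Finset α) (f : α → Multiset (ι → A)) (T : Finset ι) (τ : ι → A) :
    cov (∑ x ∈ s, f x) T τ = ∑ x ∈ s, cov (f x) T τ := by
  induction s using Finset.induction_on with
  | empty => simp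
  | insert a s ha ih => rw [sum_insert ha, sum_insert ha, cov_add, ih]

theorem cov_mono {μ ν : Multiset (ι → A)} (h : μ ≤ ν) (T : Finset ι) (τ : ι → A) :
    cov μ T τ ≤ cov ν T τ := Multiset.countP_le_of_le _ h

theorem cov_congr (μ : Multiset (ι → A)) {T : Finset ι} {τ τ' : ι → A} (h : ∀ i ∈ T, τ i = τ' i) :
    cov μ T τ = cov μ T τ' := by
  unfold cov
  refine Multiset.countP_congr rfl fun b _ => propext ?_
  exact forall₂_congr fun i hi => by rw [h i hi]

theorem cov_pos {μ : Multiset (ι → A)} {T : Finset ι} {τ : ι → A} :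
    0 < cov μ T τ ↔ ∃ b ∈ μ, ∀ i ∈ T, b i = τ i := Multiset.countP_pos

theorem cov_eq_zero {μ : Multiset (ι → A)} {T : Finset ι} {τ : ι → A} :
    cov μ T τ = 0 ↔ ∀ b ∈ μ, ¬ ∀ i ∈ T, b i = τ i := Multiset.countP_eq_zero

theorem cov_map {α : Type} (μ : Multiset α) (φ : α → ι → A) (T : Finset ι) (τ : ι → A) :
    cov (μ.map φ) T τ = μ.countP fun x => ∀ i ∈ T, φ x i = τ i := by
  unfold cov
  rw [Multiset.countP_map, Multiset.countP_eq_card_filter]

theorem cov_le_of_imp {ι' : Type} {μ : Multiset (ι → A)} {φ : (ι → A) → ι' → B} {T : Finset ι}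
    {T' : Finset ι'} {τ : ι → A} {τ' : ι' → B}
    (h : ∀ b ∈ μ, (∀ i ∈ T', φ b i = τ' i) → ∀ i ∈ T, b i = τ i) :
    cov (μ.map φ) T' τ' ≤ cov μ T τ := by
  rw [cov_map, cov, Multiset.countP_eq_card_filter, Multiset.countP_eq_card_filter]
  apply Multiset.card_le_card
  rw [Multiset.le_iff_count]
  intro b
  simp only [Multiset.count_filter]
  split_ifs with h1 h2
  · exact le_rfl
  · by_cases hb : b ∈ μ
    · exact absurd (h b hb h1) h2
    · simp [Multiset.count_eq_zero.mpr hb]
  · exact Nat.zero_le _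
  · exact le_rfl

theorem cov_map_of_iff {ι' : Type} {μ : Multiset (ι → A)} {φ : (ι → A) → ι' → B} {T : Finset ι}
    {T' : Finset ι'} {τ : ι → A} {τ' : ι' → B}
    (h : ∀ b ∈ μ, (∀ i ∈ T', φ b i = τ' i) ↔ ∀ i ∈ T, b i = τ i) :
    cov (μ.map φ) T' τ' = cov μ T τ := by
  rw [cov_map, cov]
  exact Multiset.countP_congr rfl fun b hb => propext (h b hb)

/-- Two blocks of a multiset that agree on a set covered at most once are equal. -/
theorem eq_of_cov_le_one {μ : Multiset (ι → A)} {T : Finset ι} {b b' : ι → A} (hb : b ∈ μ)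
    (hb' : b' ∈ μ) (h : ∀ i ∈ T, b i = b' i) (h1 : cov μ T b' ≤ 1) : b = b' := by
  by_contra hne
  have hle : ({b} + {b'} : Multiset (ι → A)) ≤ μ := by
    rw [Multiset.le_iff_count]
    intro c
    rw [Multiset.count_add, Multiset.count_singleton, Multiset.count_singleton]
    by_cases h3 : c = b
    · subst h3
      simp [hne, Multiset.one_le_count_iff_mem.mpr hb]
    · by_cases h2 : c = b'
      · rw [if_neg h3, if_pos h2, h2]
        exact Multiset.one_le_count_iff_mem.mpr hb'
      · simp [h3, h2]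
  have := cov_mono hle T b'
  rw [cov_add, cov_singleton, cov_singleton, if_pos h, if_pos (fun _ _ => rfl)] at this
  omega

theorem cov_le_one_of {μ : Multiset (ι → A)} {T : Finset ι} {τ : ι → A} (hn : μ.Nodup)
    (h : ∀ b ∈ μ, ∀ b' ∈ μ, (∀ i ∈ T, b i = τ i) → (∀ i ∈ T, b' i = τ i) → b = b') :
    cov μ T τ ≤ 1 := by
  rw [cov, Multiset.countP_eq_card_filter]
  have hn' := hn.filter fun b => ∀ i ∈ T, b i = τ i
  rw [← Multiset.toFinset_card_of_nodup hn', Finset.card_le_one]
  intro b hb b' hb'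
  simp only [Multiset.mem_toFinset, Multiset.mem_filter] at hb hb'
  exact h b hb.1 b' hb'.1 hb.2 hb'.2

/-- The multiset of types of one symbol: empty for an old symbol. -/
def tyM (o : Option W) : Multiset W := o.elim 0 fun w => {w}

@[simp] theorem tyM_none : tyM (none : Option W) = 0 := rfl
@[simp] theorem tyM_some (w : W) : tyM (some w) = {w} := rfl

/-- The pattern of the word `τ` on `T`: the multiset of types of its new symbols. -/
def pat (ty : A → Option W) (T : Finset ι) (τ : ι → A) : Multiset W := ∑ i ∈ T, tyM (ty (τ i))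

theorem pat_congr {ty : A → Option W} {ty' : B → Option W} {T : Finset ι} {τ : ι → A}
    {τ' : ι → B} (h : ∀ i ∈ T, ty (τ i) = ty' (τ' i)) : pat ty T τ = pat ty' T τ' :=
  sum_congr rfl fun i hi => by rw [h i hi]

theorem pat_mono (ty : A → Option W) {T T' : Finset ι} (h : T ⊆ T') (τ : ι → A) :
    pat ty T τ ≤ pat ty T' τ :=
  sum_le_sum_of_subset_of_nonneg h fun _ _ _ => Multiset.zero_le _

theorem card_filter_pat (ty : A → Option W) (q : W → Prop) [DecidablePred q] (T : Finset ι)
    (τ : ι → A) :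
    ((pat ty T τ).filter q).card = #{i ∈ T | ∃ w, ty (τ i) = some w ∧ q w} := by
  unfold pat
  induction T using Finset.induction_on with
  | empty => simp
  | insert j T hj ih =>
    rw [sum_insert hj, Multiset.filter_add, Multiset.card_add, ih, filter_insert]
    rcases h : ty (τ j) with _ | w
    · simp
    · by_cases hq : q w
      · rw [if_pos ⟨w, rfl, hq⟩, card_insert_of_notMem (by simp [hj])]
        simp [hq, Multiset.filter_singleton, add_comm]
      · rw [if_neg (by simpa using hq)]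
        simp [hq, Multiset.filter_singleton]

theorem card_pat (ty : A → Option W) (T : Finset ι) (τ : ι → A) :
    (pat ty T τ).card = #{i ∈ T | ty (τ i) ≠ none} := by
  have := card_filter_pat ty (fun _ => True) T τ
  rw [(@Multiset.filter_eq_self _ _ (_) _).mpr fun _ _ => trivial] at this
  rw [this]
  congr 1
  ext i
  simp [Option.ne_none_iff_exists']

/-- A down-closed nonempty family of patterns. -/
def Down (𝒟 : Multiset W → Prop) : Prop := 𝒟 0 ∧ ∀ p q, p ≤ q → 𝒟 q → 𝒟 p

/-- `μ` covers each word on a `t`-set once if its pattern is allowed, and otherwise not at all. -/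
def Ing (t : ℕ) (ty : A → Option W) (𝒟 : Multiset W → Prop) (μ : Multiset (ι → A)) : Prop :=
  ∀ T : Finset ι, #T = t → ∀ τ : ι → A, cov μ T τ = if 𝒟 (pat ty T τ) then 1 else 0

/-- Ingredients exist for all down-closed families whose patterns have size less than `σ`. -/
def Univ (ι : Type) (t σ : ℕ) (ty : A → Option W) : Prop :=
  ∀ 𝒟 : Multiset W → Prop, Down 𝒟 → (∀ p, 𝒟 p → p.card < σ) →
    ∃ μ : Multiset (ι → A), Ing t ty 𝒟 μ

/-- A packing that is exact on the words whose pattern has size at least `s`. -/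
def XL (t s : ℕ) (ty : A → Option W) (𝒟 : Multiset W → Prop) (μ : Multiset (ι → A)) : Prop :=
  ∀ T : Finset ι, #T = t → ∀ τ : ι → A,
    cov μ T τ ≤ (if 𝒟 (pat ty T τ) then 1 else 0) ∧
      (s ≤ (pat ty T τ).card → cov μ T τ = if 𝒟 (pat ty T τ) then 1 else 0)

theorem cov_map_equiv (μ : Multiset (ι → A)) (e : ι → A ≃ B) (T : Finset ι) (τ : ι → B) :
    cov (μ.map fun b i => e i (b i)) T τ = cov μ T fun i => (e i).symm (τ i) :=
  cov_map_of_iff fun _ _ => forall₂_congr fun i _ => (e i).eq_symm_apply.symm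

theorem Ing.map_equiv {t : ℕ} {ty : A → Option W} {ty' : B → Option W} {𝒟 : Multiset W → Prop}
    {μ : Multiset (ι → A)} (h : Ing t ty 𝒟 μ) (e : ι → A ≃ B) (he : ∀ i x, ty' (e i x) = ty x) :
    Ing t ty' 𝒟 (μ.map fun b i => e i (b i)) := by
  intro T hT τ
  rw [cov_map_equiv, h T hT, pat_congr (ty' := ty') (τ' := τ)]
  intro i _
  rw [← he i, Equiv.apply_symm_apply]

theorem XL.map_equiv {t s : ℕ} {ty : A → Option W} {ty' : B → Option W} {𝒟 : Multiset W → Prop}
    {μ : Multiset (ι → A)} (h : XL t s ty 𝒟 μ) (e : ι → A ≃ B) (he : ∀ i x, ty' (e i x) = ty x) :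
    XL t s ty' 𝒟 (μ.map fun b i => e i (b i)) := by
  intro T hT τ
  have := h T hT fun i => (e i).symm (τ i)
  rw [pat_congr (ty' := ty') (τ' := τ)] at this
  · rwa [cov_map_equiv]
  · intro i _
    rw [← he i, Equiv.apply_symm_apply]

theorem Univ.map_equiv {t σ : ℕ} {ty : A → Option W} {ty' : B → Option W} (h : Univ ι t σ ty)
    (e : A ≃ B) (he : ∀ x, ty' (e x) = ty x) : Univ ι t σ ty' := fun 𝒟 h1 h2 =>
  let ⟨_, hμ⟩ := h 𝒟 h1 h2
  ⟨_, hμ.map_equiv (fun _ => e) fun _ => he⟩

end Designs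

section Pol

variable {F : Type} [Field F] {Λ Λ' : Type} [AddCommGroup Λ] [Module F Λ] [AddCommGroup Λ']
  [Module F Λ'] {ι : Type}

/-- Polynomial functions `F → Λ` of degree less than `n`. -/
def Pol (F : Type) [Field F] (Λ : Type) [AddCommGroup Λ] [Module F Λ] (n : ℕ) :
    Submodule F (F → Λ) where
  carrier := {f | ∃ c : ℕ → Λ, ∀ u, f u = ∑ e ∈ range n, u ^ e • c e}
  add_mem' := by
    rintro f g ⟨c, hc⟩ ⟨d, hd⟩
    exact ⟨c + d, fun u => by simp [hc, hd, sum_add_distrib]⟩
  zero_mem' := ⟨0, by simp⟩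
  smul_mem' := by
    rintro r f ⟨c, hc⟩
    refine ⟨r • c, fun u => ?_⟩
    simp only [Pi.smul_apply, hc, smul_sum]
    exact sum_congr rfl fun e _ => smul_comm _ _ _

theorem mem_Pol {n : ℕ} {f : F → Λ} :
    f ∈ Pol F Λ n ↔ ∃ c : ℕ → Λ, ∀ u, f u = ∑ e ∈ range n, u ^ e • c e := Iff.rfl

theorem Pol_mono {n n' : ℕ} (h : n ≤ n') {f : F → Λ} (hf : f ∈ Pol F Λ n) : f ∈ Pol F Λ n' := by
  obtain ⟨c, hc⟩ := hf
  refine ⟨fun e => if e < n then c e else 0, fun u => ?_⟩
  rw [hc, ← sum_subset (range_subset_range.mpr h)]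
  · exact sum_congr rfl fun e he => by simp [mem_range.mp he]
  · intro e _ he
    simp [show ¬ e < n by simpa using he]

theorem Pol_comp {n : ℕ} (θ : Λ →ₗ[F] Λ') {f : F → Λ} (hf : f ∈ Pol F Λ n) :
    (fun u => θ (f u)) ∈ Pol F Λ' n := by
  obtain ⟨c, hc⟩ := hf
  exact ⟨fun e => θ (c e), fun u => by simp [hc, map_sum]⟩

theorem Pol_smul_vec {n : ℕ} {q : F → F} (hq : q ∈ Pol F F n) (v : Λ) :
    (fun u => q u • v) ∈ Pol F Λ n :=
  Pol_comp (LinearMap.toSpanSingleton F Λ v) hq

theorem Pol_pi {X : Type} {n : ℕ} {f : F → X → Λ} (h : ∀ x, (fun u => f u x) ∈ Pol F Λ n) :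
    f ∈ Pol F (X → Λ) n := by
  choose c hc using h
  refine ⟨fun e x => c x e, fun u => funext fun x => ?_⟩
  rw [Finset.sum_apply]
  exact hc x u

theorem Pol_apply {X : Type} {n : ℕ} {f : F → X → Λ} (h : f ∈ Pol F (X → Λ) n) (x : X) :
    (fun u => f u x) ∈ Pol F Λ n := Pol_comp (LinearMap.proj x) h

theorem pow_smul_mem_Pol {n e : ℕ} (he : e < n) (v : Λ) : (fun u : F => u ^ e • v) ∈ Pol F Λ n := by
  refine ⟨fun e' => if e' = e then v else 0, fun u => ?_⟩
  rw [sum_eq_single e]
  · simp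
  · intro b _ hb; simp [hb]
  · intro h; exact absurd (mem_range.mpr he) h

theorem eval_mem_Pol {n : ℕ} (P : Polynomial F) (hP : P.degree < n) :
    (fun u => P.eval u) ∈ Pol F F n := by
  by_cases h0 : P = 0
  · subst h0
    exact ⟨0, by simp⟩
  · refine ⟨fun e => P.coeff e, fun u => ?_⟩
    beta_reduce
    rw [Polynomial.eval_eq_sum_range' ((Polynomial.natDegree_lt_iff_degree_lt h0).mpr hP)]
    exact sum_congr rfl fun e _ => by rw [smul_eq_mul, mul_comm]

theorem exists_poly_of_mem_Pol {n : ℕ} {q : F → F} (hq : q ∈ Pol F F n) :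
    ∃ P : Polynomial F, P.degree < n ∧ ∀ u, q u = P.eval u := by
  obtain ⟨c, hc⟩ := hq
  refine ⟨∑ e ∈ range n, Polynomial.C (c e) * Polynomial.X ^ e, ?_, fun u => ?_⟩
  · refine (Polynomial.degree_sum_le _ _).trans_lt ?_
    refine (Finset.sup_lt_iff (WithBot.bot_lt_coe n)).mpr fun e he => ?_
    refine (Polynomial.degree_C_mul_X_pow_le _ _).trans_lt ?_
    exact WithBot.coe_lt_coe.mpr (mem_range.mp he)
  · rw [hc, Polynomial.eval_finsetSum]
    exact sum_congr rfl fun e _ => by
      rw [Polynomial.eval_mul, Polynomial.eval_C, Polynomial.eval_pow, Polynomial.eval_X,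
        smul_eq_mul, mul_comm]

theorem pol_eq_zero {a : ι → F} (ha : Function.Injective a) {n : ℕ} {f : F → Λ}
    (hf : f ∈ Pol F Λ n) {T : Finset ι} (hT : n ≤ #T) (h : ∀ i ∈ T, f (a i) = 0) : f = 0 := by
  funext u
  rw [Pi.zero_apply, ← Module.forall_dual_apply_eq_zero_iff F]
  intro φ
  obtain ⟨P, hP, hP'⟩ := exists_poly_of_mem_Pol (Pol_comp φ hf)
  have : P = 0 := by
    refine Polynomial.eq_zero_of_degree_lt_of_eval_index_eq_zero T ha.injOn
      (hP.trans_le (by exact_mod_cast hT)) fun i hi => ?_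
    rw [← hP', h i hi, map_zero]
  rw [hP', this, Polynomial.eval_zero]

theorem pol_unique {a : ι → F} (ha : Function.Injective a) {n : ℕ} {f g : F → Λ}
    (hf : f ∈ Pol F Λ n) (hg : g ∈ Pol F Λ n) {T : Finset ι} (hT : n ≤ #T)
    (h : ∀ i ∈ T, f (a i) = g (a i)) : f = g :=
  sub_eq_zero.mp (pol_eq_zero ha (sub_mem hf hg) hT fun i hi => by simp [h i hi])

theorem pol_interp {a : ι → F} (ha : Function.Injective a) {n : ℕ} {T : Finset ι} (hT : #T ≤ n)
    (x : ι → Λ) : ∃ f ∈ Pol F Λ n, ∀ i ∈ T, f (a i) = x i := by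
  have key : ∀ j, ∃ q ∈ Pol F F n, ∀ i ∈ T, q (a i) = if i = j then 1 else 0 := fun j =>
    ⟨_, eval_mem_Pol (Lagrange.interpolate T a fun i => if i = j then 1 else 0)
      ((Lagrange.degree_interpolate_lt _ ha.injOn).trans_le (by exact_mod_cast hT)),
      fun i hi => Lagrange.eval_interpolate_at_node _ ha.injOn hi⟩
  choose q hq hq' using key
  refine ⟨∑ j ∈ T, fun u => q j u • x j, sum_mem fun j _ => Pol_smul_vec (hq j) _, fun i hi => ?_⟩
  rw [Finset.sum_apply, sum_eq_single i]
  · simp [hq' i i hi]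
  · intro j _ hj
    simp [hq' j i hi, Ne.symm hj]
  · intro h; exact absurd hi h

/-- The word `x` agrees on `U` with a polynomial function of degree less than `n`. -/
def PolyOn (a : ι → F) (n : ℕ) (U : Finset ι) (x : ι → Λ) : Prop :=
  ∃ g ∈ Pol F Λ n, ∀ i ∈ U, g (a i) = x i

theorem PolyOn.comp {a : ι → F} {n : ℕ} {U : Finset ι} {x : ι → Λ} (h : PolyOn a n U x)
    (θ : Λ →ₗ[F] Λ') : PolyOn a n U fun i => θ (x i) :=
  let ⟨_, hg, hg'⟩ := h
  ⟨_, Pol_comp θ hg, fun i hi => by simp [hg' i hi]⟩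

theorem PolyOn.congr {a : ι → F} {n : ℕ} {U : Finset ι} {x y : ι → Λ} (h : PolyOn a n U x)
    (hxy : ∀ i ∈ U, x i = y i) : PolyOn a n U y :=
  let ⟨g, hg, hg'⟩ := h
  ⟨g, hg, fun i hi => by rw [hg' i hi, hxy i hi]⟩

theorem PolyOn.sub {a : ι → F} {n : ℕ} {U : Finset ι} {x y : ι → Λ} (hx : PolyOn a n U x)
    (hy : PolyOn a n U y) : PolyOn a n U fun i => x i - y i :=
  let ⟨_, hg, hg'⟩ := hx
  let ⟨_, hf, hf'⟩ := hy
  ⟨_, sub_mem hg hf, fun i hi => by simp [hg' i hi, hf' i hi]⟩

theorem PolyOn.smul {a : ι → F} {n : ℕ} {U : Finset ι} {x : ι → Λ} (hx : PolyOn a n U x) (r : F) :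
    PolyOn a n U fun i => r • x i :=
  let ⟨_, hg, hg'⟩ := hx
  ⟨_, Submodule.smul_mem _ r hg, fun i hi => by simp [hg' i hi]⟩

theorem polyOn_of_mem {a : ι → F} {n : ℕ} (U : Finset ι) {g : F → Λ} (hg : g ∈ Pol F Λ n) :
    PolyOn a n U fun i => g (a i) := ⟨g, hg, fun _ _ => rfl⟩

/-- A word that vanishes on all but one point of a set of `n + 1` points and is polynomial of
degree less than `n` there vanishes. -/
theorem PolyOn.eq_zero {a : ι → F} (ha : Function.Injective a) {n : ℕ} {U : Finset ι}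
    (hU : n + 1 ≤ #U) {x : ι → Λ} (hx : PolyOn a n U x) {j : ι} (hj : j ∈ U)
    (h : ∀ i ∈ U, i ≠ j → x i = 0) : x j = 0 := by
  obtain ⟨g, hg, hg'⟩ := hx
  have : g = 0 := pol_eq_zero ha hg (T := U.erase j) (by rw [card_erase_of_mem hj]; omega)
    fun i hi => by rw [hg' i (mem_of_mem_erase hi), h i (mem_of_mem_erase hi) (ne_of_mem_erase hi)]
  rw [← hg' j hj, this, Pi.zero_apply]

/-- `u ^ n • v + g u` with `v ≠ 0` has at most `n` zeros. -/
theorem card_le_of_pow_add {a : ι → F} (ha : Function.Injective a) {n : ℕ} {v : Λ} (hv : v ≠ 0)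
    {g : F → Λ} (hg : g ∈ Pol F Λ n) {U : Finset ι} (h : ∀ i ∈ U, a i ^ n • v + g (a i) = 0) :
    #U ≤ n := by
  by_contra hlt
  obtain ⟨φ, hφ⟩ : ∃ φ : Module.Dual F Λ, φ v ≠ 0 := by
    by_contra hc
    push Not at hc
    exact hv ((Module.forall_dual_apply_eq_zero_iff F v).mp hc)
  obtain ⟨P, hP, hP'⟩ := exists_poly_of_mem_Pol (Pol_comp φ hg)
  have hdeg : (Polynomial.C (φ v) * Polynomial.X ^ n + P).degree = (n : WithBot ℕ) := by
    rw [Polynomial.degree_add_eq_left_of_degree_lt] <;>
      rw [Polynomial.degree_C_mul_X_pow _ hφ]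
    exact hP
  have : Polynomial.C (φ v) * Polynomial.X ^ n + P = 0 := by
    refine Polynomial.eq_zero_of_degree_lt_of_eval_index_eq_zero U ha.injOn ?_ fun i hi => ?_
    · rw [hdeg]; exact_mod_cast (by omega : n < #U)
    · have := congrArg φ (h i hi)
      rw [map_add, map_smul, map_zero, smul_eq_mul] at this
      rw [Polynomial.eval_add, ← hP', ← this, Polynomial.eval_mul, Polynomial.eval_C,
        Polynomial.eval_pow, Polynomial.eval_X, mul_comm]
  rw [this, Polynomial.degree_zero] at hdeg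
  exact absurd hdeg (by simp)

theorem not_polyOn_pow {a : ι → F} (ha : Function.Injective a) {n : ℕ} {v : Λ} (hv : v ≠ 0)
    {U : Finset ι} (hU : n + 1 ≤ #U) : ¬ PolyOn a n U fun i => a i ^ n • v := by
  rintro ⟨g, hg, hg'⟩
  have := card_le_of_pow_add ha hv (neg_mem hg) (U := U) fun i hi => by simp [hg' i hi]
  omega

/-- A failure of polynomiality is witnessed by one nonzero vector. -/
theorem exists_witness {a : ι → F} (ha : Function.Injective a) {n : ℕ} {U : Finset ι}
    (hU : n ≤ #U) {x : ι → Λ} (hx : ¬ PolyOn a n U x) :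
    ∃ z : Λ, z ≠ 0 ∧ ∀ (Λ' : Type) [AddCommGroup Λ'] [Module F Λ'] (θ : Λ →ₗ[F] Λ'), θ z ≠ 0 →
      ¬ PolyOn a n U fun i => θ (x i) := by
  obtain ⟨T, hTU, hT⟩ := exists_subset_card_eq hU
  obtain ⟨g, hg, hg'⟩ := pol_interp ha hT.le x
  obtain ⟨j, hj, hne⟩ : ∃ j ∈ U, g (a j) ≠ x j := by
    by_contra hc
    push Not at hc
    exact hx ⟨g, hg, hc⟩
  refine ⟨g (a j) - x j, sub_ne_zero.mpr hne, fun Λ' _ _ θ hθ ⟨g', h1, h2⟩ => hθ ?_⟩
  have : g' = fun u => θ (g u) := pol_unique ha h1 (Pol_comp θ hg) hT.ge fun i hi => by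
    rw [h2 i (hTU hi), hg' i hi]
  have h3 := h2 j hj
  rw [this] at h3
  rw [map_sub, sub_eq_zero]
  exact h3

variable (F Λ) in
/-- The finite set of polynomial functions of degree less than `n`. -/
def PolF [Fintype F] [Fintype Λ] (n : ℕ) : Finset (F → Λ) := {f | f ∈ Pol F Λ n}

@[simp] theorem mem_PolF [Fintype F] [Fintype Λ] {n : ℕ} {f : F → Λ} :
    f ∈ PolF F Λ n ↔ f ∈ Pol F Λ n := by simp [PolF]

theorem card_PolF_le [Fintype F] [Fintype Λ] (n : ℕ) : #(PolF F Λ n) ≤ Fintype.card Λ ^ n := by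
  have : PolF F Λ n ⊆ (univ : Finset (Fin n → Λ)).image
      fun c u => ∑ e : Fin n, u ^ (e : ℕ) • c e := by
    intro f hf
    obtain ⟨c, hc⟩ := mem_PolF.mp hf
    refine mem_image.mpr ⟨fun e => c e, mem_univ _, funext fun u => ?_⟩
    rw [hc, Fin.sum_univ_eq_sum_range fun e => u ^ e • c e]
  refine (card_le_card this).trans (card_image_le.trans ?_)
  simp

/-- Exactly one polynomial function of degree less than `n` interpolates on an `n`-set. -/
theorem card_interp [Fintype F] [Fintype Λ] {a : ι → F} (ha : Function.Injective a) {n : ℕ}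
    {T : Finset ι} (hT : #T = n) (x : ι → Λ) :
    ∃ f ∈ Pol F Λ n, ∀ g, (g ∈ Pol F Λ n ∧ ∀ i ∈ T, g (a i) = x i) ↔ g = f := by
  obtain ⟨f, hf, hf'⟩ := pol_interp ha hT.le x
  refine ⟨f, hf, fun g => ⟨fun h => pol_unique ha h.1 hf hT.ge fun i hi => ?_, ?_⟩⟩
  · rw [h.2 i hi, hf' i hi]
  · rintro rfl; exact ⟨hf, hf'⟩

end Pol

end

end Pool.Agent.MP_c7a479_co

end

section

/-! Integral decompositions with polynomially many blocks. -/

namespace Pool.Agent.MP_c7a479_co

open Finset Function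
open scoped Classical

noncomputable section

variable {ι K : Type} [Fintype ι] [Fintype K]

/-- Words with at most `t` letters different from `z`. -/
def small (ι : Type) [Fintype ι] {K : Type} [Fintype K] (z : K) (t : ℕ) : Finset (ι → K) :=
  {b | #{i | b i ≠ z} ≤ t}

theorem card_small_le (z : K) (t : ℕ) :
    #(small ι z t) ≤ (Fintype.card ι * Fintype.card K + 1) ^ t := by
  have : small ι z t ⊆ (univ : Finset (Fin t → Option (ι × K))).image
      fun v i => if h : ∃ κ, ∃ e, v e = some (i, κ) then h.choose else z := by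
    intro b hb
    have hb' : Fintype.card ({i | b i ≠ z} : Finset ι) ≤ Fintype.card (Fin t) := by
      rw [Fintype.card_coe, Fintype.card_fin]
      simpa [small] using hb
    obtain ⟨g⟩ := Function.Embedding.nonempty_of_card_le hb'
    refine mem_image.mpr ⟨fun e => if h : ∃ i, g i = e then some (h.choose, b h.choose) else none,
      mem_univ _, funext fun i => ?_⟩
    have hv : ∀ κ, (∃ e, (if h : ∃ i, g i = e then some ((h.choose : ι), b h.choose) else none) =
        some (i, κ)) ↔ b i ≠ z ∧ κ = b i := by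
      intro κ
      constructor
      · rintro ⟨e, he⟩
        split_ifs at he with h
        simp only [Option.some.injEq, Prod.mk.injEq] at he
        have := h.choose.2
        rw [he.1] at this
        exact ⟨by simpa using this, by rw [← he.2, he.1]⟩
      · rintro ⟨hi, rfl⟩
        have h : ∃ j, g j = g ⟨i, by simpa using hi⟩ := ⟨_, rfl⟩
        refine ⟨_, (dif_pos h).trans ?_⟩
        rw [g.injective h.choose_spec]
    simp only [hv]
    split_ifs with h
    · exact h.choose_spec.2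
    · by_contra hne
      exact h ⟨b i, Ne.symm hne, rfl⟩
  refine (card_le_card this).trans (card_image_le.trans ?_)
  simp

omit [Fintype ι] in
theorem sum_cov_update (μ : Multiset (ι → K)) {T : Finset ι} {i : ι} (hi : i ∉ T) (τ : ι → K) :
    ∑ u, cov μ (insert i T) (update τ i u) = cov μ T τ := by
  induction μ using Multiset.induction_on with
  | empty => simp
  | cons b μ ih =>
    rw [← Multiset.singleton_add]
    simp only [cov_add, sum_add_distrib, ih, cov_singleton]
    congr 1
    rw [sum_eq_single (b i)]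
    · congr 1
      simp only [mem_insert, forall_eq_or_imp, update_self, true_and, eq_iff_iff]
      exact forall₂_congr fun j hj => by rw [update_of_ne (ne_of_mem_of_not_mem hj hi)]
    · intro u _ hu
      rw [if_neg]
      intro h
      exact hu (by simpa using (h i (mem_insert_self _ _)).symm)
    · simp

/-- `L T` depends only on the letters in `T`. -/
def IsLocal (t : ℕ) (L : Finset ι → (ι → K) → ℤ) : Prop :=
  ∀ T, #T = t → ∀ τ τ', (∀ i ∈ T, τ i = τ' i) → L T τ = L T τ'

/-- The marginals of `L` are consistent. -/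
def IsCons (t : ℕ) (L : Finset ι → (ι → K) → ℤ) : Prop :=
  ∀ T, #T + 1 = t → ∀ i ∉ T, ∀ j ∉ T, ∀ τ,
    ∑ u, L (insert i T) (update τ i u) = ∑ u, L (insert j T) (update τ j u)

omit [Fintype ι] [Fintype K] in
theorem const_of_exchange {t : ℕ} {S : Finset ι} {v : Finset ι → ℤ}
    (h : ∀ T, #T + 1 = t → S ⊆ T → ∀ i ∉ T, ∀ j ∉ T, v (insert i T) = v (insert j T))
    {T' : Finset ι} (hT' : #T' = t) (hS' : S ⊆ T') :
    ∀ n, ∀ T, #(T \ T') = n → #T = t → S ⊆ T → v T = v T' := by
  intro n
  induction n with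
  | zero =>
    intro T hn hT _
    rw [card_eq_zero, sdiff_eq_empty_iff_subset] at hn
    rw [eq_of_subset_of_card_le hn (by omega)]
  | succ n ih =>
    intro T hn hT hS
    obtain ⟨i, hi⟩ : (T \ T').Nonempty := card_pos.mp (by omega)
    obtain ⟨j, hj⟩ : (T' \ T).Nonempty := by
      rw [← card_pos, card_sdiff_comm (hT'.trans hT.symm)]; omega
    rw [mem_sdiff] at hi hj
    have hSe : S ⊆ T.erase i := fun x hx =>
      mem_erase.mpr ⟨fun hxi => hi.2 (hxi ▸ hS' hx), hS hx⟩
    have hc : #(T.erase i) + 1 = t := by rw [card_erase_add_one hi.1, hT]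
    have hj' : j ∉ T.erase i := fun h => hj.2 (mem_of_mem_erase h)
    have := h (T.erase i) hc hSe i (notMem_erase _ _) j hj'
    rw [insert_erase hi.1] at this
    rw [this]
    refine ih _ ?_ (by rw [card_insert_of_notMem hj', hc]) (hSe.trans (subset_insert _ _))
    have : insert j (T.erase i) \ T' = (T \ T').erase i := by
      ext x
      simp only [mem_sdiff, mem_insert, mem_erase]
      constructor
      · rintro ⟨rfl | h1, h2⟩
        · exact absurd hj.1 h2
        · exact ⟨h1.1, h1.2, h2⟩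
      · rintro ⟨h1, h2, h3⟩
        exact ⟨Or.inr ⟨h1, h2⟩, h3⟩
    rw [this, card_erase_of_mem (mem_sdiff.mpr hi), hn]
    rfl

theorem int_decomp_aux (z : K) {t : ℕ} (ht : t ≤ Fintype.card ι) : ∀ j ≤ t + 1,
    ∀ (L : Finset ι → (ι → K) → ℤ) (B : ℕ), IsLocal t L → IsCons t L →
      (∀ T, #T = t → ∀ τ, |L T τ| ≤ B) →
      (∀ T, #T = t → ∀ τ, j ≤ #{i ∈ T | τ i ≠ z} → L T τ = 0) →
      ∃ P N : Multiset (ι → K), (∀ T, #T = t → ∀ τ, (cov P T τ : ℤ) = L T τ + cov N T τ) ∧
        P.card + N.card + B ≤ B * (#(small ι z t) + 1) ^ j := by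
  intro j
  induction j with
  | zero =>
    intro _ L B _ _ _ h0
    exact ⟨0, 0, fun T hT τ => by simp [h0 T hT τ (Nat.zero_le _)], by simp⟩
  | succ j ih =>
    intro hj L B hloc hcons hB h0
    set 𝔅 : Finset (ι → K) := {b | #{i | b i ≠ z} = j} with h𝔅
    have h𝔅c : #𝔅 ≤ #(small ι z t) := card_le_card fun b hb => by
      simp only [h𝔅, small, mem_filter, mem_univ, true_and] at hb ⊢
      omega
    have hval : ∀ b : ι → K, ∃ v : ℤ, |v| ≤ B ∧ (b ∈ 𝔅 →
        ∀ T, #T = t → ({i | b i ≠ z} : Finset ι) ⊆ T → L T b = v) := by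
      intro b
      by_cases hb : b ∈ 𝔅
      swap
      · exact ⟨0, by simp, fun h => absurd h hb⟩
      have hb' : #{i | b i ≠ z} = j := by simpa [h𝔅] using hb
      obtain ⟨T', hS', hT'⟩ := exists_superset_card_eq (s := {i | b i ≠ z}) (n := t)
        (by omega) ht
      refine ⟨L T' b, hB T' hT' b, fun _ T hT hS => ?_⟩
      refine const_of_exchange (v := fun T => L T b) ?_ hT' hS' _ T rfl hT hS
      intro T₀ hT₀ hS₀ i hi i' hi'
      have key : ∀ i ∉ T₀, ∑ u, L (insert i T₀) (update b i u) = L (insert i T₀) b := by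
        intro i hi
        have hbi : b i = z := by
          by_contra hne
          exact hi (hS₀ (by simpa using hne))
        rw [sum_eq_single z]
        · rw [← hbi, update_eq_self]
        · intro u _ hu
          refine h0 _ (by rw [card_insert_of_notMem hi, hT₀]) _ ?_
          rw [← hb', ← card_insert_of_notMem (a := i) (by simp [hbi])]
          refine card_le_card fun x hx => ?_
          rcases mem_insert.mp hx with rfl | hx
          · simp [hu]
          · have hx' := hS₀ hx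
            have : x ≠ i := ne_of_mem_of_not_mem hx' hi
            simpa [hx', this] using hx
        · simp
      rw [← key i hi, ← key i' hi']
      exact hcons T₀ hT₀ i hi i' hi' b
    choose val hvalB hval using hval
    set P₁ : Multiset (ι → K) := ∑ b ∈ 𝔅, Multiset.replicate (val b).toNat b
    set N₁ : Multiset (ι → K) := ∑ b ∈ 𝔅, Multiset.replicate (-val b).toNat b
    have hc : ∀ T τ, (cov P₁ T τ : ℤ) - cov N₁ T τ =
        ∑ b ∈ 𝔅, if ∀ i ∈ T, b i = τ i then val b else 0 := by
      intro T τ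
      simp only [P₁, N₁, cov_sum, cov_replicate, Nat.cast_sum, ← sum_sub_distrib]
      refine sum_congr rfl fun b _ => ?_
      split_ifs
      · exact Int.toNat_sub_toNat_neg _
      · simp
    have hcard : P₁.card + N₁.card ≤ #(small ι z t) * B := by
      simp only [P₁, N₁, Multiset.card_sum, Multiset.card_replicate, ← sum_add_distrib]
      refine (sum_le_card_nsmul _ _ B fun b _ => ?_).trans (by simpa using Nat.mul_le_mul_right _ h𝔅c)
      have := hvalB b
      rw [abs_le] at this
      omega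
    obtain ⟨P, N, hPN, hPNc⟩ := ih (by omega) (fun T τ => L T τ - (cov P₁ T τ - cov N₁ T τ))
      (B * (#(small ι z t) + 1))
      (fun T hT τ τ' h => by beta_reduce; rw [hloc T hT τ τ' h, cov_congr P₁ h, cov_congr N₁ h])
      (fun T hT i hi i' hi' τ => by
        simp only [sum_sub_distrib, ← Nat.cast_sum, sum_cov_update _ hi, sum_cov_update _ hi']
        rw [hcons T hT i hi i' hi' τ])
      (fun T hT τ => by
        rw [hc]
        refine (abs_sub _ _).trans ?_
        have h1 : |∑ b ∈ 𝔅, if ∀ i ∈ T, b i = τ i then val b else 0| ≤ #𝔅 * B := by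
          refine (abs_sum_le_sum_abs _ _).trans ?_
          refine (sum_le_card_nsmul _ _ (B : ℤ) fun b _ => ?_).trans (by simp)
          split_ifs
          · exact hvalB b
          · simp
        have h2 : (#𝔅 : ℤ) * B ≤ #(small ι z t) * B := by
          exact_mod_cast Nat.mul_le_mul_right _ h𝔅c
        have := hB T hT τ
        push_cast
        linarith)
      (fun T hT τ hτ => by
        rw [hc, sub_eq_zero]
        have hsub : ∀ b : ι → K, (∀ i ∈ T, b i = τ i) →
            ({i ∈ T | τ i ≠ z} : Finset ι) ⊆ ({i | b i ≠ z} : Finset ι) := fun b hb i hi => by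
          rw [mem_filter] at hi
          simpa [hb i hi.1] using hi.2
        rcases hτ.lt_or_eq with hlt | heq
        · rw [h0 T hT τ hlt, eq_comm]
          refine sum_eq_zero fun b hb => if_neg fun h => ?_
          have := card_le_card (hsub b h)
          have hb' : #{i | b i ≠ z} = j := by simpa [h𝔅] using hb
          omega
        · set b₀ : ι → K := fun i => if i ∈ T then τ i else z
          have hb₀ : ({i | b₀ i ≠ z} : Finset ι) = {i ∈ T | τ i ≠ z} := by
            ext i
            by_cases hi : i ∈ T <;> simp [b₀, hi]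
          have hmem : b₀ ∈ 𝔅 := by simp only [h𝔅, mem_filter, mem_univ, true_and, hb₀, heq]
          have hag : ∀ i ∈ T, b₀ i = τ i := fun i hi => if_pos hi
          rw [sum_eq_single b₀, if_pos hag, ← hval b₀ hmem T hT (hb₀ ▸ filter_subset _ _)]
          · exact (hloc T hT _ _ hag).symm
          · intro b hb hne
            refine if_neg fun h => hne (funext fun i => ?_)
            have hb' : #{i | b i ≠ z} = j := by simpa [h𝔅] using hb
            have he := eq_of_subset_of_card_le (hsub b h) (by omega)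
            by_cases hi : i ∈ T
            · rw [h i hi, hag i hi]
            · have : i ∉ ({i | b i ≠ z} : Finset ι) := he ▸ fun h => hi (mem_filter.mp h).1
              simpa [b₀, hi] using this
          · intro h; exact absurd hmem h)
    refine ⟨P + P₁, N + N₁, fun T hT τ => ?_, ?_⟩
    · have := hPN T hT τ
      simp only [cov_add, Nat.cast_add]
      linarith
    · rw [pow_succ', ← mul_assoc]
      refine le_trans ?_ hPNc
      simp only [Multiset.card_add]
      nlinarith

/-- Integral decomposition of a consistent family with values of modulus at most one. -/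
theorem int_decomp (z : K) {t : ℕ} (ht : t ≤ Fintype.card ι) (L : Finset ι → (ι → K) → ℤ)
    (hloc : IsLocal t L) (hcons : IsCons t L) (hB : ∀ T, #T = t → ∀ τ, |L T τ| ≤ 1) :
    ∃ P N : Multiset (ι → K), (∀ T, #T = t → ∀ τ, (cov P T τ : ℤ) = L T τ + cov N T τ) ∧
      P.card + N.card ≤ ((Fintype.card ι * Fintype.card K + 1) ^ t + 1) ^ (t + 1) := by
  obtain ⟨P, N, h1, h2⟩ := int_decomp_aux z ht (t + 1) le_rfl L 1 hloc hcons
    (by exact_mod_cast hB) fun T hT τ h => absurd (h.trans (card_filter_le _ _)) (by omega)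
  refine ⟨P, N, h1, ?_⟩
  have := Nat.pow_le_pow_left (Nat.add_le_add_right (card_small_le (ι := ι) z t) 1) (t + 1)
  omega

end

end Pool.Agent.MP_c7a479_co

end

section

/-! A combinatorial absorber: splitting and elimination gadgets turn a signed decomposition into
two families of blocks on a larger vertex set, the negative one being edge disjoint. -/

namespace Pool.Agent.MP_c7a479_co

open Finset Function
open scoped Classical

noncomputable section

section Fam

variable {ι A B α : Type}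

/-- The multiset of blocks `b x`, `x ∈ s`. -/
def fam (s : Finset α) (b : α → ι → A) : Multiset (ι → A) := ∑ x ∈ s, {b x}

theorem fam_eq_map (s : Finset α) (b : α → ι → A) : fam s b = s.val.map b := by
  rw [fam, Finset.sum, ← Multiset.sum_map_singleton (s.val.map b), Multiset.map_map]
  rfl

theorem cov_fam (s : Finset α) (b : α → ι → A) (T : Finset ι) (τ : ι → A) :
    cov (fam s b) T τ = ∑ x ∈ s, cov {b x} T τ := cov_sum _ _ _ _

theorem mem_fam {s : Finset α} {b : α → ι → A} {c : ι → A} : c ∈ fam s b ↔ ∃ x ∈ s, b x = c := by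
  simp [fam_eq_map]

theorem card_fam (s : Finset α) (b : α → ι → A) : (fam s b).card = #s := by
  simp [fam_eq_map]

theorem map_fam {ι' : Type} (s : Finset α) (b : α → ι → A) (φ : (ι → A) → ι' → B) :
    (fam s b).map φ = fam s fun x => φ (b x) := by
  simp [fam_eq_map]

theorem exists_fam (μ : Multiset (ι → A)) :
    ∃ b : Fin μ.card → ι → A, μ = fam univ b := by
  induction μ using Quotient.inductionOn with
  | h l =>
    refine ⟨l.get, ?_⟩
    have : (univ : Finset (Fin l.length)).val.map l.get = l := by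
      rw [Fin.univ_val_map, List.ofFn_get]
    exact this.symm.trans (fam_eq_map _ _).symm

theorem cov_singleton_congr {b b' : ι → A} {T : Finset ι} (h : ∀ i ∈ T, b i = b' i) (τ : ι → A) :
    cov {b} T τ = cov {b'} T τ := by
  rw [cov_singleton, cov_singleton]
  congr 1
  exact propext (forall₂_congr fun i hi => by rw [h i hi])

theorem cov_shift {Γ : Type} [AddCommGroup Γ] (s : Finset Γ) (b b' : Γ → ι → A) (T : Finset ι)
    (s' : Finset Γ) (δ : Γ) (hs : ∀ γ, γ ∈ s' ↔ γ + δ ∈ s)
    (h : ∀ γ ∈ s', ∀ i ∈ T, b' γ i = b (γ + δ) i) (τ : ι → A) :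
    cov (fam s' b') T τ = cov (fam s b) T τ := by
  rw [cov_fam, cov_fam]
  exact sum_equiv (Equiv.addRight δ) hs fun γ hγ => cov_singleton_congr (h γ hγ) τ

theorem cov_push [Nonempty A] {μ ν : Multiset (ι → A)} {T : Finset ι}
    (h : ∀ τ, cov μ T τ = cov ν T τ) (φ : ι → A → B) (τ : ι → B) :
    cov (μ.map fun b i => φ i (b i)) T τ = cov (ν.map fun b i => φ i (b i)) T τ := by
  have key : ∀ μ : Multiset (ι → A), ∀ w : T → A, (μ.map fun b (i : T) => b i).count w =
      cov μ T fun i => if h : i ∈ T then w ⟨i, h⟩ else Classical.arbitrary A := by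
    intro μ w
    rw [Multiset.count_map, cov, Multiset.countP_eq_card_filter]
    congr 1
    refine Multiset.filter_congr fun b _ => ⟨fun h i hi => by simp [hi, h], fun h => ?_⟩
    funext i
    simpa using (h i i.2).symm
  have h1 : (μ.map fun b (i : T) => b i) = ν.map fun b (i : T) => b i :=
    Multiset.ext.mpr fun w => by rw [key, key, h]
  have key2 : ∀ μ : Multiset (ι → A), cov (μ.map fun b i => φ i (b i)) T τ =
      (μ.map fun b (i : T) => b i).countP fun w => ∀ i : T, φ i (w i) = τ i := by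
    intro μ
    rw [cov_map, Multiset.countP_map, Multiset.countP_eq_card_filter]
    congr 1
    exact Multiset.filter_congr fun b _ => by simp
  rw [key2, key2, h1]

theorem exists_match {α' : Type} [Fintype α] [Fintype α'] [Nonempty A] (b : α → ι → A)
    (b' : α' → ι → A) (T : Finset ι) (h : ∀ τ, cov (fam univ b') T τ ≤ cov (fam univ b) T τ) :
    ∃ m : α' → α, Injective m ∧ ∀ x, ∀ i ∈ T, b (m x) i = b' x i := by
  have key : ∀ w : T → A, Nonempty ({x // (fun i : T => b' x i) = w} ↪
      {x // (fun i : T => b x i) = w}) := by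
    intro w
    apply Function.Embedding.nonempty_of_card_le
    have := h fun i => if h : i ∈ T then w ⟨i, h⟩ else Classical.arbitrary A
    simp only [cov_fam, cov_singleton, sum_boole, Nat.cast_id] at this
    rw [Fintype.card_subtype, Fintype.card_subtype]
    convert this using 3 <;>
    · refine ⟨fun h i hi => by simp [hi, ← h], fun h => funext fun i => ?_⟩
      simpa using h i i.2
  let e := fun w => Classical.choice (key w)
  have he : ∀ x, (fun i : T => b (e _ ⟨x, rfl⟩).1 i) = fun i : T => b' x i :=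
    fun x => (e _ ⟨x, rfl⟩).2
  refine ⟨fun x => (e _ ⟨x, rfl⟩).1, fun x y hxy => ?_, fun x i hi => congrFun (he x) ⟨i, hi⟩⟩
  have h1 : (fun i : T => b' x i) = fun i : T => b' y i := by
    rw [← he x, ← he y]
    simp only at hxy
    rw [hxy]
  have h2 : ∀ w (hx : (fun i : T => b' x i) = w) (hy : (fun i : T => b' y i) = w),
      (e w ⟨x, hx⟩).1 = (e w ⟨y, hy⟩).1 → x = y := fun w hx hy h =>
    congrArg Subtype.val ((e w).injective (Subtype.ext h))
  refine h2 _ rfl h1.symm (hxy.trans ?_)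
  have h3 : ∀ w (hy : (fun i : T => b' y i) = w), (e _ ⟨y, rfl⟩).1 = (e w ⟨y, hy⟩).1 := by
    rintro w rfl; rfl
  exact h3 _ _

end Fam

section Ups

variable {ι F : Type} [Field F] [Fintype F]

variable (F) in
/-- The two decompositions of the gadget: polynomials of degree less than `t`, and monic
polynomials of degree `t`. -/
def Ups (t : ℕ) (ε : Bool) : Finset (F → F) :=
  {f | (fun u => f u - if ε then u ^ t else 0) ∈ Pol F F t}

theorem mem_Ups {t : ℕ} {ε : Bool} {f : F → F} :
    f ∈ Ups F t ε ↔ (fun u => f u - if ε then u ^ t else 0) ∈ Pol F F t := by simp [Ups]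

theorem zero_mem_Ups (t : ℕ) : (0 : F → F) ∈ Ups F t false := by
  rw [mem_Ups]
  exact ⟨0, by simp⟩

theorem card_Ups_le (t : ℕ) (ε : Bool) : #(Ups F t ε) ≤ Fintype.card F ^ t := by
  refine le_trans ?_ (card_PolF_le (F := F) (Λ := F) t)
  refine card_le_card_of_injOn (fun f u => f u - if ε then u ^ t else 0)
    (fun f hf => mem_coe.mpr (mem_PolF.mpr (mem_Ups.mp hf))) fun f _ g _ h => funext fun u => ?_
  simpa using congrFun h u

theorem Ups_unique {a : ι → F} (ha : Injective a) {t : ℕ} {ε : Bool} {f g : F → F}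
    (hf : f ∈ Ups F t ε) (hg : g ∈ Ups F t ε) {T : Finset ι} (hT : t ≤ #T)
    (h : ∀ i ∈ T, f (a i) = g (a i)) : f = g := by
  have := pol_unique ha (mem_Ups.mp hf) (mem_Ups.mp hg) hT fun i hi => by simp [h i hi]
  funext u
  simpa using congrFun this u

theorem exists_Pi {a : ι → F} (ha : Injective a) (t : ℕ) : ∃ Q : Finset ι → F → F,
    ∀ T, #T = t → Q T ∈ Ups F t true ∧ ∀ i, Q T (a i) = 0 ↔ i ∈ T := by
  have : ∀ T : Finset ι, ∃ q : F → F, #T = t → q ∈ Ups F t true ∧ ∀ i, q (a i) = 0 ↔ i ∈ T := by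
    intro T
    by_cases hT : #T = t
    swap
    · exact ⟨0, fun h => absurd h hT⟩
    obtain ⟨g, hg, hg'⟩ := pol_interp ha hT.le fun i => -a i ^ t
    refine ⟨fun u => u ^ t + g u, fun _ => ⟨by simpa [mem_Ups] using hg, fun i => ⟨fun h => ?_,
      fun h => by simp [hg' i h]⟩⟩⟩
    by_contra hi
    have := card_le_of_pow_add ha (one_ne_zero (α := F)) hg (U := insert i T) fun j hj => by
      rcases mem_insert.mp hj with rfl | hj
      · simpa using h
      · simp [hg' j hj]
    rw [card_insert_of_notMem hi] at this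
    omega
  choose Q hQ using this
  exact ⟨Q, hQ⟩

theorem Ups_trade {A : Type} {a : ι → F} (ha : Injective a) {t : ℕ} (φ : ι → F → A)
    {T : Finset ι} (hT : #T = t) (τ : ι → A) :
    cov (fam (Ups F t false) fun f i => φ i (f (a i))) T τ =
      cov (fam (Ups F t true) fun f i => φ i (f (a i))) T τ := by
  obtain ⟨Q, hQ⟩ := exists_Pi ha t
  obtain ⟨h1, h2⟩ := hQ T hT
  refine cov_shift _ _ _ T _ (Q T) (fun f => ?_) (fun f _ i hi => by simp [(h2 i).mpr hi]) τ
  rw [mem_Ups] at h1
  rw [mem_Ups, mem_Ups, ← (Pol F F t).add_mem_iff_left h1]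
  congr! 1
  funext u
  simp
  ring

end Ups

section Abs

variable {ι F K Ip In : Type} [Field F] [Fintype F] [Fintype ι] [Fintype Ip] [Fintype In]

/-- The new vertices. -/
abbrev AV (ι F Ip In : Type) : Type :=
  ((Ip ⊕ In) × F) ⊕ (Ip × Finset ι) ⊕ ((Ip ⊕ In) × Finset ι × F)

/-- The data of the construction. -/
structure AbsData (ι F K Ip In : Type) [Field F] [Fintype F] where
  t : ℕ
  a : ι → F
  ha : Injective a
  Q : Finset ι → F → F
  hQ : ∀ T, #T = t → Q T ∈ Ups F t true ∧ ∀ i, Q T (a i) = 0 ↔ i ∈ T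
  b : Ip ⊕ In → ι → K
  m : Finset ι → In → Ip
  hm : ∀ T, #T = t → Injective (m T) ∧ ∀ x, ∀ i ∈ T, b (.inl (m T x)) i = b (.inr x) i

namespace AbsData

variable (d : AbsData ι F K Ip In)

/-- The partner index. -/
def r (α : Ip ⊕ In) (T : Finset ι) : Ip := α.elim id (d.m T)

/-- The vertices of the splitting gadget. -/
def vS (α : Ip ⊕ In) (i : ι) (u : F) : K ⊕ AV ι F Ip In :=
  if u = 0 then .inl (d.b α i) else .inr (.inl (α, u))

/-- The vertices of the elimination gadget. -/
def vE (α : Ip ⊕ In) (T : Finset ι) (i : ι) (u : F) : K ⊕ AV ι F Ip In :=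
  if u = d.Q T (d.a i) then d.vS α i u
  else if u = 0 then .inr (.inr (.inl (d.r α T, T))) else .inr (.inr (.inr (α, T, u)))

/-- The vertices of both gadgets. -/
def v (α : Ip ⊕ In) : Option (Finset ι) → ι → F → K ⊕ AV ι F Ip In
  | none => d.vS α
  | some T => d.vE α T

/-- The common clique of a matched pair. -/
def R (x : Ip) (T : Finset ι) (i : ι) : K ⊕ AV ι F Ip In :=
  if i ∈ T then .inl (d.b (.inl x) i) else .inr (.inr (.inl (x, T)))

/-- The polynomials used in a gadget. -/
def Ex : Option (Finset ι) → Bool → Finset (F → F)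
  | _, false => (Ups F d.t false).erase 0
  | none, true => Ups F d.t true \ (powersetCard d.t univ).image d.Q
  | some T, true => (Ups F d.t true).erase (d.Q T)

/-- The side of a gadget. -/
def sd : Option (Finset ι) → Bool → Bool
  | none, ε => ε
  | some _, ε => !ε

/-- The index set of the gadget blocks of sign `ε` relative to the sign of the root block. -/
def Idx (ε : Bool) : Finset ((Ip ⊕ In) × Option (Finset ι) × (F → F)) :=
  (univ.sigma fun α : Ip ⊕ In => (insertNone (powersetCard d.t univ)).sigma fun o =>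
    d.Ex o (sd o (α.isLeft == ε))).image fun x => (x.1, x.2.1, x.2.2)

/-- The gadget blocks. -/
def blk (x : (Ip ⊕ In) × Option (Finset ι) × (F → F)) (i : ι) : K ⊕ AV ι F Ip In :=
  d.v x.1 x.2.1 i (x.2.2 (d.a i))

theorem mem_Idx {ε : Bool} {α : Ip ⊕ In} {o : Option (Finset ι)} {f : F → F} :
    (α, o, f) ∈ d.Idx ε ↔ (∀ T ∈ o, #T = d.t) ∧ f ∈ d.Ex o (sd o (α.isLeft == ε)) := by
  simp only [Idx, mem_image, mem_sigma, mem_univ, true_and, mem_insertNone, mem_powersetCard,
    subset_univ, Prod.mk.injEq]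
  constructor
  · rintro ⟨⟨α', o', f'⟩, h, rfl, rfl, rfl⟩
    exact h
  · intro h
    exact ⟨⟨α, o, f⟩, h, rfl, rfl, rfl⟩

theorem cov_Idx (ε : Bool) (T : Finset ι) (τ : ι → K ⊕ AV ι F Ip In) :
    cov (fam (d.Idx ε) d.blk) T τ = ∑ α : Ip ⊕ In,
      (cov (fam (d.Ex none (α.isLeft == ε)) fun f i => d.vS α i (f (d.a i))) T τ +
        ∑ T' ∈ powersetCard d.t univ,
          cov (fam (d.Ex (some T') (!(α.isLeft == ε))) fun f i => d.vE α T' i (f (d.a i))) T τ) := by
  rw [cov_fam, Idx, sum_image, sum_sigma]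
  · refine sum_congr rfl fun α _ => ?_
    rw [sum_sigma, sum_insertNone]
    simp only [cov_fam]
    rfl
  · rintro ⟨α, o, f⟩ _ ⟨α', o', f'⟩ _ h
    simp only [Prod.mk.injEq] at h
    obtain ⟨rfl, rfl, rfl⟩ := h
    rfl

omit [Fintype Ip] [Fintype In] in
theorem Ex_subset (o : Option (Finset ι)) (ε : Bool) : d.Ex o ε ⊆ Ups F d.t ε := by
  cases ε
  · cases o <;> exact erase_subset _ _
  · cases o
    · exact sdiff_subset
    · exact erase_subset _ _

theorem card_Idx (ε : Bool) : #(d.Idx ε) ≤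
    Fintype.card (Ip ⊕ In) * ((Fintype.card ι ^ d.t + 1) * Fintype.card F ^ d.t) := by
  refine card_image_le.trans ?_
  rw [card_sigma]
  refine (sum_le_card_nsmul _ _ ((Fintype.card ι ^ d.t + 1) * Fintype.card F ^ d.t)
    fun α _ => ?_).trans (by simp)
  rw [card_sigma]
  refine (sum_le_card_nsmul _ _ _ fun o _ =>
    (card_le_card (d.Ex_subset o _)).trans (card_Ups_le _ _)).trans ?_
  rw [card_insertNone, card_powersetCard, smul_eq_mul]
  exact Nat.mul_le_mul_right _ (Nat.add_le_add_right (Nat.choose_le_pow _ _) 1)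

omit [Fintype ι] [Fintype Ip] [Fintype In] in
theorem Q_inj {T T' : Finset ι} (hT : #T = d.t) (hT' : #T' = d.t) (h : d.Q T = d.Q T') : T = T' := by
  ext i
  rw [← (d.hQ T hT).2, ← (d.hQ T' hT').2, h]

omit [Fintype Ip] [Fintype In] in
theorem split_trade (α : Ip ⊕ In) {T : Finset ι} (hT : #T = d.t) (τ : ι → K ⊕ AV ι F Ip In) :
    cov {fun i => Sum.inl (d.b α i)} T τ +
      cov (fam (d.Ex none false) fun f i => d.vS α i (f (d.a i))) T τ =
    ∑ T' ∈ powersetCard d.t univ, cov {fun i => d.vS α i (d.Q T' (d.a i))} T τ +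
      cov (fam (d.Ex none true) fun f i => d.vS α i (f (d.a i))) T τ := by
  have := Ups_trade d.ha (d.vS α) hT τ
  rw [cov_fam, cov_fam, ← add_sum_erase _ _ (zero_mem_Ups d.t),
    ← sum_sdiff (s₁ := (powersetCard d.t univ).image d.Q) (s₂ := Ups F d.t true), sum_image,
    add_comm (∑ _ ∈ _ \ _, _)]
    at this
  · simpa only [cov_fam, Ex, vS, Pi.zero_apply, if_true] using this
  · intro T₁ h₁ T₂ h₂ h
    exact d.Q_inj (mem_powersetCard.mp h₁).2 (mem_powersetCard.mp h₂).2 h
  · intro f hf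
    obtain ⟨T', hT', rfl⟩ := mem_image.mp hf
    exact (d.hQ T' (mem_powersetCard.mp hT').2).1

omit [Fintype Ip] [Fintype In] in
theorem elim_trade (α : Ip ⊕ In) {T' : Finset ι} (hT' : #T' = d.t) {T : Finset ι} (hT : #T = d.t)
    (τ : ι → K ⊕ AV ι F Ip In) :
    cov {d.R (d.r α T') T'} T τ +
      cov (fam (d.Ex (some T') false) fun f i => d.vE α T' i (f (d.a i))) T τ =
    cov {fun i => d.vS α i (d.Q T' (d.a i))} T τ +
      cov (fam (d.Ex (some T') true) fun f i => d.vE α T' i (f (d.a i))) T τ := by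
  have := Ups_trade d.ha (d.vE α T') hT τ
  rw [cov_fam, cov_fam, ← add_sum_erase _ _ (zero_mem_Ups d.t),
    ← add_sum_erase _ _ (d.hQ T' hT').1] at this
  have h1 : (fun i => d.vE α T' i ((0 : F → F) (d.a i))) = d.R (d.r α T') T' := by
    funext i
    by_cases hi : i ∈ T'
    · have h2 : d.b α i = d.b (.inl (d.r α T')) i := by
        cases α
        · rfl
        · exact ((d.hm T' hT').2 _ i hi).symm
      simp [vE, vS, R, hi, ((d.hQ T' hT').2 i).mpr hi, h2]
    · have : ¬ (0 : F) = d.Q T' (d.a i) := fun h => hi (((d.hQ T' hT').2 i).mp h.symm)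
      simp [vE, R, hi, this]
  have h2 : (fun i => d.vE α T' i (d.Q T' (d.a i))) = fun i => d.vS α i (d.Q T' (d.a i)) := by
    funext i
    simp [vE]
  rw [h1, h2] at this
  simpa only [cov_fam, Ex] using this

/-- The cliques through the unmatched positive occurrences. -/
def Unm : Multiset (ι → K ⊕ AV ι F Ip In) :=
  ∑ T ∈ powersetCard d.t univ, fam {x | x ∉ univ.image (d.m T)} fun x => d.R x T

theorem identity {T : Finset ι} (hT : #T = d.t) (τ : ι → K ⊕ AV ι F Ip In) :
    cov (d.Unm + fam (d.Idx true) d.blk) T τ +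
      cov (fam univ fun x i => Sum.inl (d.b (.inr x) i)) T τ =
    cov (fam univ fun x i => Sum.inl (d.b (.inl x) i)) T τ + cov (fam (d.Idx false) d.blk) T τ := by
  have h1 : ∀ α : Ip ⊕ In, cov {fun i => Sum.inl (d.b α i)} T τ +
      (cov (fam (d.Ex none false) fun f i => d.vS α i (f (d.a i))) T τ +
        ∑ T' ∈ powersetCard d.t univ,
          cov (fam (d.Ex (some T') true) fun f i => d.vE α T' i (f (d.a i))) T τ) =
      ∑ T' ∈ powersetCard d.t univ, cov {d.R (d.r α T') T'} T τ +
      (cov (fam (d.Ex none true) fun f i => d.vS α i (f (d.a i))) T τ +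
        ∑ T' ∈ powersetCard d.t univ,
          cov (fam (d.Ex (some T') false) fun f i => d.vE α T' i (f (d.a i))) T τ) := by
    intro α
    have h2 := d.split_trade α hT τ
    have h3 := sum_congr rfl fun T' (hT' : T' ∈ powersetCard d.t univ) =>
      d.elim_trade α (mem_powersetCard.mp hT').2 hT τ
    rw [sum_add_distrib, sum_add_distrib] at h3
    omega
  have h2 := sum_congr rfl fun x (_ : x ∈ (univ : Finset Ip)) => h1 (.inl x)
  have h3 := sum_congr rfl fun x (_ : x ∈ (univ : Finset In)) => h1 (.inr x)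
  have h4 : ∑ x : Ip, ∑ T' ∈ powersetCard d.t univ, cov {d.R (d.r (.inl x) T') T'} T τ =
      ∑ x : In, ∑ T' ∈ powersetCard d.t univ, cov {d.R (d.r (.inr x) T') T'} T τ +
        cov d.Unm T τ := by
    rw [sum_comm, sum_comm (s := univ), Unm, cov_sum, ← sum_add_distrib]
    refine sum_congr rfl fun T' hT' => ?_
    rw [cov_fam, ← sum_filter_add_sum_filter_not univ (· ∈ univ.image (d.m T')),
      filter_mem_eq_inter, univ_inter,
      sum_image fun x _ y _ h => (d.hm T' (mem_powersetCard.mp hT').2).1 h]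
    rfl
  rw [sum_add_distrib (g := fun x => _ + _), sum_add_distrib (g := fun x => _ + _)] at h2 h3
  rw [cov_add, cov_Idx, cov_Idx, Fintype.sum_sum_type, Fintype.sum_sum_type, cov_fam, cov_fam]
  simp only [Sum.isLeft_inl, Sum.isLeft_inr, beq_self_eq_true, Bool.not_true, Bool.false_beq,
    Bool.not_false, Bool.true_beq] at *
  omega

omit [Fintype Ip] [Fintype In] in
theorem not_vanish {o : Option (Finset ι)} {ε : Bool} {f : F → F} (hf : f ∈ d.Ex o ε)
    {T : Finset ι} (hT : #T = d.t) (h0 : ∀ i ∈ T, f (d.a i) = 0) (ho : ε = true → ∀ T' ∈ o, T' = T) :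
    False := by
  have hU := d.Ex_subset o ε hf
  cases ε
  · have : f = 0 := Ups_unique d.ha hU (zero_mem_Ups _) hT.ge h0
    cases o <;> simp [Ex, this] at hf
  · have : f = d.Q T := Ups_unique d.ha hU (d.hQ T hT).1 hT.ge fun i hi => by
      rw [h0 i hi, ((d.hQ T hT).2 i).mpr hi]
    rcases o with _ | T'
    · simp only [Ex, this, mem_sdiff, mem_image, mem_powersetCard, subset_univ, true_and,
        not_exists, not_and] at hf
      exact hf.2 T hT rfl
    · obtain rfl := ho rfl T' rfl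
      simp [Ex, this] at hf

theorem roots_lt {ε : Bool} {x : (Ip ⊕ In) × Option (Finset ι) × (F → F)} (hx : x ∈ d.Idx ε) :
    #{i | (d.blk x i).getRight? = none} < d.t := by
  obtain ⟨α, o, f⟩ := x
  obtain ⟨ho, hf⟩ := d.mem_Idx.mp hx
  by_contra hc
  obtain ⟨T, hT, hTc⟩ := exists_subset_card_eq (not_lt.mp hc)
  have hT' : ∀ i ∈ T, (d.v α o i (f (d.a i))).getRight? = none := fun i hi => by
    simpa [blk] using hT hi
  rcases o with _ | T'
  · refine d.not_vanish hf hTc (fun i hi => ?_) (by simp)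
    have := hT' i hi
    simp only [v, vS] at this
    split_ifs at this with h
    · exact h
    · simp at this
  · have key : ∀ i ∈ T, f (d.a i) = 0 ∧ i ∈ T' := fun i hi => by
      have := hT' i hi
      simp only [v, vE, vS] at this
      split_ifs at this with h1 h2
      · exact ⟨h2, ((d.hQ T' (ho T' rfl)).2 i).mp (h1 ▸ h2)⟩
      all_goals simp at this
    refine d.not_vanish hf hTc (fun i hi => (key i hi).1) fun _ T'' hT'' => ?_
    obtain rfl : T' = T'' := by simpa using hT''
    exact (eq_of_subset_of_card_le (fun i hi => (key i hi).2) (by rw [ho T' rfl, hTc])).symm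

omit [Fintype ι] [Fintype Ip] [Fintype In] in
theorem vS_vS {α α' : Ip ⊕ In} {i : ι} {u u' : F}
    (h : (d.vS α i u).getRight? = (d.vS α' i u').getRight?) : u = u' ∧ (u = 0 ∨ α = α') := by
  simp only [vS] at h
  split_ifs at h with h1 h2 <;> simp_all

omit [Fintype ι] [Fintype Ip] [Fintype In] in
theorem vS_vE {α α' : Ip ⊕ In} {T : Finset ι} {i : ι} {u u' : F}
    (h : (d.vS α i u).getRight? = (d.vE α' T i u').getRight?) :
    u' = d.Q T (d.a i) ∧ u = u' ∧ (u = 0 ∨ α = α') := by
  by_cases h1 : u' = d.Q T (d.a i)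
  · rw [vE, if_pos h1] at h
    exact ⟨h1, d.vS_vS h⟩
  · simp only [vE, if_neg h1, vS] at h
    split_ifs at h <;> simp at h

omit [Fintype ι] [Fintype Ip] [Fintype In] in
theorem vE_vE {α α' : Ip ⊕ In} {T T' : Finset ι} {i : ι} {u u' : F}
    (h : (d.vE α T i u).getRight? = (d.vE α' T' i u').getRight?) :
    u = u' ∧ ((u = d.Q T (d.a i) ∧ u' = d.Q T' (d.a i) ∧ (u = 0 ∨ α = α')) ∨
      (u = 0 ∧ d.r α T = d.r α' T' ∧ T = T') ∨ (α = α' ∧ T = T')) := by
  by_cases h1 : u = d.Q T (d.a i)
  · rw [vE, if_pos h1] at h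
    have := d.vS_vE h
    exact ⟨this.2.1, Or.inl ⟨h1, this.1, this.2.2⟩⟩
  · by_cases h2 : u' = d.Q T' (d.a i)
    · rw [vE.eq_1 d α', if_pos h2] at h
      exact absurd (d.vS_vE h.symm).1 h1
    · simp only [vE, if_neg h1, if_neg h2] at h
      split_ifs at h with h3 h4 h4
      · simp only [Sum.getRight?_inr, Option.some.injEq, Sum.inr.injEq, Sum.inl.injEq,
          Prod.mk.injEq] at h
        exact ⟨h3.trans h4.symm, Or.inr (Or.inl ⟨h3, h⟩)⟩
      · simp at h
      · simp at h
      · simp only [Sum.getRight?_inr, Option.some.injEq, Sum.inr.injEq, Prod.mk.injEq] at h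
        exact ⟨h.2.2, Or.inr (Or.inr ⟨h.1, h.2.1⟩)⟩

theorem disjoint_aux {α α' : Ip ⊕ In} {T' : Finset ι} {f f' : F → F}
    (hx : (α, none, f) ∈ d.Idx false) (hx' : (α', some T', f') ∈ d.Idx false) {T : Finset ι}
    (hT : #T = d.t) (h : ∀ i ∈ T, (d.vS α i (f (d.a i))).getRight? =
      (d.vE α' T' i (f' (d.a i))).getRight?) : False := by
  obtain ⟨-, hf⟩ := d.mem_Idx.mp hx
  obtain ⟨ho', hf'⟩ := d.mem_Idx.mp hx'
  have hT' := ho' T' rfl
  have key := fun i hi => d.vS_vE (h i hi)
  by_cases hα : α = α'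
  · subst hα
    cases α
    · have : f' = d.Q T' := Ups_unique d.ha (d.Ex_subset _ _ hf') (d.hQ T' hT').1 hT.ge
        fun i hi => (key i hi).1
      simp [sd, Ex, this] at hf'
    · have : f = d.Q T' := Ups_unique d.ha (d.Ex_subset _ _ hf) (d.hQ T' hT').1 hT.ge
        fun i hi => (key i hi).2.1.trans (key i hi).1
      simp only [sd, Ex, this, Sum.isLeft_inr, beq_self_eq_true, mem_sdiff, mem_image,
        mem_powersetCard, subset_univ, true_and, not_exists, not_and] at hf
      exact hf.2 T' hT' rfl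
  · exact d.not_vanish hf hT (fun i hi => (key i hi).2.2.resolve_right hα) (by simp)

theorem disjoint {x x' : (Ip ⊕ In) × Option (Finset ι) × (F → F)} (hx : x ∈ d.Idx false)
    (hx' : x' ∈ d.Idx false) {T : Finset ι} (hT : #T = d.t)
    (h : ∀ i ∈ T, (d.blk x i).getRight? = (d.blk x' i).getRight?) : x = x' := by
  obtain ⟨α, o, f⟩ := x
  obtain ⟨α', o', f'⟩ := x'
  obtain ⟨ho, hf⟩ := d.mem_Idx.mp hx
  obtain ⟨ho', hf'⟩ := d.mem_Idx.mp hx'
  have fin : α = α' → o = o' → (∀ i ∈ T, f (d.a i) = f' (d.a i)) → (α, o, f) = (α', o', f') := by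
    rintro rfl rfl h
    rw [Ups_unique d.ha (d.Ex_subset _ _ hf) (d.Ex_subset _ _ hf') hT.ge h]
  rcases o with _ | T₁ <;> rcases o' with _ | T₂
  · have key := fun i hi => d.vS_vS (h i hi)
    by_cases hα : α = α'
    · exact fin hα rfl fun i hi => (key i hi).1
    · exact (d.not_vanish hf hT (fun i hi => (key i hi).2.resolve_right hα) (by simp)).elim
  · exact (d.disjoint_aux hx hx' hT h).elim
  · exact (d.disjoint_aux hx' hx hT fun i hi => (h i hi).symm).elim
  · have key := fun i hi => d.vE_vE (α := α) (α' := α') (u := f (d.a i)) (u' := f' (d.a i)) (h i hi)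
    have h₁ := ho T₁ rfl
    have h₂ := ho' T₂ rfl
    by_cases hc : α = α' ∧ T₁ = T₂
    · exact fin hc.1 (by rw [hc.2]) fun i hi => (key i hi).1
    exfalso
    by_cases hR : d.r α T₁ = d.r α' T₂ ∧ T₁ = T₂
    · obtain ⟨hr, rfl⟩ := hR
      have hα : α ≠ α' := fun h => hc ⟨h, rfl⟩
      have h0 : ∀ i ∈ T, f (d.a i) = 0 := fun i hi => by
        rcases (key i hi).2 with h | h | h
        · exact h.2.2.resolve_right hα
        · exact h.1
        · exact absurd h hc
      rcases α with x | x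
      · rcases α' with y | y
        · exact hα (congrArg _ hr)
        · exact d.not_vanish hf' hT (fun i hi => (key i hi).1 ▸ h0 i hi) (by simp [sd])
      · exact d.not_vanish hf hT h0 (by simp [sd])
    · have key' : ∀ i ∈ T, f (d.a i) = d.Q T₁ (d.a i) ∧ f' (d.a i) = d.Q T₂ (d.a i) ∧
          (f (d.a i) = 0 ∨ α = α') := fun i hi => by
        rcases (key i hi).2 with h | h | h
        · exact h
        · exact absurd h.2 hR
        · exact absurd h hc
      obtain rfl : T₁ = T₂ := d.Q_inj h₁ h₂ (Ups_unique d.ha (d.hQ _ h₁).1 (d.hQ _ h₂).1 hT.ge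
        fun i hi => by rw [← (key' i hi).1, ← (key' i hi).2.1, (key i hi).1])
      have hα : α ≠ α' := fun h => hc ⟨h, rfl⟩
      have h0 : ∀ i ∈ T, f (d.a i) = 0 := fun i hi => (key' i hi).2.2.resolve_right hα
      refine d.not_vanish hf hT h0 fun _ T' hT' => ?_
      obtain rfl : T₁ = T' := by simpa using hT'
      refine (eq_of_subset_of_card_le (fun i hi => ((d.hQ _ h₁).2 i).mp ?_) (by omega)).symm
      rw [← (key' i hi).1, h0 i hi]

end AbsData

/-- The combinatorial absorber. -/
theorem exists_abs [Nonempty K] {a : ι → F} (ha : Injective a) {t : ℕ} (ht : t ≤ Fintype.card ι)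
    (P N : Multiset (ι → K))
    (h : ∀ T, #T = t → ∀ τ, cov N T τ ≤ cov P T τ) :
    ∃ (V J : Type) (_ : Fintype V) (_ : Fintype J) (P₀ : Multiset (ι → K ⊕ V)) (s : Finset J)
      (n : J → ι → K ⊕ V),
      (∀ T, #T = t → ∀ τ, cov P₀ T τ + cov (N.map fun b i => Sum.inl (b i)) T τ =
        cov (P.map fun b i => Sum.inl (b i)) T τ + cov (fam s n) T τ) ∧
      (∀ b ∈ P₀, #{i | (b i).getRight? = none} ≤ t) ∧
      (∀ x ∈ s, #{i | (n x i).getRight? = none} < t) ∧
      (∀ x ∈ s, ∀ x' ∈ s, ∀ T, #T = t → (∀ i ∈ T, (n x i).getRight? = (n x' i).getRight?) →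
        x = x') ∧
      P₀.card ≤ 2 * ((P.card + N.card) * ((Fintype.card ι ^ t + 1) * Fintype.card F ^ t)) ∧
      #s ≤ (P.card + N.card) * ((Fintype.card ι ^ t + 1) * Fintype.card F ^ t) := by
  obtain ⟨bp, hp⟩ := exists_fam P
  obtain ⟨bn, hn⟩ := exists_fam N
  obtain ⟨Q, hQ⟩ := exists_Pi ha t
  have : ∀ T : Finset ι, ∃ m : Fin N.card → Fin P.card, #T = t →
      Injective m ∧ ∀ x, ∀ i ∈ T, bp (m x) i = bn x i := by
    intro T
    by_cases hT : #T = t
    · obtain ⟨m, hm⟩ := exists_match bp bn T fun τ => by rw [← hp, ← hn]; exact h T hT τ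
      exact ⟨m, fun _ => hm⟩
    · obtain ⟨T', -, hT'⟩ := exists_subset_card_eq (s := (univ : Finset ι)) ht
      obtain ⟨m, hm⟩ := exists_match bp bn T' fun τ => by rw [← hp, ← hn]; exact h T' hT' τ
      exact ⟨m, fun h => absurd h hT⟩
  choose m hm using this
  let d : AbsData ι F K (Fin P.card) (Fin N.card) := ⟨t, a, ha, Q, hQ, Sum.elim bp bn, m, hm⟩
  have hc : ∀ ε, #(d.Idx ε) ≤
      (P.card + N.card) * ((Fintype.card ι ^ t + 1) * Fintype.card F ^ t) := fun ε => by
    simpa using d.card_Idx ε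
  refine ⟨_, _, inferInstance, inferInstance, d.Unm + fam (d.Idx true) d.blk, d.Idx false, d.blk,
    fun T hT τ => ?_, fun b hb => ?_, fun x hx => d.roots_lt hx,
    fun x hx x' hx' T hT => d.disjoint hx hx' hT, ?_, hc false⟩
  · have := d.identity hT τ
    rw [congrArg (Multiset.map _) hn, congrArg (Multiset.map _) hp, map_fam, map_fam]
    exact this
  · rcases Multiset.mem_add.mp hb with hb | hb
    · simp only [AbsData.Unm, Multiset.mem_sum, mem_fam] at hb
      obtain ⟨T, hT, x, -, rfl⟩ := hb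
      rw [← show #T = t from (mem_powersetCard.mp hT).2]
      refine card_le_card fun i hi => ?_
      by_contra hc
      simp [AbsData.R, hc] at hi
    · obtain ⟨x, hx, rfl⟩ := mem_fam.mp hb
      exact (d.roots_lt hx).le
  · rw [Multiset.card_add, card_fam, two_mul]
    refine add_le_add ?_ (hc true)
    rw [AbsData.Unm, Multiset.card_sum]
    refine (sum_le_card_nsmul _ _ P.card fun T _ => ?_).trans ?_
    · rw [card_fam]
      exact (card_le_univ _).trans (by simp)
    · rw [card_powersetCard, smul_eq_mul, mul_comm]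
      refine Nat.mul_le_mul (Nat.le_add_right _ _) ?_
      refine le_trans ?_ (Nat.le_mul_of_pos_right _ (by positivity))
      exact (Nat.choose_le_pow _ _).trans (Nat.le_succ _)

end Abs

end

end Pool.Agent.MP_c7a479_co

end

section

/-! The standardiser: every negative block of the absorber is traded for polynomial blocks. -/

namespace Pool.Agent.MP_c7a479_co

open Finset Function
open scoped Classical

noncomputable section

section Box

variable {ι F Ω K J : Type} [Field F] [Fintype F] [AddCommGroup Ω] [Module F Ω] [Fintype J]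

variable (F) in
/-- Families of polynomials supported on `D`. -/
def Box (t : ℕ) (D : Finset J) : Finset (J → F → F) :=
  Fintype.piFinset fun j => if j ∈ D then PolF F F t else {0}

theorem mem_Box {t : ℕ} {D : Finset J} {γ : J → F → F} :
    γ ∈ Box F t D ↔ ∀ j, γ j ∈ Pol F F t ∧ (j ∉ D → γ j = 0) := by
  simp only [Box, Fintype.mem_piFinset]
  refine forall_congr' fun j => ?_
  split_ifs with h
  · simp [h]
  · simp only [mem_singleton, h, not_false_eq_true, forall_const, iff_and_self]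
    intro h
    rw [h]
    exact zero_mem _

theorem card_Box_le (t : ℕ) (D : Finset J) : #(Box F t D) ≤ (Fintype.card F ^ t) ^ #D := by
  rw [Box, Fintype.card_piFinset, ← prod_subset (subset_univ D)]
  · exact prod_le_pow_card _ _ _ fun j hj => by rw [if_pos hj]; exact card_PolF_le t
  · intro j _ hj
    simp [hj]

theorem box_trade {a : ι → F} (ha : Injective a) {t : ℕ} (D : Finset J) (dir : J → Ω)
    (E : J → ι → F) (hE : ∀ j ∉ D, E j = 0) (g : ι → Ω) (c : ι → K) {T : Finset ι} (hT : #T = t)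
    (τ : ι → K × Ω) :
    cov (fam (Box F t D) fun γ i => (c i, g i + ∑ j, (γ j (a i) + E j i) • dir j)) T τ =
      cov (fam (Box F t D) fun γ i => (c i, g i + ∑ j, γ j (a i) • dir j)) T τ := by
  have : ∀ j, ∃ q : F → F, (q ∈ Pol F F t ∧ (j ∉ D → q = 0)) ∧ ∀ i ∈ T, q (a i) = E j i := by
    intro j
    by_cases hj : j ∈ D
    · obtain ⟨q, hq, hq'⟩ := pol_interp ha hT.le (E j)
      exact ⟨q, ⟨hq, fun h => absurd hj h⟩, hq'⟩
    · exact ⟨0, ⟨zero_mem _, fun _ => rfl⟩, fun i _ => by simp [hE j hj]⟩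
  choose δ hδ hδ' using this
  refine cov_shift _ _ _ T _ δ (fun γ => ?_) (fun γ _ i hi => by simp [hδ' _ i hi]) τ
  simp only [mem_Box, Pi.add_apply]
  refine forall_congr' fun j => ?_
  rw [(Pol F F t).add_mem_iff_left (hδ j).1]
  exact and_congr_right fun _ => imp_congr_right fun hj => by simp [(hδ j).2 hj]

end Box

section Std

variable {ι F K V J : Type} [Field F] [Fintype F] [Fintype ι]

/-- The coordinates of the free module. -/
abbrev SX (ι F V J : Type) : Type := (ι × V) ⊕ (J × ((F → F) ⊕ Bool))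

/-- The vector of a vertex. -/
def vec (F J : Type) [Field F] (i : ι) (y : K ⊕ V) : SX ι F V J → F :=
  Sum.elim (fun p => if p.1 = i ∧ y.getRight? = some p.2 then 1 else 0) 0

/-- The label of a vertex. -/
def lab (z : K) (y : K ⊕ V) : K := y.elim id fun _ => z

/-- The data of the standardiser. -/
structure StdData (ι F K V J : Type) [Field F] [Fintype ι] where
  t : ℕ
  a : ι → F
  ha : Injective a
  ht : t ≤ Fintype.card ι
  z : K
  s : Finset J
  n : J → ι → K ⊕ V
  hroot : ∀ x ∈ s, #{i | (n x i).getRight? = none} < t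
  hdisj : ∀ x ∈ s, ∀ x' ∈ s, ∀ T, #T = t → (∀ i ∈ T, (n x i).getRight? = (n x' i).getRight?) →
    x = x'

namespace StdData

variable (d : StdData ι F K V J)

/-- The generic polynomial of degree less than `t`. -/
def χ (β : J) (u : F) : SX ι F V J → F :=
  Sum.elim 0 fun p => if p.1 = β then p.2.elim (fun q => if q ∈ Pol F F d.t then q u else 0) 0
    else 0

/-- Two further basis vectors. -/
def bv (ι F V : Type) [Field F] (β : J) (ε : Bool) : SX ι F V J → F := Pi.single (.inr (β, .inr ε)) 1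

/-- The vertices of the splitting gadget. -/
def φ (β : J) (i : ι) (u : F) : SX ι F V J → F :=
  if u = 0 then vec F J i (d.n β i)
  else d.χ β (d.a i) + d.a i ^ d.t • bv ι F V β true + u • bv ι F V β false

/-- The directions of the box trade. -/
def dir (β : J) : Option ι → SX ι F V J → F
  | none => bv ι F V β true + bv ι F V β false
  | some j => vec F J j (d.n β j) - d.χ β (d.a j) - d.a j ^ d.t • bv ι F V β true

/-- The support of the box trade. -/
def D (f : F → F) : Finset (Option ι) := insertNone {i | f (d.a i) = 0}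

/-- The shifts of the box trade. -/
def E (f : F → F) : Option ι → ι → F
  | none => fun i => d.a i ^ d.t
  | some j => fun i => if i = j ∧ f (d.a j) = 0 then 1 else 0

/-- The base polynomial. -/
def g₀ (β : J) (f : F → F) (u : F) : SX ι F V J → F := d.χ β u + (f u - u ^ d.t) • bv ι F V β false

/-- The polynomial blocks. -/
def std (x : J × (F → F) × (Option ι → F → F)) (u : F) : SX ι F V J → F :=
  d.g₀ x.1 x.2.1 u + ∑ j, x.2.2 j u • d.dir x.1 j

/-- The new blocks of the box trade. -/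
def new (β : J) (f : F → F) (γ : Option ι → F → F) (i : ι) : SX ι F V J → F :=
  d.g₀ β f (d.a i) + ∑ j, (γ j (d.a i) + d.E f j i) • d.dir β j

/-- The labels. -/
def c (β : J) (i : ι) : K := lab d.z (d.n β i)

/-- The index set of the polynomial blocks. -/
def RI : Finset (J × (F → F) × (Option ι → F → F)) :=
  (d.s.sigma fun _ => (Ups F d.t true).sigma fun f => Box F d.t (d.D f)).image
    fun x => (x.1, x.2.1, x.2.2)

/-- The added blocks. -/
def add : Multiset (ι → K × (SX ι F V J → F)) :=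
  ∑ β ∈ d.s, (fam ((Ups F d.t false).erase 0) (fun f i => (d.c β i, d.φ β i (f (d.a i)))) +
    ∑ f ∈ Ups F d.t true, fam ((Box F d.t (d.D f)).erase 0) fun γ i => (d.c β i, d.new β f γ i))

theorem mem_RI {β : J} {f : F → F} {γ : Option ι → F → F} :
    (β, f, γ) ∈ d.RI ↔ β ∈ d.s ∧ f ∈ Ups F d.t true ∧ γ ∈ Box F d.t (d.D f) := by
  simp only [RI, mem_image, mem_sigma, Prod.mk.injEq]
  constructor
  · rintro ⟨⟨α', o', f'⟩, h, rfl, rfl, rfl⟩
    exact h
  · intro h
    exact ⟨⟨β, f, γ⟩, h, rfl, rfl, rfl⟩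

omit [Fintype F] in
theorem new_zero (β : J) (f : F → F) (i : ι) : d.new β f 0 i = d.φ β i (f (d.a i)) := by
  simp only [new, Pi.zero_apply, zero_add, Fintype.sum_option, E, dir, g₀, φ]
  rw [sum_eq_single i]
  · split_ifs with h1 h2 h2
    · rw [h2]; module
    · exact absurd h1.2 h2
    · exact absurd ⟨rfl, h2⟩ h1
    · module
  · intro j _ hj
    simp [Ne.symm hj]
  · simp

theorem card_zeros {f : F → F} (hf : f ∈ Ups F d.t true) : #{i | f (d.a i) = 0} ≤ d.t :=
  card_le_of_pow_add d.ha (one_ne_zero (α := F)) (mem_Ups.mp hf) fun i hi => by simpa using hi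

theorem identity {T : Finset ι} (hT : #T = d.t) (τ : ι → K × (SX ι F V J → F)) :
    cov (fam d.s fun β i => (d.c β i, vec F J i (d.n β i))) T τ + cov d.add T τ =
      cov (fam d.RI fun x i => (d.c x.1 i, d.std x (d.a i))) T τ := by
  rw [cov_fam, cov_fam, RI, sum_image, sum_sigma, add, cov_sum, ← sum_add_distrib]
  · refine sum_congr rfl fun β _ => ?_
    rw [sum_sigma, cov_add, cov_sum]
    have h1 := Ups_trade d.ha (fun i u => (d.c β i, d.φ β i u)) hT τ
    rw [cov_fam, ← add_sum_erase _ _ (zero_mem_Ups d.t), ← cov_fam, cov_fam (Ups F d.t true)] at h1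
    have h2 : ∀ f ∈ Ups F d.t true, cov {fun i => (d.c β i, d.φ β i (f (d.a i)))} T τ +
        cov (fam ((Box F d.t (d.D f)).erase 0) fun γ i => (d.c β i, d.new β f γ i)) T τ =
        ∑ γ ∈ Box F d.t (d.D f), cov {fun i => (d.c β i, d.std (β, f, γ) (d.a i))} T τ := by
      intro f _
      have h3 := box_trade d.ha (d.D f) (d.dir β) (d.E f) (fun j hj => by
        rcases j with _ | j
        · simp [D] at hj
        · funext i
          have : f (d.a j) ≠ 0 := by simpa [D] using hj
          simp [E, this]) (fun i => d.g₀ β f (d.a i)) (d.c β) hT τ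
      rw [cov_fam, cov_fam, ← add_sum_erase _ _ (a := 0) (by simp [mem_Box]), ← cov_fam] at h3
      simp only [← new_zero]
      exact h3
    have h3 := sum_congr rfl h2
    rw [sum_add_distrib] at h3
    simp only [φ, Pi.zero_apply, if_true] at h1 h3 ⊢
    omega
  · rintro ⟨α, o, f⟩ _ ⟨α', o', f'⟩ _ h
    simp only [Prod.mk.injEq] at h
    obtain ⟨rfl, rfl, rfl⟩ := h
    rfl

theorem card_RI : #d.RI ≤ #d.s * (Fintype.card F ^ d.t * (Fintype.card F ^ d.t) ^ (d.t + 1)) := by
  refine card_image_le.trans ?_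
  rw [card_sigma]
  refine (sum_le_card_nsmul _ _ (Fintype.card F ^ d.t * (Fintype.card F ^ d.t) ^ (d.t + 1))
    fun α _ => ?_).trans (by simp)
  rw [card_sigma]
  refine (sum_le_card_nsmul _ _ ((Fintype.card F ^ d.t) ^ (d.t + 1)) fun f hf =>
    (card_Box_le _ _).trans ?_).trans (Nat.mul_le_mul_right _ (card_Ups_le _ _))
  refine Nat.pow_le_pow_right (by positivity) ?_
  rw [D, card_insertNone]
  exact Nat.add_le_add_right (d.card_zeros hf) 1

theorem card_add : d.add.card ≤
    #d.s * (2 * (Fintype.card F ^ d.t * (Fintype.card F ^ d.t) ^ (d.t + 1))) := by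
  rw [add, Multiset.card_sum]
  refine (sum_le_card_nsmul _ _ (2 * (Fintype.card F ^ d.t * (Fintype.card F ^ d.t) ^ (d.t + 1)))
    fun α _ => ?_).trans (by simp)
  rw [Multiset.card_add, card_fam, Multiset.card_sum, two_mul]
  refine add_le_add (card_erase_le.trans ((card_Ups_le _ _).trans
    (Nat.le_mul_of_pos_right _ (by positivity)))) ?_
  refine (sum_le_card_nsmul _ _ ((Fintype.card F ^ d.t) ^ (d.t + 1)) fun f hf => ?_).trans
    (Nat.mul_le_mul_right _ (card_Ups_le _ _))
  rw [card_fam]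
  refine card_erase_le.trans ((card_Box_le _ _).trans (Nat.pow_le_pow_right (by positivity) ?_))
  rw [D, card_insertNone]
  exact Nat.add_le_add_right (d.card_zeros hf) 1

omit [Fintype F] in
theorem std_vertex (β : J) (f : F → F) (γ : Option ι → F → F) (u : F) (i : ι) (v : V) :
    d.std (β, f, γ) u (.inl (i, v)) = if (d.n β i).getRight? = some v then γ (some i) u else 0 := by
  simp only [std, g₀, χ, bv, dir, vec, Fintype.sum_option, Pi.add_apply, Pi.smul_apply,
    Finset.sum_apply, Pi.sub_apply, Sum.elim_inl, Pi.zero_apply, ne_eq, reduceCtorEq,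
    not_false_eq_true, Pi.single_eq_of_ne, smul_eq_mul, mul_zero, add_zero, zero_add, sub_zero]
  rw [sum_eq_single i]
  · simp
  · intro j _ hj
    simp [Ne.symm hj]
  · simp

omit [Fintype F] in
theorem std_q (β : J) (f : F → F) (γ : Option ι → F → F) (u : F) {q : F → F}
    (hq : q ∈ Pol F F d.t) :
    d.std (β, f, γ) u (.inr (β, .inl q)) = q u - ∑ j, γ (some j) u * q (d.a j) := by
  simp [std, g₀, χ, bv, dir, vec, Fintype.sum_option, hq, sub_eq_add_neg]

omit [Fintype F] in
theorem std_ne {β β' : J} (h : β' ≠ β) (f : F → F) (γ : Option ι → F → F) (u : F)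
    (y : (F → F) ⊕ Bool) : d.std (β, f, γ) u (.inr (β', y)) = 0 := by
  simp [std, g₀, χ, bv, dir, vec, Fintype.sum_option, h]

omit [Fintype F] in
theorem std_true (β : J) (f : F → F) (γ : Option ι → F → F) (u : F) :
    d.std (β, f, γ) u (.inr (β, .inr true)) = γ none u - ∑ j, γ (some j) u * d.a j ^ d.t := by
  simp [std, g₀, χ, bv, dir, vec, Fintype.sum_option, sub_eq_add_neg]

omit [Fintype F] in
theorem std_false (β : J) (f : F → F) (γ : Option ι → F → F) (u : F) :
    d.std (β, f, γ) u (.inr (β, .inr false)) = f u - u ^ d.t + γ none u := by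
  simp [std, g₀, χ, bv, dir, vec, Fintype.sum_option]

omit [Fintype F] in
theorem χ_mem (β : J) : d.χ β ∈ Pol F (SX ι F V J → F) d.t := by
  refine Pol_pi fun x => ?_
  rcases x with x | ⟨β', q | ε⟩
  · exact zero_mem _
  · simp only [χ, Sum.elim_inr, Sum.elim_inl]
    split_ifs with h1 h2
    · exact h2
    · exact zero_mem _
    · exact zero_mem _
  · simp only [χ, Sum.elim_inr, Pi.zero_apply, ite_self]
    exact zero_mem _

theorem std_mem {x : J × (F → F) × (Option ι → F → F)} (hx : x ∈ d.RI) :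
    d.std x ∈ Pol F (SX ι F V J → F) d.t := by
  obtain ⟨β, f, γ⟩ := x
  obtain ⟨-, hf, hγ⟩ := d.mem_RI.mp hx
  have h1 := add_mem (add_mem (d.χ_mem β) (Pol_smul_vec (mem_Ups.mp hf) (bv ι F V β false)))
    (sum_mem fun j (_ : j ∈ univ) => Pol_smul_vec ((mem_Box.mp hγ j).1) (d.dir β j))
  convert h1 using 1
  funext u
  simp [std, g₀]

theorem std_not_mem {x : J × (F → F) × (Option ι → F → F)} (hx : x ∈ d.RI) :
    d.std x ∉ Pol F (SX ι F V J → F) (d.t - 1) := by
  obtain ⟨β, f, γ⟩ := x
  obtain ⟨hβ, -, -⟩ := d.mem_RI.mp hx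
  intro h
  have hr := d.hroot β hβ
  obtain ⟨Z, hZ, hZc⟩ := exists_superset_card_eq (s := {i | (d.n β i).getRight? = none})
    (n := d.t - 1) (by omega) (by have := d.ht; omega)
  obtain ⟨i₀, hi₀⟩ : ∃ i₀, i₀ ∉ Z := by
    by_contra hc
    push Not at hc
    have := card_le_card (s := univ) (t := Z) fun i _ => hc i
    have := d.ht
    rw [card_univ] at *
    omega
  obtain ⟨q, hq, hq'⟩ := pol_interp d.ha (n := d.t) (T := insert i₀ Z)
    (by rw [card_insert_of_notMem hi₀]; omega) fun i => if i = i₀ then (1 : F) else 0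
  have hq0 : ∀ i ∈ Z, q (d.a i) = 0 := fun i hi => by
    rw [hq' i (mem_insert_of_mem hi), if_neg (ne_of_mem_of_not_mem hi hi₀)]
  have h1 := Pol_apply h (.inr (β, .inl q))
  simp only [d.std_q _ _ _ _ hq] at h1
  have h2 : ∀ j, (fun u => γ (some j) u * q (d.a j)) ∈ Pol F F (d.t - 1) := by
    intro j
    rcases hj : (d.n β j).getRight? with _ | v
    · rw [hq0 j (hZ (by simpa using hj))]
      simp only [mul_zero]
      exact zero_mem _
    · have := Pol_apply h (.inl (j, v))
      simp only [d.std_vertex, hj, if_true] at this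
      exact Pol_smul_vec this _
  have h3 : q ∈ Pol F F (d.t - 1) := by
    convert add_mem h1 (sum_mem fun j (_ : j ∈ univ) => h2 j) using 1
    funext u
    simp
  have := hq' i₀ (mem_insert_self _ _)
  rw [pol_eq_zero d.ha h3 hZc.ge hq0] at this
  simp at this

theorem std_sep {β : J} {f : F → F} {γ : Option ι → F → F} (hx : (β, f, γ) ∈ d.RI)
    (h : ∀ u y, d.std (β, f, γ) u (.inr (β, y)) = 0) :
    #{i | f (d.a i) = 0} = d.t ∧ ∀ j, f (d.a j) = 0 → ∀ i, f (d.a i) = 0 →
      γ (some j) (d.a i) = if i = j then 1 else 0 := by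
  obtain ⟨-, hf, hγ⟩ := d.mem_RI.mp hx
  have hD := d.card_zeros hf
  have key : ∀ q ∈ Pol F F d.t, ∀ u, q u = ∑ j with f (d.a j) = 0, γ (some j) u * q (d.a j) := by
    intro q hq u
    have := h u (.inl q)
    rw [d.std_q _ _ _ _ hq, sub_eq_zero] at this
    rw [this, sum_filter]
    refine sum_congr rfl fun j _ => ?_
    split_ifs with hj
    · rfl
    · rw [(mem_Box.mp hγ (some j)).2 (by simpa [D] using hj)]
      simp
  constructor
  · by_contra hne
    obtain ⟨i₀, hi₀⟩ : ∃ i₀, i₀ ∉ ({i | f (d.a i) = 0} : Finset ι) := by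
      by_contra hc
      push Not at hc
      have := card_le_card (s := univ) fun i _ => hc i
      have := d.ht
      rw [card_univ] at *
      omega
    obtain ⟨q, hq, hq'⟩ := pol_interp d.ha (n := d.t) (T := insert i₀ ({i | f (d.a i) = 0} : Finset ι))
      (by rw [card_insert_of_notMem hi₀]; omega) fun i => if i = i₀ then (1 : F) else 0
    have := key q hq (d.a i₀)
    rw [hq' _ (mem_insert_self _ _), if_pos rfl, sum_eq_zero] at this
    · exact one_ne_zero this
    · intro j hj
      rw [hq' _ (mem_insert_of_mem hj), if_neg (ne_of_mem_of_not_mem hj hi₀), mul_zero]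
  · intro j hj i hi
    obtain ⟨q, hq, hq'⟩ := pol_interp d.ha hD fun i => if i = j then (1 : F) else 0
    have := key q hq (d.a i)
    rw [hq' _ (by simpa using hi), sum_eq_single j, hq' _ (by simpa using hj), if_pos rfl,
      mul_one] at this
    · exact this.symm
    · intro j' hj' hne
      rw [hq' _ hj', if_neg hne, mul_zero]
    · intro h
      exact absurd (by simpa using hj) h

theorem std_inj : Set.InjOn d.std d.RI := by
  rintro ⟨β, f, γ⟩ hx ⟨β', f', γ'⟩ hx' h
  rw [mem_coe] at hx hx'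
  obtain ⟨hβ, hf, hγ⟩ := d.mem_RI.mp hx
  obtain ⟨hβ', hf', hγ'⟩ := d.mem_RI.mp hx'
  have hv : ∀ u i v, (if (d.n β i).getRight? = some v then γ (some i) u else 0) =
      if (d.n β' i).getRight? = some v then γ' (some i) u else 0 := fun u i v => by
    rw [← d.std_vertex β f, ← d.std_vertex β' f', h]
  obtain rfl : β = β' := by
    by_contra hne
    obtain ⟨h1, h2⟩ := d.std_sep hx fun u y => by rw [h, d.std_ne hne]
    obtain ⟨h1', h2'⟩ := d.std_sep hx' fun u y => by rw [← h, d.std_ne (Ne.symm hne)]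
    obtain ⟨i₀, hi₀, hi₀'⟩ : ∃ i₀, f (d.a i₀) = 0 ∧ (d.n β i₀).getRight? ≠ none := by
      by_contra hc
      push Not at hc
      have := card_le_card (s := {i | f (d.a i) = 0}) (t := {i | (d.n β i).getRight? = none})
        fun i hi => by simpa using hc i (by simpa using hi)
      have := d.hroot β hβ
      omega
    obtain ⟨v, hv₀⟩ := Option.ne_none_iff_exists'.mp hi₀'
    have h3 := h2 i₀ hi₀ i₀ hi₀
    have h4 := hv (d.a i₀) i₀ v
    rw [if_pos hv₀, h3, if_pos rfl] at h4
    have h5 : (d.n β' i₀).getRight? = some v := by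
      by_contra hc
      simp [hc] at h4
    have h6 : γ (some i₀) = γ' (some i₀) := funext fun u => by simpa [hv₀, h5] using hv u i₀ v
    have h7 : f' (d.a i₀) = 0 := by
      by_contra hc
      rw [h6, (mem_Box.mp hγ' (some i₀)).2 (by simpa [D] using hc)] at h3
      simp at h3
    have h8 : ∀ i, f' (d.a i) = 0 → f (d.a i) = 0 := by
      intro i hi
      by_contra hc
      have hne : i ≠ i₀ := fun h => hc (h ▸ hi₀)
      have : γ (some i₀) = 0 := pol_eq_zero d.ha (mem_Box.mp hγ (some i₀)).1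
        (T := insert i (({i | f (d.a i) = 0} : Finset ι).erase i₀))
        (by rw [card_insert_of_notMem (by simp [hc]), card_erase_add_one (by simpa using hi₀), h1])
        fun j hj => by
          rcases mem_insert.mp hj with rfl | hj
          · rw [h6, h2' i₀ h7 _ hi, if_neg hne]
          · rw [h2 i₀ hi₀ j (by simpa using mem_of_mem_erase hj), if_neg (ne_of_mem_erase hj)]
      rw [this] at h3
      simp at h3
    refine hne (d.hdisj β hβ β' hβ' _ h1' fun i hi => Option.ext fun w => ?_)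
    have hi' : f' (d.a i) = 0 := by simpa using hi
    have := hv (d.a i) i w
    rw [h2 i (h8 i hi') i (h8 i hi'), h2' i hi' i hi', if_pos rfl] at this
    constructor <;> intro hw <;> by_contra hc
    · rw [if_neg hc, if_pos hw] at this
      exact one_ne_zero this
    · rw [if_neg hc, if_pos hw] at this
      exact zero_ne_one this
  have h1 : ∀ j, (d.n β j).getRight? ≠ none → γ (some j) = γ' (some j) := fun j hj => by
    obtain ⟨v, hv₀⟩ := Option.ne_none_iff_exists'.mp hj
    exact funext fun u => by simpa [hv₀] using hv u j v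
  have h2 : ∀ j, γ (some j) = γ' (some j) := fun j => by
    by_cases hj : (d.n β j).getRight? = none
    swap
    · exact h1 j hj
    obtain ⟨q, hq, hq'⟩ := pol_interp d.ha (d.hroot β hβ).le fun i => if i = j then (1 : F) else 0
    funext u
    have h3 := congrFun (congrFun h u) (.inr (β, .inl q))
    rw [d.std_q _ _ _ _ hq, d.std_q _ _ _ _ hq, sub_right_inj, ← sub_eq_zero, ← sum_sub_distrib,
      sum_eq_single j, hq' j (by simpa using hj), if_pos rfl, mul_one, mul_one, sub_eq_zero] at h3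
    · exact h3
    · intro i _ hi
      by_cases hi' : (d.n β i).getRight? = none
      · rw [hq' i (by simpa using hi'), if_neg hi]
        simp
      · rw [h1 i hi', sub_self]
    · simp
  have h3 : γ none = γ' none := funext fun u => by
    have h3 := congrFun (congrFun h u) (.inr (β, .inr true))
    rw [d.std_true, d.std_true] at h3
    simpa [h2] using h3
  have h4 : f = f' := funext fun u => by
    have h4 := congrFun (congrFun h u) (.inr (β, .inr false))
    rw [d.std_false, d.std_false] at h4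
    simpa [h3] using h4
  have h5 : γ = γ' := funext fun j => by
    cases j
    · exact h3
    · exact h2 _
  rw [h4, h5]

theorem add_sep {b : ι → K × (SX ι F V J → F)} (hb : b ∈ d.add) {U : Finset ι}
    (hU : #U = d.t + 1) : ¬ PolyOn d.a d.t U fun i => (b i).2 := by
  intro h
  simp only [add, Multiset.mem_sum, Multiset.mem_add, mem_fam] at hb
  obtain ⟨β, -, ⟨f, hf, rfl⟩ | ⟨f, hf, γ, hγ, rfl⟩⟩ := hb
  · obtain ⟨i₀, hi₀, hi₀'⟩ : ∃ i₀ ∈ U, f (d.a i₀) ≠ 0 := by
      by_contra hc
      push Not at hc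
      exact ne_of_mem_erase hf (Ups_unique d.ha (mem_of_mem_erase hf) (zero_mem_Ups _)
        (T := U) (by omega) hc)
    obtain ⟨q, hq, hq'⟩ := pol_interp d.ha (n := d.t) (T := U.erase i₀)
      (by rw [card_erase_of_mem hi₀]; omega) fun i => d.a i ^ d.t
    have h1 := (h.comp (LinearMap.proj (.inr (β, .inr true)))).sub
      (h.comp (LinearMap.proj (.inr (β, .inl q))))
    have h2 : ∀ i, d.φ β i (f (d.a i)) (.inr (β, .inr true)) -
        d.φ β i (f (d.a i)) (.inr (β, .inl q)) =
        if f (d.a i) = 0 then 0 else d.a i ^ d.t - q (d.a i) := fun i => by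
      unfold φ
      split_ifs <;> simp [vec, χ, bv, hq]
    simp only [LinearMap.proj_apply, h2] at h1
    have h3 := h1.eq_zero d.ha hU.ge hi₀ fun i hi hne => by
      rw [hq' i (mem_erase.mpr ⟨hne, hi⟩), sub_self, ite_self]
    rw [if_neg hi₀', sub_eq_zero] at h3
    refine not_polyOn_pow d.ha (one_ne_zero (α := F)) hU.ge ⟨q, hq, fun i hi => ?_⟩
    by_cases hne : i = i₀
    · simp [hne, h3]
    · simp [hq' i (mem_erase.mpr ⟨hne, hi⟩)]
  · have h1 := (h.comp (LinearMap.proj (.inr (β, .inr false)))).sub (polyOn_of_mem U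
      (add_mem (mem_Ups.mp hf) (mem_Box.mp (mem_of_mem_erase hγ) none).1))
    refine not_polyOn_pow d.ha (one_ne_zero (α := F)) hU.ge (h1.congr fun i _ => ?_)
    simp [new, g₀, χ, bv, dir, vec, Fintype.sum_option, E]

end StdData

omit [Fintype F] in
theorem vec_sep {a : ι → F} (ha : Injective a) {t : ℕ} {b : ι → K ⊕ V}
    (hb : #{i | (b i).getRight? = none} ≤ t) {U : Finset ι} (hU : #U = t + 1) :
    ¬ PolyOn a t U fun i => vec F J i (b i) := by
  intro h
  obtain ⟨i₀, hi₀, hi₀'⟩ : ∃ i₀ ∈ U, (b i₀).getRight? ≠ none := by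
    by_contra hc
    push Not at hc
    have := card_le_card (s := U) (t := {i | (b i).getRight? = none})
      fun i hi => by simpa using hc i hi
    omega
  obtain ⟨v, hv⟩ := Option.ne_none_iff_exists'.mp hi₀'
  have := (h.comp (LinearMap.proj (.inl (i₀, v)))).eq_zero ha hU.ge hi₀ fun i _ hi => by
    simp [vec, Ne.symm hi]
  simp [vec, hv] at this

end Std

end

end Pool.Agent.MP_c7a479_co

end

section

/-! The chain composition: universal ingredients survive multiplying the symbols of chosen types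
by a vector space. -/

namespace Pool.Agent.MP_c7a479_co

open Finset
open scoped Classical

noncomputable section

variable {ι A A' W F Λ : Type} [Field F] [AddCommGroup Λ] [Module F Λ]

omit [AddCommGroup Λ] in
theorem cov_lift {ty : A → Option W} {car : Option W → Prop} {lift : A → Λ → A'}
    (hinj : ∀ x l x' l', lift x l = lift x' l' ↔ x = x' ∧ (car (ty x) → l = l'))
    (ν : Multiset (ι → A)) (h : ι → Λ) (T : Finset ι) (τ : ι → A) (x : ι → Λ) :
    cov (ν.map fun b i => lift (b i) (h i)) T (fun i => lift (τ i) (x i)) =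
      if ∀ i ∈ T, car (ty (τ i)) → h i = x i then cov ν T τ else 0 := by
  split_ifs with hc
  · refine cov_map_of_iff fun b _ => forall₂_congr fun i hi => ?_
    rw [hinj]
    exact ⟨fun h => h.1, fun h => ⟨h, fun h' => hc i hi (h ▸ h')⟩⟩
  · rw [cov_eq_zero]
    intro b hb hagree
    obtain ⟨b, -, rfl⟩ := Multiset.mem_map.mp hb
    refine hc fun i hi h' => ?_
    have := (hinj _ _ _ _).mp (hagree i hi)
    exact this.2 (this.1 ▸ h')

theorem sum_fibre {a : ι → F} (ha : Function.Injective a) {n : ℕ} {O : Finset ι} (hO : #O = n)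
    (s : Finset (F → Λ)) (hs : ∀ f ∈ Pol F Λ n, f ∈ s) (x : ι → Λ) (P : Prop) :
    ∑ f ∈ s, (if ∀ i ∈ O, f (a i) = x i then (if P ∧ f ∈ Pol F Λ n then 1 else 0) else 0) =
      if P then 1 else 0 := by
  obtain ⟨f, hf, hf'⟩ := pol_interp ha hO.le x
  rw [sum_eq_single f]
  · rw [if_pos hf']
    simp [hf]
  · intro g _ hg
    split_ifs with h1 h2
    · exact absurd (pol_unique ha h2.2 hf hO.ge fun i hi => by rw [h1 i hi, hf' i hi]) hg
    · rfl
    · rfl
  · intro h; exact absurd (hs f hf) h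

/-- The number of symbols of a pattern that do not carry the new factor. -/
def nc (car : Option W → Prop) (p : Multiset W) : ℕ := (p.filter fun w => ¬ car (some w)).card

theorem nc_mono (car : Option W → Prop) {p q : Multiset W} (h : p ≤ q) : nc car p ≤ nc car q :=
  Multiset.card_le_card (Multiset.filter_le_filter _ h)

theorem card_car {ty : A → Option W} {car : Option W → Prop} (hcar : car none) (T : Finset ι)
    (τ : ι → A) : #{i ∈ T | car (ty (τ i))} = #T - nc car (pat ty T τ) := by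
  rw [nc, card_filter_pat, ← card_filter_add_card_filter_not (s := T) fun i => car (ty (τ i))]
  have : #{i ∈ T | ∃ w, ty (τ i) = some w ∧ ¬ car (some w)} = #{i ∈ T | ¬ car (ty (τ i))} := by
    congr 1
    refine filter_congr fun i _ => ?_
    rcases ty (τ i) with _ | w <;> simp [hcar]
  omega

/-- The family of patterns used over the fibre `f`. -/
def DF (t : ℕ) (car : Option W → Prop) (𝒟 : Multiset W → Prop) (f : F → Λ) (p : Multiset W) :
    Prop := 𝒟 p ∧ f ∈ Pol F Λ (t - nc car p)

theorem Down.DF {t : ℕ} {car : Option W → Prop} {𝒟 : Multiset W → Prop} (h : Down 𝒟) {f : F → Λ}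
    (hf : f ∈ Pol F Λ t) : Down (DF t car 𝒟 f) :=
  ⟨⟨h.1, by simpa [nc] using hf⟩, fun p q hpq hq =>
    ⟨h.2 p q hpq hq.1, Pol_mono (Nat.sub_le_sub_left (nc_mono car hpq) t) hq.2⟩⟩

theorem Univ.comp [Fintype F] [Fintype Λ] {t σ : ℕ} {a : ι → F} (ha : Function.Injective a)
    {ty : A → Option W} {ty' : A' → Option W} {car : Option W → Prop} (hcar : car none)
    {lift : A → Λ → A'} (hty : ∀ x l, ty' (lift x l) = ty x)
    (hsurj : ∀ y, ∃ x l, lift x l = y)
    (hinj : ∀ x l x' l', lift x l = lift x' l' ↔ x = x' ∧ (car (ty x) → l = l'))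
    (h : Univ ι t σ ty) : Univ ι t σ ty' := by
  intro 𝒟 hD hσ
  have key : ∀ f : F → Λ, ∃ ν : Multiset (ι → A), f ∈ Pol F Λ t → Ing t ty (DF t car 𝒟 f) ν := by
    intro f
    by_cases hf : f ∈ Pol F Λ t
    · obtain ⟨ν, hν⟩ := h _ (hD.DF (car := car) hf) fun p hp => hσ p hp.1
      exact ⟨ν, fun _ => hν⟩
    · exact ⟨0, fun h => absurd h hf⟩
  choose ν hν using key
  refine ⟨∑ f ∈ PolF F Λ t, (ν f).map fun b i => lift (b i) (f (a i)), fun T hT τ' => ?_⟩
  choose τ x hτ using fun i => hsurj (τ' i)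
  obtain rfl : τ' = fun i => lift (τ i) (x i) := funext fun i => (hτ i).symm
  rw [cov_sum, pat_congr (ty' := ty) (τ' := τ) fun i _ => hty _ _,
    ← sum_fibre ha (card_car (ty := ty) hcar T τ) (PolF F Λ t) (fun f hf => mem_PolF.mpr
      (Pol_mono (by omega) hf)) x]
  refine sum_congr rfl fun f hf => ?_
  rw [cov_lift hinj, hν f (mem_PolF.mp hf) T hT, hT]
  simp only [mem_filter, and_imp, DF]
  congr

/-- The extension of the old symbols of `M ⊕ W` by `Λ`. -/
def liftS {M : Type} (x : M ⊕ W) (l : Λ) : (M × Λ) ⊕ W := x.map (fun m => (m, l)) id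

omit [AddCommGroup Λ] in
theorem liftS_ty {M : Type} (x : M ⊕ W) (l : Λ) : (liftS x l).getRight? = x.getRight? := by
  cases x <;> rfl

theorem liftS_surj {M : Type} (y : (M × Λ) ⊕ W) : ∃ x l, liftS x l = y := by
  rcases y with ⟨m, l⟩ | w
  · exact ⟨.inl m, l, rfl⟩
  · exact ⟨.inr w, 0, rfl⟩

omit [AddCommGroup Λ] in
theorem liftS_inj {M : Type} (x : M ⊕ W) (l : Λ) (x' : M ⊕ W) (l' : Λ) :
    liftS x l = liftS x' l' ↔ x = x' ∧ (x.getRight? = none → l = l') := by
  cases x <;> cases x' <;> simp [liftS]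

theorem Univ.compS [Fintype F] [Fintype Λ] {t σ : ℕ} {a : ι → F} (ha : Function.Injective a)
    {M : Type} (h : Univ ι t σ (Sum.getRight? : M ⊕ W → Option W)) :
    Univ ι t σ (Sum.getRight? : (M × Λ) ⊕ W → Option W) :=
  h.comp ha (car := fun o => o = none) rfl liftS_ty liftS_surj liftS_inj

end

end Pool.Agent.MP_c7a479_co

end

section

/-! The algebraic absorber in bounded dimension. -/

namespace Pool.Agent.MP_c7a479_co

open Finset Function
open scoped Classical

noncomputable section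

/-- Polynomially bounded functions. -/
def PB (f : ℕ → ℕ) : Prop := ∃ e, ∀ p, 2 ≤ p → f p ≤ p ^ e

theorem PB.id : PB fun p => p := ⟨1, by simp⟩

theorem PB.const (c : ℕ) : PB fun _ => c :=
  ⟨c, fun _ hp => (Nat.lt_two_pow_self.le).trans (Nat.pow_le_pow_left hp c)⟩

theorem PB.mul {f g : ℕ → ℕ} (hf : PB f) (hg : PB g) : PB fun p => f p * g p :=
  let ⟨e, he⟩ := hf
  let ⟨e', he'⟩ := hg
  ⟨e + e', fun p hp => by rw [pow_add]; exact Nat.mul_le_mul (he p hp) (he' p hp)⟩

theorem PB.add {f g : ℕ → ℕ} (hf : PB f) (hg : PB g) : PB fun p => f p + g p := by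
  obtain ⟨e, he⟩ := hf
  obtain ⟨e', he'⟩ := hg
  refine ⟨e + e' + 1, fun p hp => ?_⟩
  have h1 := (he p hp).trans (Nat.pow_le_pow_right (by omega) (Nat.le_add_right e e'))
  have h2 := (he' p hp).trans (Nat.pow_le_pow_right (by omega) (Nat.le_add_left e' e))
  rw [pow_succ]
  nlinarith

theorem PB.pow {f : ℕ → ℕ} (hf : PB f) (n : ℕ) : PB fun p => f p ^ n :=
  let ⟨e, he⟩ := hf
  ⟨e * n, fun p hp => by rw [pow_mul]; exact Nat.pow_le_pow_left (he p hp) n⟩

theorem exists_proj {X F : Type} [Field F] [Fintype F] [Fintype X] (Z : Finset (X → F))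
    (hZ : ∀ z ∈ Z, z ≠ 0) {D : ℕ} (hD : #Z < Fintype.card F ^ D) :
    ∃ θ : (X → F) →ₗ[F] (Fin D → F), ∀ z ∈ Z, θ z ≠ 0 := by
  by_contra hc
  push Not at hc
  have key : ∀ z ∈ Z, Fintype.card F ^ D * #{M : X → Fin D → F | ∑ x, z x • M x = 0} =
      Fintype.card (X → Fin D → F) := by
    intro z hz
    obtain ⟨x₀, hx₀⟩ := Function.ne_iff.mp (hZ z hz)
    let ev : (X → Fin D → F) →+ (Fin D → F) :=
      { toFun := fun M => ∑ x, z x • M x
        map_zero' := by simp
        map_add' := fun M M' => by simp [sum_add_distrib] }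
    have hsurj : ∀ y, y ∈ Set.range ev := fun y =>
      ⟨Pi.single x₀ ((z x₀)⁻¹ • y), by
        change ∑ x, z x • (Pi.single x₀ ((z x₀)⁻¹ • y) : X → Fin D → F) x = y
        rw [sum_eq_single x₀]
        · rw [Pi.single_eq_same, smul_inv_smul₀ hx₀]
        · intro x _ hx; simp [hx]
        · simp⟩
    rw [← card_univ (α := X → Fin D → F),
      card_eq_sum_card_fiberwise (f := ev) (s := univ) (t := univ) fun _ _ => mem_univ _,
      sum_congr rfl fun y _ => AddMonoidHom.card_fiber_eq_of_mem_range ev (hsurj y) (hsurj 0)]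
    simp only [sum_const, card_univ, Fintype.card_fun, Fintype.card_fin, smul_eq_mul]
    congr
  have h1 : (univ : Finset (X → Fin D → F)) ⊆
      Z.biUnion fun z => {M : X → Fin D → F | ∑ x, z x • M x = 0} := by
    intro M _
    obtain ⟨z, hz, hz'⟩ := hc (Fintype.linearCombination F M)
    exact mem_biUnion.mpr ⟨z, hz, by simpa [Fintype.linearCombination_apply] using hz'⟩
  have h2 := Nat.mul_le_mul_left (Fintype.card F ^ D) ((card_le_card h1).trans card_biUnion_le)
  rw [mul_sum, sum_congr rfl key, sum_const, card_univ, smul_eq_mul] at h2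
  exact absurd (Nat.le_of_mul_le_mul_right h2 Fintype.card_pos) (by omega)

theorem cov_map_zero {ι K Λ : Type} [AddCommGroup Λ] (ν : Multiset (ι → K)) (T : Finset ι)
    (κ : ι → K) (x : ι → Λ) :
    cov (ν.map fun b i => (b i, (0 : Λ))) T (fun i => (κ i, x i)) =
      if ∀ i ∈ T, x i = 0 then cov ν T κ else 0 := by
  have := cov_lift (W := Unit) (ty := fun _ : K => none) (car := fun _ => True)
    (lift := (Prod.mk : K → Λ → K × Λ)) (by simp) ν 0 T κ x
  simpa [eq_comm (a := (0 : Λ))] using this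

/-- The conclusion of the absorber lemma on the coordinates outside `S`. -/
def Absorbs {ι F K Λ : Type} [Field F] [AddCommGroup Λ] [Module F Λ] (a : ι → F) (t : ℕ)
    (S : Finset ι) (L : Finset ι → (ι → K) → ℤ) (P : Multiset (ι → K × Λ))
    (R : Finset ((ι → K) × (F → Λ))) : Prop :=
  (∀ T, #T = t → Disjoint T S → ∀ (κ : ι → K) (x : ι → Λ), (cov P T fun i => (κ i, x i) : ℤ) =
      (if ∀ i ∈ T, x i = 0 then L T κ else 0) +
        cov (fam R fun r i => (r.1 i, r.2 (a i))) T fun i => (κ i, x i)) ∧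
    (∀ r ∈ R, r.2 ∈ Pol F Λ t ∧ r.2 ∉ Pol F Λ (t - 1)) ∧ Set.InjOn Prod.snd (R : Set ((ι → K) × (F → Λ))) ∧
    ∀ b ∈ P, ∀ U, #U = t + 1 → Disjoint U S → ¬ PolyOn a t U fun i => (b i).2

theorem absorber_full (t E : ℕ) : ∃ D : ℕ, ∀ (ι F K : Type) [Field F] [Fintype F] [Fintype ι]
    [Fintype K] [Nonempty K] (a : ι → F), Injective a → t ≤ Fintype.card ι →
    Fintype.card K ≤ Fintype.card F ^ E → ∀ L : Finset ι → (ι → K) → ℤ, IsLocal t L → IsCons t L →
    (∀ T, #T = t → ∀ τ, 0 ≤ L T τ ∧ L T τ ≤ 1) →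
    ∃ (P : Multiset (ι → K × (Fin D → F))) (R : Finset ((ι → K) × (F → Fin D → F))),
      Absorbs a t ∅ L P R := by
  let n₁ : ℕ → ℕ := fun p => ((p * p ^ E + 1) ^ t + 1) ^ (t + 1) * ((p ^ t + 1) * p ^ t)
  let n₂ : ℕ → ℕ := fun p => n₁ p * (p ^ t * (p ^ t) ^ (t + 1))
  have hn₁ : PB n₁ := ((((PB.id.mul (PB.id.pow E)).add (PB.const 1)).pow t).add (PB.const 1)).pow
    (t + 1) |>.mul (((PB.id.pow t).add (PB.const 1)).mul (PB.id.pow t))
  have hn₂ : PB n₂ := hn₁.mul ((PB.id.pow t).mul ((PB.id.pow t).pow (t + 1)))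
  obtain ⟨D, hD⟩ : PB fun p => (2 * n₁ p + 2 * n₂ p) * p ^ (t + 1) + n₂ p + n₂ p * n₂ p + 1 :=
    ((((((PB.const 2).mul hn₁).add ((PB.const 2).mul hn₂)).mul (PB.id.pow _)).add hn₂).add
      (hn₂.mul hn₂)).add (PB.const 1)
  refine ⟨D, fun ι F K _ _ _ _ _ a ha ht hK L hloc hcons hL => ?_⟩
  have hk : Fintype.card ι ≤ Fintype.card F := Fintype.card_le_of_injective a ha
  obtain ⟨z⟩ := ‹Nonempty K›
  obtain ⟨P₁, N₁, h₁, hc₁⟩ := int_decomp z ht L hloc hcons fun T hT τ =>
    abs_le.mpr ⟨by linarith [(hL T hT τ).1], (hL T hT τ).2⟩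
  obtain ⟨V, J, _, _, P₀, s, n, h₀, hP₀, hroot, hdisj, hcP₀, hcs⟩ := exists_abs ha ht P₁ N₁
    fun T hT τ => by have := h₁ T hT τ; have := (hL T hT τ).1; omega
  let d : StdData ι F K V J := ⟨t, a, ha, ht, z, s, n, hroot, hdisj⟩
  let emb : ι → K ⊕ V → K × (SX ι F V J → F) := fun i y => (lab z y, vec F J i y)
  let P : Multiset (ι → K × (SX ι F V J → F)) := (P₀.map fun b i => emb i (b i)) + d.add
  have hsep : ∀ b ∈ P, ∀ U, #U = t + 1 → ¬ PolyOn a t U fun i => (b i).2 := by
    intro b hb U hU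
    rcases Multiset.mem_add.mp hb with hb | hb
    · obtain ⟨b', hb', rfl⟩ := Multiset.mem_map.mp hb
      exact vec_sep ha (hP₀ b' hb') hU
    · exact d.add_sep hb hU
  have w₁ : ∀ y : (ι → K × (SX ι F V J → F)) × Finset ι, ∃ w : SX ι F V J → F,
      y ∈ P.toFinset ×ˢ powersetCard (t + 1) univ → w ≠ 0 ∧
        ∀ θ : (SX ι F V J → F) →ₗ[F] (Fin D → F), θ w ≠ 0 →
          ¬ PolyOn a t y.2 fun i => θ (y.1 i).2 := by
    rintro ⟨b, U⟩
    by_cases h : (b, U) ∈ P.toFinset ×ˢ powersetCard (t + 1) univ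
    · simp only [mem_product, Multiset.mem_toFinset, mem_powersetCard] at h
      obtain ⟨w, hw, hw'⟩ := exists_witness ha (by omega) (hsep b h.1 U h.2.2)
      exact ⟨w, fun _ => ⟨hw, hw' _⟩⟩
    · exact ⟨0, fun h' => absurd h' h⟩
  have w₂ : ∀ x : J × (F → F) × (Option ι → F → F), ∃ w : SX ι F V J → F, x ∈ d.RI → w ≠ 0 ∧
      ∀ θ : (SX ι F V J → F) →ₗ[F] (Fin D → F), θ w ≠ 0 →
        (fun u => θ (d.std x u)) ∉ Pol F (Fin D → F) (t - 1) := by
    intro x
    by_cases h : x ∈ d.RI
    · obtain ⟨w, hw, hw'⟩ := exists_witness (a := (id : F → F)) injective_id (n := t - 1)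
        (U := univ) (by rw [card_univ]; omega) (x := d.std x) fun ⟨g, hg, hg'⟩ =>
          d.std_not_mem h ((funext fun u => hg' u (mem_univ u) : g = d.std x) ▸ hg)
      exact ⟨w, fun _ => ⟨hw, fun θ hθ h' => hw' _ θ hθ (polyOn_of_mem univ h')⟩⟩
    · exact ⟨0, fun h' => absurd h' h⟩
  have w₃ : ∀ y : (J × (F → F) × (Option ι → F → F)) × (J × (F → F) × (Option ι → F → F)),
      ∃ w : SX ι F V J → F, y ∈ d.RI.offDiag → w ≠ 0 ∧
        ∀ θ : (SX ι F V J → F) →ₗ[F] (Fin D → F), θ w ≠ 0 →
          (fun u => θ (d.std y.1 u)) ≠ fun u => θ (d.std y.2 u) := by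
    rintro ⟨x, x'⟩
    by_cases h : (x, x') ∈ d.RI.offDiag
    · rw [mem_offDiag] at h
      obtain ⟨u, hu⟩ := Function.ne_iff.mp fun h' => h.2.2 (d.std_inj h.1 h.2.1 h')
      refine ⟨d.std x u - d.std x' u, fun _ => ⟨sub_ne_zero.mpr hu, fun θ hθ h' => hθ ?_⟩⟩
      rw [map_sub, sub_eq_zero]
      exact congrFun h' u
    · exact ⟨0, fun h' => absurd h' h⟩
  choose w₁ hw₁ using w₁
  choose w₂ hw₂ using w₂
  choose w₃ hw₃ using w₃
  obtain ⟨θ, hθ⟩ := exists_proj (D := D) ((P.toFinset ×ˢ powersetCard (t + 1) univ).image w₁ ∪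
    d.RI.image w₂ ∪ d.RI.offDiag.image w₃) (by
      simp only [mem_union, mem_image]
      rintro _ ((⟨y, hy, rfl⟩ | ⟨y, hy, rfl⟩) | ⟨y, hy, rfl⟩)
      exacts [(hw₁ y hy).1, (hw₂ y hy).1, (hw₃ y hy).1]) (by
      have e₁ : (P₁.card + N₁.card) * ((Fintype.card ι ^ t + 1) * Fintype.card F ^ t) ≤
          n₁ (Fintype.card F) := by
        refine Nat.mul_le_mul (hc₁.trans ?_) ?_ <;> gcongr
      have e₂ : #d.RI ≤ n₂ (Fintype.card F) :=
        d.card_RI.trans (Nat.mul_le_mul_right _ (hcs.trans e₁))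
      have e₃ : d.add.card ≤ 2 * n₂ (Fintype.card F) := by
        refine d.card_add.trans ?_
        rw [mul_left_comm]
        exact Nat.mul_le_mul_left _ (Nat.mul_le_mul_right _ (hcs.trans e₁))
      have e₄ : #P.toFinset ≤ 2 * n₁ (Fintype.card F) + 2 * n₂ (Fintype.card F) := by
        refine (Multiset.toFinset_card_le _).trans ?_
        rw [Multiset.card_add, Multiset.card_map]
        omega
      have e₅ : #(P.toFinset ×ˢ powersetCard (t + 1) (univ : Finset ι)) ≤
          (2 * n₁ (Fintype.card F) + 2 * n₂ (Fintype.card F)) * Fintype.card F ^ (t + 1) := by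
        rw [card_product, card_powersetCard]
        exact Nat.mul_le_mul e₄ ((Nat.choose_le_pow _ _).trans (Nat.pow_le_pow_left hk _))
      have e₆ : #d.RI.offDiag ≤ n₂ (Fintype.card F) * n₂ (Fintype.card F) := by
        rw [offDiag_card]
        exact (Nat.sub_le _ _).trans (Nat.mul_le_mul e₂ e₂)
      refine lt_of_lt_of_le ?_ (hD _ Fintype.one_lt_card)
      refine Nat.lt_succ_of_le ((card_union_le _ _).trans (add_le_add ((card_union_le _ _).trans
        (add_le_add (card_image_le.trans e₅) (card_image_le.trans e₂))) (card_image_le.trans e₆))))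
  simp only [mem_union, mem_image] at hθ
  have hinj : Set.InjOn (fun x u => θ (d.std x u)) d.RI := fun x hx x' hx' h => by
    by_contra hne
    have : (x, x') ∈ d.RI.offDiag := mem_offDiag.mpr ⟨hx, hx', hne⟩
    exact (hw₃ _ this).2 θ (hθ _ (Or.inr ⟨_, this, rfl⟩)) h
  refine ⟨P.map fun b i => ((b i).1, θ (b i).2),
    d.RI.image fun x => (d.c x.1, fun u => θ (d.std x u)), fun T hT _ κ x => ?_, ?_, ?_, ?_⟩
  · have h2 : ∀ τ, cov (P + N₁.map fun b i => (b i, 0)) T τ =
        cov ((P₁.map fun b i => (b i, 0)) + fam d.RI fun x i => (d.c x.1 i, d.std x (a i))) T τ := by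
      intro τ
      have h3 := cov_push (μ := P₀ + N₁.map fun b i => Sum.inl (b i))
        (ν := (P₁.map fun b i => Sum.inl (b i)) + fam s n)
        (fun τ => by rw [cov_add, cov_add]; exact h₀ T hT τ) emb τ
      have h4 : ∀ i κ, emb i (Sum.inl κ) = (κ, 0) := fun i κ => by
        simp only [emb, lab, vec, Sum.elim_inl, id_eq, Sum.getRight?_inl, reduceCtorEq, and_false,
          if_false, Prod.mk.injEq, true_and]
        funext y
        cases y <;> rfl
      simp only [Multiset.map_add, Multiset.map_map, comp_def, h4, cov_add, map_fam] at h3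
      have h5 := d.identity hT τ
      simp only [P, cov_add]
      change cov (fam s fun β i => emb i (n β i)) T τ + _ = cov (fam d.RI fun x i =>
        (d.c x.1 i, d.std x (a i))) T τ at h5
      omega
    have h3 := cov_push h2 (fun _ y => (y.1, θ y.2)) fun i => (κ i, x i)
    simp only [Multiset.map_add, Multiset.map_map, comp_def, cov_add, map_fam, map_zero,
      cov_map_zero] at h3
    have h4 : (fam (d.RI.image fun x => (d.c x.1, fun u => θ (d.std x u))) fun r i =>
        (r.1 i, r.2 (a i))) = fam d.RI fun x i => (d.c x.1 i, θ (d.std x (a i))) := by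
      rw [fam, sum_image fun x hx x' hx' h => hinj hx hx' (congrArg Prod.snd h)]
      rfl
    rw [h4]
    have h5 := h₁ T hT κ
    split_ifs at h3 ⊢ <;> omega
  · intro r hr
    obtain ⟨x, hx, rfl⟩ := mem_image.mp hr
    exact ⟨Pol_comp θ (d.std_mem hx), (hw₂ x hx).2 θ (hθ _ (Or.inl (Or.inr ⟨_, hx, rfl⟩)))⟩
  · intro r hr r' hr' h
    obtain ⟨x, hx, rfl⟩ := mem_image.mp (mem_coe.mp hr)
    obtain ⟨x', hx', rfl⟩ := mem_image.mp (mem_coe.mp hr')
    rw [hinj hx hx' h]
  · intro b hb U hU _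
    obtain ⟨b', hb', rfl⟩ := Multiset.mem_map.mp hb
    have : (b', U) ∈ P.toFinset ×ˢ powersetCard (t + 1) univ := by simp [hb', hU]
    exact (hw₁ _ this).2 θ (hθ _ (Or.inl (Or.inl ⟨_, this, rfl⟩)))

theorem absorber (t E : ℕ) : ∃ D : ℕ, ∀ (ι F K : Type) [Field F] [Fintype F] [Fintype ι]
    [Fintype K] [Nonempty K] (a : ι → F), Injective a → ∀ S : Finset ι,
    #S + t ≤ Fintype.card ι → Fintype.card K ≤ Fintype.card F ^ E →
    ∀ L : Finset ι → (ι → K) → ℤ, IsLocal t L →
    (∀ T, #T + 1 = t → Disjoint T S → ∀ i ∉ T, i ∉ S → ∀ j ∉ T, j ∉ S → ∀ τ,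
      ∑ u, L (insert i T) (update τ i u) = ∑ u, L (insert j T) (update τ j u)) →
    (∀ T, #T = t → Disjoint T S → ∀ τ, 0 ≤ L T τ ∧ L T τ ≤ 1) →
    ∃ (P : Multiset (ι → K × (Fin D → F))) (R : Finset ((ι → K) × (F → Fin D → F))),
      Absorbs a t S L P R := by
  obtain ⟨D, hD⟩ := absorber_full t E
  refine ⟨D, fun ι F K _ _ _ _ _ a ha S hS hK L hloc hcons hL => ?_⟩
  obtain ⟨z⟩ := ‹Nonempty K›
  let ext : ∀ {X : Type}, X → ({i // i ∉ S} → X) → ι → X := fun x₀ κ i =>
    if h : i ∈ S then x₀ else κ ⟨i, h⟩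
  have hext : ∀ {X : Type} (x₀ : X) (κ : {i // i ∉ S} → X) (i : {i // i ∉ S}),
      ext x₀ κ i = κ i := fun x₀ κ i => dif_neg i.2
  let e : {i // i ∉ S} ↪ ι := Embedding.subtype _
  have hdis : ∀ T : Finset {i // i ∉ S}, Disjoint (T.map e) S := fun T =>
    disjoint_left.mpr fun i hi => by
      obtain ⟨j, -, rfl⟩ := mem_map.mp hi
      exact j.2
  have hsub : ∀ T, Disjoint T S → (T.subtype (· ∉ S)).map e = T := fun T hT =>
    subtype_map_of_mem fun i hi => disjoint_left.mp hT hi
  obtain ⟨P, R, h1, h2, h3, h4⟩ := hD {i // i ∉ S} F K (fun i => a i)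
    (ha.comp Subtype.val_injective) (by
      rw [Fintype.card_subtype_compl, Fintype.card_coe]; omega) hK
    (fun T κ => L (T.map e) (ext z κ))
    (fun T hT τ τ' h => hloc _ (by rw [card_map, hT]) _ _ fun i hi => by
      obtain ⟨j, hj, rfl⟩ := mem_map.mp hi
      exact (hext _ _ j).trans ((h j hj).trans (hext _ _ j).symm))
    (fun T hT i hi j hj τ => by
      have key : ∀ (inst : DecidableEq {i // i ∉ S}) (i : {i // i ∉ S}) u,
          ext z (@update _ _ inst τ i u) = update (ext z τ) i u := by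
        intro _ i u
        funext j
        by_cases hj : j ∈ S
        · rw [update_of_ne fun h : j = i => i.2 (h ▸ hj)]
          simp [ext, hj]
        · by_cases hji : j = i
          · subst hji
            rw [update_self, hext, update_self]
          · rw [update_of_ne hji]
            simp only [ext, dif_neg hj]
            rw [update_of_ne fun h => hji (congrArg Subtype.val h)]
      simp only [map_insert, key]
      exact hcons _ (by rw [card_map, hT]) (hdis T) _ (fun h => hi ((mem_map' e).mp h)) i.2 _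
        (fun h => hj ((mem_map' e).mp h)) j.2 _)
    (fun T hT τ => hL _ (by rw [card_map, hT]) (hdis T) _)
  refine ⟨P.map (ext (z, 0)), R.image fun r => (ext z r.1, r.2), fun T hT hTS κ x => ?_, ?_, ?_, ?_⟩
  · have h5 := h1 (T.subtype (· ∉ S)) (by rw [← card_map e, hsub T hTS, hT]) (disjoint_empty_right _)
      (fun i => κ i) fun i => x i
    have key : ∀ {X : Type} (x₀ : X) (b : {i // i ∉ S} → X) (τ : ι → X),
        (∀ i ∈ T, ext x₀ b i = τ i) ↔ ∀ i ∈ T.subtype (· ∉ S), b i = τ i := by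
      intro X x₀ b τ
      refine ⟨fun h i hi => (hext x₀ b i).symm.trans (h i (mem_subtype.mp hi)), fun h i hi => ?_⟩
      exact (hext x₀ b ⟨i, disjoint_left.mp hTS hi⟩).trans (h ⟨i, _⟩ (mem_subtype.mpr hi))
    have h6 : (fam (R.image fun r => (ext z r.1, r.2)) fun r i => (r.1 i, r.2 (a i))) =
        fam R fun r i => (ext z r.1 i, r.2 (a i)) := by
      rw [fam, sum_image]
      · rfl
      · exact fun x hx x' hx' h => h3 hx hx' (congrArg Prod.snd h :)
    beta_reduce at h5
    rw [cov_map_of_iff fun b _ => key _ b _, h5, hsub T hTS, h6, cov_fam, cov_fam]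
    congr 1
    · rw [hloc T hT _ κ fun i hi => hext z (fun i => κ i) ⟨i, disjoint_left.mp hTS hi⟩]
      congr 1
      exact propext ⟨fun h i hi => h ⟨i, disjoint_left.mp hTS hi⟩ (mem_subtype.mpr hi),
        fun h i hi => h i (mem_subtype.mp hi)⟩
    · congr 1
      refine sum_congr rfl fun r _ => ?_
      rw [cov_singleton, cov_singleton]
      congr 1
      rw [← key (z, 0) (fun i => (r.1 i, r.2 (a i))) fun i => (κ i, x i)]
      refine propext (forall₂_congr fun i hi => ?_)
      simp [ext, disjoint_left.mp hTS hi]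
  · intro r hr
    obtain ⟨r', hr', rfl⟩ := mem_image.mp hr
    exact h2 r' hr'
  · intro r hr r' hr' h
    obtain ⟨x, hx, rfl⟩ := mem_image.mp (mem_coe.mp hr)
    obtain ⟨x', hx', rfl⟩ := mem_image.mp (mem_coe.mp hr')
    rw [h3 hx hx' h]
  · intro b hb U hU hUS ⟨g, hg, hg'⟩
    obtain ⟨b', hb', rfl⟩ := Multiset.mem_map.mp hb
    refine h4 b' hb' (U.subtype (· ∉ S)) (by rw [← card_map e, hsub U hUS, hU])
      (disjoint_empty_right _) ⟨g, hg, fun i hi => ?_⟩
    rw [hg' i (mem_subtype.mp hi)]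
    simp only [hext]

end

end Pool.Agent.MP_c7a479_co

end

section

/-! Blocks with a prescribed pattern, the top layer, and prescribed blocks in ingredients. -/

namespace Pool.Agent.MP_c7a479_co

open Finset Function
open scoped Classical

noncomputable section

variable {ι W M : Type}

/-- The block with new symbols `π` and old symbols `c` elsewhere. -/
def blkP (π : ι → Option W) (c : ι → M) (i : ι) : M ⊕ W := (π i).elim (.inl (c i)) .inr

@[simp] theorem blkP_right (π : ι → Option W) (c : ι → M) (i : ι) :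
    (blkP π c i).getRight? = π i := by
  unfold blkP; cases π i <;> rfl

theorem blkP_none {π : ι → Option W} (c : ι → M) {i : ι} (h : π i = none) :
    blkP π c i = .inl (c i) := by simp [blkP, h]

theorem blkP_congr {π : ι → Option W} {c c' : ι → M} {i : ι} (h : π i = none → c i = c' i) :
    blkP π c i = blkP π c' i := by
  unfold blkP
  rcases h' : π i with _ | w
  · simp [h h']
  · rfl

theorem blkP_self (z : M) (τ : ι → M ⊕ W) (π : ι → Option W) {i : ι} (h : π i = (τ i).getRight?) :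
    blkP π (fun i => (τ i).elim id fun _ => z) i = τ i := by
  unfold blkP
  rw [h]
  beta_reduce
  cases τ i <;> rfl

/-- The pattern word of `τ` on `T`. -/
def pw (T : Finset ι) (τ : ι → M ⊕ W) (i : ι) : Option W := if i ∈ T then (τ i).getRight? else none

theorem card_old (T : Finset ι) (τ : ι → M ⊕ W) :
    #{i ∈ T | (τ i).getRight? = none} = #T - (pat Sum.getRight? T τ).card := by
  rw [card_pat, ← card_filter_add_card_filter_not (s := T) fun i => (τ i).getRight? = none]
  refine (Nat.sub_eq_of_eq_add ?_).symm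
  congr

theorem card_pat_le (T : Finset ι) (τ : ι → M ⊕ W) : (pat Sum.getRight? T τ).card ≤ #T := by
  rw [card_pat]; exact card_filter_le _ _

theorem cov_fam_le_one {α A : Type} {s : Finset α} {b : α → ι → A} {T : Finset ι} {τ : ι → A}
    (h : ∀ x ∈ s, ∀ y ∈ s, (∀ i ∈ T, b x i = τ i) → (∀ i ∈ T, b y i = τ i) → x = y) :
    cov (fam s b) T τ ≤ 1 := by
  simp only [cov_fam, cov_singleton, sum_boole, Nat.cast_id]
  exact card_le_one.mpr fun x hx y hy =>
    h x (mem_filter.mp hx).1 y (mem_filter.mp hy).1 (mem_filter.mp hx).2 (mem_filter.mp hy).2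

theorem exists_injOn {α β : Type} [Fintype β] [Nonempty β] (s : Finset α)
    (h : #s ≤ Fintype.card β) : ∃ f : α → β, Set.InjOn f s := by
  obtain ⟨g⟩ : Nonempty (s ↪ β) := Function.Embedding.nonempty_of_card_le (by simpa using h)
  refine ⟨fun x => if h : x ∈ s then g ⟨x, h⟩ else Classical.arbitrary β, fun x hx y hy hxy => ?_⟩
  simp only [mem_coe.mp hx, mem_coe.mp hy, dif_pos] at hxy
  exact congrArg Subtype.val (g.injective hxy)

variable [Fintype ι]

/-- The support of a pattern word. -/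
def supp (π : ι → Option W) : Finset ι := {i | π i ≠ none}

@[simp] theorem mem_supp {π : ι → Option W} {i : ι} : i ∈ supp π ↔ π i ≠ none := by simp [supp]

theorem card_pat_univ (π : ι → Option W) : (pat id univ π).card = #(supp π) := card_pat _ _ _

theorem pat_of_supp {π : ι → Option W} {T : Finset ι} (h : supp π ⊆ T) :
    pat id T π = pat id univ π :=
  sum_subset (subset_univ T) fun i _ hi => by
    have : π i = none := by simpa using fun h' => hi (h (mem_supp.mpr h'))
    simp [this]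

theorem pat_pw (T : Finset ι) (τ : ι → M ⊕ W) : pat id univ (pw T τ) = pat Sum.getRight? T τ := by
  rw [← pat_of_supp (T := T)]
  · exact pat_congr fun i hi => if_pos hi
  · intro i hi
    by_contra h
    simp [pw, h] at hi

theorem supp_pw (T : Finset ι) (τ : ι → M ⊕ W) : supp (pw T τ) ⊆ T := fun i hi => by
  by_contra h
  simp [pw, h] at hi

theorem pat_le_of_agree {π : ι → Option W} {T : Finset ι} {τ : ι → M ⊕ W}
    (h : ∀ i ∈ T, π i = (τ i).getRight?) : pat Sum.getRight? T τ ≤ pat id univ π :=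
  (pat_congr fun i hi => (h i hi).symm).trans_le (pat_mono id (subset_univ T) π)

theorem eq_pw_of_agree {π : ι → Option W} {T : Finset ι} {τ : ι → M ⊕ W}
    (h : ∀ i ∈ T, π i = (τ i).getRight?) (hc : #(supp π) ≤ (pat Sum.getRight? T τ).card) :
    π = pw T τ := by
  rw [card_pat] at hc
  have := eq_of_subset_of_card_le (s := {i ∈ T | (τ i).getRight? ≠ none}) (t := supp π)
    (fun i hi => by rw [mem_filter] at hi; rw [mem_supp, h i hi.1]; exact hi.2) hc
  funext i
  unfold pw
  split_ifs with hi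
  · exact h i hi
  · by_contra hne
    exact hi (mem_filter.mp (this ▸ mem_supp.mpr hne)).1

variable [Fintype W]

variable (ι) in
/-- The allowed pattern words of size `s`. -/
def PS (s : ℕ) (𝒟 : Multiset W → Prop) : Finset (ι → Option W) :=
  {π | #(supp π) = s ∧ 𝒟 (pat id univ π)}

theorem mem_PS {s : ℕ} {𝒟 : Multiset W → Prop} {π : ι → Option W} :
    π ∈ PS ι s 𝒟 ↔ #(supp π) = s ∧ 𝒟 (pat id univ π) := by simp [PS]

theorem card_PS_le {s t : ℕ} (h : s ≤ t) (𝒟 : Multiset W → Prop) :
    #(PS ι s 𝒟) ≤ (Fintype.card ι * (Fintype.card W + 1) + 1) ^ t := by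
  refine le_trans (card_le_card fun π hπ => ?_) ((card_small_le (ι := ι) (none : Option W) t).trans
    (by simp))
  have := (mem_PS.mp hπ).1
  simp only [small, mem_filter, mem_univ, true_and]
  convert (this.trans_le h)
  ext i
  simp

omit [Fintype ι] [Fintype W] in
theorem pat_blkP (π : ι → Option W) (c : ι → M) (T : Finset ι) :
    pat Sum.getRight? T (blkP π c) = pat id T π := pat_congr fun _ _ => blkP_right _ _ _

theorem pw_mem_PS {𝒟 : Multiset W → Prop} {T : Finset ι} {τ : ι → M ⊕ W}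
    (h : 𝒟 (pat Sum.getRight? T τ)) : pw T τ ∈ PS ι (pat Sum.getRight? T τ).card 𝒟 :=
  mem_PS.mpr ⟨by rw [← card_pat_univ, pat_pw], by rwa [pat_pw]⟩

/-- The top layer. -/
theorem top_layer {F : Type} [Field F] [Fintype F] [AddCommGroup M] [Module F M] [Fintype M]
    {a : ι → F} (ha : Injective a) {t σ : ℕ} (hσ : σ ≤ t)
    (hM : (Fintype.card ι * (Fintype.card W + 1) + 1) ^ t ≤ Fintype.card M)
    {𝒟 : Multiset W → Prop} (hD : Down 𝒟) (hD' : ∀ p, 𝒟 p → p.card < σ + 1) :
    ∃ μ : Multiset (ι → M ⊕ W), XL t σ Sum.getRight? 𝒟 μ := by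
  obtain ⟨c, hc⟩ := exists_injOn (β := M) (PS ι σ 𝒟) ((card_PS_le hσ 𝒟).trans hM)
  refine ⟨fam (PS ι σ 𝒟 ×ˢ PolF F M (t - σ)) fun x =>
    blkP x.1 fun i => a i ^ (t - σ) • c x.1 + x.2 (a i), fun T hT τ => ?_⟩
  have hag : ∀ {π : ι → Option W} {c : ι → M}, (∀ i ∈ T, blkP π c i = τ i) →
      ∀ i ∈ T, π i = (τ i).getRight? := fun h i hi => by rw [← h i hi, blkP_right]
  by_cases hp : 𝒟 (pat Sum.getRight? T τ)
  swap
  · rw [if_neg hp, cov_eq_zero.mpr]
    · simp
    · intro b hb h
      obtain ⟨x, hx, rfl⟩ := mem_fam.mp hb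
      exact hp (hD.2 _ _ (pat_le_of_agree (hag h)) (mem_PS.mp (mem_product.mp hx).1).2)
  have hj := hD' _ hp
  have hO := card_old T τ
  have h1 : cov (fam (PS ι σ 𝒟 ×ˢ PolF F M (t - σ)) fun x =>
      blkP x.1 fun i => a i ^ (t - σ) • c x.1 + x.2 (a i)) T τ ≤ 1 := by
    refine cov_fam_le_one ?_
    rintro ⟨π, f⟩ hx ⟨π', f'⟩ hx' h h'
    simp only [mem_product, mem_PolF] at hx hx'
    have key : ∀ i ∈ ({i ∈ T | (τ i).getRight? = none} : Finset ι),
        a i ^ (t - σ) • c π + f (a i) = a i ^ (t - σ) • c π' + f' (a i) := fun i hi => by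
      rw [mem_filter] at hi
      have := (h i hi.1).trans (h' i hi.1).symm
      rwa [blkP_none _ ((hag h i hi.1).trans hi.2), blkP_none _ ((hag h' i hi.1).trans hi.2),
        Sum.inl.injEq] at this
    obtain rfl : π = π' := by
      by_contra hne
      have h2 := card_le_of_pow_add ha (sub_ne_zero.mpr fun h => hne (hc hx.1 hx'.1 h))
        (sub_mem hx.2 hx'.2) fun i hi => by
          rw [smul_sub, Pi.sub_apply, sub_add_sub_comm, key i hi, sub_self]
      exact hne ((eq_pw_of_agree (hag h) (by rw [(mem_PS.mp hx.1).1]; omega)).trans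
        (eq_pw_of_agree (hag h') (by rw [(mem_PS.mp hx'.1).1]; omega)).symm)
    rw [pol_unique ha hx.2 hx'.2 (by omega) fun i hi => add_left_cancel (key i hi)]
  rw [if_pos hp]
  refine ⟨h1, fun hs => le_antisymm h1 (cov_pos.mpr ?_)⟩
  obtain ⟨f, hf, hf'⟩ := pol_interp ha (n := t - σ) (T := {i ∈ T | (τ i).getRight? = none})
    (by omega) fun i => (τ i).elim id (fun _ => 0) - a i ^ (t - σ) • c (pw T τ)
  refine ⟨_, mem_fam.mpr ⟨(pw T τ, f), mem_product.mpr ⟨?_, mem_PolF.mpr hf⟩, rfl⟩, fun i hi => ?_⟩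
  · rw [← show (pat Sum.getRight? T τ).card = σ by omega]
    exact pw_mem_PS hp
  · rw [← blkP_self 0 τ (pw T τ) (i := i) (if_pos hi)]
    refine blkP_congr fun h => ?_
    dsimp only at h ⊢
    rw [hf' i (mem_filter.mpr ⟨hi, by simpa [pw, hi] using h⟩), add_sub_cancel]

theorem exists_block [Fintype M] (hM : Fintype.card ι * Fintype.card W < Fintype.card M) {t : ℕ}
    (ht : t ≤ Fintype.card ι) {𝒟 : Multiset W → Prop} {μ : Multiset (ι → M ⊕ W)}
    (hμ : Ing t Sum.getRight? 𝒟 μ) {π : ι → Option W} (hπ : #(supp π) < t)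
    (hD : 𝒟 (pat id univ π)) : ∃ c, blkP π c ∈ μ := by
  obtain ⟨T, hS, hT⟩ := exists_superset_card_eq hπ.le ht
  obtain ⟨j, hj, hj'⟩ := exists_mem_notMem_of_card_lt_card (hT ▸ hπ)
  have hj'' : π j = none := by simpa using hj'
  obtain ⟨z⟩ : Nonempty M := Fintype.card_pos_iff.mp (by omega)
  have h1 : ∀ u : M, ∃ b ∈ μ, ∀ i ∈ T, b i = blkP π (update (fun _ => z) j u) i := fun u => by
    rw [← cov_pos, hμ T hT, pat_blkP, pat_of_supp hS, if_pos hD]
    exact one_pos
  choose b hb hb' using h1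
  by_contra hc
  have h2 : ∀ u, ∃ y : ι × W, y.1 ∉ T ∧ b u y.1 = .inr y.2 := fun u => by
    by_contra h
    refine hc ⟨fun i => (b u i).elim id fun _ => z, ?_⟩
    convert hb u
    funext i
    refine blkP_self z _ _ ?_
    by_cases hi : i ∈ T
    · rw [hb' u i hi, blkP_right]
    · have : π i = none := by simpa using fun h' => hi (hS (mem_supp.mpr h'))
      rw [this]
      rcases h' : b u i with m | w
      · rfl
      · exact absurd ⟨(i, w), hi, h'⟩ h
  choose y hy hy' using h2
  obtain ⟨u, u', hne, h⟩ := Fintype.exists_ne_map_eq_of_card_lt y (by simpa using hM)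
  have h3 : b u = b u' := eq_of_cov_le_one (hb u) (hb u') (T := insert (y u).1 (T.erase j))
    (fun i hi => by
      rcases mem_insert.mp hi with rfl | hi
      · rw [hy' u, h, hy' u']
      · rw [hb' u i (mem_of_mem_erase hi), hb' u' i (mem_of_mem_erase hi)]
        exact blkP_congr fun _ => by simp [ne_of_mem_erase hi])
    (by
      rw [hμ _ (by rw [card_insert_of_notMem fun h => hy u (mem_of_mem_erase h),
        card_erase_add_one hj, hT])]
      split_ifs <;> omega)
  have h4 := hb' u j hj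
  rw [h3, hb' u' j hj, blkP_none _ hj'', blkP_none _ hj''] at h4
  exact hne (by simpa using h4.symm)

theorem prescribed [Fintype M] (hM : Fintype.card ι * Fintype.card W < Fintype.card M) {t : ℕ}
    (ht : t ≤ Fintype.card ι) {𝒟 : Multiset W → Prop} {μ : Multiset (ι → M ⊕ W)}
    (hμ : Ing t Sum.getRight? 𝒟 μ) {π : ι → Option W} (hπ : #(supp π) < t)
    (hD : 𝒟 (pat id univ π)) (c : ι → M) :
    ∃ ν : Multiset (ι → M ⊕ W), Ing t Sum.getRight? 𝒟 ν ∧ blkP π c ∈ ν := by
  obtain ⟨c', hc'⟩ := exists_block hM ht hμ hπ hD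
  refine ⟨_, hμ.map_equiv (fun i => Equiv.sumCongr (Equiv.swap (c' i) (c i)) (Equiv.refl W))
    fun i x => by cases x <;> rfl, Multiset.mem_map.mpr ⟨_, hc', funext fun i => ?_⟩⟩
  unfold blkP
  cases π i
  · simp
  · rfl

end

end Pool.Agent.MP_c7a479_co

end

section

/-! One step of the induction: exactness is extended to patterns of the next smaller size. -/

namespace Pool.Agent.MP_c7a479_co

open Finset Function
open scoped Classical

noncomputable section

section Th

variable {F Λ Y : Type} [Field F] [AddCommGroup Λ] [Module F Λ]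

/-- The embedding `v ↦ (1, c) ⊗ v`. -/
def th (c : Y → F) : Λ →ₗ[F] (Option Y → Λ) := LinearMap.pi fun e => (e.elim 1 c : F) • LinearMap.id

@[simp] theorem th_none (c : Y → F) (v : Λ) : th c v none = v := by simp [th]

@[simp] theorem th_some (c : Y → F) (v : Λ) (e : Y) : th c v (some e) = c e • v := by simp [th]

theorem th_sep {ι : Type} {a : ι → F} {n : ℕ} {U : Finset ι} {c c' : Y → F} {h h' : ι → Λ}
    (H : PolyOn a n U fun i => th c (h i) - th c' (h' i)) (hh : ¬ PolyOn a n U h) : c = c' := by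
  funext e
  by_contra hne
  have := ((H.comp (LinearMap.proj (some e))).sub
    ((H.comp (LinearMap.proj none)).smul (c' e))).smul (c e - c' e)⁻¹
  refine hh (this.congr fun i _ => ?_)
  simp only [LinearMap.proj_apply, Pi.sub_apply, th_some, th_none]
  rw [inv_smul_eq_iff₀ (sub_ne_zero.mpr hne)]
  module

theorem cov_th {ι K : Type} (c : Y → F) (g : ι → Option Y → Λ) (μ : Multiset (ι → K × Λ))
    (T : Finset ι) (κ : ι → K) (x : ι → Option Y → Λ) :
    cov (μ.map fun b i => ((b i).1, g i + th c (b i).2)) T (fun i => (κ i, x i)) =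
      if ∀ i ∈ T, g i + th c (x i none - g i none) = x i then
        cov μ T fun i => (κ i, x i none - g i none) else 0 := by
  split_ifs with h
  · refine cov_map_of_iff fun b _ => forall₂_congr fun i hi => ?_
    simp only [Prod.ext_iff]
    refine and_congr_right fun _ => ⟨fun h' => ?_, fun h' => by rw [h', h i hi]⟩
    rw [← h']
    simp
  · rw [cov_eq_zero]
    intro b hb h'
    obtain ⟨b', -, rfl⟩ := Multiset.mem_map.mp hb
    refine h fun i hi => ?_
    have : g i + th c (b' i).2 = x i := (Prod.ext_iff.mp (h' i hi)).2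
    rw [← this]
    simp

end Th

variable {ι W M F : Type} [Field F] [Fintype F] [Fintype ι] [Fintype W] [Fintype M]

/-- The demand left by the packing `X` on the words with pattern `π`. -/
def dem (X : Multiset (ι → M ⊕ W)) (π : ι → Option W) (T : Finset ι) (κ : ι → M) : ℤ :=
  1 - cov X (supp π ∪ T) (blkP π κ)

omit [Fintype W] [Fintype M] in
theorem dem_local (X : Multiset (ι → M ⊕ W)) (π : ι → Option W) (t : ℕ) :
    IsLocal t (dem X π) := fun T _ τ τ' h => by
  unfold dem
  rw [cov_congr X fun i hi => blkP_congr fun h' => h i ?_]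
  simpa [h'] using hi

omit [Fintype W] [Fintype M] in
theorem dem_bound {t s : ℕ} {𝒟 : Multiset W → Prop} {X : Multiset (ι → M ⊕ W)}
    (hX : XL t s Sum.getRight? 𝒟 X) {π : ι → Option W} {T : Finset ι} (hT : #(supp π) + #T = t)
    (hd : Disjoint T (supp π)) (κ : ι → M) : 0 ≤ dem X π T κ ∧ dem X π T κ ≤ 1 := by
  have := (hX (supp π ∪ T) (by rw [card_union_of_disjoint hd.symm, hT]) (blkP π κ)).1
  unfold dem
  split_ifs at this <;> omega

theorem dem_marginal {t s : ℕ} {𝒟 : Multiset W → Prop} {X : Multiset (ι → M ⊕ W)}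
    (hX : XL t (s + 1) Sum.getRight? 𝒟 X) {π : ι → Option W} (hπ : #(supp π) = s) {T : Finset ι}
    (hT : s + #T + 1 = t) (hd : Disjoint T (supp π)) {i : ι} (hi : i ∉ T) (hi' : i ∉ supp π)
    (κ : ι → M) : ∑ u, dem X π (insert i T) (update κ i u) = Fintype.card M -
      cov X (supp π ∪ T) (blkP π κ) + ∑ w, if 𝒟 ({w} + pat id univ π) then 1 else 0 := by
  have hi'' : i ∉ supp π ∪ T := by rw [mem_union]; tauto
  have hπi : π i = none := by simpa using hi'
  rw [← sum_cov_update X hi'' (blkP π κ), Fintype.sum_sum_type]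
  have h1 : ∀ u, blkP π (update κ i u) = update (blkP π κ) i (.inl u) := fun u => by
    funext j
    by_cases hj : j = i
    · subst hj
      rw [blkP_none _ hπi, update_self, update_self]
    · rw [update_of_ne hj]
      exact blkP_congr fun _ => update_of_ne hj _ _
  have h2 : ∀ w, cov X (insert i (supp π ∪ T)) (update (blkP π κ) i (.inr w)) =
      if 𝒟 ({w} + pat id univ π) then 1 else 0 := fun w => by
    have h3 : pat Sum.getRight? (insert i (supp π ∪ T)) (update (blkP π κ) i (.inr w)) =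
        {w} + pat id univ π := by
      rw [← pat_of_supp (subset_union_left (s₂ := T)), ← pat_blkP π κ, pat, sum_insert hi'', pat]
      congr 1
      · simp
      · exact sum_congr rfl fun j hj => by rw [update_of_ne (ne_of_mem_of_not_mem hj hi'')]
    rw [← h3]
    refine (hX _ (by rw [card_insert_of_notMem hi'', card_union_of_disjoint hd.symm]; omega) _).2 ?_
    rw [h3, Multiset.card_add, card_pat_univ, hπ, Multiset.card_singleton, add_comm]
  simp only [dem, h1, h2, union_insert, sum_sub_distrib]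
  push_cast
  simp only [sum_const, card_univ, nsmul_eq_mul, mul_one]
  ring

omit [Fintype F] [Fintype ι] [Fintype W] [Fintype M] in
theorem nc_none (p : Multiset W) : nc (fun o => o = none) p = p.card := by simp [nc]

theorem xstep_core {Λ Y : Type} [AddCommGroup Λ] [Module F Λ] [Fintype Λ] [Fintype Y]
    {a : ι → F} (ha : Injective a) {t s σ : ℕ} (hs : s < σ) (hσ : σ ≤ t)
    (ht : t ≤ Fintype.card ι) (hM : Fintype.card ι * Fintype.card W < Fintype.card M)
    (hU : Univ ι t σ (Sum.getRight? : M ⊕ W → Option W)) {𝒟 : Multiset W → Prop} (hD : Down 𝒟)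
    (hD' : ∀ p, 𝒟 p → p.card < σ + 1) {X : Multiset (ι → M ⊕ W)}
    (hX : XL t (s + 1) Sum.getRight? 𝒟 X) (P : (ι → Option W) → Multiset (ι → M × Λ))
    (R : (ι → Option W) → Finset ((ι → M) × (F → Λ)))
    (hPR : ∀ π ∈ PS ι s 𝒟, Absorbs a (t - s) (supp π) (dem X π) (P π) (R π))
    (sv : (ι → Option W) × (F → Λ) → Y → F)
    (hsv : Set.InjOn sv (PS ι s 𝒟 ×ˢ PolF F Λ (t - σ) : Finset _)) :
    ∃ X' : Multiset (ι → (M × (Option Y → Λ)) ⊕ W), XL t s Sum.getRight? 𝒟 X' := by
  obtain ⟨z⟩ : Nonempty M := Fintype.card_pos_iff.mp (by omega)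
  let J : Finset ((ι → Option W) × (F → Option Y → Λ)) :=
    PS ι s 𝒟 ×ˢ PolF F (Option Y → Λ) (t - σ)
  have hJ : ∀ {j}, j ∈ J ↔ j.1 ∈ PS ι s 𝒟 ∧ j.2 ∈ Pol F (Option Y → Λ) (t - σ) := by
    simp [J]
  let c : (ι → Option W) × (F → Option Y → Λ) → Y → F := fun j => sv (j.1, fun u => j.2 u none)
  have hc : ∀ j ∈ J, ∀ j' ∈ J, c j = c j' → j.1 = j'.1 ∧ ∀ u, j.2 u none = j'.2 u none := by
    intro j hj j' hj' h
    have := hsv (mem_coe.mpr (mem_product.mpr ⟨(hJ.mp hj).1, mem_PolF.mpr
      (Pol_apply (hJ.mp hj).2 none)⟩)) (mem_coe.mpr (mem_product.mpr ⟨(hJ.mp hj').1,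
      mem_PolF.mpr (Pol_apply (hJ.mp hj').2 none)⟩)) h
    exact ⟨(Prod.ext_iff.mp this).1, congrFun (Prod.ext_iff.mp this).2⟩
  let push : (ι → Option W) × (F → Option Y → Λ) → (ι → M × Λ) → ι → (M × (Option Y → Λ)) ⊕ W :=
    fun j b => blkP j.1 fun i => ((b i).1, j.2 (a i) + th (c j) (b i).2)
  let Add := ∑ j ∈ J, (P j.1).map (push j)
  let Rem := ∑ j ∈ J, (fam (R j.1) fun r i => (r.1 i, r.2 (a i))).map (push j)
  let I := J.sigma fun j => R j.1
  let fib : (Σ _ : (ι → Option W) × (F → Option Y → Λ), (ι → M) × (F → Λ)) → F → Option Y → Λ :=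
    fun x u => x.1.2 u + th (c x.1) (x.2.2 u)
  have hle : t - σ ≤ t - s - 1 := by omega
  have hR : ∀ x ∈ I, x.2.2 ∈ Pol F Λ (t - s) ∧ ¬ PolyOn id (t - s - 1) univ x.2.2 := by
    intro x hx
    rw [mem_sigma] at hx
    have := (hPR _ (hJ.mp hx.1).1).2.1 _ hx.2
    exact ⟨this.1, fun ⟨g, hg, hg'⟩ =>
      this.2 ((funext fun u => hg' u (mem_univ u) : g = x.2.2) ▸ hg)⟩
  have hfib : ∀ x ∈ I, fib x ∈ Pol F (Option Y → Λ) (t - s) ∧
      fib x ∉ Pol F (Option Y → Λ) (t - σ) := by
    intro x hx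
    have hg := (hJ.mp (mem_sigma.mp hx).1).2
    refine ⟨add_mem (Pol_mono (by omega) hg) (Pol_comp _ (hR x hx).1), fun h => (hR x hx).2 ?_⟩
    refine (polyOn_of_mem univ (Pol_mono hle (Pol_apply (sub_mem h hg) none))).congr fun u _ => ?_
    simp [fib]
  have hfib' : Set.InjOn fib I := by
    rintro ⟨⟨π, g⟩, r⟩ hx ⟨⟨π', g'⟩, r'⟩ hx' h
    have h0 := hR _ hx
    rw [mem_coe, mem_sigma] at hx hx'
    have h1 : c (π, g) = c (π', g') := th_sep (h' := r'.2) ((polyOn_of_mem (a := id) univ
      (Pol_mono hle (sub_mem (hJ.mp hx'.1).2 (hJ.mp hx.1).2))).congr fun u _ => by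
        have := congrFun h u
        simp only [fib] at this
        rw [Pi.sub_apply, id, sub_eq_sub_iff_add_eq_add, add_comm (th _ _)]
        exact this.symm) h0.2
    obtain ⟨h2, h3⟩ := hc _ hx.1 _ hx'.1 h1
    dsimp only at h2 h3
    subst h2
    have h4 : r = r' := (hPR _ (hJ.mp hx.1).1).2.2.1 hx.2 hx'.2 (funext fun u => by
      have := congrFun (congrFun h u) none
      simpa [fib, h3] using this)
    subst h4
    have h5 : g = g' := funext fun u => by
      have := congrFun h u
      simpa [fib, h1] using this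
    rw [h5]
  have hν : ∀ f : F → Option Y → Λ, ∃ ν : Multiset (ι → M ⊕ W),
      (f ∈ Pol F _ (t - σ) → ν = X) ∧ (f ∈ Pol F _ (t - s) → f ∉ Pol F _ (t - σ) →
        Ing t Sum.getRight? (DF t (fun o => o = none) 𝒟 f) ν) ∧
        ∀ x ∈ I, fib x = f → blkP x.1.1 x.2.1 ∈ ν := by
    intro f
    by_cases h1 : f ∈ Pol F _ (t - σ)
    · exact ⟨X, fun _ => rfl, fun _ h => absurd h1 h, fun x hx h => absurd (h ▸ h1) (hfib x hx).2⟩
    by_cases h2 : f ∈ Pol F _ (t - s)
    swap
    · exact ⟨0, fun h => absurd h h1, fun h => absurd h h2,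
        fun x hx h => absurd (h ▸ (hfib x hx).1) h2⟩
    obtain ⟨ν, hν⟩ := hU _ (hD.DF (t := t) (car := fun o => o = none) (Pol_mono (by omega) h2))
      fun p hp => by
        by_contra hc
        have := hp.2
        rw [nc_none] at this
        exact h1 (Pol_mono (by omega) this)
    by_cases h3 : ∃ x ∈ I, fib x = f
    · obtain ⟨x, hx, rfl⟩ := h3
      have hπ := mem_PS.mp (hJ.mp (mem_sigma.mp hx).1).1
      obtain ⟨ν', h4, h5⟩ := prescribed hM ht hν (π := x.1.1) (by omega)
        ⟨hπ.2, by rwa [nc_none, card_pat_univ, hπ.1]⟩ x.2.1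
      exact ⟨ν', fun h => absurd h h1, fun _ _ => h4, fun x' hx' h => hfib' hx' hx h ▸ h5⟩
    · exact ⟨ν, fun h => absurd h h1, fun _ _ => hν, fun x hx h => absurd ⟨x, hx, h⟩ h3⟩
  choose ν hν₁ hν₂ hν₃ using hν
  let Base := ∑ f ∈ PolF F (Option Y → Λ) (t - s), (ν f).map fun b i => liftS (b i) (f (a i))
  have hRem : Rem ≤ Base := by
    have h1 : Rem = ∑ x ∈ I, {fun i => liftS (blkP x.1.1 x.2.1 i) (fib x (a i))} := by
      rw [sum_sigma]
      refine sum_congr rfl fun j _ => ?_
      rw [map_fam, fam]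
      refine sum_congr rfl fun r _ => ?_
      congr 1
      funext i
      simp only [push, blkP, fib]
      cases j.1 i <;> rfl
    refine le_trans ?_ (sum_le_sum_of_subset_of_nonneg (s := I.image fib)
      (fun f hf => ?_) fun _ _ _ => Multiset.zero_le _)
    · rw [h1, sum_image hfib']
      exact sum_le_sum fun x hx => Multiset.singleton_le.mpr
        (Multiset.mem_map.mpr ⟨_, hν₃ _ x hx rfl, rfl⟩)
    · obtain ⟨x, hx, rfl⟩ := mem_image.mp hf
      exact mem_PolF.mpr (hfib x hx).1
  have hB : ∀ T (τ : ι → M ⊕ W) (x : ι → Option Y → Λ), cov Base T (fun i => liftS (τ i) (x i)) =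
      ∑ f ∈ PolF F (Option Y → Λ) (t - s),
        if ∀ i ∈ ({i ∈ T | (τ i).getRight? = none} : Finset ι), f (a i) = x i then cov (ν f) T τ
        else 0 := fun T τ x => by
    rw [cov_sum]
    refine sum_congr rfl fun f _ => ?_
    rw [cov_lift (car := fun o => o = none) liftS_inj]
    simp only [mem_filter, and_imp]
    congr
  have hν₄ : ∀ f ∈ PolF F (Option Y → Λ) (t - s), ∀ T, #T = t → ∀ τ,
      cov (ν f) T τ ≤ (if 𝒟 (pat Sum.getRight? T τ) ∧
        f ∈ Pol F _ (t - (pat Sum.getRight? T τ).card) then 1 else 0) ∧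
      (s + 1 ≤ (pat Sum.getRight? T τ).card → cov (ν f) T τ = if 𝒟 (pat Sum.getRight? T τ) ∧
        f ∈ Pol F _ (t - (pat Sum.getRight? T τ).card) then 1 else 0) := by
    intro f hf T hT τ
    by_cases h1 : f ∈ Pol F _ (t - σ)
    · have h2 : 𝒟 (pat Sum.getRight? T τ) ∧ f ∈ Pol F _ (t - (pat Sum.getRight? T τ).card) ↔
          𝒟 (pat Sum.getRight? T τ) :=
        and_iff_left_of_imp fun h => Pol_mono (by have := hD' _ h; omega) h1
      simp only [h2, hν₁ f h1]
      exact hX T hT τ
    · have := hν₂ f (mem_PolF.mp hf) h1 T hT τ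
      simp only [DF, nc_none] at this
      exact ⟨by convert this.le, fun _ => by convert this⟩
  have hB₂ : ∀ T, #T = t → ∀ (τ : ι → M ⊕ W) (x : ι → Option Y → Λ), cov Base T (fun i => liftS (τ i) (x i)) ≤
      if 𝒟 (pat Sum.getRight? T τ) then 1 else 0 := fun T hT τ x => by
    rw [hB, ← sum_fibre ha (hT ▸ card_old T τ) (PolF F (Option Y → Λ) t)
      (fun f hf => mem_PolF.mpr (Pol_mono (by omega) hf)) x]
    refine le_trans (sum_le_sum fun f hf => ?_) (sum_le_sum_of_subset
      fun f hf => mem_PolF.mpr (Pol_mono (by omega) (mem_PolF.mp hf)))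
    split_ifs with h1 h2
    · simpa [h2] using (hν₄ f hf T hT τ).1
    · simpa [h2] using (hν₄ f hf T hT τ).1
    · rfl
  have hB₃ : ∀ T, #T = t → ∀ (τ : ι → M ⊕ W) (x : ι → Option Y → Λ), s + 1 ≤ (pat Sum.getRight? T τ).card →
      cov Base T (fun i => liftS (τ i) (x i)) = if 𝒟 (pat Sum.getRight? T τ) then 1 else 0 :=
    fun T hT τ x h => by
    rw [hB, ← sum_fibre ha (hT ▸ card_old T τ) (PolF F (Option Y → Λ) (t - s))
      (fun f hf => mem_PolF.mpr (Pol_mono (by omega) hf)) x]
    refine sum_congr rfl fun f hf => ?_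
    rw [(hν₄ f hf T hT τ).2 h]
    congr
  have hag : ∀ {j b} {T : Finset ι} {τ : ι → M ⊕ W} {x : ι → Option Y → Λ},
      (∀ i ∈ T, push j b i = liftS (τ i) (x i)) → ∀ i ∈ T, j.1 i = (τ i).getRight? :=
    fun h i hi => by rw [← liftS_ty _ _, ← h i hi, blkP_right]
  have hag' : ∀ {j b} {T : Finset ι} {τ : ι → M ⊕ W} {x : ι → Option Y → Λ},
      (∀ i ∈ T, push j b i = liftS (τ i) (x i)) → ∀ i ∈ T, (τ i).getRight? = none →
        j.2 (a i) + th (c j) (b i).2 = x i := by
    intro j b T τ x h i hi h'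
    have := h i hi
    simp only [push] at this
    rw [blkP_none _ ((hag h i hi).trans h')] at this
    rcases h'' : τ i with m | w
    · simp only [h'', liftS, Sum.map_inl, Sum.inl.injEq, Prod.mk.injEq] at this
      exact this.2
    · simp [h''] at h'
  have hX' : ∀ T τ, cov (Base - Rem + Add) T τ + cov Rem T τ = cov Base T τ + cov Add T τ := by
    intro T τ
    conv_rhs => rw [← tsub_add_cancel_of_le hRem]
    simp only [cov_add]
    omega
  have hAdd0 : ∀ T (τ : ι → M ⊕ W) (x : ι → Option Y → Λ), ¬ 𝒟 (pat Sum.getRight? T τ) →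
      cov Add T (fun i => liftS (τ i) (x i)) = 0 := fun T τ x hp => by
    rw [cov_eq_zero]
    intro b hb h
    simp only [Add, Multiset.mem_sum, Multiset.mem_map] at hb
    obtain ⟨j, hj, b, -, rfl⟩ := hb
    exact hp (hD.2 _ _ (pat_le_of_agree (hag h)) (mem_PS.mp (hJ.mp hj).1).2)
  have main : ∀ T, #T = t → ∀ (τ : ι → M ⊕ W) (x : ι → Option Y → Λ),
      (pat Sum.getRight? T τ).card = s → 𝒟 (pat Sum.getRight? T τ) →
      cov (Base - Rem + Add) T (fun i => liftS (τ i) (x i)) = 1 := by
    intro T hT τ x hj hp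
    set O : Finset ι := {i ∈ T | (τ i).getRight? = none} with hO
    have hOc : #O = t - s := by rw [hO, card_old, hT, hj]
    have hπ : pw T τ ∈ PS ι s 𝒟 := hj ▸ pw_mem_PS hp
    have hOd : Disjoint O (supp (pw T τ)) := disjoint_left.mpr fun i hi => by
      rw [mem_filter] at hi
      simp [pw, hi.1, hi.2]
    let κ : ι → M := fun i => (τ i).elim id fun _ => z
    have h1 : ∀ j ∈ J, ∀ μ : Multiset (ι → M × Λ),
        cov (μ.map (push j)) T (fun i => liftS (τ i) (x i)) = if j.1 = pw T τ then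
          cov (μ.map fun b i => ((b i).1, j.2 (a i) + th (c j) (b i).2)) O
            (fun i => (κ i, x i)) else 0 := by
      intro j hj' μ
      split_ifs with h
      · rw [cov_map, cov_map]
        refine @Multiset.countP_congr _ _ _ rfl _ _ (_) (_) fun b _ => propext ?_
        simp only [hO, mem_filter, and_imp]
        refine forall₂_congr fun i hi => ?_
        simp only [push, blkP, h, pw, if_pos hi, κ]
        cases τ i <;> simp [liftS]
      · rw [cov_eq_zero]
        intro b hb h'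
        obtain ⟨b, -, rfl⟩ := Multiset.mem_map.mp hb
        exact h (eq_pw_of_agree (hag h') (by rw [(mem_PS.mp (hJ.mp hj').1).1, hj]))
    obtain ⟨f₀, hf₀, hf₀'⟩ := pol_interp ha hOc.le x
    have h2 : (cov Add T (fun i => liftS (τ i) (x i)) : ℤ) =
        cov Rem T (fun i => liftS (τ i) (x i)) +
          if f₀ ∈ Pol F _ (t - σ) then dem X (pw T τ) O κ else 0 := by
      have h3 : (if f₀ ∈ Pol F _ (t - σ) then dem X (pw T τ) O κ else 0) =
          ∑ j ∈ J, if j = (pw T τ, f₀) then dem X (pw T τ) O κ else 0 := by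
        rw [sum_ite_eq']
        simp [hJ, hπ]
      rw [h3, cov_sum, cov_sum, Nat.cast_sum, Nat.cast_sum, ← sum_add_distrib]
      refine sum_congr rfl fun j hj' => ?_
      rw [h1 j hj', h1 j hj']
      by_cases h : j.1 = pw T τ
      swap
      · rw [if_neg h, if_neg h, if_neg fun h' => h (by rw [h'])]
        simp
      rw [if_pos h, if_pos h, cov_th, cov_th]
      have h4 := (hPR _ hπ).1 O hOc hOd κ fun i => x i none - j.2 (a i) none
      have h5 : j = (pw T τ, f₀) ↔ ∀ i ∈ O, j.2 (a i) = x i := by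
        refine ⟨fun h' => by rw [h']; exact hf₀', fun h' => Prod.ext h ?_⟩
        exact pol_unique ha (Pol_mono (by omega) (hJ.mp hj').2) hf₀ hOc.ge
          fun i hi => (h' i hi).trans (hf₀' i hi).symm
      rw [h]
      by_cases h6 : ∀ i ∈ O, j.2 (a i) = x i
      · have h7 : ∀ i ∈ O, x i none - j.2 (a i) none = 0 := fun i hi => by rw [h6 i hi, sub_self]
        rw [if_pos h7] at h4
        rw [if_pos (h5.mpr h6), if_pos fun i hi => by rw [h7 i hi, map_zero, add_zero, h6 i hi],
          if_pos fun i hi => by rw [h7 i hi, map_zero, add_zero, h6 i hi], h4, add_comm]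
      · rw [if_neg fun h' => h6 (h5.mp h')]
        split_ifs with h7
        · rw [h4, if_neg fun h8 => h6 fun i hi => by
            rw [← h7 i hi, h8 i hi, map_zero, add_zero]]
          simp
        · simp
    have h3 : cov Base T (fun i => liftS (τ i) (x i)) = cov (ν f₀) T τ := by
      rw [hB, sum_eq_single f₀, if_pos hf₀']
      · intro f hf hne
        exact if_neg fun h => hne (pol_unique ha (mem_PolF.mp hf) hf₀ hOc.ge
          fun i hi => by rw [h i hi, hf₀' i hi])
      · intro h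
        exact absurd (mem_PolF.mpr hf₀) h
    have h4 := hX' T fun i => liftS (τ i) (x i)
    split_ifs at h2 with h5
    · have h6 : supp (pw T τ) ∪ O = T := by
        ext i
        rw [mem_union, mem_supp, hO, mem_filter, pw]
        by_cases hi : i ∈ T
        · rw [if_pos hi]
          tauto
        · simp [hi]
      rw [dem, h6, cov_congr X (τ' := τ) fun i hi => blkP_self z τ _ (if_pos hi)] at h2
      rw [hν₁ f₀ h5] at h3
      omega
    · rw [hν₂ f₀ hf₀ h5 T hT τ, if_pos ⟨hp, by rwa [nc_none, hj]⟩] at h3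
      omega
  refine ⟨Base - Rem + Add, fun T hT τ' => ?_⟩
  choose τ x hτ using fun i => liftS_surj (τ' i)
  obtain rfl : τ' = fun i => liftS (τ i) (x i) := funext fun i => (hτ i).symm
  rw [pat_congr (ty' := Sum.getRight?) (τ' := τ) fun i _ => liftS_ty _ _]
  have h1 := hX' T fun i => liftS (τ i) (x i)
  have h2 := hB₂ T hT τ x
  by_cases hp : 𝒟 (pat Sum.getRight? T τ)
  swap
  · have := hAdd0 T τ x hp
    rw [if_neg hp] at h2 ⊢
    omega
  rw [if_pos hp] at h2 ⊢
  rcases lt_trichotomy (pat Sum.getRight? T τ).card s with hj | hj | hj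
  · refine ⟨?_, fun h => by omega⟩
    by_cases h0 : cov Add T (fun i => liftS (τ i) (x i)) = 0
    · omega
    obtain ⟨b, hb, hb'⟩ := cov_pos.mp (Nat.pos_of_ne_zero h0)
    simp only [Add, Multiset.mem_sum, Multiset.mem_map] at hb
    obtain ⟨j, hj', b, hb, rfl⟩ := hb
    obtain ⟨U, hU, hUc⟩ := exists_subset_card_eq (n := t - s + 1)
      (s := {i ∈ T | (τ i).getRight? = none}) (by rw [card_old]; omega)
    have hU' : ∀ i ∈ U, i ∈ T ∧ (τ i).getRight? = none := fun i hi => mem_filter.mp (hU hi)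
    have hUd : Disjoint U (supp j.1) := disjoint_left.mpr fun i hi => by
      simp [hag hb' i (hU' i hi).1, (hU' i hi).2]
    have hnp := (hPR _ (hJ.mp hj').1).2.2.2 b hb U hUc hUd
    have hg := polyOn_of_mem (a := a) U (Pol_mono (by omega : t - σ ≤ t - s) (hJ.mp hj').2)
    have h3 : cov Base T (fun i => liftS (τ i) (x i)) = 0 := by
      rw [hB]
      refine sum_eq_zero fun f hf => if_neg fun h => hnp ?_
      refine (((polyOn_of_mem U (mem_PolF.mp hf)).sub hg).comp (LinearMap.proj none)).congr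
        fun i hi => ?_
      rw [h i (hU hi), ← hag' hb' i (hU' i hi).1 (hU' i hi).2]
      simp
    obtain ⟨T', hT', hT'c⟩ := exists_subset_card_eq (n := t - s) (s := U) (by omega)
    have hT'd : Disjoint (supp j.1) T' := (hUd.mono_left hT').symm
    choose τ₁ x₁ hτ₁ using fun i => liftS_surj (push j b i)
    have h4 : pat Sum.getRight? (supp j.1 ∪ T') τ₁ = pat id univ j.1 := by
      rw [← pat_of_supp (subset_union_left (s₂ := T'))]
      exact pat_congr fun i _ => by rw [← liftS_ty _ (x₁ i), hτ₁, blkP_right, id]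
    have h5 := main (supp j.1 ∪ T') (by
      rw [card_union_of_disjoint hT'd, (mem_PS.mp (hJ.mp hj').1).1]; omega) τ₁ x₁
      (by rw [h4, card_pat_univ, (mem_PS.mp (hJ.mp hj').1).1])
      (by rw [h4]; exact (mem_PS.mp (hJ.mp hj').1).2)
    have h6 : cov Add T (fun i => liftS (τ i) (x i)) ≤
        cov Add (supp j.1 ∪ T') fun i => liftS (τ₁ i) (x₁ i) := by
      have := cov_le_of_imp (μ := Add) (φ := id) (T := supp j.1 ∪ T') (T' := T)
        (τ := fun i => liftS (τ₁ i) (x₁ i)) (τ' := fun i => liftS (τ i) (x i)) (by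
          intro b' hb₁ hb₂ i hi
          simp only [Add, Multiset.mem_sum, Multiset.mem_map] at hb₁
          obtain ⟨j', hj'', b', -, rfl⟩ := hb₁
          rw [hτ₁]
          rcases mem_union.mp hi with hi | hi
          · have hg' := polyOn_of_mem (a := a) U
              (Pol_mono (by omega : t - σ ≤ t - s) (hJ.mp hj'').2)
            have h7 := (hc j hj' j' hj'' (th_sep (h' := fun i => (b' i).2)
              ((hg'.sub hg).congr fun i hi => by
                rw [sub_eq_sub_iff_add_eq_add, hag' hb₂ i (hU' i hi).1 (hU' i hi).2, add_comm,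
                  hag' hb' i (hU' i hi).1 (hU' i hi).2]) hnp)).1
            simp only [push, ← h7]
            exact blkP_congr fun h => absurd h (mem_supp.mp hi)
          · exact (hb₂ i (hU' i (hT' hi)).1).trans (hb' i (hU' i (hT' hi)).1).symm)
      rwa [Multiset.map_id] at this
    rw [cov_add] at h5
    omega
  · rw [main T hT τ x hj hp]
    exact ⟨le_rfl, fun _ => rfl⟩
  · have h3 : ∀ μ : (ι → Option W) × (F → Option Y → Λ) → Multiset (ι → M × Λ),
        cov (∑ j ∈ J, (μ j).map (push j)) T (fun i => liftS (τ i) (x i)) = 0 := fun μ => by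
      rw [cov_eq_zero]
      intro b hb h
      simp only [Multiset.mem_sum, Multiset.mem_map] at hb
      obtain ⟨j, hj', b, -, rfl⟩ := hb
      have := Multiset.card_le_card (pat_le_of_agree (hag h))
      rw [card_pat_univ, (mem_PS.mp (hJ.mp hj').1).1] at this
      omega
    have h4 := hB₃ T hT τ x hj
    rw [if_pos hp] at h4
    have h5 : cov Add T (fun i => liftS (τ i) (x i)) = 0 := h3 _
    have h6 : cov Rem T (fun i => liftS (τ i) (x i)) = 0 := h3 _
    omega

end

end Pool.Agent.MP_c7a479_co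

end

section

/-! Universal ingredients of polynomial size. -/

namespace Pool.Agent.MP_c7a479_co

open Finset Function
open scoped Classical

noncomputable section

/-- Universal ingredients exist on `F ^ D` plus the new symbols. -/
def GoodU (t σ D : ℕ) : Prop := ∀ (ι W F : Type) [Field F] [Fintype F] [Fintype ι] [Fintype W]
  (a : ι → F), Injective a → t ≤ Fintype.card ι → Fintype.card W ≤ Fintype.card F ^ 2 →
    Univ ι t σ (Sum.getRight? : (Fin D → F) ⊕ W → Option W)

/-- Packings exact on large patterns exist on `F ^ D` plus the new symbols. -/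
def GoodX (t σ s D : ℕ) : Prop := ∀ (ι W F : Type) [Field F] [Fintype F] [Fintype ι] [Fintype W]
  (a : ι → F), Injective a → t ≤ Fintype.card ι → Fintype.card W ≤ Fintype.card F ^ 2 →
    ∀ 𝒟 : Multiset W → Prop, Down 𝒟 → (∀ p, 𝒟 p → p.card < σ + 1) →
      ∃ X : Multiset (ι → (Fin D → F) ⊕ W), XL t s Sum.getRight? 𝒟 X

/-- The alphabet `F ^ D` is large. -/
def Big (t D : ℕ) : Prop := ∀ p, 2 ≤ p → (p * (p ^ 2 + 1) + 1) ^ t + p * p ^ 2 + 1 ≤ p ^ D

theorem exists_big (t : ℕ) : ∃ D, Big t D :=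
  ((((PB.id.mul ((PB.id.pow 2).add (PB.const 1))).add (PB.const 1)).pow t).add
    (PB.id.mul (PB.id.pow 2))).add (PB.const 1)

theorem Big.mono {t D : ℕ} (h : Big t D) (D' : ℕ) : Big t (D + D') := fun p hp =>
  (h p hp).trans (Nat.pow_le_pow_right (by omega) (Nat.le_add_right _ _))

theorem GoodU.mono {t σ D : ℕ} (h : GoodU t σ D) (D' : ℕ) : GoodU t σ (D + D') := by
  intro ι W F _ _ _ _ a ha ht hW
  refine ((h ι W F a ha ht hW).compS (Λ := Fin D' → F) ha).map_equiv
    (Equiv.sumCongr (Fintype.equivOfCardEq (by simp [pow_add])) (Equiv.refl W)) fun x => ?_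
  cases x <;> rfl

theorem goodX_top {t σ D : ℕ} (hσ : σ ≤ t) (h : Big t D) : GoodX t σ σ D := by
  intro ι W F _ _ _ _ a ha ht hW 𝒟 hD hD'
  refine top_layer ha hσ ?_ hD hD'
  have hk : Fintype.card ι ≤ Fintype.card F := Fintype.card_le_of_injective a ha
  rw [Fintype.card_fun, Fintype.card_fin]
  refine le_trans ?_ (le_trans ((Nat.le_add_right _ _).trans (Nat.le_succ _))
    (h _ Fintype.one_lt_card))
  gcongr

theorem goodX_step {t σ s D : ℕ} (hs : s < σ) (hσ : σ ≤ t) (h : Big t D) (hU : GoodU t σ D)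
    (hX : GoodX t σ (s + 1) D) : ∃ D', GoodX t σ s (D + D') := by
  obtain ⟨D₀, hD₀⟩ := absorber (t - s) D
  obtain ⟨E, hE⟩ : PB fun p => (p * (p ^ 2 + 1) + 1) ^ t * (p ^ D₀) ^ t :=
    (((PB.id.mul ((PB.id.pow 2).add (PB.const 1))).add (PB.const 1)).pow t).mul
      ((PB.id.pow D₀).pow t)
  refine ⟨D₀ * (E + 1), fun ι W F _ _ _ _ a ha ht hW 𝒟 hD hD' => ?_⟩
  have hk : Fintype.card ι ≤ Fintype.card F := Fintype.card_le_of_injective a ha
  obtain ⟨X, hX⟩ := hX ι W F a ha ht hW 𝒟 hD hD'
  have key : ∀ π : ι → Option W, ∃ (P : Multiset (ι → (Fin D → F) × (Fin D₀ → F)))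
      (R : Finset ((ι → Fin D → F) × (F → Fin D₀ → F))),
      π ∈ PS ι s 𝒟 → Absorbs a (t - s) (supp π) (dem X π) P R := by
    intro π
    by_cases hπ : π ∈ PS ι s 𝒟
    swap
    · exact ⟨0, ∅, fun h => absurd h hπ⟩
    have hπ' := (mem_PS.mp hπ).1
    obtain ⟨P, R, h⟩ := hD₀ ι F (Fin D → F) a ha (supp π) (by omega) (by simp) (dem X π)
      (dem_local X π _)
      (fun T hT hd i hi hi' j hj hj' τ => by
        rw [dem_marginal hX hπ' (by omega) hd hi hi', dem_marginal hX hπ' (by omega) hd hj hj'])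
      fun T hT hd τ => dem_bound hX (by omega) hd τ
    exact ⟨P, R, fun _ => h⟩
  choose P R hPR using key
  obtain ⟨sv, hsv⟩ := exists_injOn (β := Fin E → F) (PS ι s 𝒟 ×ˢ PolF F (Fin D₀ → F) (t - σ)) (by
    rw [card_product, Fintype.card_fun, Fintype.card_fin]
    refine le_trans (Nat.mul_le_mul ((card_PS_le (by omega : s ≤ t) 𝒟).trans ?_)
      ((card_PolF_le _).trans ?_)) (hE _ Fintype.one_lt_card)
    · gcongr
    · rw [Fintype.card_fun, Fintype.card_fin]
      exact Nat.pow_le_pow_right (by positivity) (Nat.sub_le _ _))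
  obtain ⟨X', hX'⟩ := xstep_core ha hs hσ ht (by
    rw [Fintype.card_fun, Fintype.card_fin]
    refine lt_of_le_of_lt (Nat.mul_le_mul hk hW) (lt_of_lt_of_le ?_ (h _ Fintype.one_lt_card))
    omega) (hU ι W F a ha ht hW) hD hD' hX P R hPR sv hsv
  exact ⟨_, hX'.map_equiv (fun _ => Equiv.sumCongr (Fintype.equivOfCardEq (by
    simp [pow_add, pow_mul])) (Equiv.refl W)) fun _ x => by cases x <;> rfl⟩

theorem goodU_step {t σ D : ℕ} (hσ : σ ≤ t) (h : Big t D) (hU : GoodU t σ D) :
    ∃ D', GoodU t (σ + 1) (D + D') := by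
  have key : ∀ n ≤ σ, ∃ D', GoodX t σ (σ - n) (D + D') := by
    intro n
    induction n with
    | zero => exact fun _ => ⟨0, goodX_top hσ h⟩
    | succ n ih =>
      intro hn
      obtain ⟨D', hD'⟩ := ih (by omega)
      obtain ⟨D'', hD''⟩ := goodX_step (s := σ - (n + 1)) (by omega) hσ (h.mono D') (hU.mono D')
        (by rwa [show σ - (n + 1) + 1 = σ - n by omega])
      exact ⟨D' + D'', by rwa [← add_assoc]⟩
  obtain ⟨D', hD'⟩ := key σ le_rfl
  refine ⟨D', fun ι W F _ _ _ _ a ha ht hW 𝒟 hD hD₁ => ?_⟩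
  obtain ⟨X, hX⟩ := hD' ι W F a ha ht hW 𝒟 hD hD₁
  exact ⟨X, fun T hT τ => (hX T hT τ).2 (by omega)⟩

theorem exists_goodU (t : ℕ) : ∃ D, GoodU t (t + 1) D := by
  have key : ∀ σ ≤ t + 1, ∃ D, Big t D ∧ GoodU t σ D := by
    intro σ
    induction σ with
    | zero =>
      obtain ⟨D, hD⟩ := exists_big t
      exact fun _ => ⟨D, hD, fun _ _ _ _ _ _ _ _ _ _ _ _ h h' => absurd (h' 0 h.1) (by simp)⟩
    | succ σ ih =>
      intro hσ
      obtain ⟨D, h1, h2⟩ := ih (by omega)
      obtain ⟨D', h3⟩ := goodU_step (by omega) h1 h2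
      exact ⟨D + D', h1.mono D', h3⟩
  exact (key _ le_rfl).imp fun _ h => h.2

theorem univ_theorem (t : ℕ) : ∃ D : ℕ, ∀ (p : ℕ) [Fact p.Prime] (ι W : Type) [Fintype ι]
    [Fintype W] (a : ι → ZMod p), Function.Injective a → t < Fintype.card ι →
    Fintype.card W ≤ p ^ 2 →
    Univ ι t (t + 1) (Sum.getRight? : (Fin D → ZMod p) ⊕ W → Option W) := by
  obtain ⟨D, hD⟩ := exists_goodU t
  exact ⟨D, fun p _ ι W _ _ a ha ht hW => hD ι W (ZMod p) a ha ht.le (by rwa [ZMod.card])⟩

end

end Pool.Agent.MP_c7a479_co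

end
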