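import Pool.Agent.Mg.Fc7a479.G78f9d0

/-!
The asymptotic form.
-/

set_option autoImplicit false

open Finset Filter

noncomputable section

namespace Pool.Agent.MP_cebb75_nt

open scoped Classical in
theorem final (x : ℕ) (hX0 : 0 < Real.log x) (hl : 1296 ≤ Real.log (Real.log x)) :
    (((range (x + 1)).filter Adm).card : ℝ) ≤ x * Real.exp (-(1 / (220 * Real.exp 5) *
      Real.sqrt (Real.log x) / Real.log (Real.log x) ^ (5 / 4 : ℝ))) := by
  set X := Real.log x with hX
  set l := Real.log X with hld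
  have hXl : X = Real.exp l := (Real.exp_log hX0).symm
  set u := l ^ (1 / 4 : ℝ) with hu
  have hl0 : 0 < l := by linarith
  have hu0 : 0 < u := Real.rpow_pos_of_pos hl0 _
  have hu4 : u ^ 4 = l := by
    rw [hu, ← Real.rpow_natCast, ← Real.rpow_mul hl0.le]; norm_num
  have hu5 : l ^ (5 / 4 : ℝ) = u ^ 5 := by
    rw [hu, ← Real.rpow_natCast, ← Real.rpow_mul hl0.le]; norm_num
  have hu6 : 6 ≤ u := by
    by_contra h
    push Not at h
    have := pow_lt_pow_left₀ h hu0.le (n := 4) (by norm_num)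
    linarith
  have hlog : Real.log u ≤ u - 1 := Real.log_le_sub_one_of_pos hu0
  have hlog0 : 0 ≤ Real.log u := Real.log_nonneg (by linarith)
  have hu3 : 216 * u ≤ l := by
    have h1 : (6 : ℝ) ^ 3 ≤ u ^ 3 := pow_le_pow_left₀ (by norm_num) hu6 3
    nlinarith
  set a := l - 6 * Real.log u - 9 with ha
  have ha100 : 100 ≤ a := by linarith
  set J := ⌊a⌋₊ with hJ
  have hJ100 : 100 ≤ J := Nat.le_floor (by exact_mod_cast ha100)
  have hJa : (J : ℝ) ≤ a := Nat.floor_le (by linarith)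
  have haJ : a ≤ J + 1 := (Nat.lt_floor_add_one a).le
  have hJl : (J : ℝ) ≤ u ^ 4 := by linarith
  have hs : Real.sqrt J ≤ u ^ 2 := Real.sqrt_le_iff.2 ⟨by positivity, by linarith⟩
  have hJR : (100 : ℝ) ≤ J := by exact_mod_cast hJ100
  have hs0 : 0 < Real.sqrt J := Real.sqrt_pos.2 (by linarith)
  have hea : Real.exp a * (u ^ 6 * Real.exp 9) = X := by
    have h1 : u ^ 6 = Real.exp (6 * Real.log u) := by
      rw [show (6 : ℝ) = (6 : ℕ) by norm_num, Real.exp_nat_mul, Real.exp_log hu0]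
    rw [h1, ← Real.exp_add, ← Real.exp_add, hXl]
    congr 1
    rw [ha]
    ring
  have h9 : 3000 ≤ Real.exp 9 := by
    have h1 : Real.exp 9 = Real.exp 1 ^ 9 := by rw [← Real.exp_nat_mul]; norm_num
    rw [h1]
    exact le_trans (by norm_num) (pow_le_pow_left₀ (by norm_num) Real.exp_one_gt_d9.le 9)
  refine (core J x hJ100 ?_).trans (mul_le_mul_of_nonneg_left (Real.exp_le_exp.2 ?_)
    (Nat.cast_nonneg x))
  · rw [← hX, ← hea]
    calc 3000 * (J * Real.sqrt J * Real.exp J) ≤ Real.exp 9 * (u ^ 4 * u ^ 2 * Real.exp a) := by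
          gcongr
      _ = _ := by ring
  · rw [neg_le_neg_iff, hu5]
    have h1 : Real.sqrt X ≤ Real.exp (J / 2) * (u ^ 3 * Real.exp 5) := by
      refine Real.sqrt_le_iff.2 ⟨by positivity, ?_⟩
      have h2 : Real.exp a * Real.exp 9 ≤ (Real.exp (J / 2) * Real.exp 5) ^ 2 := by
        rw [← Real.exp_add, ← Real.exp_add, ← Real.exp_nat_mul, Real.exp_le_exp]
        push_cast
        linarith
      rw [← hea]
      nlinarith [mul_le_mul_of_nonneg_right h2 (show 0 ≤ u ^ 6 by positivity)]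
    calc 1 / (220 * Real.exp 5) * Real.sqrt X / u ^ 5
        ≤ 1 / (220 * Real.exp 5) * (Real.exp (J / 2) * (u ^ 3 * Real.exp 5)) / u ^ 5 := by gcongr
      _ = Real.exp (J / 2) / (220 * u ^ 2) := by field_simp
      _ ≤ _ := by gcongr

end Pool.Agent.MP_cebb75_nt
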