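import Pool.Agent.Mg.Fc7a479.G07d8c5

section

namespace Pool.Agent.MP_c7a479_co

open Function

def gam : Fin 15 → Fin 4 → Option (Fin 3) :=
  ![![none, some 0, some 0, some 1],
    ![none, some 1, some 1, some 2],
    ![none, some 2, some 2, some 0],
    ![some 0, none, some 0, some 0],
    ![some 0, some 0, none, some 2],
    ![some 0, some 1, some 2, some 1],
    ![some 0, some 2, some 1, none],
    ![some 1, none, some 1, some 1],
    ![some 1, some 0, some 2, none],
    ![some 1, some 1, none, some 0],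
    ![some 1, some 2, some 0, some 2],
    ![some 2, none, some 2, some 2],
    ![some 2, some 0, some 1, some 0],
    ![some 2, some 1, some 0, none],
    ![some 2, some 2, none, some 1]]

def bet : Fin 9 → Fin 4 → Fin 3 :=
  ![![0, 0, 0, 0],
    ![0, 1, 1, 2],
    ![0, 2, 2, 1],
    ![1, 0, 1, 1],
    ![1, 1, 2, 0],
    ![1, 2, 0, 2],
    ![2, 0, 2, 2],
    ![2, 1, 0, 1],
    ![2, 2, 1, 0]]

theorem gam_ex : ∀ i j : Fin 4, i ≠ j → ∀ a b : Option (Fin 3), (a ≠ none ∨ b ≠ none) →
    ∃ r, gam r i = a ∧ gam r j = b := by decide +kernel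

theorem bet_ex : ∀ i j : Fin 4, i ≠ j → ∀ a b : Fin 3, ∃ r, bet r i = a ∧ bet r j = b := by
  decide +kernel

/-- Wilson's construction with multiplier three. -/
theorem cov_wilson {t u : ℕ} (ht : Nat.Coprime 6 t) (hu : u ≤ t) (h : Cov (Fin u)) :
    Cov (Fin (3 * t + u)) := by
  classical
  haveI : NeZero t := ⟨by rintro rfl; simp at ht⟩
  have h2 : IsUnit (2 : ZMod t) := by
    have := (ZMod.isUnit_iff_coprime 2 t).mpr (Nat.Coprime.coprime_dvd_left (by norm_num) ht)
    simpa using this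
  have h3 : IsUnit (3 : ZMod t) := by
    have := (ZMod.isUnit_iff_coprime 3 t).mpr (Nat.Coprime.coprime_dvd_left (by norm_num) ht)
    simpa using this
  have hlin : ∀ (i j : Option (Fin 4)), i ≠ j → ∀ p q : ZMod t,
      ∃ y : ZMod t × ZMod t, lin i y = p ∧ lin j y = q := by
    intro i j hij p q
    refine lin_ex i j hij ?_ p q
    rintro a b rfl rfl
    fin_cases a <;> fin_cases b <;> simp at hij <;> norm_num <;>
      first | exact h2 | exact h2.neg | exact h3 | exact h3.neg
  obtain ⟨U, -, hU⟩ := Finset.exists_subset_card_eq (s := (Finset.univ : Finset (ZMod t))) (n := u)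
    (by simpa using hu)
  obtain ⟨X, _, D, hc, hD⟩ := h.of_card (β := U) (by simp [hU])
  let C : Fin 4 → ({s // s ∉ U} × ZMod t × Fin 9) ⊕ (U × ZMod t × Fin 15) ⊕ X →
      (ZMod t × Fin 3) ⊕ U := fun i x =>
    match x with
    | .inl x => .inl (lin (some i) (x.1.1, x.2.1), bet x.2.2 i)
    | .inr (.inl x) => (gam x.2.2 i).elim (.inr x.1) fun r => .inl (lin (some i) (x.1.1, x.2.1), r)
    | .inr (.inr x) => .inr (D i x)
  refine Cov.of_card (α := (ZMod t × Fin 3) ⊕ U) ⟨_, inferInstance, C, ?_, ?_⟩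
    (by simp [hU]; ring)
  · simp only [Fintype.card_sum, Fintype.card_prod, Fintype.card_subtype_compl, Fintype.card_coe,
      hU, ZMod.card, Fintype.card_fin] at hc ⊢
    obtain ⟨v, rfl⟩ := Nat.exists_eq_add_of_le hu
    rw [Nat.add_sub_cancel_left]
    nlinarith
  · intro i j hij a b
    have hij' : (some i : Option (Fin 4)) ≠ some j := fun h => hij (Option.some.inj h)
    rcases a with ⟨p, r⟩ | s <;> rcases b with ⟨q, r'⟩ | s'
    · obtain ⟨y, h1, h2⟩ := hlin _ _ hij' p q
      by_cases hy : y.1 ∈ U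
      · obtain ⟨g, g1, g2⟩ := gam_ex i j hij (some r) (some r') (by simp)
        exact ⟨.inr (.inl (⟨y.1, hy⟩, y.2, g)), by simp [C, g1, h1], by simp [C, g2, h2]⟩
      · obtain ⟨g, g1, g2⟩ := bet_ex i j hij r r'
        exact ⟨.inl (⟨y.1, hy⟩, y.2, g), by simp [C, g1, h1], by simp [C, g2, h2]⟩
    · obtain ⟨y, h1, h2⟩ := hlin (some i) none (by simp) p s'
      obtain ⟨g, g1, g2⟩ := gam_ex i j hij (some r) none (by simp)
      have : y.1 = s' := h2
      refine ⟨.inr (.inl (s', y.2, g)), ?_, by simp [C, g2]⟩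
      simp [C, g1, ← this, h1]
    · obtain ⟨y, h1, h2⟩ := hlin (some j) none (by simp) q s
      obtain ⟨g, g1, g2⟩ := gam_ex i j hij none (some r') (by simp)
      have : y.1 = s := h2
      refine ⟨.inr (.inl (s, y.2, g)), by simp [C, g1], ?_⟩
      simp [C, g2, ← this, h1]
    · obtain ⟨x, h1, h2⟩ := hD i j hij s s'
      exact ⟨.inr (.inr x), by simp [C, h1], by simp [C, h2]⟩

theorem cov_two_pow (a : ℕ) : Cov (Fin (2 ^ (a + 2))) := by
  induction a using Nat.strong_induction_on with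
  | _ a ih =>
    match a, ih with
    | 0, _ => exact cov_4
    | 1, _ => exact cov_8
    | a + 2, ih =>
      have := cov_mul (ih a (by omega)) cov_4
      rwa [show 2 ^ (a + 2) * 4 = 2 ^ (a + 2 + 2) by ring] at this

/-- The theorem of Bose, Shrikhande and Parker. -/
theorem cov_all {n : ℕ} (h0 : n ≠ 0) (h2 : n ≠ 2) (h6 : n ≠ 6) : Cov (Fin n) := by
  by_cases h4 : n % 4 = 2
  · by_cases h10 : n = 10
    · subst h10; exact cov_10
    by_cases h14 : n = 14
    · subst h14; exact cov_14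
    by_cases h30 : n = 30
    · subst h30; exact cov_mul (cov_odd (n := 3) (by decide)) cov_10
    have : ∃ t, (t % 6 = 1 ∨ t % 6 = 5) ∧ 3 * t < n ∧ n ≤ 4 * t := by
      by_cases hs : n < 52
      · have : n = 18 ∨ n = 22 ∨ n = 26 ∨ n = 34 ∨ n = 38 ∨ n = 42 ∨ n = 46 ∨ n = 50 := by omega
        rcases this with rfl | rfl | rfl | rfl | rfl | rfl | rfl | rfl
        exacts [⟨5, by omega⟩, ⟨7, by omega⟩, ⟨7, by omega⟩, ⟨11, by omega⟩, ⟨11, by omega⟩,
          ⟨11, by omega⟩, ⟨13, by omega⟩, ⟨13, by omega⟩]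
      · by_cases hr : (n - 1) / 3 % 6 = 0 ∨ (n - 1) / 3 % 6 = 5
        · exact ⟨((n - 1) / 3 + 1) / 6 * 6 - 1, by omega⟩
        · exact ⟨(n - 1) / 3 / 6 * 6 + 1, by omega⟩
    obtain ⟨t, ht, h3, h4t⟩ := this
    have hc : Nat.Coprime 6 t := by
      rw [Nat.Coprime, Nat.gcd_rec]
      rcases ht with ht | ht <;> rw [ht] <;> rfl
    have := cov_wilson (u := n - 3 * t) hc (by omega) (cov_odd (Nat.odd_iff.mpr (by omega)))
    rwa [show 3 * t + (n - 3 * t) = n by omega] at this
  · obtain ⟨a, v, hv, rfl⟩ := Nat.exists_eq_two_pow_mul_odd h0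
    match a with
    | 0 => exact (cov_odd hv).of_card (by simp)
    | 1 =>
      exfalso
      obtain ⟨w, rfl⟩ := hv
      omega
    | a + 2 => exact cov_mul (cov_two_pow a) (cov_odd hv)

theorem hasOLS_all {n : ℕ} (h0 : n ≠ 0) (h2 : n ≠ 2) (h6 : n ≠ 6) : HasOLS (Fin n) :=
  (cov_all h0 h2 h6).hasOLS

end Pool.Agent.MP_c7a479_co

end

section

namespace Pool.Agent.MP_c7a479_co

open Function

variable {α : Type}

theorem seq_fwd {P : α → α → α} (hP : IsLatin P) (u w : ℕ → α) (a b : ℕ) (ha : u a = w a)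
    (h : ∀ j, a ≤ j → j < b → P (u j) (u (j + 1)) = P (w j) (w (j + 1))) :
    ∀ j, a ≤ j → j ≤ b → u j = w j := by
  intro j hj
  induction j, hj using Nat.le_induction with
  | base => exact fun _ => ha
  | succ j hj ih =>
    intro hb
    have h1 := h j hj (by omega)
    rw [ih (by omega)] at h1
    exact (hP.1 _).1 h1

theorem seq_bwd {P : α → α → α} (hP : IsLatin P) (u w : ℕ → α) (a b : ℕ) (hb : u b = w b)
    (h : ∀ j, a ≤ j → j < b → P (u j) (u (j + 1)) = P (w j) (w (j + 1))) :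
    ∀ j, a ≤ j → j ≤ b → u j = w j := by
  intro j hj hjb
  induction hjb using Nat.decreasingInduction with
  | self => exact hb
  | of_succ j hjb ih =>
    have h1 := h j hj hjb
    rw [ih (by omega)] at h1
    exact (hP.2 _).1 h1

/-- The outputs of the barbell: a path of `P`-edges with a `Q`-edge at both ends. -/
def bar (P Q : α → α → α) (m : ℕ) (u : ℕ → α) (j : ℕ) : α :=
  if j + 1 < m then P (u j) (u (j + 1))
  else if j + 1 = m then Q (u 0) (u 1) else Q (u (m - 2)) (u (m - 1))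

theorem bar_sep {P Q : α → α → α} (hP : IsLatin P) (hQ : IsLatin Q)
    (hPQ : ∀ a b a' b', P a b = P a' b' → Q a b = Q a' b' → a = a' ∧ b = b')
    (m : ℕ) (u w : ℕ → α) (j0 : ℕ) (hm : 2 ≤ m) (hm3 : 3 ≤ m ∨ j0 = m)
    (h : ∀ j, j ≤ m → j ≠ j0 → bar P Q m u j = bar P Q m w j) : ∀ j, j < m → u j = w j := by
  have hP' : ∀ j, j + 1 < m → j ≠ j0 → P (u j) (u (j + 1)) = P (w j) (w (j + 1)) := by
    intro j h1 h2
    have := h j (by omega) h2
    simpa [bar, h1] using this
  have hQ1 : j0 + 1 ≠ m → Q (u 0) (u 1) = Q (w 0) (w 1) := by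
    intro h1
    have := h (m - 1) (by omega) (by omega)
    simpa [bar, show m - 1 + 1 = m by omega] using this
  have hQ2 : j0 ≠ m → Q (u (m - 2)) (u (m - 1)) = Q (w (m - 2)) (w (m - 1)) := by
    intro h1
    have := h m le_rfl h1.symm
    simpa [bar] using this
  have hL : j0 ≠ 0 → j0 + 1 ≠ m → u 0 = w 0 := fun h1 h2 =>
    (hPQ _ _ _ _ (hP' 0 (by omega) h1.symm) (hQ1 h2)).1
  have hR : j0 + 2 ≠ m → j0 ≠ m → u (m - 1) = w (m - 1) := fun h1 h2 => by
    have := hP' (m - 2) (by omega) (by omega)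
    rw [show m - 2 + 1 = m - 1 by omega] at this
    exact (hPQ _ _ _ _ this (hQ2 h2)).2
  intro j hj
  by_cases c1 : m ≤ j0
  · exact seq_fwd hP u w 0 (m - 1) (hL (by omega) (by omega))
      (fun i _ hi => hP' i (by omega) (by omega)) j (by omega) (by omega)
  by_cases c2 : j0 + 1 = m
  · exact seq_bwd hP u w 0 (m - 1) (hR (by omega) (by omega))
      (fun i _ hi => hP' i (by omega) (by omega)) j (by omega) (by omega)
  by_cases c3 : j0 = 0
  · have h1 := seq_bwd hP u w 1 (m - 1) (hR (by omega) (by omega))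
      (fun i _ hi => hP' i (by omega) (by omega))
    rcases Nat.eq_zero_or_pos j with rfl | hj0
    · have := hQ1 c2
      rw [h1 1 le_rfl (by omega)] at this
      exact (hQ.2 _).1 this
    · exact h1 j hj0 (by omega)
  have h1 := seq_fwd hP u w 0 j0 (hL c3 c2) (fun i _ hi => hP' i (by omega) (by omega))
  by_cases c4 : j0 + 2 = m
  · by_cases hj' : j ≤ j0
    · exact h1 j (by omega) hj'
    · have := hQ2 (by omega)
      rw [h1 (m - 2) (by omega) (by omega)] at this
      rw [show j = m - 1 by omega]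
      exact (hQ.1 _).1 this
  by_cases hj' : j ≤ j0
  · exact h1 j (by omega) hj'
  · exact seq_bwd hP u w (j0 + 1) (m - 1) (hR c4 (by omega))
      (fun i _ hi => hP' i (by omega) (by omega)) j (by omega) (by omega)

/-- `k` orthogonal permutation cubes of dimension `k`. -/
def Good (α : Type) (k : ℕ) : Prop :=
  ∃ a : ℕ → (Fin k → α) → α, (∀ i, IsPermCube (a i)) ∧
    ∀ x y, (∀ i, i < k → a i x = a i y) → x = y

theorem isPermCube_sum {ι ι' : Type} [DecidableEq ι] [DecidableEq ι'] {P : α → α → α}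
    (hP : IsLatin P) {a : (ι → α) → α} {c : (ι' → α) → α} (ha : IsPermCube a)
    (hc : IsPermCube c) :
    IsPermCube (fun x : ι ⊕ ι' → α => P (a (x ∘ Sum.inl)) (c (x ∘ Sum.inr))) ∧
      IsPermCube (fun x : ι ⊕ ι' → α => P (c (x ∘ Sum.inr)) (a (x ∘ Sum.inl))) := by
  constructor
  · rintro x (j | j)
    · simp only [Sum.update_inl_comp_inl, Sum.update_inl_comp_inr]
      exact (hP.2 _).comp (ha _ j)
    · simp only [Sum.update_inr_comp_inl, Sum.update_inr_comp_inr]
      exact (hP.1 _).comp (hc _ j)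
  · rintro x (j | j)
    · simp only [Sum.update_inl_comp_inl, Sum.update_inl_comp_inr]
      exact (hP.1 _).comp (ha _ j)
    · simp only [Sum.update_inr_comp_inl, Sum.update_inr_comp_inr]
      exact (hP.2 _).comp (hc _ j)

theorem barbell (h : HasOLS α) (m : ℕ) (hm : 2 ≤ m) (h1 : Good α ((m + 1) / 2))
    (h2 : Good α (m / 2)) :
    ∃ E : ℕ → (Fin ((m + 1) / 2) ⊕ Fin (m / 2) → α) → α, (∀ j, IsPermCube (E j)) ∧
      ∀ j0, (3 ≤ m ∨ j0 = m) → ∀ x y, (∀ j, j ≤ m → j ≠ j0 → E j x = E j y) → x = y := by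
  obtain ⟨P, Q, hP, hQ, hPQ⟩ := h
  obtain ⟨a, ha, ha'⟩ := h1
  obtain ⟨c, hc, hc'⟩ := h2
  let v : (Fin ((m + 1) / 2) ⊕ Fin (m / 2) → α) → ℕ → α := fun x j =>
    if j % 2 = 0 then a (j / 2) (x ∘ Sum.inl) else c (j / 2) (x ∘ Sum.inr)
  have hv : ∀ R : α → α → α, IsLatin R → ∀ j, IsPermCube fun x => R (v x j) (v x (j + 1)) := by
    intro R hR j
    by_cases hj : j % 2 = 0
    · have hj' : ¬ (j + 1) % 2 = 0 := by omega
      simp only [v, if_pos hj, if_neg hj']
      exact (isPermCube_sum hR (ha _) (hc _)).1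
    · have hj' : (j + 1) % 2 = 0 := by omega
      simp only [v, if_neg hj, if_pos hj']
      exact (isPermCube_sum hR (ha _) (hc _)).2
  refine ⟨fun j x => bar P Q m (v x) j, fun j => ?_, fun j0 hj0 x y hxy => ?_⟩
  · unfold bar
    beta_reduce
    split_ifs
    · exact hv P hP j
    · exact hv Q hQ 0
    · have := hv Q hQ (m - 2)
      rwa [show m - 2 + 1 = m - 1 by omega] at this
  · have key := bar_sep hP hQ hPQ m (v x) (v y) j0 hm hj0 hxy
    have e1 : x ∘ Sum.inl = y ∘ Sum.inl := ha' _ _ fun i hi => by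
      have := key (2 * i) (by omega)
      simpa [v] using this
    have e2 : x ∘ Sum.inr = y ∘ Sum.inr := hc' _ _ fun i hi => by
      have := key (2 * i + 1) (by omega)
      simpa [v, show (2 * i + 1) % 2 = 1 by omega, show (2 * i + 1) / 2 = i by omega] using this
    funext j
    rcases j with j | j
    · exact congrFun e1 j
    · exact congrFun e2 j

theorem good_of_hasOLS (h : HasOLS α) (k : ℕ) (hk : 1 ≤ k) : Good α k := by
  induction k using Nat.strong_induction_on with
  | _ k ih =>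
    by_cases h1 : k = 1
    · subst h1
      refine ⟨fun _ x => x 0, fun _ x j => ?_, fun x y hxy => ?_⟩
      · rw [Subsingleton.elim j 0]
        simp only [update_self]
        exact bijective_id
      · funext j
        rw [Subsingleton.elim j 0]
        exact hxy 0 (by omega)
    obtain ⟨E, hE, hE'⟩ := barbell h k (by omega) (ih _ (by omega) (by omega))
      (ih _ (by omega) (by omega))
    let e : Fin ((k + 1) / 2) ⊕ Fin (k / 2) ≃ Fin k := Fintype.equivFinOfCardEq (by simp; omega)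
    refine ⟨fun i x => E i fun j => x (e j), fun i => (hE i).transfer e (Equiv.refl α),
      fun x y hxy => ?_⟩
    have := hE' k (Or.inr rfl) _ _ fun j h1 h2 => hxy j (by omega)
    funext j
    simpa using congrFun this (e.symm j)

/-- A pair of orthogonal latin squares gives `m + 1` cubes in every dimension `m ≥ 3`. -/
theorem hasVarSet_succ_of_hasOLS {m n : ℕ} (h : HasOLS (Fin n)) (hm : 3 ≤ m) :
    HasVarSet m n (m + 1) := by
  obtain ⟨E, hE, hE'⟩ := barbell h m (by omega) (good_of_hasOLS h _ (by omega))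
    (good_of_hasOLS h _ (by omega))
  have : IsVarSet fun j : Fin (m + 1) => E j := by
    refine isVarSet_of_omit (by simp; omega) (fun i => hE i) fun x y i0 hxy => ?_
    refine hE' i0 (Or.inl hm) x y fun j h1 h2 => ?_
    exact hxy ⟨j, by omega⟩ fun h => h2 (congrArg Fin.val h)
  exact this.hasVarSet (by simp; omega) (by simp) (by simp)

theorem hasVarSet_succ {m n : ℕ} (hm : 3 ≤ m) (hn : 3 ≤ n) (h6 : n ≠ 6) :
    HasVarSet m n (m + 1) :=
  hasVarSet_succ_of_hasOLS (hasOLS_all (by omega) (by omega) h6) hm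

end Pool.Agent.MP_c7a479_co

end
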